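import Pool.Agent.Lib.MP_776403_ag.SD.U.SpecC
import Pool.Agent.Lib.MP_776403_ag.SD.W.Cut
import Pool.Agent.Lib.MP_776403_ag.SD.Null
import Pool.Agent.Lib.MP_776403_ag.SD.TB
import Pool.Agent.Lib.MP_776403_ag.SD.Mono

/-!
# THEOREM U, part C: the large family with constant flag (Ch)
-/

set_option autoImplicit false

open MvPolynomial

noncomputable section

namespace Pool.Agent.Lib.MP_776403_ag.SD.U

namespace ChAux

variable {N : ℕ}

theorem card_FI {c : ℕ} (d : Fin c → ℕ) (K : ℕ) :
    (FI d K).card = ∑ i, min K (d i - 1) := by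
  unfold FI
  rw [Finset.card_filter, Finset.sum_product]
  refine Finset.sum_congr rfl fun i _ => ?_
  have h1 : (Finset.range K).filter (fun k => k + 1 < d i) = Finset.range (min K (d i - 1)) := by
    ext k
    simp only [Finset.mem_filter, Finset.mem_range]
    omega
  rw [← Finset.card_filter, h1, Finset.card_range]

theorem rest {c a : ℕ} (d : Fin c → ℕ) (K : ℕ) (h1 : ∀ i, 1 ≤ d i) (hs : ∑ i, d i = a) :
    a - c - (FI d K).card = ∑ j, (d j - (K + 1)) := by
  have h2 : ∑ i, d i = (FI d K).card + ∑ j, (d j - (K + 1)) + c := by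
    have h3 : ∑ i, d i = ∑ i, (min K (d i - 1) + (d i - (K + 1)) + 1) :=
      Finset.sum_congr rfl fun i _ => by have := h1 i; omega
    rw [h3, Finset.sum_add_distrib, Finset.sum_add_distrib, card_FI]
    simp
  omega

/-- The total loss of dimension. -/
theorem total {c a : ℕ} (d : Fin c → ℕ) (h1 : ∀ i, 1 ≤ d i) (hs : ∑ i, d i = a) :
    ∑ k ∈ Finset.Ico 1 a, Nat.card {i : Fin c // d i = k + 1} * (a - c - (FI d k).card) ≤
      ∑ i, ∑ j, (d j - d i) := by
  have h2 : ∀ k, Nat.card {i : Fin c // d i = k + 1} * (a - c - (FI d k).card) =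
      ∑ i, if d i = k + 1 then ∑ j, (d j - d i) else 0 := by
    intro k
    have h4 : ∑ i, (if d i = k + 1 then ∑ j, (d j - d i) else 0) =
        ∑ i, if d i = k + 1 then ∑ j, (d j - (k + 1)) else 0 := by
      refine Finset.sum_congr rfl fun i _ => ?_
      split_ifs with h5
      · rw [h5]
      · rfl
    rw [rest d k h1 hs, Nat.card_eq_fintype_card, Fintype.card_subtype, h4, ← Finset.sum_filter,
      Finset.sum_const, smul_eq_mul]
  rw [Finset.sum_congr rfl fun k _ => h2 k, Finset.sum_comm]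
  refine Finset.sum_le_sum fun i _ => ?_
  by_cases h3 : d i - 1 ∈ Finset.Ico 1 a
  · rw [Finset.sum_eq_single_of_mem (d i - 1) h3]
    · split_ifs
      · exact le_rfl
      · exact Nat.zero_le _
    · intro k _ hk
      rw [if_neg]
      omega
  · rw [Finset.sum_eq_zero]
    · exact Nat.zero_le _
    · intro k hk
      rw [if_neg]
      intro h4
      apply h3
      rw [h4]
      simpa using hk

/-- `q_ξ^0(z)` as a linear map in `ξ`. -/
def qlin {I : Ideal (Sx N)} {x : Vx N} {c : ℕ} (L : Loc I x c) (k : ℕ) (z : Vx N) :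
    (Fin c → ℂ) →ₗ[ℂ] (L.Ix → ℂ) where
  toFun ξ := qv L ξ k z
  map_add' ξ η := by
    funext y
    simp only [qv, qs, Pi.add_apply, map_sum, map_mul, eval_C, add_mul, Finset.sum_add_distrib]
  map_smul' a ξ := by
    funext y
    simp only [qv, qs, Pi.smul_apply, smul_eq_mul, map_sum, map_mul, eval_C, RingHom.id_apply,
      Finset.mul_sum, mul_assoc]

theorem dimGe_le {P : Ideal (Sx N)} {D D' : ℕ} (h : D' ≤ D) (hD : DimGe P D) : DimGe P D' :=
  tMono _ P D D' h hD

end ChAux

open ChAux

/-- (Ch) The large family with constant flag. -/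
theorem tCh (h1 : S_TL) (h2 : S_Base) (h3 : S_St) : S_Ch := by
  intro N c a I d q hU hN x hx hx0 L
  have hca : c ≤ a := by
    rw [← hU.sum]
    calc c = ∑ _i : Fin c, 1 := by simp
      _ ≤ ∑ i, d i := Finset.sum_le_sum fun i _ => hU.one_le i
  -- the linear form
  obtain ⟨i0, hi0⟩ : ∃ i, x i ≠ 0 := by
    by_contra hno
    push Not at hno
    exact hx0 (funext hno)
  set lam : Sx N := C (x i0)⁻¹ * X i0 with hlam
  have hl1 : lam.IsHomogeneous 1 := by
    have := (isHomogeneous_C (Fin (N + 1)) (x i0)⁻¹).mul (isHomogeneous_X ℂ i0)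
    simpa using this
  have hl2 : eval x lam = 1 := by
    rw [hlam, map_mul, eval_C, eval_X, inv_mul_cancel₀ hi0]
  obtain ⟨P, hPp, hPh, hIP, hdim, hstab, hlines, hdeg⟩ := hU.cone x hx hx0
  have hdim' : DimGe P (N - a + 1) := dimGe_le (by omega) hdim
  obtain ⟨J₀, hJp, hJh, hPJ, hlJ, hJd⟩ :=
    wCut tNull tTB N (N - a) P x lam hPp hPh hl1 hl2 hstab hdim'
  have hIJ : I ≤ J₀ := hIP.trans hPJ
  have hzJ : ∀ z ∈ zer J₀, z ∈ zer P := fun z hz F hF => hz F (hPJ hF)
  have hF0 : Fml I J₀ c a x := by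
    refine ⟨hJp, hJh, hIJ, hx, hx0, ⟨lam, hl1, hl2, hlJ⟩, fun z hz => hlines z (hzJ z hz),
      fun z hz hz0 => hdeg z (hzJ z hz) ?_⟩
    rw [LinearIndependent.pair_iff]
    intro s t hst
    have h2 : eval (s • x + t • z) lam = s := by
      have h3 : ∀ w : Vx N, eval w lam = (x i0)⁻¹ * w i0 := fun w => by
        rw [hlam, map_mul, eval_C, eval_X]
      have h4 := hz lam hlJ
      rw [h3] at h4
      have h5 : eval x lam = 1 := hl2
      rw [h3] at h5
      rw [h3]
      simp only [Pi.add_apply, Pi.smul_apply, smul_eq_mul]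
      linear_combination s * h5 + t * h4
    rw [hst] at h2
    have hs0 : s = 0 := by
      rw [← h2, hlam, map_mul, eval_X]
      simp
    refine ⟨hs0, ?_⟩
    rw [hs0, zero_smul, zero_add] at hst
    exact (smul_eq_zero.mp hst).resolve_right hz0
  have hd2 : ∀ i, 2 ≤ d i :=
    h1 N c a I J₀ d q x hU hF0 (dimGe_le (by omega) hJd) ⟨L⟩
  have hB0 := h2 N c a (N - a) I J₀ x hU.pos hca hU.prime hU.hom hU.nd hU.smooth hF0 hJd
    (by omega) L
  -- the flag of level `1`
  have hFl1 : Flag L d J₀ 1 (fun i => Pi.single i (1 : ℂ)) := by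
    refine ⟨Pi.linearIndependent_single_one (Fin c) ℂ, ?_, ?_⟩
    · intro z hz hz0
      have hker : LinearMap.ker (qlin L 0 z) = ⊥ := by
        rw [LinearMap.ker_eq_bot']
        intro ξ hξ
        by_contra hne
        exact hB0 z hz hz0 ξ hne hξ
      have hp0 : ∀ p : FI d 1, p.1.2 = 0 := by
        intro p
        have := (Finset.mem_filter.1 p.2).1
        rw [Finset.mem_product, Finset.mem_range] at this
        omega
      have hinj : Function.Injective fun p : FI d 1 => p.1.1 := by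
        intro p p' hpp
        apply Subtype.ext
        apply Prod.ext hpp
        rw [hp0, hp0]
      have hli := ((Pi.linearIndependent_single_one (Fin c) ℂ).comp _ hinj).map' _ hker
      have heq : (fun p : FI d 1 => qv L (Pi.single p.1.1 (1 : ℂ)) p.1.2 z) =
          (qlin L 0 z) ∘ ((fun i => Pi.single i (1 : ℂ)) ∘ fun p : FI d 1 => p.1.1) := by
        funext p
        simp only [Function.comp, hp0 p]
        rfl
      rw [heq]
      exact hli
    · intro z _ _ i hi
      have := hd2 i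
      omega
  -- the induction
  set f : ℕ → ℕ := fun K => ∑ k ∈ Finset.Ico 1 K,
    Nat.card {i : Fin c // d i = k + 1} * (a - c - (FI d k).card) with hf
  have hfa : f a ≤ ∑ i, ∑ j, (d j - d i) := total d hU.one_le hU.sum
  have hmono : ∀ K ≤ a, f K ≤ f a := fun K hK =>
    Finset.sum_le_sum_of_subset (Finset.Ico_subset_Ico le_rfl hK)
  have key : ∀ K, 1 ≤ K → K ≤ a → ∃ (J : Ideal (Sx N)) (B : Fin c → Fin c → ℂ), J₀ ≤ J ∧
      Fml I J c a x ∧ Flag L d J K B ∧ DimGe J (N - a - f K) := by
    intro K hK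
    induction K, hK using Nat.le_induction with
    | base =>
      intro _
      refine ⟨J₀, _, le_rfl, hF0, hFl1, ?_⟩
      simpa [hf] using hJd
    | succ K hK ih =>
      intro hKa
      obtain ⟨J, B, hJJ, hFm, hFl, hJD⟩ := ih (by omega)
      have hstep : f (K + 1) = f K +
          Nat.card {i : Fin c // d i = K + 1} * (a - c - (FI d K).card) := by
        simp only [hf]
        rw [Finset.sum_Ico_succ_top hK]
      have hle := hmono (K + 1) hKa
      obtain ⟨J', B', hJJ', hFm', hFl', hJD'⟩ := h3 N c a I J d q x hU hd2 hFm L K B hK hFl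
        (N - a - f K) hJD (by omega)
      refine ⟨J', B', hJJ.trans hJJ', hFm', hFl', ?_⟩
      rw [hstep, ← Nat.sub_sub]
      exact hJD'
  have ha1 : 1 ≤ a := le_trans hU.pos hca
  obtain ⟨J, B, hJJ, hFm, hFl, hJD⟩ := key a ha1 le_rfl
  exact ⟨hd2, J₀, J, B, hF0, hJd, hJJ, hFm, dimGe_le (by omega) hJD, hFl⟩

end Pool.Agent.Lib.MP_776403_ag.SD.U
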