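import Pool.Agent.Lib.MP_776403_ag.SD.U.SpecV
import Pool.Agent.Lib.MP_776403_ag.SD.Mono
import Pool.Agent.Lib.MP_776403_ag.SD.Null
import Pool.Agent.Lib.MP_776403_ag.SD.E.Loc

/-!
# THEOREM U: the output of part C (proof of `S_V3`)
-/

set_option autoImplicit false

open MvPolynomial

noncomputable section

namespace Pool.Agent.Lib.MP_776403_ag.SD.U

namespace V3Aux

variable {N : ℕ}

theorem eval_lf (a y : Vx N) : eval y (LI.lf a) = LI.dp a y := by
  simp [LI.lf, LI.dp]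

theorem exists_lf (F : Sx N) (hF : F.IsHomogeneous 1) : ∃ a : Vx N, LI.lf a = F := by
  refine ⟨fun k => coeff (Finsupp.single k 1) F, ?_⟩
  change ∑ j, C (coeff (Finsupp.single j 1) F) * (X j : Sx N) = F
  ext m
  rw [MvPolynomial.coeff_sum]
  by_cases hm : ∃ k, m = Finsupp.single k 1
  · obtain ⟨k, rfl⟩ := hm
    rw [Finset.sum_eq_single k]
    · rw [coeff_C_mul, coeff_X, if_pos rfl, mul_one]
    · intro j _ hj
      rw [coeff_C_mul, coeff_X, if_neg, mul_zero]
      intro h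
      exact hj (Finsupp.single_left_injective one_ne_zero h)
    · intro h
      exact absurd (Finset.mem_univ k) h
  · have h0 : coeff m F = 0 := by
      by_contra h
      have h1 : Finsupp.degree m = 1 := by
        by_contra h2
        exact h (hF.coeff_eq_zero h2)
      have h3 : m ∈ Set.range fun a : Fin (N + 1) => Finsupp.single a 1 := by
        rw [Finsupp.range_single_one]
        exact h1
      obtain ⟨k, hk⟩ := h3
      exact hm ⟨k, hk.symm⟩
    rw [h0]
    refine Finset.sum_eq_zero fun j _ => ?_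
    rw [coeff_C_mul, coeff_X, if_neg, mul_zero]
    intro h
    exact hm ⟨j, h.symm⟩

variable {I : Ideal (Sx N)} {x : Vx N} {c : ℕ}

theorem coef_B (L : Loc I x c) (b b' : Fin c) :
    L.coef b (L.B b') = if b = b' then L.dt else 0 := by
  have h1 : L.coef b (L.B b') = (L.M.adjugate * L.M) b b' := by
    rw [Matrix.mul_apply]
    rfl
  rw [h1, Matrix.adjugate_mul, Matrix.smul_apply, Matrix.one_apply, smul_eq_mul]
  by_cases h : b = b'
  · rw [if_pos h, if_pos h, mul_one]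
    rfl
  · rw [if_neg h, if_neg h, mul_zero]

theorem xv_B (L : Loc I x c) (ξ : Fin c → ℂ) (b : Fin c) : xv L ξ (L.B b) = ξ b := by
  unfold xv
  rw [Finset.sum_eq_single b]
  · rw [coef_B, if_pos rfl, ← mul_assoc, inv_mul_cancel₀ (show eval x L.dt ≠ 0 from L.detx),
      one_mul]
  · intro b' _ hb
    rw [coef_B, if_neg hb, map_zero, zero_mul]
  · intro h
    exact absurd (Finset.mem_univ b) h

theorem xv_ind (L : Loc I x c) {B : Fin c → Fin c → ℂ} (h : LinearIndependent ℂ B) :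
    LinearIndependent ℂ fun i => xv L (B i) := by
  refine LinearIndependent.of_comp (LinearMap.funLeft ℂ ℂ L.B) ?_
  have h1 : (LinearMap.funLeft ℂ ℂ L.B) ∘ (fun i => xv L (B i)) = B := by
    funext i b
    exact xv_B L (B i) b
  rw [h1]
  exact h

theorem ex_pt {I : Ideal (Sx N)} (hp : I.IsPrime) (hh : IsHom I)
    (hnd : ∀ F ∈ I, F.IsHomogeneous 1 → F = 0) : ∃ y ∈ zer I, y ≠ 0 := by
  by_contra hcon
  push Not at hcon
  have h1 : (X 0 : Sx N) ∈ I := by
    refine (tNull N I hp hh).1 _ fun z hz => ?_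
    rw [hcon z hz, eval_X]
    rfl
  exact X_ne_zero (R := ℂ) (0 : Fin (N + 1)) (hnd _ h1 (isHomogeneous_X ℂ 0))

end V3Aux

open V3Aux in
theorem tV3 (h1 : S_Ch) (h2 : S_VT) : S_V3 := by
  intro N c a I d q hU hN
  have hx : ∀ x ∈ zer I, x ≠ 0 → (∀ i, 2 ≤ d i) ∧
      ∃ (lam : Vx N) (ξ : Fin c → Vx N) (J : Ideal (Sx N)),
        UN.FT I d x lam ξ J ∧ ∀ z ∈ zer J, z ≠ 0 → DegEq I c (∑ i, d i) x z := by
    intro x hxI hx0
    obtain ⟨L⟩ := eLoc N c I hU.smooth x hxI hx0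
    obtain ⟨hd, J₀, J, B, _, _, _, hF, hJ, hB⟩ := h1 N c a I d q hU hN x hxI hx0 L
    refine ⟨hd, ?_⟩
    obtain ⟨l, hl1, hlx, hlJ⟩ := hF.lam
    obtain ⟨lam, rfl⟩ := exists_lf l hl1
    refine ⟨lam, fun i => xv L (B i), J, ⟨⟨hx0, hxI, ?_, hF.prime, hF.hom, hlJ, hF.line⟩, ?_,
      xv_ind L hB.bas, fun z hz hz0 => ?_⟩, fun z hz hz0 => ?_⟩
    · rw [← eval_lf]
      exact hlx
    · rw [hU.sum]
      have hc : 1 ≤ c := hU.pos
      exact tMono (Fin (N + 1)) J (a + c + 1) (a + 2) (by omega) hJ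
    · exact (h2 N c a I J x hU.pos hU.prime hU.hom hU.smooth hF L d B
        (fun i => le_trans (by omega) (hd i)) hU.sum hB z hz hz0).2
    · rw [hU.sum]
      exact hF.deg z hz hz0
  refine ⟨?_, fun x hxI hx0 => (hx x hxI hx0).2⟩
  obtain ⟨y, hy, hy0⟩ := ex_pt hU.prime hU.hom hU.nd
  exact (hx y hy hy0).1

end Pool.Agent.Lib.MP_776403_ag.SD.U
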