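import Pool.Agent.Lib.MP_776403_ag.SD.U.SpecC
import Pool.Agent.Lib.MP_776403_ag.SD.Mono

/-!
# THEOREM U: one step of the flag construction

`tSt (h1 : S_FB) (h2 : S_Cut) (h3 : S_Ex) (h4 : S_Up) : S_St`.
-/

set_option autoImplicit false

open MvPolynomial

noncomputable section

namespace Pool.Agent.Lib.MP_776403_ag.SD.U

namespace StAux

/-! ## Linear algebra -/

theorem snoc_ind {A M : Type} [Fintype A] [AddCommGroup M] [Module ℂ M] {r : ℕ} (v : A → M)
    (η : Fin r → M) (ξ : M) (h : LinearIndependent ℂ (Sum.elim v η))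
    (hξ : ξ ∉ Submodule.span ℂ (Set.range (Sum.elim v η))) :
    LinearIndependent ℂ (Sum.elim v (Fin.snoc η ξ : Fin (r + 1) → M)) := by
  rw [Fintype.linearIndependent_iff] at h ⊢
  intro g hg
  rw [Fintype.sum_sum_type, Fin.sum_univ_castSucc] at hg
  simp only [Sum.elim_inl, Sum.elim_inr, Fin.snoc_castSucc, Fin.snoc_last] at hg
  have h0 : g (Sum.inr (Fin.last r)) = 0 := by
    by_contra h0
    apply hξ
    have h1 : ξ = (g (Sum.inr (Fin.last r)))⁻¹ • -(∑ a, g (Sum.inl a) • v a +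
        ∑ l : Fin r, g (Sum.inr (Fin.castSucc l)) • η l) := by
      rw [eq_inv_smul_iff₀ h0, eq_neg_iff_add_eq_zero, ← hg]
      abel
    rw [h1]
    refine Submodule.smul_mem _ _ (Submodule.neg_mem _ (Submodule.add_mem _ ?_ ?_))
    · exact Submodule.sum_mem _ fun a _ =>
        Submodule.smul_mem _ _ (Submodule.subset_span ⟨Sum.inl a, rfl⟩)
    · exact Submodule.sum_mem _ fun a _ =>
        Submodule.smul_mem _ _ (Submodule.subset_span ⟨Sum.inr a, rfl⟩)
  rw [h0, zero_smul, add_zero] at hg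
  have h2 := h (Sum.elim (fun a => g (Sum.inl a)) fun l => g (Sum.inr (Fin.castSucc l))) (by
    rw [Fintype.sum_sum_type]
    exact hg)
  rintro (a | l)
  · exact h2 (Sum.inl a)
  · refine Fin.lastCases ?_ (fun l => ?_) l
    · exact h0
    · exact h2 (Sum.inr l)

theorem coef_zero {ι M : Type} [Fintype ι] [AddCommGroup M] [Module ℂ M] (v : ι → M)
    (hv : LinearIndependent ℂ v) (s : Set ι) (g : ι → ℂ)
    (h : ∑ i, g i • v i ∈ Submodule.span ℂ (v '' s)) : ∀ i ∉ s, g i = 0 := by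
  obtain ⟨l, hl, hlx⟩ := (Finsupp.mem_span_image_iff_linearCombination ℂ).1 h
  have h1 : ∑ i, (g i - l i) • v i = 0 := by
    rw [Finsupp.linearCombination_apply, Finsupp.sum_fintype _ _ (fun i => zero_smul ℂ (v i))] at hlx
    simp only [sub_smul, Finset.sum_sub_distrib, hlx, sub_self]
  intro i hi
  have h2 := Fintype.linearIndependent_iff.1 hv (fun i => g i - l i) h1 i
  have h3 := (Finsupp.mem_supported' ℂ l).1 hl i hi
  rw [h3, sub_zero] at h2
  exact h2

theorem extend {ι M : Type} [Fintype ι] [AddCommGroup M] [Module ℂ M] [FiniteDimensional ℂ M]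
    (hM : Module.finrank ℂ M = Fintype.card ι) (p : ι → Prop) (v : {i // p i} → M)
    (hv : LinearIndependent ℂ v) :
    ∃ B : ι → M, LinearIndependent ℂ B ∧ ∀ i (h : p i), B i = v ⟨i, h⟩ := by
  classical
  obtain ⟨U, hU⟩ := Submodule.exists_isCompl (Submodule.span ℂ (Set.range v))
  have h1 := Submodule.finrank_add_eq_of_isCompl hU
  have h2 := Fintype.card_subtype_compl p
  have h3 := Fintype.card_subtype_le p
  rw [finrank_span_eq_card hv, hM] at h1
  have h4 : Module.finrank ℂ U = Fintype.card {i // ¬ p i} := by omega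
  let b := (Module.finBasis ℂ U).reindex ((finCongr h4).trans (Fintype.equivFin {i // ¬ p i}).symm)
  refine ⟨fun i => if h : p i then v ⟨i, h⟩ else (b ⟨i, h⟩ : U), ?_, fun i h => dif_pos h⟩
  have h5 : LinearIndependent ℂ (Sum.elim v fun i => ((b i : U) : M)) := by
    refine hv.sum_type (b.linearIndependent.map' U.subtype U.ker_subtype) ?_
    refine hU.disjoint.mono_right ?_
    rw [Submodule.span_le]
    rintro _ ⟨i, rfl⟩
    exact (b i).2
  rw [← linearIndependent_equiv (Equiv.sumCompl p)]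
  have h6 : (fun i => if h : p i then v ⟨i, h⟩ else ((b ⟨i, h⟩ : U) : M)) ∘ (Equiv.sumCompl p) =
      Sum.elim v fun i => ((b i : U) : M) := by
    funext i
    rcases i with i | i
    · exact dif_pos i.2
    · exact dif_neg i.2
  rw [h6]
  exact h5

/-- Independent vectors outside a subspace. -/
theorem outside {M : Type} [AddCommGroup M] [Module ℂ M] [FiniteDimensional ℂ M] (U : Submodule ℂ M)
    (n : ℕ) (h : Module.finrank ℂ U + n ≤ Module.finrank ℂ M) :
    ∃ W : Fin n → M, LinearIndependent ℂ W ∧ ∀ b : Fin n → ℂ, b ≠ 0 → ∑ l, b l • W l ∉ U := by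
  obtain ⟨U', hU⟩ := Submodule.exists_isCompl U
  have h1 := Submodule.finrank_add_eq_of_isCompl hU
  obtain ⟨f, hf⟩ := exists_linearIndependent_of_le_finrank (R := ℂ) (M := U') (n := n) (by omega)
  have h2 : LinearIndependent ℂ fun l => ((f l : U') : M) := hf.map' U'.subtype U'.ker_subtype
  refine ⟨fun l => f l, h2, fun b hb hm => hb ?_⟩
  have h3 : ∑ l, b l • ((f l : U') : M) ∈ U' :=
    Submodule.sum_mem _ fun l _ => Submodule.smul_mem _ _ (f l).2
  have h4 := Submodule.disjoint_def.1 hU.disjoint _ hm h3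
  funext l
  exact Fintype.linearIndependent_iff.1 h2 b h4 l

/-! ## The vectors `q_ξ^k(z)` -/

section

variable {N : ℕ} {I : Ideal (Sx N)} {x : Vx N} {c : ℕ}

theorem zer_anti {J J' : Ideal (Sx N)} (h : J ≤ J') {z : Vx N} (hz : z ∈ zer J') : z ∈ zer J :=
  fun F hF => hz F (h hF)

theorem qv_apply (L : Loc I x c) (ξ : Fin c → ℂ) (k : ℕ) (z : Vx N) (y : L.Ix) :
    qv L ξ k z y = ∑ i, ξ i * eval z (L.qk i k y) := by
  change eval z (∑ i, C (ξ i) * L.qk i k y) = _
  rw [map_sum]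
  exact Finset.sum_congr rfl fun i _ => by rw [map_mul, eval_C]

theorem qv_sum (L : Loc I x c) {ι : Type} [Fintype ι] (b : ι → ℂ) (W : ι → Fin c → ℂ) (k : ℕ)
    (z : Vx N) : qv L (∑ l, b l • W l) k z = ∑ l, b l • qv L (W l) k z := by
  funext y
  rw [qv_apply, Finset.sum_apply]
  simp only [Finset.sum_apply, Pi.smul_apply, smul_eq_mul, qv_apply, Finset.sum_mul, Finset.mul_sum]
  rw [Finset.sum_comm]
  exact Finset.sum_congr rfl fun i _ => Finset.sum_congr rfl fun j _ => by ring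

theorem qv_mem (L : Loc I x c) (ξ : Fin c → ℂ) (k j : ℕ) (h : k < j) (z : Vx N) :
    qv L ξ k z ∈ Fj L j z := Submodule.subset_span ⟨ξ, k, h, rfl⟩

theorem flag_anti {L : Loc I x c} {d : Fin c → ℕ} {J J' : Ideal (Sx N)} {K : ℕ}
    {B : Fin c → Fin c → ℂ} (h : J ≤ J') (hB : Flag L d J K B) : Flag L d J' K B :=
  ⟨hB.bas, fun z hz => hB.ind z (zer_anti h hz), fun z hz => hB.mem z (zer_anti h hz)⟩

theorem sum_FI {M : Type} [AddCommGroup M] (d : Fin c → ℕ) (j : ℕ) (f : Fin c × ℕ → M) :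
    ∑ p ∈ FI d (j + 1), f p = ∑ p ∈ FI d j, f p + ∑ i, if j + 1 < d i then f (i, j) else 0 := by
  rw [FI, FI, Finset.sum_filter, Finset.sum_filter, Finset.sum_product, Finset.sum_product,
    ← Finset.sum_add_distrib]
  exact Finset.sum_congr rfl fun i _ => Finset.sum_range_succ _ _

theorem mem_FI (d : Fin c → ℕ) (j : ℕ) (p : Fin c × ℕ) : p ∈ FI d j ↔ p.2 < j ∧ p.2 + 1 < d p.1 := by
  simp [FI]

/-- The criterion for the independence of the frame. -/
theorem frame_ind (L : Loc I x c) (d : Fin c → ℕ) (B : Fin c → Fin c → ℂ)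
    (hB : LinearIndependent ℂ B) (K : ℕ) (z : Vx N)
    (h : ∀ j ≤ K, ∀ θ : Fin c → ℂ, qv L θ j z ∈ Fj L j z → θ ∈ Submodule.span ℂ (B '' {i | d i ≤ j + 1}))
    (j : ℕ) (hj : j ≤ K + 1) : ∀ g : Fin c × ℕ → ℂ,
    ∑ p ∈ FI d j, g p • qv L (B p.1) p.2 z = 0 → ∀ p ∈ FI d j, g p = 0 := by
  induction j with
  | zero =>
    intro g _ p hp
    exact absurd ((mem_FI d 0 p).1 hp).1 (Nat.not_lt_zero _)
  | succ j ih =>
    intro g hg p hp
    rw [sum_FI] at hg
    have h1 : ∑ i, (if j + 1 < d i then g (i, j) • qv L (B i) j z else 0) =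
        qv L (∑ i, (if j + 1 < d i then g (i, j) else 0) • B i) j z := by
      rw [qv_sum]
      refine Finset.sum_congr rfl fun i _ => ?_
      rw [ite_smul, zero_smul]
    have h2 : ∀ i, (if j + 1 < d i then g (i, j) else 0) = 0 := by
      intro i
      by_cases hi : j + 1 < d i
      · refine coef_zero B hB {i | d i ≤ j + 1} (fun i => if j + 1 < d i then g (i, j) else 0)
          (h j (by omega) _ ?_) i (by simpa using hi)
        rw [← h1, eq_neg_of_add_eq_zero_right hg]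
        refine Submodule.neg_mem _ (Submodule.sum_mem _ fun p hp => Submodule.smul_mem _ _ ?_)
        exact qv_mem L _ _ _ ((mem_FI d j p).1 hp).1 z
      · rw [if_neg hi]
    have h3 : ∑ i, (if j + 1 < d i then g (i, j) • qv L (B i) j z else 0) = 0 := by
      refine Finset.sum_eq_zero fun i _ => ?_
      have h4 := h2 i
      split_ifs at h4 ⊢ with hi
      · rw [h4, zero_smul]
      · rfl
    rw [h3, add_zero] at hg
    rcases (mem_FI d (j + 1) p).1 hp with ⟨hp1, hp2⟩
    rcases Nat.lt_succ_iff_lt_or_eq.1 hp1 with hp3 | hp3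
    · exact ih (by omega) g hg p ((mem_FI d j p).2 ⟨hp3, hp2⟩)
    · have h4 := h2 p.1
      rw [← hp3, if_pos hp2] at h4
      exact h4

theorem card3 (d : Fin c → ℕ) (K : ℕ) : Fintype.card {i : Fin c // d i ≤ K} +
    Nat.card {i : Fin c // d i = K + 1} + Nat.card {i : Fin c // K + 1 < d i} = c := by
  rw [Nat.card_eq_fintype_card, Nat.card_eq_fintype_card, Fintype.card_subtype, Fintype.card_subtype,
    Fintype.card_subtype, Finset.card_filter, Finset.card_filter, Finset.card_filter,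
    ← Finset.sum_add_distrib, ← Finset.sum_add_distrib]
  have h : ∀ i : Fin c, (((if d i ≤ K then 1 else 0) + if d i = K + 1 then 1 else 0) +
      if K + 1 < d i then 1 else 0) = 1 := by
    intro i
    split_ifs <;> omega
  rw [Finset.sum_congr rfl fun i _ => h i]
  simp

/-- The families `J_r`. -/
theorem chain (h2 : S_Cut) (h3 : S_Ex) {a : ℕ} {J : Ideal (Sx N)} {d : Fin c → ℕ}
    {q : ℕ → Polynomial ℤ} (hU : UDat c a I d q) (hF : Fml I J c a x) (L : Loc I x c) (K : ℕ)
    (B : Fin c → Fin c → ℂ) (hB : Flag L d J K B) (δ : ℕ) (hD : DimGe J δ)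
    (hδ : a + c + 1 + Nat.card {i : Fin c // d i = K + 1} * (a - c - (FI d K).card) ≤ δ) :
    ∀ r ≤ Nat.card {i : Fin c // d i = K + 1}, ∃ (J' : Ideal (Sx N)) (η : Fin r → Fin c → ℂ),
      J ≤ J' ∧ Fml I J' c a x ∧ DimGe J' (δ - r * (a - c - (FI d K).card)) ∧
      LinearIndependent ℂ (Sum.elim (fun i : {i : Fin c // d i ≤ K} => B i) η) ∧
      ∀ l, ∀ z ∈ zer J', z ≠ 0 → qv L (η l) K z ∈ Fj L K z := by
  intro r
  induction r with
  | zero =>
    intro _
    refine ⟨J, Fin.elim0, le_refl J, hF, by rw [Nat.zero_mul, Nat.sub_zero]; exact hD, ?_,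
      fun l => l.elim0⟩
    refine (hB.bas.comp (fun i : {i : Fin c // d i ≤ K} => (i : Fin c))
      Subtype.val_injective).sum_type linearIndependent_empty_type ?_
    rw [Set.range_eq_empty (Fin.elim0 : Fin 0 → Fin c → ℂ), Submodule.span_empty]
    exact disjoint_bot_right
  | succ r ih =>
    intro hr
    obtain ⟨J₁, η, hJ, hF₁, hD₁, hind, hη⟩ := ih (by omega)
    have hc3 := card3 d K
    have hfr : Module.finrank ℂ (Submodule.span ℂ
        (Set.range (Sum.elim (fun i : {i : Fin c // d i ≤ K} => B i) η))) +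
        (Nat.card {i : Fin c // K + 1 < d i} + 1) ≤ Module.finrank ℂ (Fin c → ℂ) := by
      rw [finrank_span_eq_card hind, Fintype.card_sum, Fintype.card_fin, Module.finrank_fin_fun]
      omega
    obtain ⟨W, hW, hWU⟩ := outside _ _ hfr
    have hmul : r * (a - c - (FI d K).card) ≤
        Nat.card {i : Fin c // d i = K + 1} * (a - c - (FI d K).card) :=
      Nat.mul_le_mul_right _ (by omega)
    obtain ⟨z₀, hz₀, hz₀0, b, hb, hqb⟩ := h3 N c a I J₁ d q x hU hF₁
      (tMono _ J₁ _ (a + c + 1) (by omega) hD₁) L K B (flag_anti hJ hB) _ rfl W hW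
    obtain ⟨J₂, hJ₂, hF₂, -, hD₂, hq₂⟩ := h2 N c a I J₁ x hU.pos hU.prime hU.hom hU.smooth hF₁ L d K B
      hU.one_le (flag_anti hJ hB) (∑ l, b l • W l) z₀ hz₀ hz₀0 hqb _ hD₁
    refine ⟨J₂, Fin.snoc η (∑ l, b l • W l), hJ.trans hJ₂, hF₂, ?_, snoc_ind _ _ _ hind (hWU b hb), ?_⟩
    · have h5 : δ - (r + 1) * (a - c - (FI d K).card) =
          δ - r * (a - c - (FI d K).card) - (a - c - (FI d K).card) := by
        rw [Nat.succ_mul]
        omega
      rw [h5]
      exact hD₂
    · intro l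
      refine Fin.lastCases ?_ (fun l => ?_) l
      · rw [Fin.snoc_last]
        exact hq₂
      · rw [Fin.snoc_castSucc]
        exact fun z hz => hη l z (zer_anti hJ₂ hz)

/-- The new basis. -/
theorem newB (d : Fin c → ℕ) (K : ℕ) (B : Fin c → Fin c → ℂ)
    (η : Fin (Nat.card {i : Fin c // d i = K + 1}) → Fin c → ℂ)
    (hind : LinearIndependent ℂ (Sum.elim (fun i : {i : Fin c // d i ≤ K} => B i) η)) :
    ∃ (B' : Fin c → Fin c → ℂ)
      (e : {i : Fin c // d i = K + 1} ≃ Fin (Nat.card {i : Fin c // d i = K + 1})),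
      LinearIndependent ℂ B' ∧ (∀ i, d i ≤ K → B' i = B i) ∧
      ∀ i (h : d i = K + 1), B' i = η (e ⟨i, h⟩) := by
  classical
  let e := Finite.equivFin {i : Fin c // d i = K + 1}
  let φ : {i : Fin c // d i ≤ K + 1} →
      {i : Fin c // d i ≤ K} ⊕ Fin (Nat.card {i : Fin c // d i = K + 1}) := fun i =>
    if h : d i ≤ K then Sum.inl ⟨i, h⟩ else Sum.inr (e ⟨i, by have := i.2; omega⟩)
  have hφ1 : ∀ (i : Fin c) (h : d i ≤ K) (h' : d i ≤ K + 1), φ ⟨i, h'⟩ = Sum.inl ⟨i, h⟩ :=
    fun i h h' => dif_pos h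
  have hφ2 : ∀ (i : Fin c) (h : d i = K + 1) (h' : d i ≤ K + 1), φ ⟨i, h'⟩ = Sum.inr (e ⟨i, h⟩) :=
    fun i h h' => dif_neg (by change ¬ d i ≤ K; omega)
  have hφ : Function.Injective φ := by
    rintro ⟨i, hi⟩ ⟨j, hj⟩ hij
    apply Subtype.ext
    change i = j
    by_cases h1 : d i ≤ K <;> by_cases h2 : d j ≤ K
    · rw [hφ1 i h1, hφ1 j h2] at hij
      exact congrArg Subtype.val (Sum.inl_injective hij)
    · rw [hφ1 i h1, hφ2 j (by omega)] at hij
      exact absurd hij Sum.inl_ne_inr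
    · rw [hφ2 i (by omega), hφ1 j h2] at hij
      exact absurd hij Sum.inr_ne_inl
    · rw [hφ2 i (by omega), hφ2 j (by omega)] at hij
      exact congrArg Subtype.val (e.injective (Sum.inr_injective hij))
  obtain ⟨B', hB', hB'v⟩ := extend (ι := Fin c) (M := Fin c → ℂ) (by simp) (fun i => d i ≤ K + 1)
    _ (hind.comp φ hφ)
  refine ⟨B', e, hB', fun i h => ?_, fun i h => ?_⟩
  · rw [hB'v i (by omega), Function.comp_apply, hφ1 i h]
    rfl
  · rw [hB'v i (by omega), Function.comp_apply, hφ2 i h]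
    rfl

end

end StAux

open StAux in
/-- (St) ONE STEP. -/
theorem tSt (h1 : S_FB) (h2 : S_Cut) (h3 : S_Ex) (h4 : S_Up) : S_St := by
  intro N c a I J d q x hU hd hF L K B hK hB δ hD hδ
  have hca : c ≤ a := by
    rw [← hU.sum]
    calc c = ∑ _i : Fin c, 1 := by simp
      _ ≤ ∑ i, d i := Finset.sum_le_sum fun i _ => hU.one_le i
  obtain ⟨J', η, hJ, hF', hD', hind, hη⟩ := chain h2 h3 hU hF L K B hB δ hD hδ _ (le_refl _)
  obtain ⟨B', e, hB', hB1, hB2⟩ := newB d K B η hind
  refine ⟨J', B', hJ, hF', ⟨hB', ?_, ?_⟩, hD'⟩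
  · intro z hz hz0
    have hup : ∀ θ : Fin c → ℂ, qv L θ K z ∈ Fj L K z →
        θ ∈ Submodule.span ℂ (Set.range (Sum.elim (fun i : {i : Fin c // d i ≤ K} => B i) η)) := by
      intro θ hθ
      by_contra hno
      obtain ⟨J₂, hJ₂, hF₂, -, hD₂, hq₂⟩ := h2 N c a I J' x hU.pos hU.prime hU.hom hU.smooth hF' L d K B
        hU.one_le (flag_anti hJ hB) θ z hz hz0 hθ _ hD'
      refine h4 N c a I J₂ d q x hU hd hF₂ L K B hK (flag_anti (hJ.trans hJ₂) hB) (Fin.snoc η θ) ?_
        (snoc_ind _ _ _ hind hno) (tMono _ J₂ _ (2 * c + 1) (by omega) hD₂)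
      intro l
      refine Fin.lastCases ?_ (fun l => ?_) l
      · rw [Fin.snoc_last]
        exact hq₂
      · rw [Fin.snoc_castSucc]
        exact fun z hz => hη l z (zer_anti hJ₂ hz)
    have hle : Submodule.span ℂ (Set.range (Sum.elim (fun i : {i : Fin c // d i ≤ K} => B i) η)) ≤
        Submodule.span ℂ (B' '' {i | d i ≤ K + 1}) := by
      rw [Submodule.span_le]
      rintro _ ⟨i | l, rfl⟩
      · exact Submodule.subset_span ⟨i.1, by have := i.2; change d i.1 ≤ K + 1; omega, hB1 i.1 i.2⟩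
      · refine Submodule.subset_span ⟨(e.symm l).1, by have := (e.symm l).2; change d _ ≤ K + 1; omega, ?_⟩
        rw [hB2 _ (e.symm l).2]
        change η (e (e.symm l)) = η l
        rw [e.apply_symm_apply]
    have hkey : ∀ j ≤ K, ∀ θ : Fin c → ℂ, qv L θ j z ∈ Fj L j z →
        θ ∈ Submodule.span ℂ (B' '' {i | d i ≤ j + 1}) := by
      intro j hj θ hθ
      rcases Nat.lt_or_ge j K with hjK | hjK
      · have h5 := ((h1 N c a I J' x hU.pos hU.prime hU.hom hU.smooth hF' L z hz hz0).2.2.2 d K B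
          hU.one_le (flag_anti hJ hB)).2.2 j hjK θ hθ
        refine Submodule.span_mono ?_ h5
        rintro _ ⟨i, hi, rfl⟩
        have hi' : d i ≤ j + 1 := hi
        exact ⟨i, hi, hB1 i (by omega)⟩
      · have hjK' : j = K := by omega
        subst hjK'
        exact hle (hup θ hθ)
    have hfr := frame_ind L d B' hB' K z hkey (K + 1) (le_refl _)
    rw [Fintype.linearIndependent_iff]
    intro g hg p
    have h6 := hfr (fun p => if h : p ∈ FI d (K + 1) then g ⟨p, h⟩ else 0) (by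
      rw [← Finset.sum_coe_sort, ← hg]
      exact Finset.sum_congr rfl fun p _ => by rw [dif_pos p.2]) p.1 p.2
    rw [dif_pos p.2] at h6
    exact h6
  · intro z hz hz0 i hi
    rcases Nat.lt_or_ge K (d i) with h5 | h5
    · have h6 : d i = K + 1 := by omega
      rw [hB2 i h6, h6, Nat.add_sub_cancel]
      exact hη _ z hz hz0
    · rw [hB1 i h5]
      exact hB.mem z (zer_anti hJ hz) hz0 i h5

end Pool.Agent.Lib.MP_776403_ag.SD.U
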