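import Pool.Agent.Lib.MP_776403_ag.SD.U.SpecC
import Pool.Agent.Lib.MP_776403_ag.SD.Q1.Base
import Pool.Agent.Lib.MP_776403_ag.SD.Z.MainW

/-!
# THEOREM U: the upper bound for the lifts
-/

set_option autoImplicit false

open MvPolynomial

noncomputable section

namespace Pool.Agent.Lib.MP_776403_ag.SD.U

namespace UpAux

section

variable {N c : ℕ} {I : Ideal (Sx N)} {x : Vx N} (L : Loc I x c)

theorem qv_apply (xi : Fin c → ℂ) (k : ℕ) (z : Vx N) (y : L.Ix) :
    qv L xi k z y = ∑ i, xi i * eval z (L.qk i k y) := by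
  simp only [qv, qs, map_sum, map_mul, eval_C]

theorem qv_sum {ι : Type} (s : Finset ι) (b : ι → ℂ) (xi : ι → Fin c → ℂ) (k : ℕ) (z : Vx N) :
    qv L (∑ t ∈ s, b t • xi t) k z = ∑ t ∈ s, b t • qv L (xi t) k z := by
  funext y
  simp only [qv_apply, Finset.sum_apply, Pi.smul_apply, smul_eq_mul, Finset.sum_mul, Finset.mul_sum]
  rw [Finset.sum_comm]
  refine Finset.sum_congr rfl fun t _ => Finset.sum_congr rfl fun i _ => ?_
  ring

theorem shift (xi : Fin c → ℂ) (k : ℕ) (z : Vx N) (y : L.Ix) :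
    ∑ y', eval z (L.mm y (Sum.inr y')) * qv L xi k z y' = qv L xi (k + 1) z y := by
  have h := fun i => (zGQk N c I x L i k).2.2.2 y
  simp only [qv_apply, Finset.mul_sum]
  rw [Finset.sum_comm]
  refine Finset.sum_congr rfl fun i _ => ?_
  rw [← h i, map_sum, Finset.mul_sum]
  refine Finset.sum_congr rfl fun y' _ => ?_
  rw [map_mul]
  ring

theorem Fj_mono {j j' : ℕ} (h : j ≤ j') (z : Vx N) : Fj L j z ≤ Fj L j' z :=
  Submodule.span_mono fun _ ⟨xi, k, hk, hw⟩ => ⟨xi, k, lt_of_lt_of_le hk h, hw⟩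

theorem qv_mem {j k : ℕ} (h : k < j) (xi : Fin c → ℂ) (z : Vx N) : qv L xi k z ∈ Fj L j z :=
  Submodule.subset_span ⟨xi, k, h, rfl⟩

theorem flag_mono {J : Ideal (Sx N)} {d : Fin c → ℕ} {K K' : ℕ} {B : Fin c → Fin c → ℂ}
    (h : K' ≤ K) (hF : Flag L d J K B) : Flag L d J K' B := by
  refine ⟨hF.bas, fun z hz hz0 => ?_, fun z hz hz0 i hi => hF.mem z hz hz0 i (le_trans hi h)⟩
  have hsub : ∀ p ∈ FI d K', p ∈ FI d K := by
    intro p hp
    simp only [FI, Finset.mem_filter, Finset.mem_product, Finset.mem_univ, Finset.mem_range,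
      true_and] at hp ⊢
    exact ⟨by omega, hp.2⟩
  have h1 := (hF.ind z hz hz0).comp (fun p : FI d K' => (⟨p.1, hsub p.1 p.2⟩ : FI d K))
    (fun p q hpq => by
      have := congrArg Subtype.val hpq
      exact Subtype.ext this)
  exact h1

/-- The data at `z` of a lifted section of degree `D`. -/
def Pt (xi : Fin c → ℂ) (D : ℕ) (z s : Vx N) : Prop :=
  ∃ (f : Fin c → ℂ) (w : L.Ix → ℂ),
    (∀ l, s l = ∑ b, L.psi l (Sum.inl b) * f b + ∑ y, L.psi l (Sum.inr y) * w y) ∧
    (∀ y, qv L f 0 z y + ∑ y', eval z (L.mm y (Sum.inr y')) * w y' = 0) ∧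
    w - qv L xi (D - 2) z ∈ Fj L (D - 2) z

/-- The data at a point from the formula of `S_Lf`. -/
theorem pt_of {d : Fin c → ℕ} {B : Fin c → Fin c → ℂ} (xi : Fin c → ℂ) (D : ℕ) (hD : 2 ≤ D)
    (z s : Vx N) (cf : FI d (D - 1) → ℂ)
    (h1 : qv L xi (D - 1) z = ∑ p, cf p • qv L (B p.1.1) p.1.2 z)
    (h2 : ∀ l, s l =
        (∑ b, L.psi l (Sum.inl b) * (- ∑ p : FI d (D - 1), if p.1.2 = 0 then cf p * B p.1.1 b
          else 0)) +
        ∑ y, L.psi l (Sum.inr y) * (qv L xi (D - 1 - 1) z y -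
          ∑ p : FI d (D - 1), if 1 ≤ p.1.2 then cf p * qv L (B p.1.1) (p.1.2 - 1) z y else 0)) :
    Pt L xi D z s := by
  refine ⟨_, _, h2, ?_, ?_⟩
  · intro y
    have e1 : (fun b => - ∑ p : FI d (D - 1), if p.1.2 = 0 then cf p * B p.1.1 b else 0) =
        ∑ p : FI d (D - 1), (if p.1.2 = 0 then - cf p else 0) • B p.1.1 := by
      funext b
      rw [Finset.sum_apply, ← Finset.sum_neg_distrib]
      refine Finset.sum_congr rfl fun p _ => ?_
      by_cases hp : p.1.2 = 0
      · simp [hp]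
      · simp [hp]
    rw [e1, qv_sum, Finset.sum_apply]
    have e2 : ∑ y', eval z (L.mm y (Sum.inr y')) * (qv L xi (D - 1 - 1) z y' -
          ∑ p : FI d (D - 1), if 1 ≤ p.1.2 then cf p * qv L (B p.1.1) (p.1.2 - 1) z y' else 0) =
        qv L xi (D - 1) z y - ∑ p : FI d (D - 1), if 1 ≤ p.1.2 then
          cf p * qv L (B p.1.1) p.1.2 z y else 0 := by
      simp only [mul_sub, Finset.sum_sub_distrib]
      rw [shift, show D - 1 - 1 + 1 = D - 1 by omega]
      congr 1
      simp only [Finset.mul_sum]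
      rw [Finset.sum_comm]
      refine Finset.sum_congr rfl fun p _ => ?_
      by_cases hp : 1 ≤ p.1.2
      · simp only [hp, if_true]
        have := shift L (B p.1.1) (p.1.2 - 1) z y
        rw [show p.1.2 - 1 + 1 = p.1.2 by omega] at this
        rw [← this, Finset.mul_sum]
        refine Finset.sum_congr rfl fun y' _ => ?_
        ring
      · simp [hp]
    rw [e2, h1, Finset.sum_apply, ← Finset.sum_sub_distrib, ← Finset.sum_add_distrib]
    refine Finset.sum_eq_zero fun p _ => ?_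
    by_cases hp : p.1.2 = 0
    · simp [hp]
    · have hp' : 1 ≤ p.1.2 := by omega
      simp [hp, hp']
  · have e3 : (fun y => qv L xi (D - 1 - 1) z y -
          ∑ p : FI d (D - 1), if 1 ≤ p.1.2 then cf p * qv L (B p.1.1) (p.1.2 - 1) z y else 0) -
        qv L xi (D - 2) z = - ∑ p : FI d (D - 1), if 1 ≤ p.1.2 then
          cf p • qv L (B p.1.1) (p.1.2 - 1) z else 0 := by
      funext y
      rw [Pi.sub_apply, Pi.neg_apply, Finset.sum_apply, show D - 1 - 1 = D - 2 by omega]
      have : ∀ p : FI d (D - 1), (if 1 ≤ p.1.2 then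
          cf p • qv L (B p.1.1) (p.1.2 - 1) z else 0) y =
          if 1 ≤ p.1.2 then cf p * qv L (B p.1.1) (p.1.2 - 1) z y else 0 := by
        intro p
        by_cases hp : 1 ≤ p.1.2
        · simp [hp]
        · simp [hp]
      rw [Finset.sum_congr rfl fun p _ => this p]
      ring
    rw [e3]
    refine Submodule.neg_mem _ (Submodule.sum_mem _ fun p _ => ?_)
    by_cases hp : 1 ≤ p.1.2
    · rw [if_pos hp]
      have hp2 := p.2
      simp only [FI, Finset.mem_filter, Finset.mem_product, Finset.mem_univ, Finset.mem_range,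
        true_and] at hp2
      exact Submodule.smul_mem _ _ (qv_mem L (by omega) _ _)
    · rw [if_neg hp]
      exact Submodule.zero_mem _

/-- Independence at a point. -/
theorem indep {T : Type} [Fintype T] {d : Fin c → ℕ} {B : Fin c → Fin c → ℂ} {K : ℕ} (z : Vx N)
    (h4 : ∀ j < K, ∀ xi : Fin c → ℂ, qv L xi j z ∈ Fj L j z →
      xi ∈ Submodule.span ℂ (B '' {i | d i ≤ j + 1}))
    (hPsi : ∀ (f : Fin c → ℂ) (w : L.Ix → ℂ) (j : ℕ), w ∈ Fj L j z →
      (∀ y, qv L f 0 z y + ∑ y', eval z (L.mm y (Sum.inr y')) * w y' = 0) →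
      (∀ l, ∑ b, L.psi l (Sum.inl b) * f b + ∑ y, L.psi l (Sum.inr y) * w y = 0) →
      f = 0 ∧ w = 0)
    (xi : T → Fin c → ℂ) (D : T → ℕ) (hD : ∀ t, 2 ≤ D t ∧ D t ≤ K + 1)
    (hxi : LinearIndependent ℂ xi) (hB : ∀ i, d i ≤ K → ∃ t, xi t = B i ∧ D t = d i)
    (s : T → Vx N) (hs : ∀ t, Pt L (xi t) (D t) z (s t)) : LinearIndependent ℂ s := by
  classical
  choose f w hf1 hf2 hf3 using hs
  rw [Fintype.linearIndependent_iff]
  intro b hb
  by_contra hcon
  push Not at hcon
  obtain ⟨t0, ht0⟩ := hcon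
  have hw1 : ∀ t, w t ∈ Fj L (D t - 1) z := by
    intro t
    have e1 : w t = (w t - qv L (xi t) (D t - 2) z) + qv L (xi t) (D t - 2) z := by abel
    rw [e1]
    have h2 := (hD t).1
    exact Submodule.add_mem _ (Fj_mono L (by omega) z (hf3 t)) (qv_mem L (by omega) _ _)
  have hW : ∑ t, b t • w t = 0 := by
    refine (hPsi (∑ t, b t • f t) (∑ t, b t • w t) K ?_ ?_ ?_).2
    · refine Submodule.sum_mem _ fun t _ => Submodule.smul_mem _ _ ?_
      have h2 := (hD t).2
      exact Fj_mono L (by omega) z (hw1 t)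
    · intro y
      rw [qv_sum, Finset.sum_apply]
      have e1 : ∑ y', eval z (L.mm y (Sum.inr y')) * (∑ t, b t • w t) y' =
          ∑ t, b t * ∑ y', eval z (L.mm y (Sum.inr y')) * w t y' := by
        simp only [Finset.sum_apply, Pi.smul_apply, smul_eq_mul, Finset.mul_sum]
        rw [Finset.sum_comm]
        refine Finset.sum_congr rfl fun t _ => Finset.sum_congr rfl fun y' _ => ?_
        ring
      rw [e1, ← Finset.sum_add_distrib]
      refine Finset.sum_eq_zero fun t _ => ?_
      rw [Pi.smul_apply, smul_eq_mul, ← mul_add, hf2 t y, mul_zero]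
    · intro l
      have e1 : (∑ t, b t • s t) l = 0 := by rw [hb]; rfl
      rw [Finset.sum_apply] at e1
      rw [← e1]
      simp only [Finset.sum_apply, Pi.smul_apply, smul_eq_mul, Finset.mul_sum]
      rw [Finset.sum_comm, Finset.sum_comm (s := (Finset.univ : Finset L.Ix)),
        ← Finset.sum_add_distrib]
      refine Finset.sum_congr rfl fun t _ => ?_
      rw [hf1 t l, mul_add, Finset.mul_sum, Finset.mul_sum]
      congr 1
      · refine Finset.sum_congr rfl fun i _ => ?_
        ring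
      · refine Finset.sum_congr rfl fun y' _ => ?_
        ring
  obtain ⟨t1, ht1, hmax⟩ := Finset.exists_max_image (Finset.univ.filter fun t => b t ≠ 0) D
    ⟨t0, by simp [ht0]⟩
  rw [Finset.mem_filter] at ht1
  have hmax' : ∀ t, b t ≠ 0 → D t ≤ D t1 := fun t ht => hmax t (by simp [ht])
  set S : Finset T := Finset.univ.filter fun t => D t = D t1 with hS
  have hk1 := (hD t1).1
  have hk2 := (hD t1).2
  have h5 : qv L (∑ t ∈ S, b t • xi t) (D t1 - 2) z ∈ Fj L (D t1 - 2) z := by
    have e1 : qv L (∑ t ∈ S, b t • xi t) (D t1 - 2) z =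
        ∑ t, ((if t ∈ S then b t • qv L (xi t) (D t1 - 2) z else 0) - b t • w t) := by
      rw [Finset.sum_sub_distrib, hW, sub_zero, qv_sum, Finset.sum_ite_mem, Finset.univ_inter]
    rw [e1]
    refine Submodule.sum_mem _ fun t _ => ?_
    by_cases ht : t ∈ S
    · rw [if_pos ht, ← smul_sub]
      have ht' : D t = D t1 := by simpa [hS] using ht
      refine Submodule.smul_mem _ _ ?_
      have h6 := hf3 t
      rw [ht'] at h6
      have h7 := Submodule.neg_mem _ h6
      rwa [neg_sub] at h7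
    · rw [if_neg ht, zero_sub]
      refine Submodule.neg_mem _ ?_
      by_cases hbt : b t = 0
      · rw [hbt, zero_smul]
        exact Submodule.zero_mem _
      · have h6 := hmax' t hbt
        have h7 : D t ≠ D t1 := by simpa [hS] using ht
        exact Submodule.smul_mem _ _ (Fj_mono L (by omega) z (hw1 t))
  have h6 := h4 (D t1 - 2) (by omega) _ h5
  have h7 : ∑ t ∈ S, b t • xi t ∈ Submodule.span ℂ (xi '' {t | D t ≤ D t1 - 1}) := by
    refine Submodule.span_mono ?_ h6
    rintro _ ⟨i, hi, rfl⟩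
    have hi' : d i ≤ D t1 - 2 + 1 := hi
    obtain ⟨t, e1, e2⟩ := hB i (by omega)
    exact ⟨t, by change D t ≤ D t1 - 1; omega, e1⟩
  have h8 : ∑ t ∈ S, b t • xi t ∈ Submodule.span ℂ (xi '' {t | D t = D t1}) := by
    refine Submodule.sum_mem _ fun t ht => Submodule.smul_mem _ _ (Submodule.subset_span ?_)
    exact ⟨t, by simpa [hS] using ht, rfl⟩
  have hdis : Disjoint {t : T | D t ≤ D t1 - 1} {t : T | D t = D t1} := by
    rw [Set.disjoint_left]
    intro t ht ht'
    have h1 : D t ≤ D t1 - 1 := ht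
    have h2 : D t = D t1 := ht'
    omega
  have h9 := Submodule.disjoint_def.mp (hxi.disjoint_span_image hdis) _ h7 h8
  have h10 := linearIndependent_iff'.mp hxi S b h9 t1 (by simp [hS])
  exact ht1.2 h10

end

end UpAux

open UpAux

theorem tUp (h1 : S_FB) (h2 : S_Psi) (h3 : S_Lf) : S_Up := by
  classical
  intro N c a I J d q x hU hd2 hFm L K B hK hFl
  let e2' : Fin (Nat.card {i : Fin c // d i = K + 1}) ≃ {i : Fin c // d i = K + 1} :=
    (Finite.equivFin {i : Fin c // d i = K + 1}).symm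
  have e2'' : Nonempty (Fin (Nat.card {i : Fin c // d i = K + 1}) ≃
    {i : Fin c // d i = K + 1}) := ⟨e2'⟩
  clear e2'
  generalize Nat.card {i : Fin c // d i = K + 1} = mu at e2''
  obtain ⟨e2⟩ := e2''
  intro eta heta hLI hdim
  let T : Type := {i : Fin c // d i ≤ K}
  let m1 : ℕ := Fintype.card {i : Fin c // d i ≤ K}
  let e1 : Fin m1 ≃ T := (Fintype.equivFin {i : Fin c // d i ≤ K}).symm
  -- the sections
  have hsec : ∀ t : T ⊕ Fin (mu + 1), ∃ sig : Vx N → Vx N,
      IsSect I J (Sum.elim (fun i : T => d i.1) (fun _ => K + 1) t) sig ∧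
      ∀ z ∈ zer J, z ≠ 0 → Pt L (Sum.elim (fun i : T => B i.1) eta t)
        (Sum.elim (fun i : T => d i.1) (fun _ => K + 1) t) z (sig z) := by
    have key : ∀ (xi : Fin c → ℂ) (D : ℕ), 2 ≤ D → D ≤ K + 1 →
        (∀ z ∈ zer J, z ≠ 0 → qv L xi (D - 1) z ∈ Fj L (D - 1) z) →
        ∃ sig : Vx N → Vx N, IsSect I J D sig ∧ ∀ z ∈ zer J, z ≠ 0 → Pt L xi D z (sig z) := by
      intro xi D hD1 hD2 hq
      obtain ⟨sig, hs1, hs2⟩ := h3 N c a I J x hU.pos hU.prime hU.hom hU.smooth hFm L d (D - 1) B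
        hU.one_le (by omega) (flag_mono L (by omega) hFl) xi hq
      rw [show D - 1 + 1 = D by omega] at hs1
      refine ⟨sig, hs1, fun z hz hz0 => ?_⟩
      obtain ⟨cf, hc1, hc2⟩ := hs2 z hz hz0
      exact pt_of L xi D hD1 z (sig z) cf hc1 hc2
    rintro (i | l)
    · refine key (B i.1) (d i.1) (hd2 i.1) (by have := i.2; omega) fun z hz hz0 => ?_
      exact hFl.mem z hz hz0 i.1 i.2
    · refine key (eta l) (K + 1) (by omega) le_rfl fun z hz hz0 => ?_
      exact heta l z hz hz0
  choose sig hsig1 hsig2 using hsec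
  have hind : ∀ z ∈ zer J, z ≠ 0 → LinearIndependent ℂ fun t => sig t z := by
    intro z hz hz0
    refine indep L (d := d) (B := B) (K := K) z ?_ ?_ (Sum.elim (fun i : T => B i.1) eta)
      (Sum.elim (fun i : T => d i.1) (fun _ => K + 1)) ?_ hLI ?_ _ (fun t => hsig2 t z hz hz0)
    · exact ((h1 N c a I J x hU.pos hU.prime hU.hom hU.smooth hFm L z hz hz0).2.2.2 d K B
        hU.one_le hFl).2.2
    · intro f w j hw hy hl
      exact (h2 N c a I J x hU.pos hU.prime hU.hom hU.smooth hFm L z hz hz0 f w j hw hy).2 hl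
    · rintro (i | l)
      · exact ⟨hd2 i.1, by have := i.2; simp only [Sum.elim_inl]; omega⟩
      · exact ⟨by simp only [Sum.elim_inr]; omega, le_rfl⟩
    · intro i hi
      exact ⟨Sum.inl ⟨i, hi⟩, rfl, rfl⟩
  -- Lemma N
  let g : Fin (m1 + (mu + 1)) → T ⊕ Fin (mu + 1) := fun i =>
    Sum.map e1 id (finSumFinEquiv.symm i)
  have hg : Function.Injective g := by
    intro i j hij
    have h5 : Function.Injective (Sum.map (e1 : Fin m1 → T) (id : Fin (mu + 1) → Fin (mu + 1))) :=
      Function.Injective.sumMap e1.injective Function.injective_id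
    exact finSumFinEquiv.symm.injective (h5 hij)
  let f : Fin (m1 + mu) → Fin c := fun i =>
    Sum.elim (fun j => (e1 j).1) (fun l => (e2 l).1) (finSumFinEquiv.symm i)
  have hf1 : ∀ j : Fin m1, f (Fin.castAdd mu j) = (e1 j).1 := by
    intro j
    simp only [f, finSumFinEquiv_symm_apply_castAdd, Sum.elim_inl]
  have hf2 : ∀ l : Fin mu, f (Fin.natAdd m1 l) = (e2 l).1 := by
    intro l
    simp only [f, finSumFinEquiv_symm_apply_natAdd, Sum.elim_inr]
  let del : Fin (m1 + mu + 1) → ℕ := fun i =>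
    Sum.elim (fun i : T => d i.1) (fun _ => K + 1) (g i)
  have hdel1 : ∀ j : Fin m1, del (Fin.castSucc (Fin.castAdd mu j)) = d (e1 j).1 := by
    intro j
    have e3 : (Fin.castSucc (Fin.castAdd mu j) : Fin (m1 + (mu + 1))) = Fin.castAdd (mu + 1) j := rfl
    have e4 : g (Fin.castSucc (Fin.castAdd mu j) : Fin (m1 + (mu + 1))) = Sum.inl (e1 j) := by
      rw [e3]
      simp only [g, finSumFinEquiv_symm_apply_castAdd, Sum.map_inl]
    simp only [del]
    rw [e4, Sum.elim_inl]
  have hdel2 : ∀ l : Fin (mu + 1), del (Fin.natAdd m1 l) = K + 1 := by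
    intro l
    have e4 : g (Fin.natAdd m1 l) = Sum.inr l := by
      simp only [g, finSumFinEquiv_symm_apply_natAdd, Sum.map_inr, id]
    simp only [del]
    rw [e4, Sum.elim_inr]
  have hlast : del (Fin.last (m1 + mu)) = K + 1 := by
    have e3 : (Fin.last (m1 + mu) : Fin (m1 + mu + 1)) = Fin.natAdd m1 (Fin.last mu) := rfl
    rw [e3]
    exact hdel2 _
  have hN := Q1.mN2f N c d I hU.prime hU.hom hU.smooth J hFm.prime hFm.hom hFm.le c hU.pos
    (hU.numW J hFm.prime hFm.hom hFm.le) (m1 + mu) (fun i => sig (g i)) del f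
    (fun i => hsig1 (g i)) ?_ ?_ ?_ ?_ ?_
  · exact hN (tMono _ J _ _ (by omega) hdim)
  · intro i
    rcases h5 : g i with t | l
    · simp only [del, h5, Sum.elim_inl]
      have := hd2 t.1
      omega
    · simp only [del, h5, Sum.elim_inr]
      omega
  · intro y hy hy0
    exact (hind y hy hy0).comp g hg
  · intro i j hij
    induction i using Fin.addCases with
    | left i =>
      induction j using Fin.addCases with
      | left j =>
        rw [hf1, hf1] at hij
        rw [e1.injective (Subtype.ext hij)]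
      | right j =>
        rw [hf1, hf2] at hij
        have h5 := (e1 i).2
        have h6 := (e2 j).2
        rw [hij] at h5
        omega
    | right i =>
      induction j using Fin.addCases with
      | left j =>
        rw [hf1, hf2] at hij
        have h5 := (e1 j).2
        have h6 := (e2 i).2
        rw [hij] at h6
        omega
      | right j =>
        rw [hf2, hf2] at hij
        rw [e2.injective (Subtype.ext hij)]
  · intro i
    induction i using Fin.addCases with
    | left i => rw [hdel1, hf1]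
    | right i =>
      rw [hf2, (e2 i).2]
      exact hdel2 (Fin.castSucc i)
  · intro j hj hdj
    rw [hlast] at hdj
    apply hj
    refine ⟨Fin.natAdd m1 (e2.symm ⟨j, hdj⟩), ?_⟩
    rw [hf2, Equiv.apply_symm_apply]

end Pool.Agent.Lib.MP_776403_ag.SD.U
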