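import Pool.Agent.Lib.MP_776403_ag.SD.U.SpecC
import Pool.Agent.Lib.MP_776403_ag.SD.P2.TS
import Pool.Agent.Lib.MP_776403_ag.SD.R.CLp
import Pool.Agent.Lib.MP_776403_ag.SD.R.CUp
import Pool.Agent.Lib.MP_776403_ag.SD.HE.Main

/-!
# THEOREM U, part C: Zak's bound for tangent hyperplanes
-/

set_option autoImplicit false

open MvPolynomial

noncomputable section

namespace Pool.Agent.Lib.MP_776403_ag.SD.U

namespace ZakAux

open LI

variable {N : ℕ}

theorem eval_lf (a y : Vx N) : eval y (lf a) = dp a y := by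
  unfold lf dp
  rw [map_sum]
  refine Finset.sum_congr rfl fun i _ => ?_
  rw [map_mul, eval_C, eval_X]

theorem lf_hom (a : Vx N) : (lf a).IsHomogeneous 1 := by
  unfold lf
  refine (homogeneousSubmodule (Fin (N + 1)) ℂ 1).sum_mem fun i _ => ?_
  have h := (isHomogeneous_C (Fin (N + 1)) (a i)).mul (isHomogeneous_X ℂ i)
  rwa [zero_add] at h

theorem lf_notMem {I : Ideal (Sx N)} (hnd : ∀ F ∈ I, F.IsHomogeneous 1 → F = 0) {a : Vx N}
    (ha : a ≠ 0) : lf a ∉ I := by
  intro h
  have h1 := hnd _ h (lf_hom a)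
  refine ha (funext fun i => ?_)
  have h2 := eval_lf a (Pi.single i 1)
  unfold dp at h2
  rw [h1, map_zero, Finset.sum_eq_single i] at h2
  · rw [Pi.single_eq_same, mul_one] at h2
    exact h2.symm
  · intro b _ hb
    rw [Pi.single_eq_of_ne hb, mul_zero]
  · exact fun h => absurd (Finset.mem_univ i) h

theorem dp_smul_right (r : ℂ) (a b : Vx N) : dp a (r • b) = r * dp a b := by
  unfold dp
  rw [Finset.mul_sum]
  refine Finset.sum_congr rfl fun i _ => ?_
  rw [Pi.smul_apply, smul_eq_mul]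
  ring

theorem dp_add_right (a b b' : Vx N) : dp a (b + b') = dp a b + dp a b' := by
  unfold dp
  rw [← Finset.sum_add_distrib]
  refine Finset.sum_congr rfl fun i _ => ?_
  rw [Pi.add_apply, mul_add]

theorem dp_zero_right (a : Vx N) : dp a 0 = 0 := by
  simp [dp]

/-- The origin is in the cone. -/
theorem zero_zer {J : Ideal (Sx N)} (hJ : J.IsPrime) (hJh : IsHom J) : (0 : Vx N) ∈ zer J := by
  intro F hF
  have h1 := hJh F hF 0
  rw [homogeneousComponent_zero] at h1
  have h2 : eval (0 : Vx N) F = coeff 0 F := by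
    rw [← constantCoeff_eq, ← eval_zero]
  rw [h2]
  by_contra h0
  refine hJ.ne_top (Ideal.eq_top_of_isUnit_mem _ h1 ?_)
  exact (IsUnit.mk0 _ h0).map C

/-! ## The join with a point outside of the hyperplane `lf a = 0` -/

theorem cUpZ (P : Ideal (Sx N)) (hP : P.IsPrime) (x a : Vx N) (hax : dp a x = 1)
    (ha : lf a ∈ P) (e : ℕ) (hD : DimGe P e) : DimGe (H.joinI P x) (e + 1) := by
  obtain ⟨i, hi⟩ := hD
  have hJ : (H.joinI P x).IsPrime := H.joinI_prime hP x
  obtain ⟨φ, hφ⟩ : ∃ φ : Sx N →ₐ[ℂ] Polynomial (Sx N ⧸ P),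
      φ = (Polynomial.mapAlgHom (Ideal.Quotient.mkₐ ℂ P)).comp (H.shP x) := ⟨_, rfl⟩
  have hφX : ∀ j, φ (X j) = Polynomial.C (Ideal.Quotient.mk P (X j)) +
      Polynomial.C (Ideal.Quotient.mk P (C (x j))) * Polynomial.X := by
    intro j
    rw [hφ]
    change Polynomial.map _ (H.shP x (X j)) = _
    have h1 : H.shP x (X j : Sx N) =
        Polynomial.C (X j) + Polynomial.C (C (x j)) * Polynomial.X := by
      rw [H.shP, aeval_X]
    rw [h1, Polynomial.map_add, Polynomial.map_mul, Polynomial.map_C, Polynomial.map_C,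
      Polynomial.map_X]
    rfl
  have hφC : ∀ a : ℂ, φ (C a) = Polynomial.C (Ideal.Quotient.mk P (C a)) := by
    intro a
    have h1 : φ (C a) = algebraMap ℂ _ a := by
      rw [← MvPolynomial.algebraMap_eq, AlgHom.commutes]
    rw [h1]
    rfl
  have hker : ∀ F ∈ H.joinI P x, φ F = 0 := by
    intro F hF
    rw [hφ]
    exact hF
  let ψ : (Sx N ⧸ H.joinI P x) →ₐ[ℂ] Polynomial (Sx N ⧸ P) :=
    Ideal.Quotient.liftₐ (H.joinI P x) φ hker
  have hψ : ∀ F, ψ (Ideal.Quotient.mk (H.joinI P x) F) = φ F := fun F => rfl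
  have hl0 : Ideal.Quotient.mk P (lf a) = 0 := Ideal.Quotient.eq_zero_iff_mem.2 ha
  have hs : φ (lf a) = Polynomial.X := by
    have h1 : φ (lf a) = Polynomial.C (Ideal.Quotient.mk P (lf a)) +
        Polynomial.C (Ideal.Quotient.mk P (C (dp a x))) * Polynomial.X := by
      unfold lf dp
      rw [map_sum, map_sum, map_sum, map_sum, map_sum, map_sum, Finset.sum_mul,
        ← Finset.sum_add_distrib]
      refine Finset.sum_congr rfl fun j _ => ?_
      rw [map_mul, hφC, hφX, map_mul, map_mul, C_mul, map_mul, map_mul]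
      ring
    rw [h1, hl0, hax, C_1, map_one, Polynomial.C_0, Polynomial.C_1, zero_add, one_mul]
  have ht : ∀ j, φ (X j - C (x j) * lf a) = Polynomial.C (Ideal.Quotient.mk P (X j)) := by
    intro j
    rw [map_sub, map_mul, hs, hφC, hφX, add_sub_cancel_right]
  have hy : AlgebraicIndependent ℂ (Fin.cons (Ideal.Quotient.mk (H.joinI P x) (lf a))
      (fun k => Ideal.Quotient.mk (H.joinI P x)
        (X (i k) - C (x (i k)) * lf a)) : Fin (e + 1) → Sx N ⧸ H.joinI P x) := by
    refine AlgebraicIndependent.of_comp (A' := Polynomial (Sx N ⧸ P)) ψ ?_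
    have h1 := CUpAux.alg_cons _ hi
    have h2 : (ψ ∘ (Fin.cons (Ideal.Quotient.mk (H.joinI P x) (lf a))
      (fun k => Ideal.Quotient.mk (H.joinI P x)
        (X (i k) - C (x (i k)) * lf a)) : Fin (e + 1) → Sx N ⧸ H.joinI P x)) =
        (Fin.cons (Polynomial.X : Polynomial (Sx N ⧸ P))
          (fun k => Polynomial.C (Ideal.Quotient.mk P (X (i k)))) :
            Fin (e + 1) → Polynomial (Sx N ⧸ P)) := by
      funext j
      refine Fin.cases ?_ (fun k => ?_) j
      · rw [Function.comp_apply, Fin.cons_zero, Fin.cons_zero, hψ, hs]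
      · rw [Function.comp_apply, Fin.cons_succ, Fin.cons_succ, hψ, ht]
    rw [h2]
    exact h1
  have htop : Algebra.adjoin ℂ (Set.range fun j : Fin (N + 1) =>
      Ideal.Quotient.mk (H.joinI P x) (X j)) = ⊤ := by
    rw [eq_top_iff]
    intro q _
    obtain ⟨F, rfl⟩ := Ideal.Quotient.mk_surjective q
    induction F using MvPolynomial.induction_on with
    | C a => exact Subalgebra.algebraMap_mem _ a
    | add p q hp hq =>
      rw [map_add]
      exact Subalgebra.add_mem _ (hp trivial) (hq trivial)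
    | mul_X p j hp =>
      rw [map_mul]
      exact Subalgebra.mul_mem _ (hp trivial) (Algebra.subset_adjoin ⟨j, rfl⟩)
  have halg : Algebra.IsAlgebraic (Algebra.adjoin ℂ (Set.range fun j : Fin (N + 1) =>
      Ideal.Quotient.mk (H.joinI P x) (X j))) (Sx N ⧸ H.joinI P x) := by
    refine ⟨fun q => ?_⟩
    have hq : q ∈ Algebra.adjoin ℂ (Set.range fun j : Fin (N + 1) =>
        Ideal.Quotient.mk (H.joinI P x) (X j)) := by
      rw [htop]
      trivial
    have h3 := isIntegral_algebraMap (R := Algebra.adjoin ℂ (Set.range fun j : Fin (N + 1) =>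
      Ideal.Quotient.mk (H.joinI P x) (X j))) (A := Sx N ⧸ H.joinI P x) (x := ⟨q, hq⟩)
    exact h3.isAlgebraic
  have : IsDomain (Sx N ⧸ H.joinI P x) := (Ideal.Quotient.isDomain_iff_prime _).2 hJ
  obtain ⟨i', hi'⟩ := tTB (Fin (N + 1)) (Sx N ⧸ H.joinI P x)
    (fun j => Ideal.Quotient.mk (H.joinI P x) (X j)) halg (e + 1) _ hy
  exact ⟨i', hi'⟩

/-! ## Taylor's formula -/

/-- The projection from the point `p` to the hyperplane `s = 0`. -/
def prjZ (p : Vx N) (s : Sx N) : Sx N →ₐ[ℂ] Sx N := aeval fun i => X i - C (p i) * s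

theorem prjZ_C (p : Vx N) (s : Sx N) (a : ℂ) : prjZ p s (C a) = C a := by
  rw [← MvPolynomial.algebraMap_eq, AlgHom.commutes]

theorem prjZ_X (p : Vx N) (s : Sx N) (i : Fin (N + 1)) : prjZ p s (X i) = X i - C (p i) * s := by
  rw [prjZ, aeval_X]

theorem eval_prj (p : Vx N) (s : Sx N) (v : Vx N) (F : Sx N) :
    eval v (prjZ p s F) = eval (v - eval v s • p) F := by
  induction F using MvPolynomial.induction_on with
  | C a => rw [prjZ_C, eval_C, eval_C]
  | add p q hp hq => rw [map_add, map_add, hp, hq, map_add]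
  | mul_X q i hq =>
    rw [map_mul, map_mul, hq, map_mul, prjZ_X, map_sub, map_mul, eval_X, eval_C, eval_X,
      Pi.sub_apply, Pi.smul_apply, smul_eq_mul, mul_comm (p i)]

/-- The first order term. -/
def drZ (p : Vx N) (s F : Sx N) : Sx N := ∑ j, C (p j) * prjZ p s (pderiv j F)

theorem dr_add (p : Vx N) (s F G : Sx N) : drZ p s (F + G) = drZ p s F + drZ p s G := by
  unfold drZ
  rw [← Finset.sum_add_distrib]
  refine Finset.sum_congr rfl fun j _ => ?_
  rw [map_add, map_add, mul_add]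

theorem dr_mul_X (p : Vx N) (s F : Sx N) (i : Fin (N + 1)) :
    drZ p s (F * X i) = drZ p s F * (X i - C (p i) * s) + C (p i) * prjZ p s F := by
  have h1 : ∑ j, C (p j) * prjZ p s (pderiv j (X i : Sx N)) = C (p i) := by
    rw [Finset.sum_eq_single i]
    · rw [pderiv_X_self, map_one, mul_one]
    · intro j _ hj
      rw [pderiv_X_of_ne hj.symm, map_zero, mul_zero]
    · exact fun h => absurd (Finset.mem_univ i) h
  have h2 : drZ p s (F * X i) = drZ p s F * prjZ p s (X i) +
      (∑ j, C (p j) * prjZ p s (pderiv j (X i : Sx N))) * prjZ p s F := by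
    unfold drZ
    rw [Finset.sum_mul, Finset.sum_mul, ← Finset.sum_add_distrib]
    refine Finset.sum_congr rfl fun j _ => ?_
    rw [Derivation.leibniz, smul_eq_mul, smul_eq_mul, map_add, map_mul, map_mul]
    ring
  rw [h2, h1, prjZ_X]

theorem taylor (p : Vx N) (s F : Sx N) :
    ∃ R : Sx N, F = prjZ p s F + s * drZ p s F + s * s * R := by
  induction F using MvPolynomial.induction_on with
  | C a =>
    refine ⟨0, ?_⟩
    have h1 : drZ p s (C a) = 0 := by
      unfold drZ
      refine Finset.sum_eq_zero fun j _ => ?_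
      rw [pderiv_C, map_zero, mul_zero]
    rw [h1, prjZ_C, mul_zero, mul_zero, add_zero, add_zero]
  | add F G hF hG =>
    obtain ⟨R, hR⟩ := hF
    obtain ⟨T, hT⟩ := hG
    refine ⟨R + T, ?_⟩
    rw [map_add, dr_add]
    calc F + G = (prjZ p s F + s * drZ p s F + s * s * R) +
          (prjZ p s G + s * drZ p s G + s * s * T) := by rw [← hR, ← hT]
      _ = _ := by ring
  | mul_X F i hF =>
    obtain ⟨R, hR⟩ := hF
    refine ⟨C (p i) * drZ p s F + R * X i, ?_⟩
    rw [map_mul, dr_mul_X, prjZ_X]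
    calc F * X i = (prjZ p s F + s * drZ p s F + s * s * R) * X i := by rw [← hR]
      _ = _ := by ring

theorem eval_dr (p : Vx N) (s F : Sx N) (v : Vx N) (hv : eval v s = 0) :
    eval v (drZ p s F) = dp (grad F v) p := by
  unfold drZ dp
  rw [map_sum]
  refine Finset.sum_congr rfl fun j _ => ?_
  rw [map_mul, eval_C, eval_prj, hv, zero_smul, sub_zero, mul_comm]
  rfl

end ZakAux

open ZakAux LI

theorem tZak (h : S_KrR) : S_Zak := by
  intro N c I hI hIh hnd hS J hJ hJh hIJ ξ0 hξ0 hcn0 hdim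
  -- a point `p` with `dp ξ p = 1`
  obtain ⟨p, hp, hp0⟩ : ∃ p ∈ zer I, dp ξ0 p ≠ 0 := by
    by_contra hcon
    push Not at hcon
    refine lf_notMem hnd hξ0 ((tNull N I hI hIh).1 _ fun z hz => ?_)
    rw [eval_lf]
    exact hcon z hz
  obtain ⟨ξ, hξ⟩ : ∃ ξ : Vx N, ξ = (dp ξ0 p)⁻¹ • ξ0 := ⟨_, rfl⟩
  have hxp : dp ξ p = 1 := by
    rw [hξ, P2.TSAux.dp_smul_left, inv_mul_cancel₀ hp0]
  have hcn : ∀ y ∈ zer J, y ≠ 0 → ξ ∈ CN I y := fun y hy hy0 => by
    rw [hξ]
    exact Submodule.smul_mem _ _ (hcn0 y hy hy0)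
  have hpne : p ≠ 0 := by
    rintro rfl
    exact hp0 (dp_zero_right _)
  obtain ⟨s, hs⟩ : ∃ s : Sx N, s = lf ξ := ⟨_, rfl⟩
  have hse : ∀ v, eval v s = dp ξ v := fun v => by rw [hs, eval_lf]
  have hzI : ∀ z ∈ zer J, z ∈ zer I := fun z hz F hF => hz F (hIJ hF)
  have hgr : ∀ z ∈ zer J, z ≠ 0 → ∃ F ∈ I, ξ = grad F z := fun z hz hz0 =>
    (mPerp N c I hI hIh hS z (hzI z hz) hz0).2.2.1 ξ (hcn z hz hz0)
  have hsJ : s ∈ J := by
    refine (tNull N J hJ hJh).1 _ fun z hz => ?_
    rw [hse]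
    by_cases hz0 : z = 0
    · rw [hz0, dp_zero_right]
    · obtain ⟨F, hF, hFe⟩ := hgr z hz hz0
      rw [hFe]
      exact (P2.tTS N c I hI hIh hS z (hzI z hz) hz0).2.1 F hF
  -- the join
  have hJ' : (H.joinI J p).IsPrime := H.joinI_prime hJ p
  have hJh' : IsHom (H.joinI J p) := H.joinI_hom hJ hJh p
  have hD' : DimGe (H.joinI J p) (c + 1 + 1) := by
    refine cUpZ J hJ p ξ hxp ?_ (c + 1) hdim
    rw [← hs]
    exact hsJ
  have hpJ' : p ∈ zer (H.joinI J p) := by
    intro F hF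
    rw [H.mem_joinI hJ hJh] at hF
    have h1 := hF 0 (zero_zer hJ hJh) 1
    rwa [one_smul, zero_add] at h1
  obtain ⟨F, f, hh, e, hFI, hhh, hhp, -, hgen⟩ := hS p hp hpne
  obtain ⟨P, hP, hPh, hJP, hFP, hpP, hDP⟩ := h N (c + 1 + 1) (H.joinI J p) hJ' hJh' hD' p hpJ' c F
    (fun i => ⟨f i, (hFI i).2⟩) (fun i => hp _ (hFI i).1)
  have hDP2 : DimGe P 2 := by
    have h1 : c + 1 + 1 - c = 2 := by omega
    rwa [h1] at hDP
  have hhP : hh ∉ P := fun hc => hhp (hpP _ hc)
  have hIP : I ≤ P := by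
    intro G hG
    have h1 : hh * G ∈ P := by
      refine (Ideal.span_le.2 ?_) (hgen G hG)
      rintro _ ⟨i, rfl⟩
      exact hFP i
    exact (hP.mem_or_mem h1).resolve_left hhP
  have hsP : s ∉ P := by
    intro hc
    have h1 := hpP _ hc
    rw [hse, hxp] at h1
    exact one_ne_zero h1
  have hprj : ∀ G ∈ I, prjZ p s G ∈ P := by
    intro G hG
    refine hJP ?_
    rw [H.mem_joinI hJ hJh]
    intro z hz t
    have hz0 : dp ξ z = 0 := by
      rw [← hse]
      exact hz _ hsJ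
    have h1 : eval (z + t • p) s = t := by
      rw [hse, dp_add_right, dp_smul_right, hz0, hxp, zero_add, mul_one]
    rw [eval_prj, h1, add_sub_cancel_right]
    exact hz G (hIJ hG)
  have hdr : ∀ G ∈ I, ∃ R : Sx N, drZ p s G + s * R ∈ P := by
    intro G hG
    obtain ⟨R, hR⟩ := taylor p s G
    refine ⟨R, ?_⟩
    have h1 : s * (drZ p s G + s * R) ∈ P := by
      have h2 : s * (drZ p s G + s * R) = G - prjZ p s G := by
        calc s * (drZ p s G + s * R) = (prjZ p s G + s * drZ p s G + s * s * R) - prjZ p s G := by ring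
          _ = _ := by rw [← hR]
      rw [h2]
      exact P.sub_mem (hIP hG) (hprj G hG)
    exact (hP.mem_or_mem h1).resolve_left hsP
  -- a point of `zer P` on the hyperplane
  obtain ⟨P', hP', hPh', hsP', hDP'⟩ := cLp mKrull tTB N 1 (fun _ => s)
    (fun _ => by rw [hs]; exact lf_hom ξ)
  obtain ⟨z, hz0, hzP, hzP'⟩ := mMeet N P P' 2 (N + 1 - 1) hP hP' hPh hPh' hDP2 hDP' (by omega)
  have hzs : eval z s = 0 := hzP' _ (hsP' 0)
  have hzJ : z ∈ zer J := by
    intro G hG
    have h1 : prjZ p s G ∈ P := by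
      refine hJP ?_
      rw [H.mem_joinI hJ hJh]
      intro w hw t
      have hw0 : dp ξ w = 0 := by
        rw [← hse]
        exact hw _ hsJ
      have h1 : eval (w + t • p) s = t := by
        rw [hse, dp_add_right, dp_smul_right, hw0, hxp, zero_add, mul_one]
      rw [eval_prj, h1, add_sub_cancel_right]
      exact hw G hG
    have h2 := hzP _ h1
    rwa [eval_prj, hzs, zero_smul, sub_zero] at h2
  obtain ⟨G, hG, hGe⟩ := hgr z hzJ hz0
  obtain ⟨R, hR⟩ := hdr G hG
  have h1 := hzP _ hR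
  rw [map_add, map_mul, hzs, zero_mul, add_zero, eval_dr p s G z hzs, ← hGe, hxp] at h1
  exact one_ne_zero h1

end Pool.Agent.Lib.MP_776403_ag.SD.U
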