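import Pool.Agent.Lib.MP_776403_ag.SD.U.SpecC
import Pool.Agent.Lib.MP_776403_ag.SD.D2a
import Pool.Agent.Lib.MP_776403_ag.SD.D2b
import Pool.Agent.Lib.MP_776403_ag.SD.D2c
import Pool.Agent.Lib.MP_776403_ag.SD.TB

/-!
# THEOREM U, module KrR: Krull's theorem relative to a prime ideal
-/

set_option autoImplicit false

open MvPolynomial

noncomputable section

namespace Pool.Agent.Lib.MP_776403_ag.SD.U

namespace KrRAux

/-- An ideal generated by forms is homogeneous. -/
theorem span_hom {N : ℕ} (s : Set (Sx N)) (hs : ∀ f ∈ s, ∃ m : ℕ, f.IsHomogeneous m) :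
    IsHom (Ideal.span s) := by
  intro F hF m
  let _ := MvPolynomial.gradedAlgebra (σ := Fin (N + 1)) (R := ℂ)
  have h1 : (Ideal.span s).IsHomogeneous (homogeneousSubmodule (Fin (N + 1)) ℂ) := by
    refine Ideal.homogeneous_span _ _ ?_
    intro f hf
    obtain ⟨n, hn⟩ := hs f hf
    exact ⟨n, hn⟩
  exact homogeneousComponent_mem_of_mem h1 hF m

/-- Sums of homogeneous ideals are homogeneous. -/
theorem sup_hom {N : ℕ} {I J : Ideal (Sx N)} (hI : IsHom I) (hJ : IsHom J) :
    IsHom (I ⊔ J) := by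
  intro F hF m
  obtain ⟨a, ha, b, hb, rfl⟩ := Submodule.mem_sup.1 hF
  rw [map_add]
  exact Submodule.add_mem_sup (hI a ha m) (hJ b hb m)

/-- The height of the ideal of a point in a domain of dimension at least `δ`. -/
theorem height_pt (N δ : ℕ) (J : Ideal (Sx N)) (hJ : J.IsPrime) (hd : DimGe J δ)
    (ev : (Sx N ⧸ J) →ₐ[ℂ] ℂ) : ((δ : ℕ) : ℕ∞) ≤ (RingHom.ker ev.toRingHom).height := by
  have : Nontrivial (Sx N ⧸ J) := Ideal.Quotient.nontrivial_iff.2 hJ.ne_top
  have : IsDomain (Sx N ⧸ J) := Ideal.Quotient.isDomain J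
  obtain ⟨s, φ, hinj, hint⟩ := exists_integral_inj_algHom_of_fg ℂ (Sx N ⧸ J)
  -- `δ ≤ s`
  have hs : δ ≤ s := by
    obtain ⟨i, hi⟩ := hd
    have hrange : Algebra.adjoin ℂ (Set.range fun k : Fin s => φ (X k)) = φ.range := by
      have h6 : (Set.range fun k : Fin s => φ (X k))
          = φ '' (Set.range (X : Fin s → MvPolynomial (Fin s) ℂ)) := by
        rw [← Set.range_comp]
        rfl
      rw [h6, ← AlgHom.map_adjoin, MvPolynomial.adjoin_range_X, Algebra.map_top]
    have halg : Algebra.IsAlgebraic (Algebra.adjoin ℂ (Set.range fun k : Fin s => φ (X k)))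
        (Sx N ⧸ J) := by
      rw [hrange]
      refine ⟨fun b => ?_⟩
      obtain ⟨p, hp, hpe⟩ := hint b
      have h7 : IsIntegral φ.range b := by
        refine ⟨p.map φ.rangeRestrict.toRingHom, hp.map _, ?_⟩
        rw [Polynomial.eval₂_map]
        exact hpe
      exact h7.isAlgebraic
    obtain ⟨j, hj⟩ := tTB (Fin s) (Sx N ⧸ J) (fun k : Fin s => φ (X k)) halg δ _ hi
    have hji : Function.Injective j := by
      intro a b hab
      have h8 := hj.injective
      apply h8
      simp only [Function.comp, hab]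
    have := Fintype.card_le_of_injective j hji
    simpa using this
  have hev : ∀ F : MvPolynomial (Fin s) ℂ,
      F ∈ Ideal.comap φ.toRingHom (RingHom.ker ev.toRingHom) ↔
        eval (fun k => ev (φ (X k))) F = 0 := by
    intro F
    have h1 : ev.comp φ = (aeval fun k => ev (φ (X k))) := by
      apply MvPolynomial.algHom_ext
      intro k
      rw [aeval_X]
      rfl
    have h2 : ev (φ F) = eval (fun k => ev (φ (X k))) F := by
      have h3 := congrArg (fun f : MvPolynomial (Fin s) ℂ →ₐ[ℂ] ℂ => f F) h1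
      exact h3
    rw [← h2]
    rfl
  have hnp : (RingHom.ker ev.toRingHom).IsPrime := RingHom.ker_isPrime _
  have hpp : (Ideal.comap φ.toRingHom (RingHom.ker ev.toRingHom)).IsPrime :=
    Ideal.comap_isPrime _ _
  have h1 := tD2a (Fin s) (fun k => ev (φ (X k))) _ hpp hev
  rw [Fintype.card_fin] at h1
  have h2 : ((δ : ℕ) : ℕ∞) ≤ ((s : ℕ) : ℕ∞) := by exact_mod_cast hs
  refine (h2.trans h1).trans ?_
  have hint' : φ.toRingHom.IsIntegral := hint
  have hinj' : Function.Injective φ.toRingHom := hinj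
  generalize φ.toRingHom = f at hint' hinj' hpp
  clear h1 hev
  algebraize [f]
  have hfs : FaithfulSMul (MvPolynomial (Fin s) ℂ) (Sx N ⧸ J) :=
    (faithfulSMul_iff_algebraMap_injective _ _).2 hinj'
  have hlo : (RingHom.ker ev.toRingHom).LiesOver (Ideal.comap f (RingHom.ker ev.toRingHom)) :=
    ⟨rfl⟩
  have h3 := Ideal.height_eq_height_add_of_liesOver_of_hasGoingDown
    (Ideal.comap f (RingHom.ker ev.toRingHom)) (RingHom.ker ev.toRingHom)
  rw [h3]
  exact le_self_add

end KrRAux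

open KrRAux

theorem tKrR : S_KrR := by
  intro N δ J hJ hJh hd y hy e g hgh hg0
  let ev : (Sx N ⧸ J) →ₐ[ℂ] ℂ := Ideal.Quotient.liftₐ J (aeval y) (fun F hF => hy F hF)
  have hevm : ∀ F : Sx N, ev (Ideal.Quotient.mk J F) = eval y F := fun F => rfl
  have hM := height_pt N δ J hJ hd ev
  set n : Ideal (Sx N ⧸ J) := RingHom.ker ev.toRingHom with hn
  have hnmem : ∀ F : Sx N, Ideal.Quotient.mk J F ∈ n ↔ eval y F = 0 := fun F => by
    rw [← hevm F]
    exact RingHom.mem_ker
  have hnp : n.IsPrime := RingHom.ker_isPrime _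
  set B : Ideal (Sx N ⧸ J) := Ideal.span (Set.range fun i => Ideal.Quotient.mk J (g i)) with hB
  have hBn : B ≤ n := Ideal.span_le.mpr (by
    rintro _ ⟨i, rfl⟩
    exact (hnmem _).2 (hg0 i))
  have h1 := Ideal.height_le_height_add_spanFinrank_of_le (I := B) (p := n) hBn
  have h2 : B.spanFinrank ≤ e := by
    refine (Submodule.spanFinrank_span_le_ncard_of_finite (Set.finite_range _)).trans ?_
    rw [← Set.image_univ]
    refine (Set.ncard_image_le Set.finite_univ).trans ?_
    rw [Set.ncard_univ, Nat.card_fin]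
  have hn' : (n.map (Ideal.Quotient.mk B)).IsPrime :=
    Ideal.isPrime_map_quotientMk_of_isPrime hBn
  obtain ⟨l, hl1, hl2⟩ :=
    Ideal.exists_ltSeries_length_eq_height (n.map (Ideal.Quotient.mk B))
  have hlen : δ ≤ l.length + e := by
    have h3 : ((δ : ℕ) : ℕ∞) ≤ (l.length : ℕ∞) + (e : ℕ∞) := by
      rw [← hl2] at h1
      exact hM.trans (h1.trans (by gcongr))
    exact_mod_cast h3
  let f : Sx N →+* (Sx N ⧸ J) ⧸ B := (Ideal.Quotient.mk B).comp (Ideal.Quotient.mk J)
  have hsur : Function.Surjective f :=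
    Ideal.Quotient.mk_surjective.comp Ideal.Quotient.mk_surjective
  set P₀ : Ideal (Sx N) := l.head.asIdeal.comap f with hP₀
  have hP₀p : P₀.IsPrime := Ideal.comap_isPrime _ _
  have hle : ∀ i, l.head ≤ l i := fun i => LTSeries.head_le l i
  have hJP : J ≤ P₀ := by
    intro x hx
    rw [hP₀, Ideal.mem_comap]
    have h3 : f x = 0 := by
      show Ideal.Quotient.mk B (Ideal.Quotient.mk J x) = 0
      rw [Ideal.Quotient.eq_zero_iff_mem.mpr hx, map_zero]
    rw [h3]
    exact Ideal.zero_mem _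
  have hgP : ∀ i, g i ∈ P₀ := by
    intro i
    rw [hP₀, Ideal.mem_comap]
    have h3 : f (g i) = 0 := by
      show Ideal.Quotient.mk B (Ideal.Quotient.mk J (g i)) = 0
      exact Ideal.Quotient.eq_zero_iff_mem.mpr (Ideal.subset_span ⟨i, rfl⟩)
    rw [h3]
    exact Ideal.zero_mem _
  have hPn : ∀ F ∈ P₀, eval y F = 0 := by
    intro F hF
    rw [hP₀, Ideal.mem_comap] at hF
    have h4 : l.head.asIdeal ≤ n.map (Ideal.Quotient.mk B) := by
      have h5 := LTSeries.head_le_last l
      rw [hl1] at h5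
      exact h5
    have h6 : Ideal.Quotient.mk B (Ideal.Quotient.mk J F) ∈ n.map (Ideal.Quotient.mk B) := h4 hF
    have h7 : Ideal.Quotient.mk J F ∈
        (n.map (Ideal.Quotient.mk B)).comap (Ideal.Quotient.mk B) := h6
    rw [Ideal.comap_map_of_surjective _ Ideal.Quotient.mk_surjective, ← RingHom.ker_eq_comap_bot,
      Ideal.mk_ker, sup_eq_left.2 hBn] at h7
    exact (hnmem F).1 h7
  have hdim : ((l.length : ℕ∞) : WithBot ℕ∞) ≤ ringKrullDim (Sx N ⧸ P₀) := by
    rw [ringKrullDim_quotient]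
    let l' : LTSeries (PrimeSpectrum.zeroLocus (R := Sx N) P₀) :=
      { length := l.length
        toFun := fun i => ⟨⟨(l i).asIdeal.comap f, Ideal.comap_isPrime _ _⟩,
          Ideal.comap_mono (hle i)⟩
        step := fun i => by
          have h6 := l.step i
          have h7 : (l i.castSucc).asIdeal < (l i.succ).asIdeal := h6
          exact (Ideal.orderEmbeddingOfSurjective f hsur).strictMono h7 }
    exact Order.LTSeries.length_le_krullDim l'
  have hJ' : IsHom (J ⊔ Ideal.span (Set.range g)) := by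
    refine sup_hom hJh (span_hom _ ?_)
    rintro _ ⟨i, rfl⟩
    exact hgh i
  have hJ'P : J ⊔ Ideal.span (Set.range g) ≤ P₀ := by
    refine sup_le hJP (Ideal.span_le.mpr ?_)
    rintro _ ⟨i, rfl⟩
    exact hgP i
  obtain ⟨P, hP1, hP2, hP3, hP4, hP5⟩ := tD2c (Fin (N + 1)) (fun _ => 1)
    (J ⊔ Ideal.span (Set.range g)) P₀ (fun F hF m => hJ' F hF m) hP₀p hJ'P
  have hD : DimGeG P₀ (δ - e) := by
    refine tD2b tTB (Fin (N + 1)) P₀ hP₀p _ (le_trans ?_ hdim)
    have h8 : δ - e ≤ l.length := by omega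
    exact_mod_cast h8
  refine ⟨P, hP1, hP2, le_sup_left.trans hP3, fun i => ?_, fun F hF => hPn F (hP4 hF), ?_⟩
  · exact hP3 (Ideal.mem_sup_right (Ideal.subset_span ⟨i, rfl⟩))
  · exact hP5 _ hD

end Pool.Agent.Lib.MP_776403_ag.SD.U
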