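import Pool.Agent.Lib.MP_776403_ag.SD.U.Defs
import Pool.Agent.Lib.MP_776403_ag.SD.SpecD

/-!
# THEOREM U, part C: tangencies, flags on large families of lines

Statements with complete proofs in the docstrings; `S_Xyz` is proved in `SD/U/Xyz.lean` (theorem
`SD.U.tXyz`, other statements of the Spec files as hypotheses).  `z ∈ zer J`, `z ≠ 0` is a line `span (x, z)` of the
family; `Q(z)` = the union of the `F_j(z)`, of dimension `a - c` (`S_GRk`).  `ξ ∈ ℂ^c` lifts to `N_X^*(K + 1)` on the line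
iff `q_ξ^K(z) ∈ F_K(z)`.
-/

set_option autoImplicit false

open MvPolynomial

noncomputable section

namespace Pool.Agent.Lib.MP_776403_ag.SD.U

variable {N : ℕ}

/-! ## 1. Krull's theorem relative to a prime, tangencies -/

/-- (KrR) KRULL, relative to a prime `J`.

PROOF.  `B = S / J`, a domain.  Noether normalization (`exists_integral_inj_algHom_of_fg ℂ B`, see the proof of
`S_D2b`): `φ : A = MvPolynomial (Fin s) ℂ → B` injective and integral, `s ≥ δ` (`B` is algebraic over `φ(A)`; `δ` independent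
elements, `S_TB`).  `n` = maximal ideal of `y` in `B` (`ptI y` modulo `J`), `p = φ⁻¹(n)`: `A / p ≤ B / n = ℂ`, so `p` is the
ideal of a point of `ℂ^s`, `height p ≥ s` (`S_D2a`, closed form in `SD/D2a.lean`).  Going down
(`Mathlib/RingTheory/IntegralClosure/GoingDown.lean`: `A` is integrally closed, `B` a domain, integral over `A`):
`height n ≥ height p` (`Ideal.height_eq_height_add_of_liesOver_of_hasGoingDown` or
`Ideal.exists_ltSeries_of_hasGoingDown`).  Now as in `tKrull` (`SD/Krull.lean`): `b` = the span of the classes of the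
`g i`, `b ≤ n`; `Ideal.height_le_height_add_spanFinrank_of_le`: `n / b` has height `≥ s - e` in `B / b`; a chain of
primes; its smallest member gives a prime `P₀` of `S`, `J ≤ P₀`, `g i ∈ P₀`, `P₀ ≤ ptI y`, `ringKrullDim (S / P₀) ≥ s - e`;
`S_D2b`, and the homogeneous core `S_D2c` (for the homogeneous ideal `J ⊔ span (range g)`). -/
def S_KrR : Prop :=
  ∀ (N δ : ℕ) (J : Ideal (Sx N)), J.IsPrime → IsHom J → DimGe J δ → ∀ y ∈ zer J,
    ∀ (e : ℕ) (g : Fin e → Sx N), (∀ i, ∃ m, (g i).IsHomogeneous m) → (∀ i, eval y (g i) = 0) →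
    ∃ P : Ideal (Sx N), P.IsPrime ∧ IsHom P ∧ J ≤ P ∧ (∀ i, g i ∈ P) ∧ y ∈ zer P ∧ DimGe P (δ - e)

/-- (Zak) TANGENT HYPERPLANES (Zak's bound; elementary proof).

PROOF.  Suppose `DimGe J (c + 1)`.  `lf ξ ≠ 0` is not in `I` (`hnd`), so there is `p ∈ zer I` with `dp ξ p ≠ 0` (`S_Null`);
after scaling `ξ` we have `dp ξ p = 1`; `s = lf ξ`.  `s ∈ J`: for `z ∈ zer J`, `z ≠ 0`: `ξ ∈ CN I z` and `z ∈ TS I z` (`LI.S_TS`),
so `dp ξ z = 0`; `S_Null`.  `J' = joinI J p` (`HE/Main.lean`: the ideal of the `F` with `F(z + t p) = 0` for all `z ∈ zer J`,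
`t ∈ ℂ`): prime, homogeneous, `J' ≤ J`; `DimGe J' (c + 2)`: `S / J' ≅ (S / J)[T]`, as in the proof of `S_CnF`
(`L/CnF.lean`): `s ↦ T`.  `Smooth` at `p ≠ 0`: `F : Fin c → I`, `h(p) ≠ 0`, `h G ∈ span F` for `G ∈ I`.  `S_KrR` for `J'`, `y = p`
(`= 0 + 1 • p ∈ zer J'`), `e = c`: `P`, `DimGe P 2`; `h ∉ P`, so `I ≤ P`.
`π : S → S`, `X_i ↦ X_i - C (p_i) * s`; `eval v (π F) = eval (v - s(v) p) F`.  For `v ∈ zer P`: `v - s(v) p ∈ zer J ⊆ zer I`: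
for `F ∈ J` the polynomial `π F` is in `J' ≤ P` (at `z + t p`: `s(z + t p) = t`, so it is `F(z) = 0`).
Let `F ∈ I`.  There is `R ∈ S` with `F = π F + s * (∑_j C (p_j) * π (∂_j F)) + s^2 * R` (Taylor; for monomials or by
`MvPolynomial.induction_on`: the set of the `F` with such an `R` is a subalgebra containing the variables).  `F ∈ P`,
`π F ∈ P` (it vanishes on `zer P`, `S_Null`), `s ∉ P` (`p ∈ zer P`, `s(p) = 1`): so `∑_j C (p_j) * π (∂_j F) + s * R ∈ P`.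
`mMeet` for `P` and the prime `span {s}` (`DimGe (span {s}) N`; or `S_KrR`-like: a prime of dimension `≥ 2` has a zero
`≠ 0` on every hyperplane): `z₁ ∈ zer P`, `z₁ ≠ 0`, `s(z₁) = 0`; so `z₁ ∈ zer J`, and `dp (grad F z₁) p = 0` for all `F ∈ I`.
`ξ ∈ CN I z₁` is some `grad F z₁` (`S_Perp`), so `dp ξ p = 0`: contradiction. -/
def S_Zak : Prop :=
  ∀ (N c : ℕ) (I : Ideal (Sx N)), I.IsPrime → IsHom I → (∀ F ∈ I, F.IsHomogeneous 1 → F = 0) →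
    Smooth I c → ∀ J : Ideal (Sx N), J.IsPrime → IsHom J → I ≤ J → ∀ ξ : Vx N, ξ ≠ 0 →
    (∀ y ∈ zer J, y ≠ 0 → ξ ∈ CN I y) → ¬ DimGe J (c + 1)

/-! ## 2. The module `Q` -/

/-- (WGC) The data of `S_WGeo`, concretely.  PROOF.  The proof of `wGeo1` (`W/Geo.lean`), which constructs exactly these
data (`zGQk`, `zGNa`, `zGNb`, `zGRk`, `tGTx` are closed); `DegEq` is the hypothesis on the degree, `x ∈ zer I`. -/
def S_WGC : Prop :=
  ∀ (N c a : ℕ) (I J : Ideal (Sx N)) (x : Vx N), 1 ≤ c → I.IsPrime → IsHom I → Smooth I c →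
    Fml I J c a x → ∀ L : Loc I x c,
    WG I J a L.Ix (fun y => L.dg - 1 - (y.1 : ℕ)) L.qk (Matrix.of L.mm) (Matrix.of L.psi)

/-- (Psi) Conormal vectors at `z` from pairs `(f, w)`.

PROOF.  `S_WGC`, `S_WXD` (`W/Spec.lean`; closed form `zWXD`): at `z` the space `fib (BG L.qk) z = ℂ^c ⊕ Q(z)` has dimension
`c + (a - c)`, `M(z)` maps it onto `fib (QG L.qk) z` of dimension `a - c`, so the kernel has dimension `c` and equals
`fib (KG …) z` (contained in the kernel, dimension `c`).  So `n = (f, w)` (in the kernel by hypothesis) is a combination of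
values `g(z)`, `g ∈ KG`, and `Ψ g(z) = grad F (z)` for some `F ∈ I`: `Ψ n ∈ CN I z`.  The last claim of `S_WXD`: injectivity. -/
def S_Psi : Prop :=
  ∀ (N c a : ℕ) (I J : Ideal (Sx N)) (x : Vx N), 1 ≤ c → I.IsPrime → IsHom I → Smooth I c →
    Fml I J c a x → ∀ L : Loc I x c, ∀ z ∈ zer J, z ≠ 0 → ∀ (f : Fin c → ℂ) (w : L.Ix → ℂ) (j : ℕ),
    w ∈ Fj L j z → (∀ y, qv L f 0 z y + ∑ y', eval z (L.mm y (Sum.inr y')) * w y' = 0) →
    (fun l => ∑ b, L.psi l (Sum.inl b) * f b + ∑ y, L.psi l (Sum.inr y) * w y) ∈ CN I z ∧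
    ((∀ l, ∑ b, L.psi l (Sum.inl b) * f b + ∑ y, L.psi l (Sum.inr y) * w y = 0) → f = 0 ∧ w = 0)

/-- (FB) LINEAR ALGEBRA of the `F_j`.

PROOF.  (1) shift: `m_z w = (y ↦ ∑_y' mm(y, inr y')(z) w(y'))` is linear and maps `q_ξ^k(z)` to `q_ξ^(k+1)(z)`
(`S_GQk` (4)); so it maps `F_k(z)` into `F_(k+1)(z)`.  (2) `F_j(z) ≤ span (range (i, k) ↦ q_i^k(z))`, of dimension `a - c`
(`S_GRk`); `q_ξ^k` is linear in `ξ`.  (3) for a basis `B` (`Flag`): `F_j` is spanned by the `q_(B i)^k(z)`, `k < j`, all `i`.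
If `k + 1 ≥ d i`, `d i ≤ K`: `q_(B i)^k(z) ∈ F_k(z)` by `mem` and (1).  So by induction on `j ≤ K` (note that `k < j ≤ K` and
`d i ≤ k + 1` imply `d i ≤ K`) `F_j(z)` is spanned by the `q_(B i)^k(z)`, `(i, k) ∈ FI d j`, which are independent
(`FI d j ⊆ FI d K`).  (4) let `j < K`, `ξ = ∑ b_i B_i`, `q_ξ^j(z) ∈ F_j(z)`: remove the terms with `d i ≤ j + 1` (in `F_j(z)`,
as before); the others are frame vectors with `k = j`, independent modulo `F_j(z)`: `b_i = 0` for `j + 1 < d i`. -/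
def S_FB : Prop :=
  ∀ (N c a : ℕ) (I J : Ideal (Sx N)) (x : Vx N), 1 ≤ c → I.IsPrime → IsHom I → Smooth I c →
    Fml I J c a x → ∀ L : Loc I x c, ∀ z ∈ zer J, z ≠ 0 →
    (∀ (ξ : Fin c → ℂ) (k : ℕ), qv L ξ k z ∈ Fj L k z → qv L ξ (k + 1) z ∈ Fj L (k + 1) z) ∧
    (∀ j, Module.finrank ℂ (Fj L j z) + c ≤ a) ∧
    (∀ j, a ≤ Module.finrank ℂ (Fj L j z) + c → ∀ (ξ : Fin c → ℂ) (k : ℕ), qv L ξ k z ∈ Fj L j z) ∧
    ∀ (d : Fin c → ℕ) (K : ℕ) (B : Fin c → Fin c → ℂ), (∀ i, 1 ≤ d i) → Flag L d J K B →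
      (∀ j ≤ K, Fj L j z = Submodule.span ℂ (Set.range fun p : FI d j => qv L (B p.1.1) p.1.2 z)) ∧
      (∀ j ≤ K, Module.finrank ℂ (Fj L j z) = (FI d j).card) ∧
      ∀ j < K, ∀ ξ : Fin c → ℂ, qv L ξ j z ∈ Fj L j z → ξ ∈ Submodule.span ℂ (B '' {i | d i ≤ j + 1})

/-- (Cut) THE LOCUS WHERE `ξ` LIFTS.

PROOF.  `m = card (FI d K)`, `k = a - c`.  At `z₀`: the frame vectors `e_p = qs L (B i) k'`, `p = (i, k') ∈ FI d K`, forms of
degree `k' + 1` (weights `ω`, `S_GQk` (2)), are independent and span `F_K(z₀)` (`S_FB`); complete them by generators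
`L.qk i k` to a basis `e_1, …, e_k` of `Q(z₀) = fib (QG L.qk) z₀` (dimension `k`: `WG.rk`).  `S_WCr` for `G = QG L.qk`, `r = k`:
`ρ`, `D`, `D(z₀) ≠ 0`.  `v = qs L ξ K`.  For `l > m`: `g_l = ∑_y ρ_l(y) v_y`, homogeneous.  `D v = ∑_l (∑_y ρ_l(y) v_y) e_l` modulo `J`
(the last claim of `S_WCr` for the generators, linear in `ξ`), so for `z ∈ zer J`, `D(z) ≠ 0`: `v(z) ∈ span (e_1(z), …, e_m(z)) =
F_K(z)` if `g_l(z) = 0` for `l > m`; and `g_l(z₀) = 0` since `v(z₀) ∈ F_K(z₀)` (apply `∑_y ρ_l(y)` to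
`v(z₀) = ∑_(l' ≤ m) c_l' e_l'(z₀)`).  `S_KrR` (`e = k - m`): `J'`.  At `z ∈ zer J'` with `D(z) ≠ 0` the claim holds.  In general: every
`(m+1) × (m+1)` minor of the matrix with the rows `e_1, …, e_m, v` is a form (`S_DetHom` with weights) and vanishes where
`D ≠ 0` on `zer J'`; so `D * minor ∈ J'` (`S_Null`), `D ∉ J'`, `minor ∈ J'`; so the rows are dependent at every `z ∈ zer J'`, and
`e_1(z), …, e_m(z)` are independent: `v(z) ∈ F_K(z)`.  `Fml I J' c a x`: `zer J' ⊆ zer J`. -/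
def S_Cut : Prop :=
  ∀ (N c a : ℕ) (I J : Ideal (Sx N)) (x : Vx N), 1 ≤ c → I.IsPrime → IsHom I → Smooth I c →
    Fml I J c a x → ∀ L : Loc I x c, ∀ (d : Fin c → ℕ) (K : ℕ) (B : Fin c → Fin c → ℂ),
    (∀ i, 1 ≤ d i) → Flag L d J K B → ∀ ξ : Fin c → ℂ, ∀ z₀ ∈ zer J, z₀ ≠ 0 →
    qv L ξ K z₀ ∈ Fj L K z₀ → ∀ δ : ℕ, DimGe J δ →
    ∃ J' : Ideal (Sx N), J ≤ J' ∧ Fml I J' c a x ∧ z₀ ∈ zer J' ∧
      DimGe J' (δ - (a - c - (FI d K).card)) ∧ ∀ z ∈ zer J', z ≠ 0 → qv L ξ K z ∈ Fj L K z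

/-- (Base) No conormal covector is constant along a line.

PROOF.  Suppose `q_ξ^0(z₀) = 0`.  `Flag L d J 0 B` holds for the standard basis and `d = 1` (`FI d 0 = ∅`, `mem` is void as
`1 ≤ d i`); `F_0 = 0`.  `S_Cut` (`K = 0`): `J'`, `DimGe J' (δ - (a - c))`, `q_ξ^0 = 0` on `zer J'`; `δ - (a - c) ≥ c + 1`.  `S_Psi` with
`f = ξ`, `w = 0`: the CONSTANT vector `η = (∑_b psi(l, inl b) ξ_b)_l` is in `CN I z` for all `z ∈ zer J'`, `z ≠ 0`, and `η ≠ 0` (there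
is such a `z`, `ξ ≠ 0`).  `S_Zak`: contradiction. -/
def S_Base : Prop :=
  ∀ (N c a δ : ℕ) (I J : Ideal (Sx N)) (x : Vx N), 1 ≤ c → c ≤ a → I.IsPrime → IsHom I →
    (∀ F ∈ I, F.IsHomogeneous 1 → F = 0) → Smooth I c → Fml I J c a x → DimGe J δ → a + 1 ≤ δ →
    ∀ L : Loc I x c, ∀ z ∈ zer J, z ≠ 0 → ∀ ξ : Fin c → ℂ, ξ ≠ 0 → qv L ξ 0 z ≠ 0

/-! ## 3. LEMMA NW -/

/-- (FE2) The functional equation, with the Hilbert series.  PROOF.  The proof of `S_WFE` (`W/FE.lean`) constructs these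
data; repeat it (or split it) and keep `c'` and the `QP`. -/
def S_FE2 : Prop :=
  ∀ (N c a : ℕ) (I J : Ideal (Sx N)), I.IsPrime → IsHom I → Smooth I c → J.IsPrime → IsHom J →
    I ≤ J → c ≤ a → DimGe J (a + c + 1) →
    ∀ (β : Type) [Fintype β] (ω : β → ℕ) (q : Fin c → ℕ → (β → Sx N))
      (M : Matrix β (Fin c ⊕ β) (Sx N)) (Ψ : Matrix (Fin (N + 1)) (Fin c ⊕ β) ℂ),
    WG I J a β ω q M Ψ → ∀ Q : ℕ → Polynomial ℤ,
    QP N c (fun k => Module.finrank ℂ (gr I k)) (Q 0) →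
    (∀ j, j ≤ c → ∃ p, QP N c (hV I (VL I j)) p ∧ Q j = Polynomial.X ^ j * p) →
    (∀ j, c < j → Q j = 0) →
    ∃ (c' : ℕ) (α : ℕ → Polynomial ℤ), c' + (a + c + 1) ≤ N + 1 ∧
      QP N c' (fun k => Module.finrank ℂ (gr J k)) (α 0) ∧
      (∀ j, QP N c' (hV J (LW (QG q) j)) (α j)) ∧ 0 < (α 0).eval 1 ∧
      ∀ m : ℕ, (1 - Polynomial.X) ^ (a + 1) ∣
        Q 0 * Polynomial.X ^ m * ∑ i ∈ Finset.range (m + 1), (Nat.choose c i : Polynomial ℤ) * α (m - i) -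
        ∑ i ∈ Finset.range (m + 1), Q i * α (m - i)

/-- The `γ j` are the numbers `1, …, d i - 1`, `i < c`, with multiplicities. -/
def GamOK {c k : ℕ} (d : Fin c → ℕ) (γ : Fin k → ℕ) : Prop :=
  (∀ j, 1 ≤ γ j) ∧ ∀ t, 1 ≤ t → Nat.card {j // γ j = t} = Nat.card {i // t < d i}

/-- (Fun) SOLUTION OF THE FUNCTIONAL EQUATION.

PROOF.  Work in `R[[t]]`, `R = ℤ[X]`, modulo `(1 - X)^(a+1)` (congruences of coefficients).  `H = ∑ α_m t^m`.  The hypothesis,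
with `Q_i ≡ e_i(X^d) Q_0` modulo `(1 - X)^(a+1)` (`dvd`, `N + 1 - 2 c ≥ a + 1`), and `Q_0(1) ≠ 0` (so `Q_0` is prime to `1 - X`; cancel
it): `(1 + X t)^c H(X t) ≡ ∏_i (1 + X^(d i) t) H(t)`.  `H₀ = ∏_j (1 + X^(γ j) t) = ∏_i ∏_(g = 1)^(d i - 1) (1 + X^g t)` (a polynomial in
`t` with constant term `1`, `= ∑_j e_j(X^γ) t^j`) satisfies the same equation exactly:
`(1 + X t)^c H₀(X t) = ∏_i ∏_(g=1)^(d i) (1 + X^g t)`.  `G = H / H₀` (`H₀` is invertible in `R[[t]]`): `G(X t) ≡ G(t)` (the factor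
`(1 + X t)^c H₀(X t)` is invertible), i.e. `(X^m - 1) g_m ≡ 0` modulo `(1 - X)^(a+1)`; for `m ≥ 1`
`(X^m - 1) = -(1 - X) (1 + … + X^(m-1))`, the second factor has the value `m ≠ 0` at `1`: `(1 - X)^a ∣ g_m` (`SDV`/`M/PC.lean`:
`dvd_of_unit`).  `g_0 = α_0`.  `H = G H₀`: `α_j ≡ e_j(X^γ) α_0` modulo `(1 - X)^a`.  (Without power series in `t`: define `g_m` by the
recursion `α_j = ∑_i g_(j-i) e_i(X^γ)` and prove `(1 - X)^a ∣ g_m`, `m ≥ 1`, by strong induction on `m`.) -/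
def S_Fun : Prop :=
  ∀ (c a m₀ k : ℕ) (d : Fin c → ℕ) (γ : Fin k → ℕ) (Q α : ℕ → Polynomial ℤ), a + 1 ≤ m₀ →
    (∀ i, 1 ≤ d i) → GamOK d γ → (Q 0).eval 1 ≠ 0 →
    (∀ j, (1 - Polynomial.X : Polynomial ℤ) ^ m₀ ∣ Q j - SDV.esd d j * Q 0) →
    (∀ m : ℕ, (1 - Polynomial.X : Polynomial ℤ) ^ (a + 1) ∣
      Q 0 * Polynomial.X ^ m * ∑ i ∈ Finset.range (m + 1), (Nat.choose c i : Polynomial ℤ) * α (m - i) -
      ∑ i ∈ Finset.range (m + 1), Q i * α (m - i)) →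
    ∀ j, (1 - Polynomial.X : Polynomial ℤ) ^ a ∣ α j - SDV.esd γ j * α 0

/-- (QN) THE NUMERICAL CLASS OF `Q`.

PROOF.  `γ`: an enumeration of the `k + 1`, `(i, k) ∈ FI d a` (cardinality `∑ (d i - 1) = a - c`).  `S_WGC`, `S_FE2` (with
`Q j = q j` for `j ≤ c` and `0` for `j > c`), `S_Fun` (`m₀ = N + 1 - 2 c ≥ a + 1`; for `j > c` `SDV.esd d j = 0`).  `e = N + 1 - c' - a`.
`(1 - X)^(N+1) (ps (hV J (LW … j)) - ∑_A X^(γ_A) ps (gr J)) = (1 - X)^c' (α_j - e_j(X^γ) α_0)`, divisible by `(1 - X)^(c' + a)`: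
so the difference of the functions is `Gw (e - 1)` (`M/PC.lean`: `pc2a`, `pc1`; compare `mPErr` in `M/Br.lean`, `esd_coeff`). -/
def S_QN : Prop :=
  ∀ (N c a : ℕ) (I J : Ideal (Sx N)) (d : Fin c → ℕ) (q : ℕ → Polynomial ℤ) (x : Vx N),
    UDat c a I d q → Fml I J c a x → DimGe J (a + c + 1) → ∀ L : Loc I x c,
    ∃ (γ : Fin (a - c) → ℕ) (e c' : ℕ) (h : Polynomial ℤ), GamOK d γ ∧ 1 ≤ e ∧ c' + e + a = N + 1 ∧
      QP N c' (fun k => Module.finrank ℂ (gr J k)) h ∧ 0 < h.eval 1 ∧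
      ∀ j ≤ a - c, Gw (e - 1) fun m => (hV J (LW (QG L.qk) j) m : ℤ) -
        ∑ A ∈ Finset.powersetCard j (Finset.univ : Finset (Fin (a - c))),
          (Module.finrank ℂ (gr J (m - ∑ i ∈ A, γ i)) : ℤ)

/-- The matrix `v ↦ σ ∧ v`: `(σ ∧ v)(y, y') = σ_y v_y' - σ_y' v_y`. -/
def wm {α : Type} [DecidableEq α] (σ : α → Sx N) : Matrix (α × α) α (Sx N) :=
  fun p b => (if b = p.2 then σ p.1 else 0) - (if b = p.1 then σ p.2 else 0)

/-- (NW1) ONE SECTION.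

PROOF.  `XD J ω ω' P G (wm σ) δ 1 k` (`W/Spec.lean`) with `P = {(σ, δ)}`, `ω'(y, y') = ω y + ω y'`: `σ ∈ Fam G δ` is weighted
homogeneous (WB (1)); `(wm σ) σ = 0`; at a point `p` `wm σ(p)` has the kernel `ℂ σ(p)` (`σ(p) ≠ 0`), so
`fib (MG (wm σ) δ G) p` has dimension `(k + 1) - 1`.  `S_WSum` (`zWSum`):
`hV J (LW G j) m = ∑_(i ≤ j) hV J (PV (LW P i) (LW G' (j - i))) (m + δ (j - i))` for large `m`, `G' = MG (wm σ) δ G`.  `LW P i = 0` for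
`i ≥ 2` (two equal rows).  `i = 0`: `LW P 0` consists of all forms (on the one point set `Fin 0 → α`), and
`hV J (PV (LW P 0) W) m = hV J W m`.  `i = 1`: `LW P 1 m` = the `a σ`, `a` a form of degree `m - δ` (`0` if `m < δ`);
`hV J (PV (LW P 1) W) m = hV J W (m - δ)` for `m ≥ δ` (the map `w ↦ σ ⊗ w` is injective modulo `J`: some entry `σ_y ∉ J`).  This
is (rec) with `m + δ` for `m`.  (0): `hV J (LW G 0) m = finrank (gr J m)`.  (van): `j > k + 1` rows in a space of dimension `k + 1`: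
the determinants vanish at all points (`S_WVan` for general `G`; `S_Null`). -/
def S_NW1 : Prop :=
  ∀ (N : ℕ) (α : Type) [Fintype α] [DecidableEq α] (ω : α → ℕ) (J : Ideal (Sx N)), J.IsPrime →
    IsHom J → (∃ p ∈ zer J, p ≠ 0) → ∀ (G : Gn N α) (k : ℕ), HG ω G →
    (∀ p ∈ zer J, p ≠ 0 → Module.finrank ℂ (fib G p) = k) →
    (∀ m, hV J (LW G 0) m = Module.finrank ℂ (gr J m)) ∧ (∀ j m, k < j → hV J (LW G j) m = 0) ∧
    ∀ (σ : α → Sx N) (δ : ℕ), σ ∈ Fam G δ → (∀ p ∈ zer J, p ≠ 0 → (fun y => eval p (σ y)) ≠ 0) →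
      HG (fun p : α × α => ω p.1 + ω p.2) (MG (wm σ) δ G) ∧
      (∀ p ∈ zer J, p ≠ 0 → Module.finrank ℂ (fib (MG (wm σ) δ G) p) + 1 = k) ∧
      ∀ j, ∀ᶠ m : ℕ in Filter.atTop, hV J (LW G (j + 1)) (m + δ) =
        hV J (LW (MG (wm σ) δ G) (j + 1)) (m + δ + δ * (j + 1)) + hV J (LW (MG (wm σ) δ G) j) (m + δ * j)

/-- (NWg) LEMMA N FOR MODULES.

PROOF.  `G_0 = G`, `σ_l^(0) = σ_l`, `s_0 = 0`; `G_(i+1) = MG (wm σ_i^(i)) (δ_i + s_i) G_i`, `σ_l^(i+1) = (wm σ_i^(i)).mulVec σ_l^(i)`,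
`s_(i+1) = 2 s_i + δ_i` (the types of the entries: `α_(i+1) = α_i × α_i`; define the sequence of tuples recursively or
prove the statement by induction on `q` for all `G`).  By induction `σ_l^(i) ∈ Fam G_i (δ_l + s_i)`, and for `l ≥ i` the values
`σ_l^(i)(p)` are independent (the kernel of `wm σ_i^(i)(p)` is the line of `σ_i^(i)(p)`).  `h i j m = hV J (LW G_i j) (m + s_i j)`.
`S_NW1` for `G_i`, `σ_i^(i)`, `δ_i + s_i`: for large `m`
`h i (j+1) (m + δ_i) = h (i+1) (j+1) (m + δ_i) + h (i+1) j m` (`i ≤ q`; check the shifts: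
`m + δ_i + s_i (j+1) + (δ_i + s_i)(j+1) = m + δ_i + s_(i+1) (j+1)`, and `m + s_i j + (δ_i + s_i) j = m + s_(i+1) j`),
`h i 0 m = finrank (gr J m)`, `h (q+1) j m = 0` for `q + 1 + j > k`.  `mPow (e - 1) k q γ f δ …` (`M/Pow.lean`) and `mGro`
(`M/Gro.lean`), as in `mNN` (`M/NN.lean`): `|finrank (gr J m)| ≤ C (m + 1)^((e - 1) + (k - q))`. -/
def S_NWg : Prop :=
  ∀ (N : ℕ) (α : Type) [Fintype α] [DecidableEq α] (ω : α → ℕ) (J : Ideal (Sx N)), J.IsPrime →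
    IsHom J → (∃ p ∈ zer J, p ≠ 0) → ∀ (G : Gn N α) (k : ℕ), HG ω G →
    (∀ p ∈ zer J, p ≠ 0 → Module.finrank ℂ (fib G p) = k) → ∀ (r : ℕ) (γ : Fin k → ℕ),
    (∀ j ≤ k, Gw r fun m => (hV J (LW G j) m : ℤ) -
      ∑ A ∈ Finset.powersetCard j (Finset.univ : Finset (Fin k)),
        (Module.finrank ℂ (gr J (m - ∑ i ∈ A, γ i)) : ℤ)) →
    ∀ (q : ℕ) (σ : Fin (q + 1) → (α → Sx N)) (δ : Fin (q + 1) → ℕ), (∀ l, σ l ∈ Fam G (δ l)) →
    (∀ p ∈ zer J, p ≠ 0 → LinearIndependent ℂ fun l => fun y => eval p (σ l y)) →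
    ∀ f : Fin q → Fin k, Function.Injective f → (∀ l, δ (Fin.castSucc l) = γ (f l)) →
    (∀ j, j ∉ Set.range f → γ j ≠ δ (Fin.last q)) →
    ∃ C : ℤ, ∀ᶠ m : ℕ in Filter.atTop, (Module.finrank ℂ (gr J m) : ℤ) ≤
      C * ((m : ℤ) + 1) ^ (r + (k - q))

/-- (NW) LEMMA NW.

PROOF.  `S_QN`: `γ`, `e`, `c'`, `h`.  The sections `σ l = qs L (ξ l) (k l) ∈ Fam (QG L.qk) (k l + 1)`.  Translate `f` into an
injection `f' : Fin q → Fin (a - c)` with `γ (f' l) = k l + 1` whose complement does not contain the value `k (last) + 1`: the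
number of `(i, k)`, `k + 1 < d i`, with `k + 1 = t` is `card {i | t < d i}` = the number of `j` with `γ j = t`
(`GamOK`).  `q + 1 ≤ a - c` (independent vectors in `Q(z)`; `J` has a zero `≠ 0`).  `S_NWg` (`r = e - 1`):
`finrank (gr J m) ≤ C (m + 1)^(e - 1 + (a - c - q))`, and `e - 1 + (a - c - q) < N - c' = e + a - 1` as `c ≥ 1`: contradiction to
`S_Gp` (2). -/
def S_NW : Prop :=
  ∀ (N c a : ℕ) (I J : Ideal (Sx N)) (d : Fin c → ℕ) (q : ℕ → Polynomial ℤ) (x : Vx N),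
    UDat c a I d q → Fml I J c a x → DimGe J (a + c + 1) → ∀ L : Loc I x c,
    ∀ (r : ℕ) (ξ : Fin (r + 1) → Fin c → ℂ) (k : Fin (r + 1) → ℕ),
    (∀ z ∈ zer J, z ≠ 0 → LinearIndependent ℂ fun l => qv L (ξ l) (k l) z) →
    ∀ f : Fin r → {p : Fin c × ℕ // p.2 + 1 < d p.1}, Function.Injective f →
    (∀ l, k (Fin.castSucc l) = (f l).1.2) → (∀ p, p ∉ Set.range f → p.1.2 ≠ k (Fin.last r)) → False

/-! ## 4. Flags -/

/-- (TL) All `d i ≥ 2`.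

PROOF.  `S_Base` (`δ = a + c + 1`): the `q_i^0(z)` (`i < c`, `ξ = e_i`) are independent at all points (`q_ξ^0(z) ≠ 0` for
`ξ ≠ 0`).  Suppose `ν ≥ 1` of the `d i` are `1`.  `S_NW` with `r + 1 = c - ν + 1 ≤ c` of the sections `q_i^0` (`k = 0`), `f` a bijection
of `Fin r` with `{(i, 0) | 1 < d i}`: contradiction. -/
def S_TL : Prop :=
  ∀ (N c a : ℕ) (I J : Ideal (Sx N)) (d : Fin c → ℕ) (q : ℕ → Polynomial ℤ) (x : Vx N),
    UDat c a I d q → Fml I J c a x → DimGe J (a + c + 1) → Nonempty (Loc I x c) → ∀ i, 2 ≤ d i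

/-- (Ex) EXISTENCE OF LIFTS.

PROOF.  Otherwise for all `z ∈ zer J`, `z ≠ 0` the classes of the `q_(W l)^K(z)` modulo `F_K(z)` are independent, and with the
frame vectors `q_(B i)^k(z)`, `(i, k) ∈ FI d K`, which are a basis of `F_K(z)` (`S_FB`), they are `card (FI d K) + r` independent
vectors.  `S_NW` with the frame first, then the `W l`; `f`: `(i, k) ↦ (i, k)` for the frame, and for `l < r - 1` (`r - 1 = ` number of
the `i` with `K + 1 < d i`) an enumeration of the `(i, K)`, `K + 1 < d i`; the last `W` is not matched, and all `(i, K)` are in the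
range of `f`. -/
def S_Ex : Prop :=
  ∀ (N c a : ℕ) (I J : Ideal (Sx N)) (d : Fin c → ℕ) (q : ℕ → Polynomial ℤ) (x : Vx N),
    UDat c a I d q → Fml I J c a x → DimGe J (a + c + 1) → ∀ L : Loc I x c,
    ∀ (K : ℕ) (B : Fin c → Fin c → ℂ), Flag L d J K B → ∀ r : ℕ,
    r = Nat.card {i : Fin c // K + 1 < d i} + 1 → ∀ W : Fin r → Fin c → ℂ, LinearIndependent ℂ W →
    ∃ z ∈ zer J, z ≠ 0 ∧ ∃ b : Fin r → ℂ, b ≠ 0 ∧ qv L (∑ l, b l • W l) K z ∈ Fj L K z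

/-- (Lf) LIFTS ARE SECTIONS.  `1 ≤ K`.

PROOF.  At `z ∈ zer J`, `z ≠ 0` let `cf` be the coefficients of `q_η^K(z)` in the basis `q_(B i)^k(z)`, `(i, k) ∈ FI d K`, of
`F_K(z)` (`S_FB`); `f = - ∑_((i, 0)) cf B_i`, `w = q_η^(K-1)(z) - ∑_((i, k), k ≥ 1) cf q_(B i)^(k-1)(z) ∈ F_K(z)`.  With the shift `m_z`
(`S_GQk` (4)): `q_f^0(z) + m_z w = q_η^K(z) - ∑ cf q_(B i)^k(z) = 0`.  `σ(z) = Ψ(f, w) ∈ CN I z` (`S_Psi`); `σ = 0` elsewhere.
REGULARITY: at `z₁` complete the frame to a basis of `Q(z₁)` by generators and take `ρ`, `D` (degree `δ'`) from `S_WCr` (as in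
`S_Cut`): `D(z) cf_p(z) = (∑_y ρ_p(y) qs L η K y)(z)` for all `z ∈ zer J`, `z ≠ 0` (apply `∑_y ρ_p(y)(z)` to the expansion of
`q_η^K(z)`), a form of degree `δ' + (K + 1) - (k + 1)` for `p = (i, k)`.  So the coordinates of `D(z) f`, `D(z) w(y)` are forms
of degree `δ' + K` (for `w(y)`: `q_(B i)^(k-1)` has degree `k + ω y`, in total `δ' + K + ω y`; only the `y` with
`y.1 + 1 = L.dg`, i.e. `ω y = 0`, contribute to `psi`): `σ(z) D(z)` has entries forms of degree `δ' + K = δ' + (K + 1) - 1`. -/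
def S_Lf : Prop :=
  ∀ (N c a : ℕ) (I J : Ideal (Sx N)) (x : Vx N), 1 ≤ c → I.IsPrime → IsHom I → Smooth I c →
    Fml I J c a x → ∀ L : Loc I x c, ∀ (d : Fin c → ℕ) (K : ℕ) (B : Fin c → Fin c → ℂ),
    (∀ i, 1 ≤ d i) → 1 ≤ K → Flag L d J K B → ∀ η : Fin c → ℂ,
    (∀ z ∈ zer J, z ≠ 0 → qv L η K z ∈ Fj L K z) →
    ∃ sig : Vx N → Vx N, IsSect I J (K + 1) sig ∧ ∀ z ∈ zer J, z ≠ 0 → ∃ cf : FI d K → ℂ,
      qv L η K z = ∑ p, cf p • qv L (B p.1.1) p.1.2 z ∧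
      ∀ l, sig z l =
        (∑ b, L.psi l (Sum.inl b) * (- ∑ p : FI d K, if p.1.2 = 0 then cf p * B p.1.1 b else 0)) +
        ∑ y, L.psi l (Sum.inr y) * (qv L η (K - 1) z y -
          ∑ p : FI d K, if 1 ≤ p.1.2 then cf p * qv L (B p.1.1) (p.1.2 - 1) z y else 0)

/-- (Up) UPPER BOUND FOR THE LIFTS.

PROOF.  Sections of `N_X^*` over `J`: for `d i ≤ K` `σ_i` of degree `d i`: `S_Lf` with `η = B i`, `K' = d i - 1 ≥ 1`
(`Flag L d J K' B` for `K' ≤ K`; `mem`); for `l ≤ μ` `σ'_l` of degree `K + 1`: `S_Lf` with `η l`, `K`.  `S_N2` (`mN2f` or `mN2 …`, with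
`numW`, `e = c`): `q = card {d i ≤ K} + μ`, `f` injective: `i ↦ i` and an enumeration of `{d i = K + 1}`; the last `σ'_μ` has the
degree `K + 1`, and no `j` outside the range has `d j = K + 1`.  So `¬ DimGe J (c + (c - q) + 1)`, and `S_Mono`.
INDEPENDENCE at `z`: let `∑ b_i σ_i(z) + ∑ b'_l σ'_l(z) = 0`.  With `(f, w)` of `S_Lf`: `Ψ` of the sum of the pairs is `0`; the pairs
satisfy the equation of `S_Psi`, `w ∈ Fj L K z`; so the sum of the pairs is `0` (`S_Psi`).  Let `κ` be the largest degree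
occurring with a nonzero coefficient (`κ = d i` or `K + 1`), `θ = ∑` of the corresponding `b ξ` (the vectors `B i` or `η l` of
this degree).  `κ ≥ 2`.  The `w`-part of an element of degree `κ' < κ` is in `F_(κ'-1)(z) ≤ F_(κ-2)(z)` (`w = q^(κ'-2) - …`,
superscripts `≤ κ' - 2`), the one of degree `κ` is `q_(..)^(κ-2)(z)` minus an element of `F_(κ-2)(z)` (superscripts
`≤ κ - 3`): so `q_θ^(κ-2)(z) ∈ F_(κ-2)(z)`.  `S_FB` (4) with `j = κ - 2 < K`: `θ ∈ span {B i | d i ≤ κ - 1}`.  By the independence of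
the `B i` (`d i ≤ K`) and `η l` all the coefficients of degree `κ` are `0`: contradiction. -/
def S_Up : Prop :=
  ∀ (N c a : ℕ) (I J : Ideal (Sx N)) (d : Fin c → ℕ) (q : ℕ → Polynomial ℤ) (x : Vx N),
    UDat c a I d q → (∀ i, 2 ≤ d i) → Fml I J c a x → ∀ L : Loc I x c,
    ∀ (K : ℕ) (B : Fin c → Fin c → ℂ), 1 ≤ K → Flag L d J K B →
    ∀ η : Fin (Nat.card {i : Fin c // d i = K + 1} + 1) → Fin c → ℂ,
    (∀ l, ∀ z ∈ zer J, z ≠ 0 → qv L (η l) K z ∈ Fj L K z) →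
    LinearIndependent ℂ (Sum.elim (fun i : {i : Fin c // d i ≤ K} => B i) η) → ¬ DimGe J (2 * c + 1)

/-- (St) ONE STEP.

PROOF.  `μ = card {d i = K + 1}`, `e' = a - c - card (FI d K)`.  (1) For `r = 0, …, μ` there are `J_r ≥ J`, `Fml`, `DimGe J_r (δ - r e')` and
`η_1, …, η_r`, independent together with the `B i`, `d i ≤ K`, with `q_(η l)^K(z) ∈ F_K(z)` on `zer J_r`.  Step `r < μ`: the span `U` of
the `B i` (`d i ≤ K`) and the `η_l` has dimension `card {d i ≤ K} + r ≤ c - card {K + 1 < d i} - 1`; choose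
`W : Fin (card {K + 1 < d i} + 1) → ℂ^c` independent with `span W ⊓ U = 0`; `S_Ex` for `J_r` (`DimGe J_r (a + c + 1)`; `Flag` restricts to
`J_r`): `z₀`, `η_(r+1) = ∑ b_l W_l ≠ 0`; `S_Cut`.
(2) UPPER BOUND: for `z₀ ∈ zer J_μ`, `z₀ ≠ 0`: if `q_θ^K(z₀) ∈ F_K(z₀)` then `θ ∈ span {B i (d i ≤ K), η_l}`: otherwise `S_Cut` for `J_μ`,
`θ` gives `J''` with `DimGe J'' (δ - μ e' - e')`, `≥ a + c + 1 - (a - c) = 2 c + 1`: contradiction to `S_Up`.
(3) `B'`: `B' i = B i` for `d i ≤ K`, the `η_l` for `d i = K + 1`, completed to a basis for `d i > K + 1`.  `mem`: clear.  `ind` on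
`zer J_μ`: let `∑_((i, k) ∈ FI d (K+1)) c_(i k) q_(B' i)^k(z) = 0`, `k₀` the largest `k` with some `c_(i k) ≠ 0`, `θ = ∑_i c_(i k₀) B'_i`
(sum over `d i > k₀ + 1`): `q_θ^(k₀)(z) ∈ F_(k₀)(z)`.  If `k₀ < K`: `S_FB` (4): `θ ∈ span {B i | d i ≤ k₀ + 1} = span {B' i | d i ≤ k₀ + 1}`, so
`c_(i k₀) = 0`.  If `k₀ = K`: (2). -/
def S_St : Prop :=
  ∀ (N c a : ℕ) (I J : Ideal (Sx N)) (d : Fin c → ℕ) (q : ℕ → Polynomial ℤ) (x : Vx N),
    UDat c a I d q → (∀ i, 2 ≤ d i) → Fml I J c a x → ∀ L : Loc I x c,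
    ∀ (K : ℕ) (B : Fin c → Fin c → ℂ), 1 ≤ K → Flag L d J K B → ∀ δ : ℕ, DimGe J δ →
    a + c + 1 + Nat.card {i : Fin c // d i = K + 1} * (a - c - (FI d K).card) ≤ δ →
    ∃ (J' : Ideal (Sx N)) (B' : Fin c → Fin c → ℂ), J ≤ J' ∧ Fml I J' c a x ∧
      Flag L d J' (K + 1) B' ∧
      DimGe J' (δ - Nat.card {i : Fin c // d i = K + 1} * (a - c - (FI d K).card))

/-- (Ch) THE LARGE FAMILY WITH CONSTANT FLAG.

PROOF.  (0) `UDat.cone` at `x`: `P`; a linear form `lam` with `lam(x) = 1`; `S_WCut` (closed form `zWCut` or similar, `D = N - a`): `J₀`,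
`DimGe J₀ (N - a)`; `Fml I J₀ c a x` (for `z ∈ zer J₀`, `z ≠ 0`: `lam(z) = 0`, so `x, z` are independent).  `N - a ≥ a + c + 1`.
`S_TL`: `2 ≤ d i`.  `S_Base`: `Flag L d J₀ 1 B` for the standard basis (`FI d 1` = all `(i, 0)`; `mem` void).
(1) `K = 1, 2, …, a - 1`: `S_St`.  The dimension: `a - c - card (FI d K) = ∑_j (d j - (K + 1))` (truncated), as
`card (FI d K) = ∑_i min(K, d i - 1)`, and `∑_(K = 1)^(a-1) card {d i = K + 1} ∑_j (d j - (K + 1)) = ∑_i ∑_j (d j - d i)`; so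
all conditions of `S_St` follow from the hypothesis on `N`. -/
def S_Ch : Prop :=
  ∀ (N c a : ℕ) (I : Ideal (Sx N)) (d : Fin c → ℕ) (q : ℕ → Polynomial ℤ),
    UDat c a I d q → 2 * a + c + 1 + ∑ i, ∑ j, (d j - d i) ≤ N → ∀ x ∈ zer I, x ≠ 0 →
    ∀ L : Loc I x c, (∀ i, 2 ≤ d i) ∧ ∃ (J₀ J : Ideal (Sx N)) (B : Fin c → Fin c → ℂ),
      Fml I J₀ c a x ∧ DimGe J₀ (N - a) ∧ J₀ ≤ J ∧ Fml I J c a x ∧ DimGe J (a + c + 1) ∧
      Flag L d J a B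

end Pool.Agent.Lib.MP_776403_ag.SD.U
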