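import Pool.Agent.Lib.MP_776403_ag.SD.U.SpecA

/-!
# (Gp) Growth of a Hilbert series
-/

set_option autoImplicit false

noncomputable section

namespace Pool.Agent.Lib.MP_776403_ag.SD.U

open Polynomial Filter

namespace GpAux

/-- The values of a Hilbert series with the numerator `h`. -/
theorem val {N c' n : ℕ} {f : ℕ → ℕ} {h : Polynomial ℤ} (hN : N = c' + n) (hq : QP N c' f h)
    (m : ℕ) (hm : h.natDegree ≤ m) :
    (f m : ℤ) = ∑ i ∈ Finset.range (h.natDegree + 1), h.coeff i * ((n + (m - i)).choose n : ℤ) := by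
  unfold QP at hq
  have e : N + 1 = c' + (n + 1) := by omega
  rw [e, pow_add, mul_assoc, Polynomial.coe_mul, Polynomial.coe_pow, Polynomial.coe_sub,
    Polynomial.coe_one, Polynomial.coe_X] at hq
  have hne : (1 - PowerSeries.X : PowerSeries ℤ) ≠ 0 := by
    intro h0
    have := congrArg (PowerSeries.coeff 0) h0
    simp at this
  have h2 := mul_left_cancel₀ (pow_ne_zero c' hne) hq
  have h1 : (PowerSeries.mk fun k => (Nat.choose (n + k) n : ℤ)) *
      ((1 - PowerSeries.X) ^ (n + 1)) = 1 :=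
    PowerSeries.mk_add_choose_mul_one_sub_pow_eq_one ℤ n
  have h3 : ps f = (h : PowerSeries ℤ) * PowerSeries.mk fun k => (Nat.choose (n + k) n : ℤ) := by
    rw [← h2, mul_comm, ← mul_assoc, h1, one_mul]
  have h4 : (f m : ℤ) = PowerSeries.coeff m (ps f) := by
    unfold ps
    rw [PowerSeries.coeff_mk]
  rw [h4, h3, PowerSeries.coeff_mul, Finset.Nat.sum_antidiagonal_eq_sum_range_succ_mk]
  simp only [Polynomial.coeff_coe, PowerSeries.coeff_mk]
  refine (Finset.sum_subset ?_ ?_).symm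
  · intro i hi
    rw [Finset.mem_range] at hi ⊢
    omega
  · intro i _ hi
    rw [Finset.mem_range] at hi
    rw [Polynomial.coeff_eq_zero_of_natDegree_lt (by omega), zero_mul]

theorem lim1 (a : ℝ) : Tendsto (fun m : ℕ => ((m : ℝ) + a) / (m : ℝ)) atTop (nhds 1) := by
  have h1 : Tendsto (fun m : ℕ => 1 + a / (m : ℝ)) atTop (nhds (1 + 0)) :=
    tendsto_const_nhds.add (tendsto_const_div_atTop_nhds_zero_nat a)
  rw [add_zero] at h1
  refine h1.congr' ?_
  filter_upwards [eventually_gt_atTop 0] with m hm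
  have : (m : ℝ) ≠ 0 := by exact_mod_cast hm.ne'
  field_simp

theorem limc (n i : ℕ) :
    Tendsto (fun m : ℕ => (n.factorial : ℝ) * (((n + (m - i)).choose n : ℕ) : ℝ) / (m : ℝ) ^ n)
      atTop (nhds 1) := by
  have hl : Tendsto (fun m : ℕ => (((m : ℝ) + (-(i : ℝ))) / (m : ℝ)) ^ n) atTop (nhds 1) := by
    simpa using (lim1 (-(i : ℝ))).pow n
  have hu : Tendsto (fun m : ℕ => (((m : ℝ) + ((n : ℝ) - (i : ℝ))) / (m : ℝ)) ^ n) atTop
      (nhds 1) := by
    simpa using (lim1 ((n : ℝ) - (i : ℝ))).pow n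
  refine tendsto_of_tendsto_of_tendsto_of_le_of_le' hl hu ?_ ?_
  · filter_upwards [eventually_ge_atTop i, eventually_gt_atTop 0] with m hm hm0
    rw [div_pow]
    refine div_le_div_of_nonneg_right ?_ (by positivity)
    have e1 : ((m : ℝ) + (-(i : ℝ))) = ((m - i : ℕ) : ℝ) := by
      rw [Nat.cast_sub hm]; ring
    rw [e1]
    have h5 : (m - i) ^ n ≤ n.factorial * (n + (m - i)).choose n := by
      rw [add_comm n (m - i), ← Nat.ascFactorial_eq_factorial_mul_choose]
      exact (Nat.pow_le_pow_left (Nat.le_succ _) n).trans (Nat.pow_succ_le_ascFactorial _ n)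
    exact_mod_cast h5
  · filter_upwards [eventually_ge_atTop i, eventually_gt_atTop 0] with m hm hm0
    rw [div_pow]
    refine div_le_div_of_nonneg_right ?_ (by positivity)
    have e1 : ((m : ℝ) + ((n : ℝ) - (i : ℝ))) = (((m - i) + n : ℕ) : ℝ) := by
      push_cast
      rw [Nat.cast_sub hm]; ring
    rw [e1]
    have h5 : n.factorial * (n + (m - i)).choose n ≤ ((m - i) + n) ^ n := by
      rw [add_comm n (m - i), ← Nat.ascFactorial_eq_factorial_mul_choose]
      exact Nat.ascFactorial_le_pow_add _ n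
    exact_mod_cast h5

theorem lim0 (n r : ℕ) (hr : r < n) (C : ℝ) :
    Tendsto (fun m : ℕ => (n.factorial : ℝ) * (C * ((m : ℝ) + 1) ^ r) / (m : ℝ) ^ n)
      atTop (nhds 0) := by
  have h1 : Tendsto (fun m : ℕ => (((m : ℝ) + 1) / (m : ℝ)) ^ r) atTop (nhds 1) := by
    simpa using (lim1 1).pow r
  have h2 : Tendsto (fun m : ℕ => ((n.factorial : ℝ) * C) / (m : ℝ) ^ (n - r)) atTop (nhds 0) := by
    have h3 : Tendsto (fun m : ℕ => (m : ℝ) ^ (n - r)) atTop atTop :=
      (tendsto_pow_atTop (by omega)).comp tendsto_natCast_atTop_atTop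
    exact h3.const_div_atTop _
  have h4 := h1.mul h2
  rw [mul_zero] at h4
  refine h4.congr' ?_
  filter_upwards [eventually_gt_atTop 0] with m hm
  have hm0 : (m : ℝ) ≠ 0 := by exact_mod_cast hm.ne'
  have e : (m : ℝ) ^ n = (m : ℝ) ^ r * (m : ℝ) ^ (n - r) := by
    rw [← pow_add]; congr 1; omega
  rw [e, div_pow]
  have h6 : (m : ℝ) ^ r ≠ 0 := pow_ne_zero _ hm0
  have h7 : (m : ℝ) ^ (n - r) ≠ 0 := pow_ne_zero _ hm0
  field_simp

end GpAux

open GpAux in
/-- (Gp). -/
theorem tGp : S_Gp := by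
  intro N c' f h hc hq
  obtain ⟨n, hn⟩ : ∃ n, N - c' = n := ⟨_, rfl⟩
  have hN : N = c' + n := by omega
  rw [hn]
  have key : Tendsto (fun m : ℕ => (n.factorial : ℝ) * (f m : ℝ) / (m : ℝ) ^ n)
      atTop (nhds ((h.eval 1 : ℤ) : ℝ)) := by
    have h1 : Tendsto (fun m : ℕ => ∑ i ∈ Finset.range (h.natDegree + 1), (h.coeff i : ℝ) *
        ((n.factorial : ℝ) * (((n + (m - i)).choose n : ℕ) : ℝ) / (m : ℝ) ^ n)) atTop
        (nhds (∑ i ∈ Finset.range (h.natDegree + 1), (h.coeff i : ℝ) * 1)) :=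
      tendsto_finsetSum _ fun i _ => (limc n i).const_mul _
    have h2 : (∑ i ∈ Finset.range (h.natDegree + 1), (h.coeff i : ℝ) * 1) =
        ((h.eval 1 : ℤ) : ℝ) := by
      rw [Polynomial.eval_eq_sum_range]
      push_cast
      simp
    rw [h2] at h1
    refine h1.congr' ?_
    filter_upwards [eventually_ge_atTop h.natDegree] with m hm
    have h3 := val hN hq m hm
    have h4 : (f m : ℝ) = ∑ i ∈ Finset.range (h.natDegree + 1),
        (h.coeff i : ℝ) * (((n + (m - i)).choose n : ℕ) : ℝ) := by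
      have := congrArg (fun z : ℤ => (z : ℝ)) h3
      push_cast at this
      exact_mod_cast this
    rw [h4, Finset.mul_sum, Finset.sum_div]
    refine Finset.sum_congr rfl fun i _ => ?_
    ring
  refine ⟨key, fun hpos C r hr hev => ?_⟩
  have h0 := lim0 n r hr (C : ℝ)
  have hle : ((h.eval 1 : ℤ) : ℝ) ≤ 0 := by
    refine le_of_tendsto_of_tendsto key h0 ?_
    filter_upwards [hev] with m hm
    refine div_le_div_of_nonneg_right ?_ (by positivity)
    refine mul_le_mul_of_nonneg_left ?_ (by positivity)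
    have : ((f m : ℤ) : ℝ) ≤ ((C * ((m : ℤ) + 1) ^ r : ℤ) : ℝ) := by exact_mod_cast hm
    push_cast at this
    exact this
  have : (0 : ℝ) < ((h.eval 1 : ℤ) : ℝ) := by exact_mod_cast hpos
  linarith

end Pool.Agent.Lib.MP_776403_ag.SD.U
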