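import Pool.Agent.Lib.MP_776403_ag.SD.U.SpecA
import Pool.Agent.Lib.MP_776403_ag.SD.Q1.Kr
import Pool.Agent.Lib.MP_776403_ag.SD.Z.MainW

/-!
# THEOREM U, part A: the Hilbert series of `X` from the degree
-/

set_option autoImplicit false

open MvPolynomial

noncomputable section

namespace Pool.Agent.Lib.MP_776403_ag.SD.U

namespace QDAux

/-- A function with growth of order `a` divided by a larger power. -/
theorem lim_zero (f : ℕ → ℝ) (a s : ℕ) (A B D : ℝ) (hA : A ≠ 0)
    (h : Filter.Tendsto (fun m : ℕ => A * f m / (m : ℝ) ^ a) Filter.atTop (nhds D)) :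
    Filter.Tendsto (fun m : ℕ => B * f m / (m : ℝ) ^ (a + (s + 1))) Filter.atTop (nhds 0) := by
  have h1 : Filter.Tendsto (fun m : ℕ => ((m : ℝ) ^ (s + 1))⁻¹) Filter.atTop (nhds 0) :=
    ((Filter.tendsto_pow_atTop (Nat.succ_ne_zero s)).comp
      (tendsto_natCast_atTop_atTop (R := ℝ))).inv_tendsto_atTop
  have h2 := (h.mul h1).const_mul (B / A)
  rw [mul_zero, mul_zero] at h2
  refine h2.congr' ?_
  filter_upwards [Filter.eventually_gt_atTop 0] with m hm
  have hm' : (m : ℝ) ≠ 0 := by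
    have : 0 < (m : ℝ) := by exact_mod_cast hm
    exact this.ne'
  field_simp
  ring

end QDAux

/-- (QD) The Hilbert series of `X`. -/
theorem tQD (h : S_Gp) : S_QD := by
  intro N c D I hc hI hIh hS hne hdeg
  have hd : DimGe I (N + 1 - c) := Q1.dimGe_smooth c I hIh hS hne
  rw [show N + 1 - c = N - c + 1 by omega] at hd
  obtain ⟨c', q, hc', hQ, hq⟩ := zWQP N (N - c) I hI hIh hd
  obtain ⟨g1, -⟩ := h N c' (fun k => Module.finrank ℂ (gr I k)) q (by omega) hQ
  have hcc : c' = c := by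
    by_contra hcon
    obtain ⟨s, hs⟩ : ∃ s, c = c' + (s + 1) := ⟨c - c' - 1, by omega⟩
    have h1 := QDAux.lim_zero (fun m => (Module.finrank ℂ (gr I m) : ℝ)) (N - c) s
      ((N - c).factorial : ℝ) ((N - c').factorial : ℝ) (D : ℝ)
      (by exact_mod_cast (N - c).factorial_ne_zero) hdeg
    rw [show N - c + (s + 1) = N - c' by omega] at h1
    have h2 := tendsto_nhds_unique g1 h1
    have h3 : q.eval 1 = 0 := by exact_mod_cast h2
    omega
  subst hcc
  have h2 := tendsto_nhds_unique g1 hdeg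
  have h3 : q.eval 1 = (D : ℤ) := by exact_mod_cast h2
  exact ⟨q, hQ, h3, hq⟩

end Pool.Agent.Lib.MP_776403_ag.SD.U
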