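import Pool.Agent.Lib.MP_776403_ag.SD.U.SpecC
import Pool.Agent.Lib.MP_776403_ag.SD.Mono

/-!
# THEOREM U: no conormal covector is constant along a line

`tBase (h1 : S_Cut) (h2 : S_Psi) (h3 : S_Zak) : S_Base`.
-/

set_option autoImplicit false

open MvPolynomial

noncomputable section

namespace Pool.Agent.Lib.MP_776403_ag.SD.U

namespace BaseAux

variable {N : ℕ} {I : Ideal (Sx N)} {x : Vx N} {c : ℕ}

theorem Fj_zero (L : Loc I x c) (z : Vx N) : Fj L 0 z = ⊥ := by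
  have h : {w : L.Ix → ℂ | ∃ (ξ : Fin c → ℂ) (k : ℕ), k < 0 ∧ w = qv L ξ k z} = ∅ := by
    ext w
    simp
  rw [Fj, h, Submodule.span_empty]

theorem FI_zero (d : Fin c → ℕ) : FI d 0 = ∅ := by
  rw [FI, Finset.range_zero, Finset.product_empty, Finset.filter_empty]

end BaseAux

/-- (Base) No conormal covector is constant along a line. -/
theorem tBase (h1 : S_Cut) (h2 : S_Psi) (h3 : S_Zak) : S_Base := by
  intro N c a δ I J x hc hca hI hIh hnd hsm hF hD hδ L z₀ hz₀ hz₀0 ξ hξ h0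
  have hFI : (FI (fun _ : Fin c => 1) 0).card = 0 := by
    rw [BaseAux.FI_zero, Finset.card_empty]
  have hempty : IsEmpty (FI (fun _ : Fin c => 1) 0) := by
    rw [BaseAux.FI_zero]
    exact Finset.isEmpty_coe_sort.2 rfl
  have hflag : Flag L (fun _ => 1) J 0 (fun i => Pi.single i 1) := by
    refine ⟨Pi.linearIndependent_single_one (Fin c) ℂ, fun z _ _ => ?_, fun z _ _ i hi => ?_⟩
    · exact linearIndependent_empty_type
    · exact absurd hi (by norm_num)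
  obtain ⟨J', hJJ', hF', hz', hD', hq⟩ := h1 N c a I J x hc hI hIh hsm hF L (fun _ => 1) 0
    (fun i => Pi.single i 1) (fun _ => le_refl 1) hflag ξ z₀ hz₀ hz₀0
    (by rw [h0]; exact Submodule.zero_mem _) δ hD
  rw [hFI, Nat.sub_zero] at hD'
  have hq0 : ∀ z ∈ zer J', z ≠ 0 → qv L ξ 0 z = 0 := by
    intro z hz hz0
    have h4 := hq z hz hz0
    rw [BaseAux.Fj_zero] at h4
    exact (Submodule.mem_bot ℂ).1 h4
  have hpsi : ∀ z ∈ zer J', z ≠ 0 →
      (fun l => ∑ b, L.psi l (Sum.inl b) * ξ b + ∑ y, L.psi l (Sum.inr y) * (0 : L.Ix → ℂ) y) ∈ CN I z ∧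
      ((∀ l, ∑ b, L.psi l (Sum.inl b) * ξ b + ∑ y, L.psi l (Sum.inr y) * (0 : L.Ix → ℂ) y = 0) →
        ξ = 0 ∧ (0 : L.Ix → ℂ) = 0) := by
    intro z hz hz0
    refine h2 N c a I J' x hc hI hIh hsm hF' L z hz hz0 ξ 0 0 (Submodule.zero_mem _) fun y => ?_
    rw [hq0 z hz hz0]
    simp
  refine h3 N c I hI hIh hnd hsm J' hF'.prime hF'.hom hF'.le _ ?_ (fun y hy hy0 => (hpsi y hy hy0).1)
    (tMono _ J' _ (c + 1) (by omega) hD')
  intro hη
  exact hξ ((hpsi z₀ hz' hz₀0).2 (fun l => congrFun hη l)).1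

end Pool.Agent.Lib.MP_776403_ag.SD.U
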