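import Pool.Agent.Lib.MP_776403_ag.SD.U.SpecC
import Pool.Agent.Lib.MP_776403_ag.SD.Z.MainW
import Pool.Agent.Lib.MP_776403_ag.SD.L.Cn

/-!
# (FB) Linear algebra of the spaces `F_j(z)` (helper58)
-/

set_option autoImplicit false

open MvPolynomial

noncomputable section

namespace Pool.Agent.Lib.MP_776403_ag.SD.U

namespace FBAux

section

variable {c : ℕ} {W : Type} [AddCommGroup W] [Module ℂ W] (q : ℕ → (Fin c → ℂ) →ₗ[ℂ] W) (m : W →ₗ[ℂ] W)

/-- the span of the `q k ξ`, `k < j` -/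
def F (j : ℕ) : Submodule ℂ W := Submodule.span ℂ {w | ∃ (ξ : Fin c → ℂ) (k : ℕ), k < j ∧ w = q k ξ}

theorem mem_FJ {d : Fin c → ℕ} {K : ℕ} {p : Fin c × ℕ} : p ∈ FI d K ↔ p.2 < K ∧ p.2 + 1 < d p.1 := by
  simp [FI]

theorem F_mono {i j : ℕ} (h : i ≤ j) : F q i ≤ F q j :=
  Submodule.span_mono fun _ ⟨ξ, k, hk, e⟩ => ⟨ξ, k, hk.trans_le h, e⟩

theorem mem_F (ξ : Fin c → ℂ) {k j : ℕ} (h : k < j) : q k ξ ∈ F q j := Submodule.subset_span ⟨ξ, k, h, rfl⟩

variable {q m}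

theorem shift (hm : ∀ k ξ, m (q k ξ) = q (k + 1) ξ) {ξ : Fin c → ℂ} {k : ℕ} (h : q k ξ ∈ F q k) : q (k + 1) ξ ∈ F q (k + 1) := by
  have h1 : F q k ≤ (F q (k + 1)).comap m := by
    refine Submodule.span_le.mpr ?_
    rintro w ⟨η, i, hi, rfl⟩
    change m (q i η) ∈ F q (k + 1)
    rw [hm]
    exact mem_F q η (by omega)
  have h2 := h1 h
  rw [Submodule.mem_comap, hm] at h2
  exact h2

theorem shifts (hm : ∀ k ξ, m (q k ξ) = q (k + 1) ξ) {ξ : Fin c → ℂ} {k l : ℕ} (hkl : k ≤ l) (h : q k ξ ∈ F q k) :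
    q l ξ ∈ F q l := by
  induction l, hkl using Nat.le_induction with
  | base => exact h
  | succ l _ ih => exact shift hm ih

variable {d : Fin c → ℕ} {K : ℕ} {B : Fin c → Fin c → ℂ}

theorem exp (hB : LinearIndependent ℂ B) (ξ : Fin c → ℂ) : ∃ b : Fin c → ℂ, ξ = ∑ i, b i • B i := by
  have h1 : Submodule.span ℂ (Set.range B) = ⊤ :=
    hB.span_eq_top_of_card_eq_finrank' (by simp)
  have h2 : ξ ∈ Submodule.span ℂ (Set.range B) := by rw [h1]; trivial
  obtain ⟨b, hb⟩ := (Submodule.mem_span_range_iff_exists_fun ℂ).mp h2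
  exact ⟨b, hb.symm⟩

/-- the frame -/
def fr (q : ℕ → (Fin c → ℂ) →ₗ[ℂ] W) (B : Fin c → Fin c → ℂ) (d : Fin c → ℕ) (j : ℕ) : FI d j → W :=
  fun p => q p.1.2 (B p.1.1)

theorem fr_mono {i j : ℕ} (h : i ≤ j) : Submodule.span ℂ (Set.range (fr q B d i)) ≤ Submodule.span ℂ (Set.range (fr q B d j)) := by
  refine Submodule.span_mono ?_
  rintro w ⟨p, rfl⟩
  have hp := mem_FJ.mp p.2
  exact ⟨⟨p.1, mem_FJ.mpr ⟨hp.1.trans_le h, hp.2⟩⟩, rfl⟩

theorem low (hd : ∀ i, 1 ≤ d i) (hm : ∀ k ξ, m (q k ξ) = q (k + 1) ξ)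
    (hmem : ∀ i, d i ≤ K → q (d i - 1) (B i) ∈ F q (d i - 1)) {j : ℕ} (hj : j < K) {i : Fin c} (hi : ¬ j + 1 < d i) :
    q j (B i) ∈ F q j := by
  have := hd i
  exact shifts hm (by omega) (hmem i (by omega))

theorem span_eq (hB : LinearIndependent ℂ B) (hd : ∀ i, 1 ≤ d i) (hm : ∀ k ξ, m (q k ξ) = q (k + 1) ξ)
    (hmem : ∀ i, d i ≤ K → q (d i - 1) (B i) ∈ F q (d i - 1)) {j : ℕ} (hj : j ≤ K) :
    F q j = Submodule.span ℂ (Set.range (fr q B d j)) := by
  refine le_antisymm ?_ ?_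
  · induction j with
    | zero =>
      refine Submodule.span_le.mpr ?_
      rintro w ⟨ξ, k, hk, rfl⟩
      omega
    | succ j ih =>
      have ih' := (ih (by omega)).trans (fr_mono (q := q) (B := B) (d := d) (Nat.le_succ j))
      refine Submodule.span_le.mpr ?_
      rintro w ⟨ξ, k, hk, rfl⟩
      rcases Nat.lt_succ_iff_lt_or_eq.mp hk with h | rfl
      · exact ih' (mem_F q ξ h)
      · obtain ⟨b, rfl⟩ := exp hB ξ
        rw [map_sum]
        refine Submodule.sum_mem _ fun i _ => ?_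
        rw [map_smul]
        refine Submodule.smul_mem _ _ ?_
        by_cases hi : k + 1 < d i
        · exact Submodule.subset_span ⟨⟨(i, k), mem_FJ.mpr ⟨Nat.lt_succ_self k, hi⟩⟩, rfl⟩
        · exact ih' (low hd hm hmem (by omega) hi)
  · refine Submodule.span_le.mpr ?_
    rintro w ⟨p, rfl⟩
    exact mem_F q _ (mem_FJ.mp p.2).1

theorem ind_le (hI : LinearIndependent ℂ (fr q B d K)) {j : ℕ} (hj : j ≤ K) : LinearIndependent ℂ (fr q B d j) := by
  have h := hI.comp (fun p : FI d j => (⟨p.1, mem_FJ.mpr ⟨(mem_FJ.mp p.2).1.trans_le hj, (mem_FJ.mp p.2).2⟩⟩ : FI d K))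
    (fun p p' e => Subtype.ext (congrArg (fun x : FI d K => x.1) e))
  exact h

theorem fin_eq (hI : LinearIndependent ℂ (fr q B d K)) (hB : LinearIndependent ℂ B) (hd : ∀ i, 1 ≤ d i)
    (hm : ∀ k ξ, m (q k ξ) = q (k + 1) ξ) (hmem : ∀ i, d i ≤ K → q (d i - 1) (B i) ∈ F q (d i - 1)) {j : ℕ} (hj : j ≤ K) :
    Module.finrank ℂ (F q j) = (FI d j).card := by
  rw [span_eq hB hd hm hmem hj, finrank_span_eq_card (ind_le hI hj), Fintype.card_coe]

theorem top (hI : LinearIndependent ℂ (fr q B d K)) (hB : LinearIndependent ℂ B) (hd : ∀ i, 1 ≤ d i)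
    (hm : ∀ k ξ, m (q k ξ) = q (k + 1) ξ) (hmem : ∀ i, d i ≤ K → q (d i - 1) (B i) ∈ F q (d i - 1)) {j : ℕ} (hj : j < K)
    {ξ : Fin c → ℂ} (h : q j ξ ∈ F q j) : ξ ∈ Submodule.span ℂ (B '' {i | d i ≤ j + 1}) := by
  classical
  obtain ⟨b, rfl⟩ := exp hB ξ
  set P : Fin c → Prop := fun i => j + 1 < d i with hP
  have hmemP : ∀ i : {i : Fin c // P i}, ((i.1, j) : Fin c × ℕ) ∈ FI d K := fun i => mem_FJ.mpr ⟨hj, i.2⟩
  have hsplit := Finset.sum_filter_add_sum_filter_not Finset.univ P fun i => b i • q j (B i)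
  have hsub : ∑ i ∈ Finset.univ.filter P, b i • q j (B i) = ∑ i : {i : Fin c // P i}, b i.1 • q j (B i.1) :=
    Finset.sum_subtype (Finset.univ.filter P) (fun x => by simp) fun i => b i • q j (B i)
  have h0 : q j (∑ i, b i • B i) = ∑ i, b i • q j (B i) := by simp [map_sum]
  have h1 : ∑ i : {i : Fin c // P i}, b i.1 • q j (B i.1) ∈ F q j := by
    rw [← hsub]
    have e : ∑ i ∈ Finset.univ.filter P, b i • q j (B i) = q j (∑ i, b i • B i) -
        ∑ i ∈ Finset.univ.filter (fun i => ¬ P i), b i • q j (B i) := by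
      rw [h0, ← hsplit, add_sub_cancel_right]
    rw [e]
    refine Submodule.sub_mem _ h (Submodule.sum_mem _ fun i hi => Submodule.smul_mem _ _ ?_)
    exact low hd hm hmem hj (Finset.mem_filter.mp hi).2
  have hdis := hI.disjoint_span_image (s := {p | p.1.2 < j}) (t := {p | p.1.2 = j})
    (Set.disjoint_left.mpr fun p (hp : p.1.2 < j) (hp' : p.1.2 = j) => absurd hp' hp.ne)
  have h2 : ∑ i : {i : Fin c // P i}, b i.1 • q j (B i.1) ∈ Submodule.span ℂ (fr q B d K '' {p | p.1.2 < j}) := by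
    rw [span_eq hB hd hm hmem hj.le] at h1
    refine Submodule.span_mono ?_ h1
    rintro w ⟨p, rfl⟩
    have hp := mem_FJ.mp p.2
    exact ⟨⟨p.1, mem_FJ.mpr ⟨hp.1.trans hj, hp.2⟩⟩, hp.1, rfl⟩
  have h3 : ∑ i : {i : Fin c // P i}, b i.1 • q j (B i.1) ∈ Submodule.span ℂ (fr q B d K '' {p | p.1.2 = j}) := by
    refine Submodule.sum_mem _ fun i _ => Submodule.smul_mem _ _ (Submodule.subset_span ?_)
    exact ⟨⟨(i.1, j), hmemP i⟩, rfl, rfl⟩
  have h4 : ∑ i : {i : Fin c // P i}, b i.1 • q j (B i.1) = 0 := Submodule.disjoint_def.mp hdis _ h2 h3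
  have h5 : LinearIndependent ℂ fun i : {i : Fin c // P i} => q j (B i.1) :=
    hI.comp (fun i : {i : Fin c // P i} => (⟨(i.1, j), hmemP i⟩ : FI d K))
      (fun i i' e => Subtype.ext (congrArg (fun x : FI d K => x.1.1) e))
  have h6 := Fintype.linearIndependent_iff.mp h5 (fun i => b i.1) h4
  refine Submodule.sum_mem _ fun i _ => ?_
  by_cases hi : P i
  · have : b i = 0 := h6 ⟨i, hi⟩
    rw [this, zero_smul]
    exact Submodule.zero_mem _
  · exact Submodule.smul_mem _ _ (Submodule.subset_span ⟨i, by simpa [hP] using hi, rfl⟩)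

end

section

variable {N c a : ℕ} {I J : Ideal (Sx N)} {x : Vx N}

/-- `ξ ↦ q_ξ^k(z)` -/
def ql (L : Loc I x c) (z : Vx N) (k : ℕ) : (Fin c → ℂ) →ₗ[ℂ] (L.Ix → ℂ) where
  toFun ξ := qv L ξ k z
  map_add' ξ η := by
    funext y
    simp [qv, qs, add_mul, Finset.sum_add_distrib]
  map_smul' r ξ := by
    funext y
    simp [qv, qs, mul_assoc, Finset.mul_sum]

/-- the shift -/
def ms (L : Loc I x c) (z : Vx N) : (L.Ix → ℂ) →ₗ[ℂ] (L.Ix → ℂ) where
  toFun w := fun y => ∑ y', eval z (L.mm y (Sum.inr y')) * w y'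
  map_add' v w := by
    funext y
    simp [mul_add, Finset.sum_add_distrib]
  map_smul' r w := by
    funext y
    simp only [Pi.smul_apply, smul_eq_mul, RingHom.id_apply, Finset.mul_sum]
    exact Finset.sum_congr rfl fun _ _ => by ring

theorem ql_apply (L : Loc I x c) (z : Vx N) (k : ℕ) (ξ : Fin c → ℂ) (y : L.Ix) :
    ql L z k ξ y = ∑ i, ξ i * eval z (L.qk i k y) := by
  simp [ql, qv, qs]

theorem ms_ql (L : Loc I x c) (z : Vx N) (k : ℕ) (ξ : Fin c → ℂ) : ms L z (ql L z k ξ) = ql L z (k + 1) ξ := by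
  funext y
  rw [ql_apply]
  change ∑ y', eval z (L.mm y (Sum.inr y')) * ql L z k ξ y' = _
  simp only [ql_apply, Finset.mul_sum]
  rw [Finset.sum_comm]
  refine Finset.sum_congr rfl fun i _ => ?_
  rw [← (zGQk N c I x L i k).2.2.2 y, map_sum, Finset.mul_sum]
  refine Finset.sum_congr rfl fun y' _ => ?_
  rw [map_mul]
  ring

/-- `Q(z)` -/
def Qz (L : Loc I x c) (z : Vx N) : Submodule ℂ (L.Ix → ℂ) :=
  Submodule.span ℂ (Set.range fun ik : Fin c × ℕ => fun y : L.Ix => eval z (L.qk ik.1 ik.2 y))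

theorem ql_mem (L : Loc I x c) (z : Vx N) (k : ℕ) (ξ : Fin c → ℂ) : ql L z k ξ ∈ Qz L z := by
  have e : ql L z k ξ = ∑ i, ξ i • fun y : L.Ix => eval z (L.qk i k y) := by
    funext y
    rw [ql_apply, Finset.sum_apply]
    rfl
  rw [e]
  exact Submodule.sum_mem _ fun i _ => Submodule.smul_mem _ _ (Submodule.subset_span ⟨(i, k), rfl⟩)

theorem F_le (L : Loc I x c) (z : Vx N) (j : ℕ) : Fj L j z ≤ Qz L z := by
  refine Submodule.span_le.mpr ?_
  rintro w ⟨ξ, k, -, rfl⟩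
  exact ql_mem L z k ξ

theorem isLine (h : Fml I J c a x) {z : Vx N} (hz : z ∈ zer J) (hz0 : z ≠ 0) : IsLine I x z := by
  refine ⟨?_, h.line z hz⟩
  obtain ⟨lam, h1, h2, h3⟩ := h.lam
  rw [LinearIndependent.pair_iff]
  intro s t hst
  have h4 := CnAux.eval_lin h1 x z s t
  have h0 : eval (0 : Vx N) lam = 0 := by
    have := CnAux.eval_lin h1 x z 0 0
    simpa using this
  rw [hst, h0, h2, hz lam h3, mul_one, mul_zero, add_zero] at h4
  rw [← h4, zero_smul, zero_add] at hst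
  exact ⟨h4.symm, (smul_eq_zero.mp hst).resolve_right hz0⟩

theorem rk (h : Fml I J c a x) (hp : I.IsPrime) (hh : IsHom I) (hs : Smooth I c) (L : Loc I x c) {z : Vx N} (hz : z ∈ zer J)
    (hz0 : z ≠ 0) : Module.finrank ℂ (Qz L z) + c = a :=
  zGRk N c a I hp hh hs x z (isLine h hz hz0) (h.deg z hz hz0) L

end

end FBAux

open FBAux

theorem tFB : S_FB := by
  intro N c a I J x _ hp hh hs hF L z hz hz0
  have hm : ∀ k ξ, ms L z (ql L z k ξ) = ql L z (k + 1) ξ := ms_ql L z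
  have hr := rk hF hp hh hs L hz hz0
  refine ⟨?_, ?_, ?_, ?_⟩
  · intro ξ k h
    exact shift (q := ql L z) hm h
  · intro j
    have := Submodule.finrank_mono (F_le L z j)
    omega
  · intro j hj ξ k
    have h1 : Fj L j z = Qz L z := Submodule.eq_of_le_of_finrank_le (F_le L z j) (by omega)
    rw [h1]
    exact ql_mem L z k ξ
  · intro d K B hd hfl
    have hI : LinearIndependent ℂ (fr (ql L z) B d K) := hfl.ind z hz hz0
    have hmem : ∀ i, d i ≤ K → ql L z (d i - 1) (B i) ∈ F (ql L z) (d i - 1) := hfl.mem z hz hz0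
    exact ⟨fun j hj => span_eq hfl.bas hd hm hmem hj, fun j hj => fin_eq hI hfl.bas hd hm hmem hj,
      fun j hj ξ h => top hI hfl.bas hd hm hmem hj h⟩

end Pool.Agent.Lib.MP_776403_ag.SD.U
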