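import Pool.Agent.Lib.MP_776403_ag.SD.U.SpecC
import Pool.Agent.Lib.MP_776403_ag.SD.UN.Spec

/-!
# THEOREM U, the bridge from part C (constant flags) to the interface `UN.FT` (lines of type `d`)

`S_Xyz` is proved in `SD/U/Xyz.lean` (theorem `SD.U.tXyz`).  Chart of the line: `z + σ x`, `lin z x F = F(z + σ x)`;
`σ = ∞` is the point `x`.
-/

set_option autoImplicit false

open MvPolynomial

noncomputable section

namespace Pool.Agent.Lib.MP_776403_ag.SD.U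

variable {N : ℕ}

/-- The conormal vector at `x` with the `B`-coordinates `ξ`. -/
def xv {I : Ideal (Sx N)} {x : Vx N} {c : ℕ} (L : Loc I x c) (ξ : Fin c → ℂ) : Vx N :=
  fun j => (eval x L.dt)⁻¹ * ∑ b, eval x (L.coef b j) * ξ b

/-- (VL) LIFTS ON ONE LINE.

PROOF.  (1) `qv L ξ K z ∈ Fj L K z`: there are `η k ∈ ℂ^c`, `k < K`, with `qv L ξ K z = ∑_(k < K) qv L (η k) k z` (induction
on the span: sums and multiples of `qv L ξ' k z`, `k < K`, are of this form; `qv` is linear in `ξ`).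
`g b = C (ξ b) X^K - ∑_(k < K) C (η k b) X^k`.  By `S_GQk` (1) (`WG/Spec.lean`, closed `zGQk`; `L.kap z (σ^k e_i) = q_i^k(z)`):
`L.kap z g = 0`, i.e. for all `j` the polynomial `(∑_b lin z x (coef b j) g_b) %ₘ (L.Db.map (eval z))` has the coefficients
`0` below `L.dg = deg Db`, so it is `0` (`degree_modByMonic_lt`), and `Db.map (eval z) = C (Δ(x))⁻¹ * lin z x Δ` (`S_GDb`)
divides: `lin z x Δ * p j = ∑_b lin z x (coef b j) g_b`.
(2) `lin z x Δ` has degree exactly `L.dg` and the leading coefficient `Δ(x)` (`S_Hom`, `S_LinB`: the coefficient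
`m` of `lin z x F`, `F` a form of degree `m`, is `F(x)`), `lin z x (coef b j)` has degree `≤ L.dg` and the coefficient
`coef b j (x)` at `L.dg`.  So `deg (p j) ≤ K` and `(p j).coeff K = Δ(x)⁻¹ ∑_b coef b j (x) ξ_b`.
(3) `w ∈ TF I` with entries forms of degree `m`: `∑_j p j * lin z x (w j) = 0`: multiply by `lin z x Δ ≠ 0`:
`∑_b g_b lin z x (∑_j coef b j w j)`, and `∑_j coef b j * w j = ∑_i adj(M)_(b i) ∑_j ∂_j F_i w_j ∈ I` (`coef b j` is the
combination of the `∂_j F_i` with the adjugate matrix: definition of `Loc.coef`), and `lin z x` vanishes on `I`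
(`IsLine`).  REFLECTION: for a form `F` of degree `m`, `lin x z F = (lin z x F).reflect m` (`S_LinB`, or coefficients), and
`reflect (K + m) (p q) = reflect K p * reflect m q` for `deg p ≤ K`, `deg q ≤ m` (`Polynomial.reflect_mul`).  So
`∑_j (p j).reflect K * lin x z (w j) = 0`. -/
def S_VL : Prop :=
  ∀ (N c : ℕ) (I : Ideal (Sx N)), I.IsPrime → IsHom I → Smooth I c → ∀ x z : Vx N, IsLine I x z →
    ∀ (L : Loc I x c) (K : ℕ) (ξ : Fin c → ℂ), qv L ξ K z ∈ Fj L K z →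
    ∃ (g : Fin c → Polynomial ℂ) (p : Fin (N + 1) → Polynomial ℂ),
      (∀ b, g b - Polynomial.C (ξ b) * Polynomial.X ^ K ∈ Polynomial.degreeLT ℂ K) ∧
      (∀ j, lin z x L.dt * p j = ∑ b, lin z x (L.coef b j) * g b) ∧
      (∀ j, p j ∈ Polynomial.degreeLT ℂ (K + 1)) ∧ (∀ j, (p j).coeff K = xv L ξ j) ∧
      (fun j => (p j).reflect K) ∈ Sec I x z (K + 1)

/-- (VK) The converse.

PROOF.  `g b = C (θ b) X^K + ∑_(k < K) C ((g b).coeff k) X^k`, so `L.kap z g = qv L θ K z + ∑_(k < K) qv L (fun b => (g b).coeff k) k z`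
(`S_GQk` (1)), and `L.kap z g = 0` because `Db.map (eval z) = C (Δ(x))⁻¹ * lin z x Δ` divides (`S_GDb`,
`Polynomial.modByMonic_eq_zero_iff_dvd`). -/
def S_VK : Prop :=
  ∀ (N c : ℕ) (I : Ideal (Sx N)) (x z : Vx N) (L : Loc I x c) (K : ℕ) (θ : Fin c → ℂ)
    (g : Fin c → Polynomial ℂ),
    (∀ b, g b - Polynomial.C (θ b) * Polynomial.X ^ K ∈ Polynomial.degreeLT ℂ K) →
    (∀ j, lin z x L.dt ∣ ∑ b, lin z x (L.coef b j) * g b) → qv L θ K z ∈ Fj L K z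

/-- (VT) THE LINES OF A FAMILY WITH CONSTANT FLAG ARE OF TYPE `d`.

PROOF.  `z ∈ zer J`, `z ≠ 0`: `IsLine I x z` (`Fml.line`; independence: a linear form is `1` at `x`, `0` at `z`).
`d i ≤ a`; `Flag.mem`: `qv L (B i) (d i - 1) z ∈ Fj L (d i - 1) z`.  `S_VL` (`K = d i - 1`): `g_i`, `p_i`;
`s i j = (p_i j).reflect (d i - 1)`, `(s i j).coeff 0 = (p_i j).coeff (d i - 1) = xv L (B i) j`.
INDEPENDENCE at `(σ, τ)`: let `∑_i b_i hval (s i) (d i) σ τ = 0`, `b ≠ 0`.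
If `τ = 0`: `σ ≠ 0` and `hval (s i) (d i) σ 0 = σ^(d i - 1) xv L (B i)`; `xv L ξ (L.B b') = ξ b'` (`coef b (B b') = δ_(b b') Δ`: the adjugate
matrix, `S_Cr`/`S_CrL` or the definition), so `∑ b_i σ^(d i - 1) B i = 0`, contradiction to `Flag.bas`.
If `τ ≠ 0`: `hval (s i) (d i) σ τ l = τ^(d i - 1) eval (σ / τ) (p_i l)`.  `b'_i = b_i τ^(d i - 1)`, `t = σ / τ`: `p = ∑ b'_i p_i` vanishes at
`t`; `p l = (X - C t) p' l`.  The `B`-coordinates: `lin z x Δ * p_i (B b) = lin z x Δ * g_i b` (`coef b' (B b) = δ Δ`), so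
`g_i b = p_i (B b)` (`lin z x Δ ≠ 0`), `g = ∑ b'_i g_i` satisfies `g b = (X - C t) p' (B b)`, and
`lin z x Δ * p' j = ∑_b lin z x (coef b j) * p' (B b)` (cancel `X - C t`).  Let `m` be the maximum of the `d i` with `b_i ≠ 0`,
`θ = ∑_(d i = m) b'_i B i ≠ 0`; `g b = C (θ b) X^(m-1) + ` lower terms.  `m = 1`: `g` is the constant `θ`, and vanishes at `t`:
contradiction.  `m ≥ 2`: `p' (B b) = C (θ b) X^(m-2) + ` lower terms, so `S_VK` (`K = m - 2`): `qv L θ (m - 2) z ∈ Fj L (m - 2) z`.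
`S_FB` (4) (`K = a`, `j = m - 2 < a`): `θ ∈ span {B i | d i ≤ m - 1}`, contradiction to `Flag.bas`. -/
def S_VT : Prop :=
  ∀ (N c a : ℕ) (I J : Ideal (Sx N)) (x : Vx N), 1 ≤ c → I.IsPrime → IsHom I → Smooth I c →
    Fml I J c a x → ∀ (L : Loc I x c) (d : Fin c → ℕ) (B : Fin c → Fin c → ℂ), (∀ i, 1 ≤ d i) →
    ∑ i, d i = a → Flag L d J a B → ∀ z ∈ zer J, z ≠ 0 →
    IsLine I x z ∧ ∃ s : Fin c → (Fin (N + 1) → Polynomial ℂ),
      UN.Ty I x z d s ∧ ∀ i l, (s i l).coeff 0 = xv L (B i) l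

/-- (V3) THE OUTPUT OF PART C.

PROOF.  `L : Loc I x c` (`S_Loc`, closed `mLoc`); `S_Ch`: `J₀`, `J`, `B`.  `J` is the cone of `FT`, `ξ i = xv L (B i)`:
independent, as `xv L ξ (L.B b) = ξ b` (see `S_VT`).  `Fml.lam`: the linear form `lam` is `lf lam'`, `lam' i` = its coefficients
(`eval (Pi.single i 1) lam`; a form of degree `1` is the sum of its coefficients times the variables), `dp lam' x = 1`.
`dim`: `a + c + 1 ≥ a + 2` (`S_Mono`: `DimGe J δ → δ' ≤ δ → DimGe J δ'`, or `tMono`).  `ty`: `S_VT`. -/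
def S_V3 : Prop :=
  ∀ (N c a : ℕ) (I : Ideal (Sx N)) (d : Fin c → ℕ) (q : ℕ → Polynomial ℤ),
    UDat c a I d q → 2 * a + c + 1 + ∑ i, ∑ j, (d j - d i) ≤ N → (∀ i, 2 ≤ d i) ∧
    ∀ x ∈ zer I, x ≠ 0 → ∃ (lam : Vx N) (ξ : Fin c → Vx N) (J : Ideal (Sx N)),
      UN.FT I d x lam ξ J ∧ ∀ z ∈ zer J, z ≠ 0 → DegEq I c (∑ i, d i) x z

end Pool.Agent.Lib.MP_776403_ag.SD.U
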