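import Pool.Agent.Lib.MP_776403_ag.SD.U.SpecV
import Pool.Agent.Lib.MP_776403_ag.SD.E.Hom
import Pool.Agent.Lib.MP_776403_ag.SD.E.LinB
import Pool.Agent.Lib.MP_776403_ag.SD.WG.GTx
import Pool.Agent.Lib.MP_776403_ag.SD.WG.GMod
import Pool.Agent.Lib.MP_776403_ag.SD.WG.GDb
import Pool.Agent.Lib.MP_776403_ag.SD.WG.GQk
import Pool.Agent.Lib.MP_776403_ag.SD.WG.GSat

/-!
# THEOREM U, module VK: the converse (kernel of the map `kap`)
-/

set_option autoImplicit false

open MvPolynomial

noncomputable section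

namespace Pool.Agent.Lib.MP_776403_ag.SD.U

namespace VKAux

variable {N c : ℕ} {I : Ideal (Sx N)} {x : Vx N}

/-- The value of `κ_z` at `σ^k ξ`. -/
theorem kap_qv (hQk : S_GQk) (L : Loc I x c) (z : Vx N) (ξ : Fin c → ℂ) (k : ℕ) :
    L.kap z (fun b => Polynomial.C (ξ b) * Polynomial.X ^ k) = qv L ξ k z := by
  have h1 : (fun b => Polynomial.C (ξ b) * Polynomial.X ^ k : Fin c → Polynomial ℂ) =
      ∑ i, ξ i • (Pi.single i (Polynomial.X ^ k) : Fin c → Polynomial ℂ) := by
    funext b
    rw [Finset.sum_apply, Finset.sum_eq_single b]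
    · rw [Pi.smul_apply, Pi.single_eq_same, Polynomial.smul_eq_C_mul]
    · intro i _ hi
      rw [Pi.smul_apply, Pi.single_eq_of_ne (Ne.symm hi), smul_zero]
    · intro h
      exact absurd (Finset.mem_univ b) h
  rw [h1, map_sum]
  funext y
  rw [Finset.sum_apply]
  unfold qv qs
  rw [map_sum]
  refine Finset.sum_congr rfl fun i _ => ?_
  rw [map_smul, (hQk N c I x L i k).1 z, Pi.smul_apply, smul_eq_mul, map_mul, eval_C]

end VKAux

open VKAux in
theorem tVK : S_VK := by
  intro N c I x z L K θ g hg hdvd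
  have hHom : S_Hom := eHom eLinB
  have hDb : S_GDb := tGDb hHom tGTx
  have hQk : S_GQk := tGQk hHom tGTx tGMod hDb
  have h0 : L.kap z g = 0 := (GSatAux.kap_iff hDb L z g).2 hdvd
  have h1 : g = (fun b => Polynomial.C (θ b) * Polynomial.X ^ K) +
      ∑ k ∈ Finset.range K, (fun b => Polynomial.C ((g b).coeff k) * Polynomial.X ^ k) := by
    funext b
    rw [Pi.add_apply, Finset.sum_apply]
    ext n
    have hb := Polynomial.mem_degreeLT.1 (hg b)
    rw [Polynomial.coeff_add, Polynomial.finsetSum_coeff]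
    simp only [Polynomial.coeff_C_mul, Polynomial.coeff_X_pow]
    by_cases hn : n < K
    · rw [if_neg (by omega), mul_zero, zero_add, Finset.sum_eq_single n]
      · rw [if_pos rfl, mul_one]
      · intro k _ hk
        rw [if_neg (Ne.symm hk), mul_zero]
      · intro h
        exact absurd (Finset.mem_range.2 hn) h
    · have h2 : (g b - Polynomial.C (θ b) * Polynomial.X ^ K).coeff n = 0 :=
        Polynomial.coeff_eq_zero_of_degree_lt (lt_of_lt_of_le hb (by exact_mod_cast not_lt.1 hn))
      rw [Polynomial.coeff_sub, Polynomial.coeff_C_mul, Polynomial.coeff_X_pow, sub_eq_zero] at h2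
      rw [h2, Finset.sum_eq_zero, add_zero]
      intro k hk
      have := Finset.mem_range.1 hk
      rw [if_neg (by omega), mul_zero]
  rw [h1, map_add, map_sum, kap_qv hQk] at h0
  have h3 : qv L θ K z = -∑ k ∈ Finset.range K,
      L.kap z (fun b => Polynomial.C ((g b).coeff k) * Polynomial.X ^ k) := eq_neg_of_add_eq_zero_left h0
  rw [h3]
  refine Submodule.neg_mem _ (Submodule.sum_mem _ fun k hk => ?_)
  rw [kap_qv hQk]
  exact Submodule.subset_span ⟨_, k, Finset.mem_range.1 hk, rfl⟩

end Pool.Agent.Lib.MP_776403_ag.SD.U
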