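import Pool.Agent.Lib.MP_776403_ag.SD.U.SpecV
import Pool.Agent.Lib.MP_776403_ag.SD.U.FB
import Pool.Agent.Lib.MP_776403_ag.SD.U.St
import Pool.Agent.Lib.MP_776403_ag.SD.E.CrL
import Pool.Agent.Lib.MP_776403_ag.SD.Bas

/-!
# THEOREM U: the lines of a family with constant flag are of type `d`

`tVT (h1 : S_VL) (h2 : S_VK) (h3 : S_FB) : S_VT`.
-/

set_option autoImplicit false

open MvPolynomial

noncomputable section

namespace Pool.Agent.Lib.MP_776403_ag.SD.U

namespace VTAux

variable {N : ℕ}

theorem hval_zero (s : Fin (N + 1) → Polynomial ℂ) (n : ℕ) (hn : 1 ≤ n) (σ : ℂ) (l : Fin (N + 1)) :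
    hval s n σ 0 l = σ ^ (n - 1) * (s l).coeff 0 := by
  change ∑ j ∈ Finset.range n, (s l).coeff j * σ ^ (n - 1 - j) * (0 : ℂ) ^ j = _
  rw [Finset.sum_eq_single_of_mem 0 (Finset.mem_range.2 hn)]
  · rw [pow_zero, mul_one, Nat.sub_zero, mul_comm]
  · intro j _ hj
    rw [zero_pow hj, mul_zero]

theorem hval_reflect (p : Fin (N + 1) → Polynomial ℂ) (n : ℕ) (hn : 1 ≤ n)
    (hp : ∀ j, p j ∈ Polynomial.degreeLT ℂ n) (σ τ : ℂ) (hτ : τ ≠ 0) (l : Fin (N + 1)) :
    hval (fun j => (p j).reflect (n - 1)) n σ τ l = τ ^ (n - 1) * (p l).eval (σ / τ) := by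
  obtain ⟨k, rfl⟩ : ∃ k, n = k + 1 := ⟨n - 1, by omega⟩
  rw [Nat.add_sub_cancel]
  change ∑ j ∈ Finset.range (k + 1), ((p l).reflect k).coeff j * σ ^ (k + 1 - 1 - j) * τ ^ j = _
  rw [← homog_val (hp l) hτ σ, ← Finset.sum_range_reflect]
  refine Finset.sum_congr rfl fun j hj => ?_
  have hj' : j ≤ k := Nat.lt_succ_iff.mp (Finset.mem_range.mp hj)
  rw [Nat.add_sub_cancel, Polynomial.coeff_reflect, Polynomial.revAt_le (Nat.sub_le k j),
    Nat.sub_sub_self hj']
  ring

section

variable {I J : Ideal (Sx N)} {x : Vx N} {c a : ℕ}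

theorem coef_B (L : Loc I x c) (b' b : Fin c) :
    L.coef b' (L.B b) = if b' = b then L.dt else 0 := CrLAux.adj_M L b' b

theorem xv_B (L : Loc I x c) (ξ : Fin c → ℂ) (b : Fin c) : xv L ξ (L.B b) = ξ b := by
  have h : eval x L.dt ≠ 0 := L.detx
  change (eval x L.dt)⁻¹ * ∑ b', eval x (L.coef b' (L.B b)) * ξ b' = ξ b
  rw [Finset.sum_eq_single b]
  · rw [coef_B, if_pos rfl, inv_mul_cancel_left₀ h]
  · intro b' _ hb
    rw [coef_B, if_neg hb, map_zero, zero_mul]
  · intro hb
    exact absurd (Finset.mem_univ b) hb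

theorem lin_dt_ne (L : Loc I x c) (z : Vx N) : lin z x L.dt ≠ 0 := by
  intro h
  obtain ⟨hm, -, -, -, hz⟩ := zGDb N c I x L
  have h1 := hz z
  rw [h, mul_zero] at h1
  exact (hm.map (eval z)).ne_zero h1

/-- `(X - t) r` of degree `< k + 1` implies `r` of degree `< k`. -/
theorem deg_div {r : Polynomial ℂ} {t : ℂ} {k : ℕ}
    (h : (Polynomial.X - Polynomial.C t) * r ∈ Polynomial.degreeLT ℂ (k + 1)) :
    r ∈ Polynomial.degreeLT ℂ k := by
  by_cases h0 : r = 0
  · rw [h0]
    exact Submodule.zero_mem _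
  · rw [Polynomial.mem_degreeLT, Polynomial.degree_mul, Polynomial.degree_X_sub_C,
      Polynomial.degree_eq_natDegree h0] at h
    rw [Polynomial.mem_degreeLT, Polynomial.degree_eq_natDegree h0]
    have h1 : 1 + r.natDegree < k + 1 := by exact_mod_cast h
    have h2 : r.natDegree < k := by omega
    exact_mod_cast h2

theorem C_mul_mem {p : Polynomial ℂ} {n : ℕ} (b : ℂ) (h : p ∈ Polynomial.degreeLT ℂ n) :
    Polynomial.C b * p ∈ Polynomial.degreeLT ℂ n := by
  rw [← Polynomial.smul_eq_C_mul]
  exact Submodule.smul_mem _ _ h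

theorem CX_mem (b : ℂ) {k n : ℕ} (h : k < n) :
    Polynomial.C b * Polynomial.X ^ k ∈ Polynomial.degreeLT ℂ n := by
  rw [Polynomial.mem_degreeLT]
  refine lt_of_le_of_lt (Polynomial.degree_C_mul_X_pow_le k b) ?_
  exact_mod_cast h

theorem key (h2 : S_VK) (h3 : S_FB) (hc : 1 ≤ c) (hI : I.IsPrime) (hIh : IsHom I)
    (hsm : Smooth I c) (hF : Fml I J c a x) (L : Loc I x c) (d : Fin c → ℕ)
    (B : Fin c → Fin c → ℂ) (hd : ∀ i, 1 ≤ d i) (hda : ∀ i, d i ≤ a) (hB : Flag L d J a B)
    (z : Vx N) (hz : z ∈ zer J) (hz0 : z ≠ 0) (g : Fin c → Fin c → Polynomial ℂ)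
    (p : Fin c → Fin (N + 1) → Polynomial ℂ)
    (hg : ∀ i b, g i b - Polynomial.C (B i b) * Polynomial.X ^ (d i - 1) ∈
      Polynomial.degreeLT ℂ (d i - 1))
    (hp : ∀ i j, lin z x L.dt * p i j = ∑ b, lin z x (L.coef b j) * g i b)
    (b : Fin c → ℂ) (t : ℂ) (h0 : ∀ l, ∑ i, b i * (p i l).eval t = 0) (m : ℕ)
    (hm : ∀ i, m < d i → b i = 0) : ∀ i, d i = m → b i = 0 := by
  intro i₀ hi₀
  have hm1 : 1 ≤ m := hi₀ ▸ hd i₀
  have hma : m ≤ a := hi₀ ▸ hda i₀
  set P : Fin (N + 1) → Polynomial ℂ := fun l => ∑ i, Polynomial.C (b i) * p i l with hP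
  set G : Fin c → Polynomial ℂ := fun b' => ∑ i, Polynomial.C (b i) * g i b' with hG
  have hroot : ∀ l, ∃ q, P l = (Polynomial.X - Polynomial.C t) * q := by
    intro l
    refine Polynomial.dvd_iff_isRoot.2 ?_
    rw [Polynomial.IsRoot.def, hP, Polynomial.eval_finsetSum, ← h0 l]
    exact Finset.sum_congr rfl fun i _ => by rw [Polynomial.eval_mul, Polynomial.eval_C]
  choose p' hp' using hroot
  have hPG : ∀ j, lin z x L.dt * P j = ∑ b', lin z x (L.coef b' j) * G b' := by
    intro j
    simp only [hP, hG, Finset.mul_sum]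
    rw [Finset.sum_comm]
    refine Finset.sum_congr rfl fun i _ => ?_
    rw [mul_left_comm, hp i j, Finset.mul_sum]
    exact Finset.sum_congr rfl fun b' _ => by ring
  have hGB : ∀ b', G b' = P (L.B b') := by
    intro b'
    refine mul_left_cancel₀ (lin_dt_ne L z) ?_
    rw [hPG (L.B b'), Finset.sum_eq_single b']
    · rw [coef_B, if_pos rfl]
    · intro b'' _ hb
      rw [coef_B, if_neg hb, map_zero, zero_mul]
    · intro hb
      exact absurd (Finset.mem_univ b') hb
  have hp2 : ∀ j, lin z x L.dt * p' j = ∑ b', lin z x (L.coef b' j) * p' (L.B b') := by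
    intro j
    refine mul_left_cancel₀ (Polynomial.X_sub_C_ne_zero t) ?_
    rw [mul_left_comm, ← hp' j, hPG j, Finset.mul_sum]
    refine Finset.sum_congr rfl fun b' _ => ?_
    rw [hGB b', hp' (L.B b')]
    ring
  set θ : Fin c → ℂ := ∑ i, (if d i = m then b i else 0) • B i with hθ
  have hθb : ∀ b', θ b' = ∑ i, (if d i = m then b i else 0) * B i b' := by
    intro b'
    rw [hθ, Finset.sum_apply]
    rfl
  have hGθ : ∀ b', G b' - Polynomial.C (θ b') * Polynomial.X ^ (m - 1) ∈
      Polynomial.degreeLT ℂ (m - 1) := by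
    intro b'
    rw [hθb, map_sum, Finset.sum_mul, hG, ← Finset.sum_sub_distrib]
    refine Submodule.sum_mem _ fun i _ => ?_
    rcases lt_trichotomy (d i) m with h | h | h
    · rw [if_neg (by omega), zero_mul, map_zero, zero_mul, sub_zero]
      refine C_mul_mem _ ?_
      have h5 : g i b' = (g i b' - Polynomial.C (B i b') * Polynomial.X ^ (d i - 1)) +
          Polynomial.C (B i b') * Polynomial.X ^ (d i - 1) := by ring
      rw [h5]
      have h6 := hd i
      exact Submodule.add_mem _ (Polynomial.degreeLT_mono (by omega) (hg i b')) (CX_mem _ (by omega))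
    · rw [if_pos h, ← h]
      have h5 : Polynomial.C (b i) * g i b' - Polynomial.C (b i * B i b') * Polynomial.X ^ (d i - 1) =
          Polynomial.C (b i) * (g i b' - Polynomial.C (B i b') * Polynomial.X ^ (d i - 1)) := by
        rw [map_mul]
        ring
      rw [h5]
      exact C_mul_mem _ (hg i b')
    · rw [if_neg (by omega), hm i h, map_zero, zero_mul, zero_mul, map_zero, zero_mul, sub_zero]
      exact Submodule.zero_mem _
  have hθm : θ ∈ Submodule.span ℂ (B '' {i | d i ≤ m - 1}) := by
    rcases Nat.eq_or_lt_of_le hm1 with h | h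
    · have h5 : θ = 0 := by
        funext b'
        have h6 := hGθ b'
        rw [← h] at h6
        have h7 : G b' - Polynomial.C (θ b') = 0 := by
          rw [Nat.sub_self, pow_zero, mul_one, Polynomial.mem_degreeLT] at h6
          exact Polynomial.degree_eq_bot.1 (by
            rcases h8 : (G b' - Polynomial.C (θ b')).degree with _ | n
            · rfl
            · rw [h8] at h6
              exact absurd h6 (by
                change ¬ ((n : ℕ) : WithBot ℕ) < ((0 : ℕ) : WithBot ℕ)
                exact_mod_cast Nat.not_lt_zero n))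
        have h8 := congrArg (Polynomial.eval t) h7
        rw [hGB b', hp' (L.B b'), Polynomial.eval_sub, Polynomial.eval_mul, Polynomial.eval_sub,
          Polynomial.eval_X, Polynomial.eval_C, sub_self, zero_mul, zero_sub, Polynomial.eval_C,
          Polynomial.eval_zero] at h8
        exact neg_eq_zero.1 h8
      rw [h5]
      exact Submodule.zero_mem _
    · obtain ⟨k, rfl⟩ : ∃ k, m = k + 2 := ⟨m - 2, by omega⟩
      have h5 : ∀ b', p' (L.B b') - Polynomial.C (θ b') * Polynomial.X ^ k ∈
          Polynomial.degreeLT ℂ k := by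
        intro b'
        refine deg_div (t := t) ?_
        have h6 : (Polynomial.X - Polynomial.C t) *
            (p' (L.B b') - Polynomial.C (θ b') * Polynomial.X ^ k) =
            (G b' - Polynomial.C (θ b') * Polynomial.X ^ (k + 1)) +
              Polynomial.C t * (Polynomial.C (θ b') * Polynomial.X ^ k) := by
          rw [hGB b', hp' (L.B b'), pow_succ]
          ring
        rw [h6]
        exact Submodule.add_mem _ (hGθ b') (C_mul_mem _ (CX_mem _ (Nat.lt_succ_self k)))
      have h6 := h2 N c I x z L k θ (fun b' => p' (L.B b')) h5 fun j => ⟨p' j, (hp2 j).symm⟩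
      exact ((h3 N c a I J x hc hI hIh hsm hF L z hz hz0).2.2.2 d a B hd hB).2.2 k (by omega) θ h6
  have h7 := StAux.coef_zero B hB.bas {i | d i ≤ m - 1} (fun i => if d i = m then b i else 0) hθm i₀
    (by
      intro h
      have h' : d i₀ ≤ m - 1 := h
      omega)
  have h8 : (if d i₀ = m then b i₀ else 0) = 0 := h7
  rwa [if_pos hi₀] at h8

end

end VTAux

open VTAux in
/-- (VT) THE LINES OF A FAMILY WITH CONSTANT FLAG ARE OF TYPE `d`. -/
theorem tVT (h1 : S_VL) (h2 : S_VK) (h3 : S_FB) : S_VT := by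
  intro N c a I J x hc hI hIh hsm hF L d B hd hsum hB z hz hz0
  have hline := FBAux.isLine hF hz hz0
  have hda : ∀ i, d i ≤ a := by
    intro i
    rw [← hsum]
    exact Finset.single_le_sum (fun j _ => Nat.zero_le (d j)) (Finset.mem_univ i)
  have hVL := fun i => h1 N c I hI hIh hsm x z hline L (d i - 1) (B i) (hB.mem z hz hz0 i (hda i))
  choose g p hg hp hpd hpc hps using hVL
  refine ⟨hline, fun i j => (p i j).reflect (d i - 1), ⟨hd, fun i => ?_, fun σ τ hστ => ?_⟩,
    fun i l => ?_⟩
  · have h5 := hps i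
    rw [Nat.sub_add_cancel (hd i)] at h5
    exact h5
  · have hpd' : ∀ i j, p i j ∈ Polynomial.degreeLT ℂ (d i) := by
      intro i j
      have h5 := hpd i j
      rwa [Nat.sub_add_cancel (hd i)] at h5
    rw [Fintype.linearIndependent_iff]
    intro b hb
    have hbl : ∀ l, ∑ i, b i * hval (fun j => (p i j).reflect (d i - 1)) (d i) σ τ l = 0 := by
      intro l
      have h5 := congrFun hb l
      rw [Finset.sum_apply] at h5
      exact h5
    by_cases hτ : τ = 0
    · subst hτ
      have hσ : σ ≠ 0 := by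
        rcases hστ with h | h
        · exact h
        · exact absurd rfl h
      have h6 : ∑ i, (b i * σ ^ (d i - 1)) • B i = 0 := by
        funext b'
        have h7 := hbl (L.B b')
        rw [Finset.sum_apply, Pi.zero_apply, ← h7]
        refine Finset.sum_congr rfl fun i _ => ?_
        rw [hval_zero _ _ (hd i), Polynomial.coeff_reflect, Polynomial.revAt_zero, hpc i, xv_B,
          Pi.smul_apply, smul_eq_mul, mul_assoc]
      intro i
      have h7 := Fintype.linearIndependent_iff.1 hB.bas _ h6 i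
      exact (mul_eq_zero.1 h7).resolve_right (pow_ne_zero _ hσ)
    · have h6 : ∀ l, ∑ i, (b i * τ ^ (d i - 1)) * (p i l).eval (σ / τ) = 0 := by
        intro l
        rw [← hbl l]
        refine Finset.sum_congr rfl fun i _ => ?_
        rw [hval_reflect _ _ (hd i) (hpd' i) σ τ hτ, mul_assoc]
      have h7 : ∀ n i, a - n < d i → b i * τ ^ (d i - 1) = 0 := by
        intro n
        induction n with
        | zero =>
          intro i hi
          have := hda i
          omega
        | succ n ih =>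
          intro i hi
          rcases Nat.lt_or_ge (a - n) (d i) with h8 | h8
          · exact ih i h8
          · exact key h2 h3 hc hI hIh hsm hF L d B hd hda hB z hz hz0 g p hg hp
              (fun i => b i * τ ^ (d i - 1)) (σ / τ) h6 (a - n) ih i (by
                have := hd i
                omega)
      intro i
      have h8 := h7 a i (by have := hd i; omega)
      exact (mul_eq_zero.1 h8).resolve_right (pow_ne_zero _ hτ)
  · rw [Polynomial.coeff_reflect, Polynomial.revAt_zero, hpc i]

end Pool.Agent.Lib.MP_776403_ag.SD.U
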