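import Pool.Agent.Lib.MP_776403_ag.SD.U.SpecA
import Pool.Agent.Lib.MP_776403_ag.SD.Z.RL
import Pool.Agent.Lib.MP_776403_ag.SD.Z.Fin
import Pool.Agent.Lib.MP_776403_ag.SD.P2.Pb
import Pool.Agent.Lib.MP_776403_ag.SD.P2.ClG

/-!
# THEOREM U: output of part A
-/

set_option autoImplicit false

noncomputable section

namespace Pool.Agent.Lib.MP_776403_ag.SD.U

namespace AAux

section

open PowerSeries SDV
open Pool.Agent.Lib.MP_776403_ag.SD2 Pool.Agent.Lib.MP_776403_ag.SD2.GlueAux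
  Pool.Agent.Lib.MP_776403_ag.SD2.SolAux Pool.Agent.Lib.MP_776403_ag.SD2.TdAux

/-- `SDV.pBr` without the hypothesis on `m`. -/
theorem br (c m : ℕ) (q : ℕ → Polynomial ℤ) (h : Dat c m q) : ∃ x : Fin c → ℂ, ∀ j,
    (PowerSeries.X : PowerSeries ℂ) ^ m ∣
      SDV.tau (q j) - SDV.esx x j * SDV.tau (q 0) := by
  obtain ⟨ub, hub⟩ := unit0 h
  set be : ℂ⟦X⟧ := ev (q 0) with hbe
  set bi : ℂ⟦X⟧ := (↑ub⁻¹ : ℂ⟦X⟧) with hbi
  have hbb : be * bi = 1 := by rw [← hub, hbi, Units.mul_inv]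
  set r : ℕ → ℂ⟦X⟧ := fun j => ev (q j) * bi with hr
  have hbr : ∀ j, ev (q j) = be * r j := by
    intro j
    rw [hr]
    simp only
    calc ev (q j) = ev (q j) * (be * bi) := by rw [hbb, mul_one]
      _ = be * (ev (q j) * bi) := by ring
  have hub' : IsUnit be := ⟨ub, hub⟩
  have hb2 : IsUnit (rescale (2 : ℂ) be) := hub'.map _
  have hbne : be ≠ 0 := left_ne_zero_of_mul_eq_one hbb
  have hrc : ∀ j, c < j → r j = 0 := by
    intro j hj
    rw [hr]
    simp only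
    rw [h.hz j hj, map_zero, zero_mul]
  have hrconst : ∀ j, j ≤ c → constantCoeff (r j) = (c.choose j : ℂ) := by
    intro j hj
    have h1 := congrArg (constantCoeff (R := ℂ)) (hbr j)
    rw [map_mul, ev_const, h.h1 j, hbe, ev_const] at h1
    push_cast at h1
    have h2 : (((q 0).eval 1 : ℤ) : ℂ) ≠ 0 := by
      have := h.hp
      exact_mod_cast this.ne'
    apply mul_left_cancel₀ h2
    rw [← h1]
    ring
  have hfe : ∀ j, j ≤ c → (X : ℂ⟦X⟧) ^ m ∣
      ∑ p ∈ Finset.HasAntidiagonal.antidiagonal (2 * j), (-1) ^ p.2 * (r p.1 * r p.2) -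
        (-1) ^ j * rescale (2 : ℂ) (r j) := by
    intro j _
    have h1 := (dvd_iff _ _).mp (h.fe j)
    rw [map_sub, map_mul, map_mul, map_mul, map_pow, map_pow, map_neg, map_one, ev_expand,
      ev_expand, map_sum] at h1
    have h2 : ∀ p : ℕ × ℕ, ev ((-1) ^ p.2 * q p.1 * q p.2) =
        be ^ 2 * ((-1) ^ p.2 * (r p.1 * r p.2)) := by
      intro p
      rw [map_mul, map_mul, map_pow, map_neg, map_one, hbr, hbr]
      ring
    rw [Finset.sum_congr rfl fun p _ => h2 p, ← Finset.mul_sum, hbr j, map_mul, ← hbe] at h1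
    have h3 : (-1) ^ j * (rescale (2 : ℂ) be * rescale (2 : ℂ) (r j)) * be ^ 2 -
        rescale (2 : ℂ) be * (be ^ 2 * ∑ p ∈ Finset.HasAntidiagonal.antidiagonal (2 * j),
          (-1) ^ p.2 * (r p.1 * r p.2)) =
        - (rescale (2 : ℂ) be * (be ^ 2 * (∑ p ∈ Finset.HasAntidiagonal.antidiagonal (2 * j),
          (-1) ^ p.2 * (r p.1 * r p.2) - (-1) ^ j * rescale (2 : ℂ) (r j)))) := by
      ring
    rw [h3, dvd_neg, hb2.dvd_mul_left, (hub'.pow 2).dvd_mul_left] at h1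
    exact h1
  obtain ⟨x, hx⟩ := sol_of_fe c m r hrconst
    (by rw [hr]; simp only; rw [← hbe, hbb, sub_self]; exact dvd_zero _) hrc hfe
  refine ⟨x, fun j => ?_⟩
  rw [tau_ev, tau_ev, hbr, ← hbe, esx_eq, coeff_sol, mul_comm _ be, ← mul_sub]
  exact dvd_mul_of_dvd_right (hx j) _

end

end AAux

open Polynomial

namespace AAux

open RAux RLAux

/-- The product formula at `1`. -/
theorem prod_one {c m : ℕ} (d : Fin c → ℕ) (q0 : ℤ[X]) (hm : c + 1 ≤ m)
    (h : (1 - X : ℤ[X]) ^ m ∣ (1 - X) ^ c * q0 - ∏ i, (1 - X ^ (d i))) :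
    q0.eval 1 = ((∏ i, d i : ℕ) : ℤ) := by
  have h1 : ∀ k : ℕ, (1 - X ^ k : ℤ[X]) = (1 - X) * ∑ j ∈ Finset.range k, X ^ j := by
    intro k
    have := mul_geom_sum (X : ℤ[X]) k
    linear_combination this
  have h2 : (∏ i, (1 - X ^ (d i)) : ℤ[X]) =
      (1 - X) ^ c * ∏ i, ∑ j ∈ Finset.range (d i), X ^ j := by
    rw [Finset.prod_congr rfl fun i _ => h1 (d i), Finset.prod_mul_distrib, Finset.prod_const,
      Finset.card_univ, Fintype.card_fin]
  have hne : (1 - X : ℤ[X]) ≠ 0 := by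
    intro h0
    have := congrArg (fun p => p.coeff 0) h0
    simp at this
  rw [h2, ← mul_sub] at h
  have h3 : (1 - X : ℤ[X]) ^ c * (1 - X) ∣
      (1 - X) ^ c * (q0 - ∏ i, ∑ j ∈ Finset.range (d i), X ^ j) := by
    rw [← pow_succ]
    exact (pow_dvd_pow _ hm).trans h
  have h4 := (mul_dvd_mul_iff_left (pow_ne_zero c hne)).1 h3
  obtain ⟨p, hp⟩ := h4
  have h5 := congrArg (Polynomial.eval 1) hp
  rw [eval_sub, eval_mul, eval_sub, eval_one, eval_X, sub_self, zero_mul, sub_eq_zero] at h5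
  rw [h5, eval_prod]
  push_cast
  refine Finset.prod_congr rfl fun i _ => ?_
  rw [eval_finsetSum]
  simp

end AAux

open RAux RLAux AAux

theorem tA (h1 : S_Cov) (h2 : S_QD) (h3 : S_Pa) : S_A := by
  intro N c D I hc2 hN hI hIh hnd hS hdeg
  -- `X` is not empty
  have hne : ∃ y ∈ zer I, y ≠ 0 := by
    by_contra hcon
    push Not at hcon
    have h1 : (MvPolynomial.X 0 : Sx N) ∈ I := by
      refine (tNull N I hI hIh).1 (MvPolynomial.X 0) (fun z hz => ?_)
      rw [hcon z hz]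
      simp
    have h2 := hnd _ h1 (MvPolynomial.isHomogeneous_X ℂ 0)
    exact MvPolynomial.X_ne_zero (R := ℂ) (0 : Fin (N + 1)) h2
  have hcov : Covered I := h1 N c D I (by omega) hI hIh hnd hS hdeg
  obtain ⟨q0, hQP, hqD, hq1⟩ := h2 N c D I (by omega) hI hIh hS hne hdeg
  obtain ⟨q, hq0, hDat', hqj⟩ := zSDatfin N c (by omega) I q0 hI hIh hS hne hQP hq1
  obtain ⟨y, hy⟩ := br c (N + 1 - 2 * c) q hDat'
  -- lines of small degree through general points
  obtain ⟨k, rfl⟩ : ∃ k, c = k + 1 := ⟨c - 1, by omega⟩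
  have hsm : ∀ g : Sx N, g ∉ I → ∃ x v : Vx N, IsLine I x v ∧ MvPolynomial.eval x g ≠ 0 ∧
      ∃ b ≤ D, DegEq I (k + 1) b x v := by
    intro g hg
    obtain ⟨x, v, hl, hgx, hz⟩ := P2.tPb N (k + 1) I hc2 hI hIh hnd hS hcov g hg
    have e1 : N - (k + 1) = (N - (k + 1) - 1) + 1 := by omega
    obtain ⟨b, hb, hbd⟩ := h3 N k (N - (k + 1) - 1) D I (by omega) (by omega) hI hIh hnd hS
      (by rw [← e1]; exact hdeg) x v hl hz
    exact ⟨x, v, hl, hgx, b, hb, hbd⟩
  have hone : (1 : Sx N) ∉ I := fun h => hI.ne_top (I.eq_top_iff_one.mpr h)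
  obtain ⟨x, v, hl, -, a, haD, hva⟩ := hsm 1 hone
  -- the cone of lines
  obtain ⟨P, hPp, hPh, hIP, hPD, hvP, hst, hpl⟩ := H.mLineE N (k + 1) a I hI hIh hS x v hl (by
    unfold H.DegLe
    unfold DegEq at hva
    filter_upwards [hva] with m hm
    omega)
  have hPa : ∀ z ∈ zer P, LinearIndependent ℂ ![x, z] → DegEq I (k + 1) a x z := fun z hz hli =>
    cCon N (k + 1) a I P x hI hIh hS hPp hPh hIP hst hpl v hvP hl.1 z hz hli hva
  have hPD' : DimGe P (a + (k + 1) + 2) := tMono _ P _ _ (by omega) hPD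
  obtain ⟨d, hd1, hyd, hda⟩ := wOutfin N (k + 1) a I (by omega) hI hIh hS x P (hl.1.ne_zero 0) hPp
    hPh hIP hPD' hst hpl hPa q hDat' (by rw [hq0]; exact hQP) hqj y hy
  have hdiv := ZAux.dvd_of_int q y d hyd hy
  have hac : k + 1 ≤ a := by
    calc k + 1 = ∑ _i : Fin (k + 1), 1 := by simp
      _ ≤ ∑ i, d i := Finset.sum_le_sum fun i _ => hd1 i
      _ = a := hda
  have hsum : ∑ i, y i = (a : ℂ) := by
    rw [Finset.sum_congr rfl fun i _ => hyd i, ← hda]
    push_cast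
    rfl
  -- all lines of large cones have degree `a`
  have hnum : ∀ J : Ideal (Sx N), J.IsPrime → IsHom J → I ≤ J →
      Gw (k + 1 - 1) (fun m => (Module.finrank ℂ (Lam I J (k + 1) m) : ℤ) -
        (Module.finrank ℂ (gr J (m - a)) : ℤ)) :=
    zNumB N (k + 1) a I hI hIh hS (by omega) (by omega) q (by rw [hq0]; exact hQP)
      (by rw [hq0]; exact ne_of_gt hq1) (hqj (k + 1) le_rfl) (dvd_det q y hsum (hy (k + 1)))
  have hcone : ∀ P : Ideal (Sx N), P.IsPrime → IsHom P → DimGe P (k + 1 + 2) → ∀ x : Vx N,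
      x ≠ 0 → (∀ z ∈ zer P, ∀ s t : ℂ, s • x + t • z ∈ zer I) →
      ∀ v ∈ zer P, LinearIndependent ℂ ![x, v] → DegEq I (k + 1) a x v :=
    fun P hP hPh hD x hx0 hpl v hv hli => zJLBfin N (k + 1) a I hI hIh hS (by omega) hnum P hP hPh
      hD x hx0 hpl v hv hli
  -- every line has degree at least `a`
  have hmin : ∀ x v : Vx N, IsLine I x v → ∀ᶠ m : ℕ in Filter.atTop,
      Module.finrank ℂ (Lam I (lineI x v) 1 m) + a ≤ (k + 1) * (m + 1) := by
    intro x v hl
    obtain ⟨b, hb⟩ := exists_deg (k + 1) I hI hIh hS x v hl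
    by_cases hba : b < a
    · exfalso
      obtain ⟨P, hPp, hPh, -, hPD, hvP, -, hpl⟩ := H.mLineE N (k + 1) b I hI hIh hS x v hl (by
        unfold H.DegLe
        filter_upwards [hb] with m hm
        omega)
      have h1 := hcone P hPp hPh (tMono _ P _ _ (by omega) hPD) x (hl.1.ne_zero 0) hpl v hvP hl.1
      unfold DegEq at hb h1
      obtain ⟨m, hm1, hm2⟩ := (hb.and h1).exists
      omega
    · filter_upwards [hb] with m hm
      omega
  -- a cone of lines of degree `a` through every point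
  have hcn : ∀ y ∈ zer I, y ≠ 0 → ∃ P : Ideal (Sx N), P.IsPrime ∧ IsHom P ∧ I ≤ P ∧
      DimGe P (N + 1 - a) ∧ (∀ z ∈ zer P, ∀ s : ℂ, z + s • y ∈ zer P) ∧
      (∀ z ∈ zer P, ∀ s t : ℂ, s • y + t • z ∈ zer I) ∧
      ∀ z ∈ zer P, LinearIndependent ℂ ![y, z] → DegEq I (k + 1) a y z := by
    intro y hy hy0
    obtain ⟨P, p1, p2, -, p4, -, p6⟩ := P2.tClG N (k + 1) I hI hIh (fun g hg => by
      obtain ⟨x, v, hl, hgx, b, hb, hbd⟩ := hsm g hg
      obtain ⟨P, q1, q2, -, q4, -, -, q7⟩ := H.mLineE N (k + 1) b I hI hIh hS x v hl (by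
        unfold H.DegLe
        unfold DegEq at hbd
        filter_upwards [hbd] with m hm
        omega)
      have hx0 : x ≠ 0 := hl.1.ne_zero 0
      have hxI : x ∈ zer I := by
        have := hl.2 1 0
        rwa [one_smul, zero_smul, add_zero] at this
      exact ⟨x, hxI, hx0, hgx, P, q1, q2, tMono _ P _ _ (by omega) q4, q7⟩) y hy hy0
    obtain ⟨v, hv, hli⟩ := GAcmAux.exists_indep tNull P p1 p2 (tMono _ P _ _ (by omega) p4) y hy0
    have hyl : IsLine I y v := ⟨hli, p6 v hv⟩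
    have hya := hcone P p1 p2 p4 y hy0 p6 v hv hli
    obtain ⟨P', r1, r2, r3, r4, r5, r6, r7⟩ := H.mLineE N (k + 1) a I hI hIh hS y v hyl (by
      unfold H.DegLe
      unfold DegEq at hya
      filter_upwards [hya] with m hm
      omega)
    exact ⟨P', r1, r2, r3, r4, r6, r7, fun z hz hz' =>
      cCon N (k + 1) a I P' y hI hIh hS r1 r2 r3 r6 r7 v r5 hli z hz hz' hya⟩
  refine ⟨a, d, q, ?_, ?_⟩
  · exact
      { pos := by omega
        prime := hI
        hom := hIh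
        nd := hnd
        smooth := hS
        one_le := hd1
        sum := hda
        large := by omega
        qp := by rw [hq0]; exact hQP
        q1 := by rw [hq0]; exact hq1
        qj := hqj
        dvd := hdiv
        numW := zNumErr N (k + 1) I d hI hIh hS (by omega) (by omega) q (by rw [hq0]; exact hQP)
          (by rw [hq0]; exact ne_of_gt hq1) hqj hdiv
        deg_ge := hmin
        cone := hcn }
  -- the product formula
  have h4 := SDV.pP1 (k + 1) (N + 1 - 2 * (k + 1)) q y hDat' hy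
  rw [← tau_prod y d hyd, hq0] at h4
  have h5 : SDV.tau ((1 - X) ^ (k + 1) * q0) - SDV.tau (∏ i, (1 - X ^ (d i))) =
      SDV.tau ((1 - X) ^ (k + 1) * q0 - ∏ i, (1 - X ^ (d i))) := by
    unfold SDV.tau
    rw [map_sub]
  rw [h5, ← SDV.pT1] at h4
  have h6 := prod_one d q0 (by omega) h4
  rw [hqD] at h6
  exact_mod_cast h6.symm

end Pool.Agent.Lib.MP_776403_ag.SD.U
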