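import Pool.Agent.Lib.MP_776403_ag.SD.U.SpecA

/-!
MP_776403_ag, unconditional theorem, module Ari: an inequality between sum and product.
-/

set_option autoImplicit false

namespace Pool.Agent.Lib.MP_776403_ag.SD.U

namespace AriAux

lemma two (u v : ℕ) (hu : 2 ≤ u) (hv : 2 ≤ v) : 2 * (u + v) + ((v - u) + (u - v)) ≤ 2 * (u * v) := by
  rcases le_total u v with h | h
  · obtain ⟨k, rfl⟩ := Nat.exists_eq_add_of_le h
    have e1 : u + k - u = k := by omega
    have e2 : u - (u + k) = 0 := by omega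
    rw [e1, e2]
    nlinarith [Nat.mul_le_mul hu (le_refl k), Nat.mul_le_mul hu (le_refl u)]
  · obtain ⟨k, rfl⟩ := Nat.exists_eq_add_of_le h
    have e1 : v + k - v = k := by omega
    have e2 : v - (v + k) = 0 := by omega
    rw [e1, e2]
    nlinarith [Nat.mul_le_mul hv (le_refl k), Nat.mul_le_mul hv (le_refl v)]

lemma dist (x e : ℕ) (hx : 2 ≤ x) (he : 2 ≤ e) : (x - e) + (e - x) + 4 ≤ x + e := by omega

lemma arith (c e s p T D : ℕ) (hc : 2 ≤ c) (he : 2 ≤ e) (hs : 2 * c ≤ s) (hT : T + 4 * c ≤ s + c * e)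
    (hI : 2 * s + D ≤ 2 * p) : 2 * (e + s) + (T + D) ≤ 2 * (e * p) := by
  obtain ⟨f, rfl⟩ := Nat.exists_eq_add_of_le he
  have h1 : s + 2 * c ≤ 2 * p := by omega
  have h2 : (1 + f) * (s + 2 * c) ≤ (1 + f) * (2 * p) := Nat.mul_le_mul_left _ h1
  have h3 : 2 * ((2 + f) * p) = 2 * p + (1 + f) * (2 * p) := by ring
  rw [h3]
  have h4 : 2 * f ≤ c * f := Nat.mul_le_mul_right _ hc
  have h5 : (1 + f) * (s + 2 * c) = s + 2 * c + f * s + 2 * (c * f) := by ring
  have h6 : c * (2 + f) = 2 * c + c * f := by ring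
  rw [h6] at hT
  have h7 : 0 ≤ f * s := Nat.zero_le _
  rw [h5] at h2
  omega

end AriAux

theorem tAri : S_Ari := by
  intro c d hc
  induction c, hc using Nat.le_induction with
  | base =>
    intro hd
    have h := AriAux.two (d 0) (d 1) (hd 0) (hd 1)
    simp only [Fin.sum_univ_two, Fin.prod_univ_two, Nat.sub_self, zero_add, add_zero]
    exact h
  | succ c hc ih =>
    intro hd
    have hI := ih (fun i => d i.succ) fun i => hd i.succ
    have hs : 2 * c ≤ ∑ i : Fin c, d i.succ := by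
      have h := Finset.card_nsmul_le_sum (Finset.univ : Finset (Fin c)) (fun i => d i.succ) 2
        fun i _ => hd i.succ
      rw [Finset.card_univ, Fintype.card_fin, smul_eq_mul] at h
      omega
    have hT : ∑ i : Fin c, ((d i.succ - d 0) + (d 0 - d i.succ)) + 4 * c ≤
        ∑ i : Fin c, d i.succ + c * d 0 := by
      have h : ∑ i : Fin c, ((d i.succ - d 0) + (d 0 - d i.succ) + 4) ≤
          ∑ i : Fin c, (d i.succ + d 0) :=
        Finset.sum_le_sum fun i _ => AriAux.dist _ _ (hd i.succ) (hd 0)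
      rw [Finset.sum_add_distrib, Finset.sum_add_distrib (f := fun i : Fin c => d i.succ),
        Finset.sum_const, Finset.sum_const, Finset.card_univ, Fintype.card_fin, smul_eq_mul,
        smul_eq_mul] at h
      omega
    have hfin := AriAux.arith c (d 0) (∑ i : Fin c, d i.succ) (∏ i : Fin c, d i.succ)
      (∑ i : Fin c, ((d i.succ - d 0) + (d 0 - d i.succ)))
      (∑ i : Fin c, ∑ j : Fin c, (d j.succ - d i.succ)) hc (hd 0) hs hT hI
    have e1 : ∑ i : Fin (c + 1), ∑ j : Fin (c + 1), (d j - d i) =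
        ∑ i : Fin c, ((d i.succ - d 0) + (d 0 - d i.succ)) +
          ∑ i : Fin c, ∑ j : Fin c, (d j.succ - d i.succ) := by
      rw [Fin.sum_univ_succ]
      simp only [Fin.sum_univ_succ (fun j : Fin (c + 1) => d j - d _), Nat.sub_self, zero_add]
      rw [Finset.sum_add_distrib, Finset.sum_add_distrib]
      ring
    rw [e1, Fin.sum_univ_succ d, Fin.prod_univ_succ d]
    exact hfin

end Pool.Agent.Lib.MP_776403_ag.SD.U
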