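import Pool.Agent.Lib.MP_776403_ag.SD.U.SpecA
import Pool.Agent.Lib.MP_776403_ag.SD.Main2

/-!
# THEOREM U: lines through all points (from the degree)
-/

set_option autoImplicit false

open MvPolynomial

noncomputable section

namespace Pool.Agent.Lib.MP_776403_ag.SD.U

theorem tCov (h : S_Rank) : S_Cov := by
  intro N c D I hN hP hH hnd hS hfin
  have hNull : S_Null := tNull
  have hNoe : S_Noe := lNoe
  have hDimS : S_DimS := mDimS
  have hModel : S_Model := lModel lPrim
  have hLift : S_Lift := mLift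
  have hClose : S_Close := mClose
  -- `X` is not empty
  have hne : ∃ y ∈ zer I, y ≠ 0 := by
    by_contra hcon
    push Not at hcon
    have h1 : (X 0 : Sx N) ∈ I := by
      refine (hNull N I hP hH).1 (X 0) (fun z hz => ?_)
      rw [hcon z hz]
      simp
    have h2 := hnd _ h1 (isHomogeneous_X ℂ 0)
    exact X_ne_zero (R := ℂ) (0 : Fin (N + 1)) h2
  have hcN : c ≤ N := by omega
  obtain ⟨r, y, hy1, hy2, hy3⟩ := hNoe N I hP hH
  have hr : N + 1 - c ≤ r := by
    refine hDimS N c I hP hH hS hne r y (fun j => ?_)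
    obtain ⟨m, p, _, h⟩ := hy3 j
    exact ⟨m, p, h⟩
  have hr' : (N - c) + 1 ≤ r := by omega
  have hRk := h N I D (N - c) hfin r y hy1 hr'
  have hre : r = (N - c) + 1 := by
    refine (hRk 1 (fun _ => 1) ?_).2 le_rfl
    intro b hb
    have h1 : aeval y (b 0) ∈ I := by simpa using hb
    have h2 : aeval (fun i => Ideal.Quotient.mk I (y i)) (b 0) = 0 := by
      have h3 : Ideal.Quotient.mkₐ ℂ I (aeval y (b 0)) = 0 := by
        rw [Ideal.Quotient.mkₐ_eq_mk]
        exact Ideal.Quotient.eq_zero_iff_mem.2 h1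
      rw [← AlgHom.comp_apply, MvPolynomial.comp_aeval] at h3
      exact h3
    have h4 : b 0 = 0 := (injective_iff_map_eq_zero _).1 hy2 _ h2
    funext i
    have : i = 0 := Subsingleton.elim _ _
    rw [this, h4]
    rfl
  obtain ⟨M, hM⟩ := hModel N I hP hH r y D hy1 hy2 hy3 (fun ρ g hb => (hRk ρ g hb).1)
  have hMr : M.ρ < r := by omega
  exact hClose N I hP hH (aeval M.z M.g) M.gI
    (fun x hx hx0 hg => hLift N I hP hH r M hMr x hx hx0 hg)

end Pool.Agent.Lib.MP_776403_ag.SD.U
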