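import Pool.Agent.Lib.MP_776403_ag.SD.U.SpecC
import Pool.Agent.Lib.MP_776403_ag.SD.Null
import Pool.Agent.Lib.MP_776403_ag.SD.Minor
import Pool.Agent.Lib.MP_776403_ag.SD.W.Cr

/-!
# THEOREM U, part C: the locus where a covector lifts
-/

set_option autoImplicit false

open MvPolynomial

noncomputable section

namespace Pool.Agent.Lib.MP_776403_ag.SD.U

namespace CutAux

variable {N : ℕ}

/-- Extending an independent family by members of a spanning family. -/
theorem extend {W α : Type} [AddCommGroup W] [Module ℂ W] [FiniteDimensional ℂ W] (s : α → W)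
    (V : Submodule ℂ W) (hV : V = Submodule.span ℂ (Set.range s)) :
    ∀ (t m : ℕ) (f : Fin m → W), (∀ i, f i ∈ V) → LinearIndependent ℂ f →
      m + t = Module.finrank ℂ V →
      ∃ g : Fin t → α, LinearIndependent ℂ (Sum.elim f fun j => s (g j)) := by
  intro t
  induction t with
  | zero =>
    intro m f _ hf _
    refine ⟨Fin.elim0, ?_⟩
    have h := hf.comp (Equiv.sumEmpty (Fin m) (Fin 0)) (Equiv.injective _)
    have e : Sum.elim f (fun j : Fin 0 => s (Fin.elim0 j)) = f ∘ (Equiv.sumEmpty (Fin m) (Fin 0)) := by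
      funext i
      rcases i with i | i
      · rfl
      · exact i.elim0
    rw [e]
    exact h
  | succ t ih =>
    intro m f hfV hf hmt
    have h1 : ∃ a, s a ∉ Submodule.span ℂ (Set.range f) := by
      by_contra hcon
      have hcon' : ∀ a, s a ∈ Submodule.span ℂ (Set.range f) := by
        intro a
        by_contra h'
        exact hcon ⟨a, h'⟩
      have h2 : V ≤ Submodule.span ℂ (Set.range f) := by
        rw [hV, Submodule.span_le]
        rintro _ ⟨a, rfl⟩
        exact hcon' a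
      have h3 := Submodule.finrank_mono h2
      have h4 := finrank_span_eq_card hf
      rw [Fintype.card_fin] at h4
      omega
    obtain ⟨a, ha⟩ := h1
    have h2 : LinearIndependent ℂ (Fin.cons (s a) f : Fin (m + 1) → W) :=
      linearIndependent_finCons.2 ⟨hf, ha⟩
    obtain ⟨g, hg⟩ := ih (m + 1) (Fin.cons (s a) f) (by
      intro i
      refine Fin.cases ?_ (fun j => ?_) i
      · rw [Fin.cons_zero, hV]
        exact Submodule.subset_span ⟨a, rfl⟩
      · rw [Fin.cons_succ]
        exact hfV j) h2 (by omega)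
    refine ⟨Fin.cons a g, ?_⟩
    let θ : Fin m ⊕ Fin (t + 1) → Fin (m + 1) ⊕ Fin t :=
      Sum.elim (fun i => Sum.inl i.succ) (fun j => Fin.cases (Sum.inl 0) (fun j' => Sum.inr j') j)
    have hθ : Function.Injective θ := by
      rintro (i | i) (j | j) hij
      · have : i.succ = j.succ := Sum.inl_injective hij
        rw [Fin.succ_injective _ this]
      · exfalso
        revert hij
        refine Fin.cases ?_ (fun j' => ?_) j
        · intro hij
          have : i.succ = 0 := Sum.inl_injective hij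
          exact Fin.succ_ne_zero i this
        · intro hij
          exact Sum.inl_ne_inr hij
      · exfalso
        revert hij
        refine Fin.cases ?_ (fun j' => ?_) i
        · intro hij
          have : 0 = j.succ := Sum.inl_injective hij
          exact Fin.succ_ne_zero j this.symm
        · intro hij
          exact Sum.inr_ne_inl hij
      · revert hij
        refine Fin.cases ?_ (fun i' => ?_) i
        · refine Fin.cases ?_ (fun j' => ?_) j
          · intro _
            rfl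
          · intro hij
            exact absurd hij Sum.inl_ne_inr
        · refine Fin.cases ?_ (fun j' => ?_) j
          · intro hij
            exact absurd hij Sum.inr_ne_inl
          · intro hij
            have : i' = j' := Sum.inr_injective hij
            rw [this]
    have e : Sum.elim f (fun j => s ((Fin.cons a g : Fin (t + 1) → α) j)) =
        (Sum.elim (Fin.cons (s a) f : Fin (m + 1) → W) fun j => s (g j)) ∘ θ := by
      funext i
      rcases i with i | i
      · simp only [θ, Function.comp, Sum.elim_inl, Fin.cons_succ]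
      · refine Fin.cases ?_ (fun j' => ?_) i
        · simp only [θ, Function.comp, Sum.elim_inr, Fin.cases_zero, Sum.elim_inl, Fin.cons_zero]
        · simp only [θ, Function.comp, Sum.elim_inr, Fin.cases_succ, Fin.cons_succ]
    rw [e]
    exact hg.comp θ hθ

/-- Dependent rows give vanishing minors. -/
theorem det_zero {α : Type} {m : ℕ} (v : α → ℂ) (f : Fin m → α → ℂ)
    (hv : v ∈ Submodule.span ℂ (Set.range f)) (A : Fin (m + 1) → α) :
    (Matrix.of fun l k => (Fin.cons v f : Fin (m + 1) → α → ℂ) l (A k)).det = 0 := by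
  by_contra hne
  have h1 : LinearIndependent ℂ
      (Matrix.of fun l k => (Fin.cons v f : Fin (m + 1) → α → ℂ) l (A k)).row := by
    rw [Matrix.linearIndependent_rows_iff_isUnit, Matrix.isUnit_iff_isUnit_det]
    exact isUnit_iff_ne_zero.2 hne
  have h2 : LinearIndependent ℂ (Fin.cons v f : Fin (m + 1) → α → ℂ) := by
    refine LinearIndependent.of_comp (LinearMap.funLeft ℂ ℂ A) ?_
    exact h1
  exact (linearIndependent_finCons.1 h2).2 hv

section

variable {I : Ideal (Sx N)} {x : Vx N} {c : ℕ} (L : Loc I x c)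

theorem qs_hom (hom : ∀ i k (y : L.Ix), (L.qk i k y).IsHomogeneous (k + 1 + (L.dg - 1 - (y.1 : ℕ))))
    (ξ : Fin c → ℂ) (k : ℕ) (y : L.Ix) :
    (qs L ξ k y).IsHomogeneous (k + 1 + (L.dg - 1 - (y.1 : ℕ))) := by
  refine MvPolynomial.IsHomogeneous.sum _ _ _ fun i _ => ?_
  have h := (isHomogeneous_C (Fin (N + 1)) (ξ i)).mul (hom i k y)
  rwa [zero_add] at h

theorem fib_eq (z : Vx N) : fib (QG L.qk) z =
    Submodule.span ℂ (Set.range fun p : Fin c × ℕ => fun y : L.Ix => eval z (L.qk p.1 p.2 y)) := by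
  unfold fib
  congr 1
  ext w
  constructor
  · rintro ⟨g, ⟨i, k, rfl⟩, rfl⟩
    exact ⟨(i, k), rfl⟩
  · rintro ⟨⟨i, k⟩, rfl⟩
    exact ⟨(L.qk i k, k + 1), ⟨i, k, rfl⟩, rfl⟩

theorem qv_mem (ξ : Fin c → ℂ) (k : ℕ) (z : Vx N) : qv L ξ k z ∈ fib (QG L.qk) z := by
  have h : qv L ξ k z = ∑ i, ξ i • fun y : L.Ix => eval z (L.qk i k y) := by
    funext y
    simp only [qv, qs, map_sum, map_mul, eval_C, Finset.sum_apply, Pi.smul_apply, smul_eq_mul]
  rw [h, fib_eq]
  exact Submodule.sum_mem _ fun i _ => Submodule.smul_mem _ _ (Submodule.subset_span ⟨(i, k), rfl⟩)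

end

end CutAux

open CutAux in
theorem tCut (h1 : S_KrR) (h2 : S_WGC) (h3 : S_FB) : S_Cut := by
  classical
  intro N c a I J x hc hI hIh hsm hF L d K B hd hFl ξ z₀ hz₀ hz₀0 hξ δ hδ
  have hWG := h2 N c a I J x hc hI hIh hsm hF L
  have hJ := hF.prime
  have hJh := hF.hom
  have hspan : ∀ z ∈ zer J, z ≠ 0 → Fj L K z =
      Submodule.span ℂ (Set.range fun p : FI d K => qv L (B p.1.1) p.1.2 z) := fun z hz hz0 =>
    ((h3 N c a I J x hc hI hIh hsm hF L z hz hz0).2.2.2 d K B hd hFl).1 K le_rfl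
  have hcard : Module.finrank ℂ (Fj L K z₀) = (FI d K).card :=
    ((h3 N c a I J x hc hI hIh hsm hF L z₀ hz₀ hz₀0).2.2.2 d K B hd hFl).2.1 K le_rfl
  have hle : (FI d K).card + c ≤ a := by
    rw [← hcard]
    exact (h3 N c a I J x hc hI hIh hsm hF L z₀ hz₀ hz₀0).2.1 K
  have hrk : ∀ p ∈ zer J, p ≠ 0 → Module.finrank ℂ (fib (QG L.qk) p) =
      (FI d K).card + (a - c - (FI d K).card) := by
    intro p hp hp0
    have := hWG.rk p hp hp0
    omega
  have hHG : HG (fun y : L.Ix => L.dg - 1 - (y.1 : ℕ)) (QG L.qk) := by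
    rintro g ⟨i, k, rfl⟩ y
    exact hWG.hom i k y
  generalize hm : (FI d K).card = m at *
  generalize ht : a - c - m = t at *
  have φ : Fin m ≃ FI d K := (Finset.equivFinOfCardEq hm).symm
  set fr : Fin m → (L.Ix → Sx N) × ℕ := fun j => (qs L (B (φ j).1.1) (φ j).1.2, (φ j).1.2 + 1)
    with hfr
  have hspan' : ∀ z ∈ zer J, z ≠ 0 → Fj L K z =
      Submodule.span ℂ (Set.range fun j : Fin m => fun y : L.Ix => eval z ((fr j).1 y)) := by
    intro z hz hz0
    rw [hspan z hz hz0]
    congr 1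
    exact (φ.surjective.range_comp fun p : FI d K => qv L (B p.1.1) p.1.2 z).symm
  have hind : ∀ z ∈ zer J, z ≠ 0 →
      LinearIndependent ℂ fun j : Fin m => fun y : L.Ix => eval z ((fr j).1 y) := by
    intro z hz hz0
    exact (hFl.ind z hz hz0).comp φ φ.injective
  have hfrh : ∀ j y, ((fr j).1 y).IsHomogeneous ((fr j).2 + (L.dg - 1 - (y.1 : ℕ))) := fun j y =>
    qs_hom L hWG.hom _ _ y
  -- the full frame at `z₀`
  obtain ⟨g, hg⟩ := extend (fun p : Fin c × ℕ => fun y : L.Ix => eval z₀ (L.qk p.1 p.2 y))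
    (fib (QG L.qk) z₀) (fib_eq L z₀) t m (fun j y => eval z₀ ((fr j).1 y))
    (fun j => qv_mem L _ _ z₀) (hind z₀ hz₀ hz₀0) (hrk z₀ hz₀ hz₀0).symm
  set e' : Fin m ⊕ Fin t → (L.Ix → Sx N) × ℕ :=
    Sum.elim fr fun j => (L.qk (g j).1 (g j).2, (g j).2 + 1) with he'
  set e : Fin (m + t) → (L.Ix → Sx N) × ℕ := fun l => e' (finSumFinEquiv.symm l) with he
  have he'h : ∀ l y, ((e' l).1 y).IsHomogeneous ((e' l).2 + (L.dg - 1 - (y.1 : ℕ))) := by
    rintro (j | j) y
    · exact hfrh j y
    · exact hWG.hom _ _ y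
  have he'm : ∀ l, ∀ p' ∈ zer J, p' ≠ 0 → (fun y => eval p' ((e' l).1 y)) ∈ fib (QG L.qk) p' := by
    rintro (j | j) p' _ _
    · exact qv_mem L _ _ p'
    · rw [fib_eq]
      exact Submodule.subset_span ⟨g j, rfl⟩
  have hli : LinearIndependent ℂ (fun l => fun y => eval z₀ ((e l).1 y)) := by
    have h4 : (fun l => fun y => eval z₀ ((e l).1 y)) =
        (Sum.elim (fun j : Fin m => fun y : L.Ix => eval z₀ ((fr j).1 y))
          (fun j : Fin t => fun y : L.Ix => eval z₀ (L.qk (g j).1 (g j).2 y))) ∘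
        finSumFinEquiv.symm := by
      funext l
      simp only [he, Function.comp]
      rcases finSumFinEquiv.symm l with j | j <;> rfl
    rw [h4]
    exact hg.comp _ finSumFinEquiv.symm.injective
  obtain ⟨ρ, D, δ', hD, hD0, hle', hρ, hcr, hlast⟩ := wCr tMinor tNull N L.Ix
    (fun y : L.Ix => L.dg - 1 - (y.1 : ℕ)) J hJ hJh (QG L.qk) (m + t) hHG hrk z₀ hz₀ hz₀0 e
    (fun l y => he'h _ y) (fun l => he'm _) hli
  -- the equations
  set v : L.Ix → Sx N := qs L ξ K with hv
  have hvh : ∀ y, (v y).IsHomogeneous (K + 1 + (L.dg - 1 - (y.1 : ℕ))) := qs_hom L hWG.hom ξ K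
  have hDv : ∀ y, D * v y - ∑ l, (∑ y', ρ l y' * v y') * (e l).1 y ∈ J := by
    intro y
    have h4 : D * v y - ∑ l, (∑ y', ρ l y' * v y') * (e l).1 y =
        ∑ i, C (ξ i) * (D * L.qk i K y - ∑ l, (∑ y', ρ l y' * L.qk i K y') * (e l).1 y) := by
      have h5 : ∀ l, (∑ y', ρ l y' * v y') * (e l).1 y =
          ∑ i, C (ξ i) * ((∑ y', ρ l y' * L.qk i K y') * (e l).1 y) := by
        intro l
        simp only [hv, qs, Finset.mul_sum, Finset.sum_mul]
        rw [Finset.sum_comm]
        refine Finset.sum_congr rfl fun i _ => Finset.sum_congr rfl fun y' _ => ?_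
        ring
      simp only [h5, mul_sub, Finset.sum_sub_distrib]
      rw [Finset.sum_comm]
      simp only [hv, qs, Finset.mul_sum]
      congr 1
      refine Finset.sum_congr rfl fun i _ => ?_
      ring
    rw [h4]
    exact Ideal.sum_mem _ fun i _ => Ideal.mul_mem_left _ _ (hlast (L.qk i K, K + 1) ⟨i, K, rfl⟩ y)
  set gl : Fin t → Sx N := fun j => ∑ y, ρ (finSumFinEquiv (Sum.inr j)) y * v y with hgl
  have hglh : ∀ j, ∃ n, (gl j).IsHomogeneous n := by
    intro j
    refine ⟨δ' - (e (finSumFinEquiv (Sum.inr j))).2 + (K + 1),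
      MvPolynomial.IsHomogeneous.sum _ _ _ fun y _ => ?_⟩
    by_cases h0 : ρ (finSumFinEquiv (Sum.inr j)) y = 0
    · rw [h0, zero_mul]
      exact MvPolynomial.isHomogeneous_zero _ _ _
    · have h5 := (hρ (finSumFinEquiv (Sum.inr j)) y).1.mul (hvh y)
      have h6 := (hρ (finSumFinEquiv (Sum.inr j)) y).2 h0
      have h7 : δ' - (e (finSumFinEquiv (Sum.inr j))).2 - (L.dg - 1 - (y.1 : ℕ)) +
          (K + 1 + (L.dg - 1 - (y.1 : ℕ))) = δ' - (e (finSumFinEquiv (Sum.inr j))).2 + (K + 1) := by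
        omega
      rw [h7] at h5
      exact h5
  have hgl0 : ∀ j, eval z₀ (gl j) = 0 := by
    intro j
    rw [hspan' z₀ hz₀ hz₀0] at hξ
    obtain ⟨b, hb⟩ := (Submodule.mem_span_range_iff_exists_fun ℂ).1 hξ
    have hb' : ∀ y, eval z₀ (v y) = ∑ l, b l * eval z₀ ((fr l).1 y) := by
      intro y
      have := congrFun hb y
      simp only [Finset.sum_apply, Pi.smul_apply, smul_eq_mul] at this
      rw [this]
      rfl
    simp only [hgl, map_sum, map_mul, hb', Finset.mul_sum]
    rw [Finset.sum_comm]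
    refine Finset.sum_eq_zero fun l _ => ?_
    have h5 := congrArg (eval z₀) (hcr (finSumFinEquiv (Sum.inr j)) (finSumFinEquiv (Sum.inl l)))
    rw [if_neg (by
      intro h6
      exact Sum.inr_ne_inl (finSumFinEquiv.injective h6)), map_zero, map_sum] at h5
    have h6 : ∀ y, eval z₀ (ρ (finSumFinEquiv (Sum.inr j)) y *
        (e (finSumFinEquiv (Sum.inl l))).1 y) =
        eval z₀ (ρ (finSumFinEquiv (Sum.inr j)) y) * eval z₀ ((fr l).1 y) := by
      intro y
      rw [map_mul]
      simp only [he, Equiv.symm_apply_apply, he', Sum.elim_inl]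
    simp only [h6] at h5
    calc ∑ y, eval z₀ (ρ (finSumFinEquiv (Sum.inr j)) y) * (b l * eval z₀ ((fr l).1 y))
        = b l * ∑ y, eval z₀ (ρ (finSumFinEquiv (Sum.inr j)) y) * eval z₀ ((fr l).1 y) := by
          rw [Finset.mul_sum]
          exact Finset.sum_congr rfl fun y _ => by ring
      _ = 0 := by rw [h5, mul_zero]
  obtain ⟨P, hP, hPh, hJP, hPg, hz₀P, hPδ⟩ := h1 N δ J hJ hJh hδ z₀ hz₀ t gl hglh hgl0
  have hzP : ∀ z ∈ zer P, z ∈ zer J := fun z hz F hF => hz F (hJP hF)
  -- where `D` does not vanish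
  have hgood : ∀ z ∈ zer P, z ≠ 0 → eval z D ≠ 0 → qv L ξ K z ∈
      Submodule.span ℂ (Set.range fun j : Fin m => fun y : L.Ix => eval z ((fr j).1 y)) := by
    intro z hz hz0 hDz
    have h5 : qv L ξ K z = ∑ j : Fin m, ((eval z D)⁻¹ *
        eval z (∑ y', ρ (finSumFinEquiv (Sum.inl j)) y' * v y')) •
          fun y : L.Ix => eval z ((fr j).1 y) := by
      funext y
      have h6 := hzP z hz _ (hDv y)
      rw [map_sub, map_mul, map_sum, sub_eq_zero, ← finSumFinEquiv.sum_comp,
        Fintype.sum_sum_type] at h6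
      have h7 : ∑ j : Fin t, eval z ((∑ y', ρ (finSumFinEquiv (Sum.inr j)) y' * v y') *
          (e (finSumFinEquiv (Sum.inr j))).1 y) = 0 := by
        refine Finset.sum_eq_zero fun j _ => ?_
        rw [map_mul]
        have h8 := hz _ (hPg j)
        simp only [hgl] at h8
        rw [h8, zero_mul]
      rw [h7, add_zero] at h6
      simp only [Finset.sum_apply, Pi.smul_apply, smul_eq_mul]
      have h9 : qv L ξ K z y = (eval z D)⁻¹ * (eval z D * eval z (v y)) := by
        rw [← mul_assoc, inv_mul_cancel₀ hDz, one_mul]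
        rfl
      rw [h9, h6, Finset.mul_sum]
      refine Finset.sum_congr rfl fun j _ => ?_
      rw [map_mul]
      simp only [he, Equiv.symm_apply_apply, he', Sum.elim_inl]
      ring
    rw [h5]
    exact Submodule.sum_mem _ fun j _ => Submodule.smul_mem _ _ (Submodule.subset_span ⟨j, rfl⟩)
  -- the minors
  set u : Fin (m + 1) → (L.Ix → Sx N) × ℕ := Fin.cons (v, K + 1) fr with hu
  have huh : ∀ l y, ((u l).1 y).IsHomogeneous ((u l).2 + (L.dg - 1 - (y.1 : ℕ))) := by
    intro l y
    refine Fin.cases ?_ (fun j => ?_) l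
    · exact hvh y
    · exact hfrh j y
  have hue : ∀ (z : Vx N) (l : Fin (m + 1)) (y : L.Ix), eval z ((u l).1 y) =
      (Fin.cons (qv L ξ K z) (fun j : Fin m => fun y : L.Ix => eval z ((fr j).1 y)) :
        Fin (m + 1) → L.Ix → ℂ) l y := by
    intro z l y
    refine Fin.cases ?_ (fun j => ?_) l
    · rfl
    · rfl
  have hdet : ∀ (z : Vx N) (A : Fin (m + 1) → L.Ix),
      eval z (Matrix.of fun l k => (u l).1 (A k)).det = (Matrix.of fun l k =>
        (Fin.cons (qv L ξ K z) (fun j : Fin m => fun y : L.Ix => eval z ((fr j).1 y)) :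
          Fin (m + 1) → L.Ix → ℂ) l (A k)).det := by
    intro z A
    rw [RingHom.map_det]
    congr 1
    ext l k
    exact hue z l (A k)
  have hmin : ∀ A : Fin (m + 1) → L.Ix, (Matrix.of fun l k => (u l).1 (A k)).det ∈ P := by
    intro A
    have h5 : D * (Matrix.of fun l k => (u l).1 (A k)).det ∈ P := by
      refine (tNull N P hP hPh).2 ⟨z₀, hz₀P, hz₀0⟩ _ _ (hD.mul (WCrAux.det_hom _ (fun l => (u l).2)
        (fun k => L.dg - 1 - ((A k).1 : ℕ)) fun l k => huh l (A k))) ?_
      intro z hz hz0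
      rw [map_mul]
      by_cases hDz : eval z D = 0
      · rw [hDz, zero_mul]
      · rw [hdet, det_zero _ _ (hgood z hz hz0 hDz), mul_zero]
    rcases hP.mem_or_mem h5 with h | h
    · exact absurd (hz₀P D h) hD0
    · exact h
  refine ⟨P, hJP, ⟨hP, hPh, hF.le.trans hJP, hF.xz, hF.x0, ?_, ?_, ?_⟩, hz₀P, hPδ, ?_⟩
  · obtain ⟨lam, h5, h6, h7⟩ := hF.lam
    exact ⟨lam, h5, h6, hJP h7⟩
  · exact fun z hz => hF.line z (hzP z hz)
  · exact fun z hz => hF.deg z (hzP z hz)
  · intro z hz hz0
    rw [hspan' z (hzP z hz) hz0]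
    by_contra hcon
    have h5 : LinearIndependent ℂ (Fin.cons (qv L ξ K z)
        (fun j : Fin m => fun y : L.Ix => eval z ((fr j).1 y)) : Fin (m + 1) → L.Ix → ℂ) :=
      linearIndependent_finCons.2 ⟨hind z (hzP z hz) hz0, hcon⟩
    obtain ⟨A, hA⟩ := WCrAux.minor tMinor _ h5
    apply hA
    rw [← hdet]
    exact hz _ (hmin A)

end Pool.Agent.Lib.MP_776403_ag.SD.U
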