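import Pool.Agent.Lib.MP_776403_ag.SD.U.SpecC

/-!
# THEOREM U, part C: existence of lifts (`S_Ex`)

If `q_b^K(z) ∉ F_K(z)` for all `b ≠ 0` in the span of the `W l` and all `z`, then the frame of `F_K(z)` together with
the `q_(W l)^K(z)` is independent at every point; this contradicts `S_NW`.
-/

set_option autoImplicit false

open MvPolynomial

noncomputable section

namespace Pool.Agent.Lib.MP_776403_ag.SD.U

variable {N : ℕ}

namespace ExAux

theorem qv_sum {I : Ideal (Sx N)} {x : Vx N} {c : ℕ} (L : Loc I x c) {ι : Type} (s : Finset ι)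
    (b : ι → ℂ) (W : ι → Fin c → ℂ) (k : ℕ) (z : Vx N) :
    qv L (∑ l ∈ s, b l • W l) k z = ∑ l ∈ s, b l • qv L (W l) k z := by
  funext y
  simp only [qv, qs, map_sum, map_mul, eval_C, Finset.sum_apply, Pi.smul_apply, smul_eq_mul,
    Finset.sum_mul, Finset.mul_sum, mul_assoc]
  exact Finset.sum_comm

/-- `S_NW` with an arbitrary finite index type instead of `Fin (r + 1)`. -/
theorem nw {α β : Type} {m μ : ℕ} (e : Fin m ≃ α) (g : Fin μ ≃ β) (F : α → ℕ) (K : ℕ)
    {P : Type} (ha : α → P) (hb : β → P) (kk : P → ℕ) (hia : Function.Injective ha)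
    (hib : Function.Injective hb) (hka : ∀ p, kk (ha p) = F p) (hlt : ∀ p, F p < K)
    (hkb : ∀ p, kk (hb p) = K) (hsur : ∀ p, kk p = K → p ∈ Set.range hb) :
    ∃ (E : Fin (m + μ + 1) ≃ α ⊕ Fin (μ + 1)) (f : Fin (m + μ) → P), Function.Injective f ∧
      (∀ l, Sum.elim F (fun _ => K) (E (Fin.castSucc l)) = kk (f l)) ∧
      (∀ p, p ∉ Set.range f → kk p ≠ Sum.elim F (fun _ => K) (E (Fin.last (m + μ)))) := by
  refine ⟨(finSumFinEquiv (m := m) (n := μ + 1)).symm.trans (Equiv.sumCongr e (Equiv.refl _)),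
    fun l => Sum.elim (fun j => ha (e j)) (fun j => hb (g j))
      ((finSumFinEquiv (m := m) (n := μ)).symm l), ?_, ?_, ?_⟩
  · refine Function.Injective.comp ?_ (Equiv.injective _)
    rintro (j | j) (j' | j') hjj
    · exact congrArg Sum.inl (e.injective (hia hjj))
    · exfalso
      have h3 := congrArg kk hjj
      simp only [hka, hkb] at h3
      exact absurd h3 (hlt _).ne
    · exfalso
      have h3 := congrArg kk hjj
      simp only [hka, hkb] at h3
      exact absurd h3 (hlt _).ne'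
    · exact congrArg Sum.inr (g.injective (hib hjj))
  · intro l
    obtain ⟨s, rfl⟩ := (finSumFinEquiv (m := m) (n := μ)).surjective l
    rcases s with j | j
    · have h4 : Fin.castSucc (finSumFinEquiv (m := m) (n := μ) (Sum.inl j)) =
          finSumFinEquiv (m := m) (n := μ + 1) (Sum.inl j) := by
        ext
        simp [finSumFinEquiv]
      rw [h4]
      simp only [Equiv.trans_apply, Equiv.symm_apply_apply, Equiv.sumCongr_apply, Sum.map_inl,
        Sum.elim_inl, hka]
    · have h4 : Fin.castSucc (finSumFinEquiv (m := m) (n := μ) (Sum.inr j)) =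
          finSumFinEquiv (m := m) (n := μ + 1) (Sum.inr (Fin.castSucc j)) := by
        ext
        simp [finSumFinEquiv]
      rw [h4]
      simp only [Equiv.trans_apply, Equiv.symm_apply_apply, Equiv.sumCongr_apply, Sum.map_inr,
        Sum.elim_inr, hkb]
  · intro p hp hpk
    have h4 : Fin.last (m + μ) = finSumFinEquiv (m := m) (n := μ + 1) (Sum.inr (Fin.last μ)) := by
      ext
      simp [finSumFinEquiv]
    rw [h4] at hpk
    simp only [Equiv.trans_apply, Equiv.symm_apply_apply, Equiv.sumCongr_apply, Sum.map_inr,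
      Sum.elim_inr] at hpk
    obtain ⟨w, hw⟩ := hsur p hpk
    refine hp ⟨finSumFinEquiv (m := m) (n := μ) (Sum.inr (g.symm w)), ?_⟩
    simp only [Equiv.symm_apply_apply, Sum.elim_inr, Equiv.apply_symm_apply]
    exact hw

end ExAux

theorem tEx (h1 : S_FB) (h2 : S_NW) : S_Ex := by
  classical
  intro N c a I J d q x hU hF hD L K B hFl r hr W hW
  by_contra hcon
  push Not at hcon
  -- the values of the `W l` modulo `F_K`
  have key : ∀ z ∈ zer J, z ≠ 0 → ∀ b : Fin r → ℂ,
      ∑ l, b l • qv L (W l) K z ∈ Fj L K z → b = 0 := by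
    intro z hz hz0 b hb
    by_contra hb0
    refine hcon z hz hz0 b hb0 ?_
    rw [ExAux.qv_sum]
    exact hb
  obtain ⟨m, hm⟩ : ∃ m, (FI d K).card = m := ⟨_, rfl⟩
  obtain ⟨μ, hμ⟩ : ∃ μ, Nat.card {i : Fin c // K + 1 < d i} = μ := ⟨_, rfl⟩
  rw [hμ] at hr
  subst hr
  have e : Fin m ≃ FI d K := ((FI d K).equivFinOfCardEq hm).symm
  have g : Fin μ ≃ {i : Fin c // K + 1 < d i} := (Finite.equivFinOfCardEq hμ).symm
  have hFI : ∀ p : FI d K, p.1.2 < K ∧ p.1.2 + 1 < d p.1.1 := by
    intro p
    have h3 := p.2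
    simp only [FI, Finset.mem_filter, Finset.mem_product, Finset.mem_univ, Finset.mem_range,
      true_and] at h3
    exact h3
  obtain ⟨E, f, hf1, hf2, hf3⟩ := ExAux.nw (P := {p : Fin c × ℕ // p.2 + 1 < d p.1}) e g
    (fun p => p.1.2) K (fun p => ⟨p.1, (hFI p).2⟩) (fun i => ⟨(i.1, K), i.2⟩) (fun p => p.1.2)
    (by
      intro p p' hpp
      exact Subtype.ext (congrArg (fun t : {p : Fin c × ℕ // p.2 + 1 < d p.1} => t.1) hpp))
    (by
      intro i i' hii
      exact Subtype.ext (congrArg (fun t : {p : Fin c × ℕ // p.2 + 1 < d p.1} => t.1.1) hii))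
    (fun p => rfl) (fun p => (hFI p).1) (fun p => rfl)
    (by
      rintro ⟨⟨i, k⟩, hik⟩ hk
      have hk' : k = K := hk
      subst hk'
      exact ⟨⟨i, hik⟩, rfl⟩)
  refine h2 N c a I J d q x hU hF hD L (m + μ) (fun l => Sum.elim (fun p => B p.1.1) W (E l))
    (fun l => Sum.elim (fun p => p.1.2) (fun _ => K) (E l)) ?_ f hf1 hf2 hf3
  intro z hz hz0
  obtain ⟨-, -, -, hFB⟩ := h1 N c a I J x hU.pos hU.prime hU.hom hU.smooth hF L z hz hz0
  obtain ⟨hsp, -, -⟩ := hFB d K B hU.one_le hFl
  have hspK := hsp K le_rfl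
  have hli : LinearIndependent ℂ (Sum.elim (fun p : FI d K => qv L (B p.1.1) p.1.2 z)
      (fun l : Fin (μ + 1) => qv L (W l) K z)) := by
    refine LinearIndependent.sum_type (hFl.ind z hz hz0) ?_ ?_
    · rw [Fintype.linearIndependent_iff]
      intro b hb
      have h5 := key z hz hz0 b (by rw [hb]; exact Submodule.zero_mem _)
      exact fun i => congrFun h5 i
    · rw [← hspK, Submodule.disjoint_def]
      intro v hv1 hv2
      rw [Submodule.mem_span_range_iff_exists_fun] at hv2
      obtain ⟨b, hb⟩ := hv2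
      have h5 := key z hz hz0 b (by rw [hb]; exact hv1)
      rw [← hb, h5]
      simp
  have h6 : (fun l => qv L (Sum.elim (fun p => B p.1.1) W (E l))
      (Sum.elim (fun p => p.1.2) (fun _ => K) (E l)) z) =
      (Sum.elim (fun p : FI d K => qv L (B p.1.1) p.1.2 z)
      (fun l : Fin (μ + 1) => qv L (W l) K z)) ∘ E := by
    funext l
    simp only [Function.comp_apply]
    rcases E l with p | p <;> rfl
  rw [h6]
  exact hli.comp _ E.injective

end Pool.Agent.Lib.MP_776403_ag.SD.U
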