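import Pool.Agent.Lib.MP_776403_ag.SD.U.SpecC
import Pool.Agent.Lib.MP_776403_ag.SD.Z.Fin

/-!
# THEOREM U, part C: the functional equation with the Hilbert series
-/

set_option autoImplicit false

open MvPolynomial

noncomputable section

namespace Pool.Agent.Lib.MP_776403_ag.SD.U

open WFEAux in
/-- (FE2) The functional equation, with the Hilbert series. -/
theorem fE2 (hWR1 : S_WR1) (hWR2 : S_WR2) (hWVan : S_WVan) (hWQP : S_WQP) (hWDiv : S_WDiv)
    (hWKI : S_WKI) (hKLF : S_KLF) (hKGV : S_KGV) (hWB : S_WB) (hNull : S_Null) : S_FE2 := by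
  classical
  intro N c a I J hIp hIh hIs hJp hJh hIJ hca hDim β _ ω q M Ψ hG Q hQ0 hQ hQc
  obtain ⟨hB1, hB2, hB3, hB4, hB5, hB6⟩ := hWB
  obtain ⟨hG1, hG2, hG3, hG4⟩ := hKGV
  have hz : ∃ p ∈ zer J, p ≠ 0 := exZ hNull N (a + c) J hJp hJh hDim
  obtain ⟨c', h, hc', hh, hh0⟩ := hWQP N (a + c) J hJp hJh hDim
  have hc'N : c' ≤ N := by omega
  have hHG : HG ω (QG q) := by
    rintro g ⟨i, k, rfl⟩ y
    exact hG.hom i k y
  have hLW : ∀ l, GW (fun A : Fin l → β => ∑ m, ω (A m)) (LW (QG q) l) := fun l =>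
    (hB2 N β ω (QG q) (QG q) l hHG).1
  have hVL : ∀ i, GW (fun _ : Fin i → Fin (N + 1) => 0) (VL I i) := fun i =>
    ⟨fun k v hv b => by simpa using (hG3 N I i).1.hom k v hv b, (hG3 N I i).1.mul⟩
  have hex : ∀ l, ∃ p : Polynomial ℤ, QP N c' (hV J (LW (QG q) l)) p ∧ (a - c < l → p = 0) := by
    intro l
    by_cases hl : a - c < l
    · exact ⟨0, QPzero _ _ _ fun k =>
        (hWVan N c a I J hIh hIs hIJ hJp hJh hz β ω q M Ψ hG).1 l k hl, fun _ => rfl⟩
    · obtain ⟨p, hp⟩ := hWDiv N c' J hJp hJh hz hc'N h hh (Fin l → β) _ (LW (QG q) l) (hLW l)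
      exact ⟨p, hp, fun h => absurd h hl⟩
  choose α hα hα0 using hex
  have hexb : ∀ i l, ∃ p : Polynomial ℤ,
      QP N c' (hV J (PV (VL I i) (LW (QG q) l))) p ∧ (c < i → p = 0) := by
    intro i l
    by_cases hi : c < i
    · exact ⟨0, QPzero _ _ _ fun k =>
        (hWVan N c a I J hIh hIs hIJ hJp hJh hz β ω q M Ψ hG).2 (Fin l → β) _ (LW (QG q) l)
          (hLW l) i k hi, fun _ => rfl⟩
    · obtain ⟨p, hp⟩ := hWDiv N c' J hJp hJh hz hc'N h hh _ _ (PV (VL I i) (LW (QG q) l))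
        (hB3 N _ _ _ _ _ _ (hVL i) (hLW l))
      exact ⟨p, hp, fun h => absurd h hi⟩
  choose b hb hb0 using hexb
  have hα00 : α 0 = h := by
    have h1 := hα 0
    have h2 : hV J (LW (QG q) 0) = fun k => Module.finrank ℂ (gr J k) :=
      funext fun k => hV0 β J (QG q) k
    rw [h2] at h1
    unfold QP at h1 hh
    rw [hh] at h1
    have h3 := Polynomial.coe_injective ℤ h1
    exact (mul_left_cancel₀ (pow_ne_zero c' oX) h3).symm
  refine ⟨c', α, hc', by rw [hα00]; exact hh, hα, by rw [hα00]; exact hh0, fun m => ?_⟩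
  -- the two filtrations
  have hR : (1 - Polynomial.X) ^ (a + 1) ∣ Polynomial.X ^ m *
      ∑ i ∈ Finset.range (m + 1), (Nat.choose c i : Polynomial ℤ) * α (m - i) -
      ∑ i ∈ Finset.range (m + 1), Polynomial.X ^ i * b i (m - i) := by
    obtain ⟨m1, hm1⟩ := hWR1 N c a I J hJp hJh hz β ω q M Ψ hG m
    obtain ⟨m2, hm2⟩ := hWR2 N c a I J hIh hIs hIJ hJp hJh hz β ω q M Ψ hG m
    refine stepR N c' c m (fun l => hV J (LW (QG q) l))
      (fun i l => hV J (PV (VL I i) (LW (QG q) l))) α b hα hb (max m1 m2) ?_ (a + 1) (by omega)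
    intro n hn
    rw [← hm1 n (le_trans (le_max_left _ _) hn), hm2 n (le_trans (le_max_right _ _) hn)]
  -- the self-intersection formula
  have hK : ∀ i l, (1 - Polynomial.X) ^ (a + 1) ∣
      Q i * α l - Polynomial.X ^ i * (Q 0 * b i l) := by
    intro i l
    by_cases hi : i ≤ c
    · obtain ⟨p, hp, hQi⟩ := hQ i hi
      have h1 := (hWKI N (Fin l → β) _ J hJp hJh hz (LW (QG q) l) (hLW l)).2 c
        (Fin i → Fin (N + 1)) I hIp hIh hIs hIJ (VL I i) (hG3 N I i).1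
        (hKLF N c I J hIp hIh hIs hIJ i)
      have h2 := stepK N c c' a _ _ _ _ p (α l) (Q 0) (b i l) hp (hα l) hQ0 (hb i l) h1 (by omega)
      rw [hQi]
      have h3 : Polynomial.X ^ i * p * α l - Polynomial.X ^ i * (Q 0 * b i l) =
          Polynomial.X ^ i * (p * α l - Q 0 * b i l) := by ring
      rw [h3]
      exact Dvd.dvd.mul_left h2 _
    · rw [hQc i (not_le.1 hi), hb0 i l (not_le.1 hi)]
      simp
  have hfin : Q 0 * Polynomial.X ^ m *
      ∑ i ∈ Finset.range (m + 1), (Nat.choose c i : Polynomial ℤ) * α (m - i) -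
      ∑ i ∈ Finset.range (m + 1), Q i * α (m - i) =
      Q 0 * (Polynomial.X ^ m *
        ∑ i ∈ Finset.range (m + 1), (Nat.choose c i : Polynomial ℤ) * α (m - i) -
        ∑ i ∈ Finset.range (m + 1), Polynomial.X ^ i * b i (m - i)) -
      ∑ i ∈ Finset.range (m + 1), (Q i * α (m - i) -
        Polynomial.X ^ i * (Q 0 * b i (m - i))) := by
    rw [Finset.sum_sub_distrib]
    have h4 : ∑ i ∈ Finset.range (m + 1), Polynomial.X ^ i * (Q 0 * b i (m - i)) =
        Q 0 * ∑ i ∈ Finset.range (m + 1), Polynomial.X ^ i * b i (m - i) := by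
      rw [Finset.mul_sum]
      exact Finset.sum_congr rfl fun i _ => by ring
    rw [h4]
    ring
  rw [hfin]
  exact dvd_sub (Dvd.dvd.mul_left hR _) (Finset.dvd_sum fun i _ => hK i (m - i))

/-- (FE2) closed form. -/
theorem tFE2 : S_FE2 :=
  fE2 zWR1 zWR2 zWVan zWQP zWDiv zWKI zKLF tKGV wB tNull

end Pool.Agent.Lib.MP_776403_ag.SD.U
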