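import Pool.Agent.Lib.MP_776403_ag.SD.U.SpecA

/-!
# Growth (`S_Gro`)

`(M + 1)^n ≤ n! binom (M + n) n` and `(n + 1) ∑_(k < M) k^n ≤ M^(n+1)`.
-/

set_option autoImplicit false

open MvPolynomial

noncomputable section

namespace Pool.Agent.Lib.MP_776403_ag.SD.U

namespace GroAux

theorem low (M n : ℕ) : (M + 1) ^ n ≤ n.factorial * Nat.choose (M + n) n := by
  rw [← Nat.ascFactorial_eq_factorial_mul_choose]
  exact Nat.pow_succ_le_ascFactorial (M + 1) n

theorem bern (k n : ℕ) : k ^ (n + 1) + (n + 1) * k ^ n ≤ (k + 1) ^ (n + 1) := by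
  induction n with
  | zero => simp
  | succ n ih =>
    calc k ^ (n + 1 + 1) + (n + 1 + 1) * k ^ (n + 1)
        ≤ (k ^ (n + 1) + (n + 1) * k ^ n) * (k + 1) := by
          have : (k ^ (n + 1) + (n + 1) * k ^ n) * (k + 1) =
            k ^ (n + 1 + 1) + (n + 1 + 1) * k ^ (n + 1) + (n + 1) * k ^ n := by ring
          rw [this]
          exact Nat.le_add_right _ _
      _ ≤ (k + 1) ^ (n + 1) * (k + 1) := Nat.mul_le_mul_right _ ih
      _ = (k + 1) ^ (n + 1 + 1) := (pow_succ _ _).symm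

theorem sumPow (n M : ℕ) : (n + 1) * ∑ k ∈ Finset.range M, k ^ n ≤ M ^ (n + 1) := by
  induction M with
  | zero => simp
  | succ M ih =>
    rw [Finset.sum_range_succ, mul_add]
    exact (Nat.add_le_add_right ih _).trans (bern M n)

/-- the sum function -/
theorem upper (f : ℕ → ℕ) (n D w : ℕ)
    (h : Filter.Tendsto (fun m : ℕ => (n.factorial : ℝ) * (f m : ℝ) / (m : ℝ) ^ n)
      Filter.atTop (nhds (D : ℝ))) (ε : ℝ) (hε : 0 < ε) :
    ∃ R : ℕ → ℝ, Filter.Tendsto R Filter.atTop (nhds ((D : ℝ) + ε)) ∧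
      ∀ᶠ m : ℕ in Filter.atTop, ((n + 1).factorial : ℝ) *
        ((∑ k ∈ Finset.range (m + w + 1), f k : ℕ) : ℝ) ≤ R m * ((m : ℝ) + 1) ^ (n + 1) := by
  obtain ⟨K, hK⟩ := Filter.eventually_atTop.1 ((h.eventually (gt_mem_nhds (show (D : ℝ) < D + ε by
    linarith))).and (Filter.eventually_ge_atTop 1))
  obtain ⟨c, hc⟩ : ∃ c : ℝ, c = ∑ k ∈ Finset.range K, (n.factorial : ℝ) * (f k : ℝ) := ⟨_, rfl⟩
  have hDe : (0 : ℝ) ≤ D + ε := by positivity
  -- the values
  have h1 : ∀ k, K ≤ k → (n.factorial : ℝ) * (f k : ℝ) ≤ (D + ε) * (k : ℝ) ^ n := by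
    intro k hk
    obtain ⟨e1, e2⟩ := hK k hk
    have hk0 : (0 : ℝ) < (k : ℝ) ^ n := by
      have : (0 : ℝ) < k := by exact_mod_cast e2
      positivity
    rw [div_lt_iff₀ hk0] at e1
    exact e1.le
  -- the sum
  have h2 : ∀ M, K ≤ M → (n.factorial : ℝ) * ((∑ k ∈ Finset.range M, f k : ℕ) : ℝ) ≤
      c + (D + ε) * ((∑ k ∈ Finset.range M, k ^ n : ℕ) : ℝ) := by
    intro M hM
    induction M, hM using Nat.le_induction with
    | base =>
      rw [hc]
      push_cast
      rw [Finset.mul_sum]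
      have : (0 : ℝ) ≤ (D + ε) * ∑ k ∈ Finset.range K, (k : ℝ) ^ n :=
        mul_nonneg hDe (Finset.sum_nonneg fun k _ => by positivity)
      linarith
    | succ M hM ih =>
      have := h1 M hM
      rw [Finset.sum_range_succ, Finset.sum_range_succ]
      push_cast at ih ⊢
      rw [mul_add, mul_add]
      linarith
  have h3 : ∀ M, K ≤ M → ((n + 1).factorial : ℝ) * ((∑ k ∈ Finset.range M, f k : ℕ) : ℝ) ≤
      (n + 1) * c + (D + ε) * (M : ℝ) ^ (n + 1) := by
    intro M hM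
    have e1 := h2 M hM
    have e2 : ((n : ℝ) + 1) * ((∑ k ∈ Finset.range M, k ^ n : ℕ) : ℝ) ≤ (M : ℝ) ^ (n + 1) := by
      exact_mod_cast sumPow n M
    have e3 : ((n + 1).factorial : ℝ) = ((n : ℝ) + 1) * n.factorial := by
      rw [Nat.factorial_succ]
      push_cast
      ring
    rw [e3]
    calc ((n : ℝ) + 1) * n.factorial * ((∑ k ∈ Finset.range M, f k : ℕ) : ℝ)
        = ((n : ℝ) + 1) * (n.factorial * ((∑ k ∈ Finset.range M, f k : ℕ) : ℝ)) := by ring
      _ ≤ ((n : ℝ) + 1) * (c + (D + ε) * ((∑ k ∈ Finset.range M, k ^ n : ℕ) : ℝ)) :=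
          mul_le_mul_of_nonneg_left e1 (by positivity)
      _ = (n + 1) * c + (D + ε) * (((n : ℝ) + 1) * ((∑ k ∈ Finset.range M, k ^ n : ℕ) : ℝ)) := by
          ring
      _ ≤ (n + 1) * c + (D + ε) * (M : ℝ) ^ (n + 1) := by
          have := mul_le_mul_of_nonneg_left e2 hDe
          linarith
  refine ⟨fun m => ((n : ℝ) + 1) * c * (1 / ((m : ℝ) + 1)) ^ (n + 1) +
    (D + ε) * (1 + (w : ℝ) * (1 / ((m : ℝ) + 1))) ^ (n + 1), ?_, ?_⟩
  · have t0 : Filter.Tendsto (fun m : ℕ => 1 / ((m : ℝ) + 1)) Filter.atTop (nhds 0) :=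
      tendsto_one_div_add_atTop_nhds_zero_nat
    have t1 := (t0.pow (n + 1)).const_mul (((n : ℝ) + 1) * c)
    have t2 := (((t0.const_mul (w : ℝ)).const_add 1).pow (n + 1)).const_mul ((D : ℝ) + ε)
    have t3 := t1.add t2
    have e : ((n : ℝ) + 1) * c * 0 ^ (n + 1) + (D + ε) * (1 + (w : ℝ) * 0) ^ (n + 1) = D + ε := by
      simp
    rw [e] at t3
    exact t3
  · filter_upwards [Filter.eventually_ge_atTop K] with m hm
    refine (h3 (m + w + 1) (by omega)).trans (le_of_eq ?_)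
    have hm1 : ((m : ℝ) + 1) ≠ 0 := by positivity
    have e1 : (1 / ((m : ℝ) + 1)) ^ (n + 1) * ((m : ℝ) + 1) ^ (n + 1) = 1 := by
      rw [← mul_pow, one_div_mul_cancel hm1, one_pow]
    have e2 : (1 + (w : ℝ) * (1 / ((m : ℝ) + 1))) ^ (n + 1) * ((m : ℝ) + 1) ^ (n + 1) =
        ((m + w + 1 : ℕ) : ℝ) ^ (n + 1) := by
      rw [← mul_pow]
      congr 1
      push_cast
      field_simp
      ring
    linear_combination (-(((n : ℝ) + 1) * c)) * e1 - ((D : ℝ) + ε) * e2

end GroAux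

theorem tGro : S_Gro := by
  intro N n D I hD
  unfold HasDeg at hD
  obtain ⟨f, hf⟩ : ∃ f : ℕ → ℕ, f = fun m => Module.finrank ℂ (gr I m) := ⟨_, rfl⟩
  have hfm : ∀ m, Module.finrank ℂ (gr I m) = f m := fun m => by rw [hf]
  simp only [hfm] at hD ⊢
  refine ⟨fun A r h => ?_, fun ρ w t hnt h => ?_⟩
  · -- first part
    have t0 : Filter.Tendsto (fun m : ℕ => (1 - (r : ℝ)) / (m : ℝ)) Filter.atTop (nhds 0) :=
      tendsto_const_div_atTop_nhds_zero_nat _
    have t1 := ((t0.const_add 1).pow n).const_mul (A : ℝ)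
    have e : (A : ℝ) * (1 + 0) ^ n = A := by simp
    rw [e] at t1
    have key : ∀ᶠ m : ℕ in Filter.atTop, (A : ℝ) * (1 + (1 - (r : ℝ)) / (m : ℝ)) ^ n ≤
        (n.factorial : ℝ) * (f m : ℝ) / (m : ℝ) ^ n := by
      filter_upwards [Filter.eventually_ge_atTop (r + 1)] with m hm
      have hm0 : (0 : ℝ) < m := by
        have : 0 < m := by omega
        exact_mod_cast this
      rw [le_div_iff₀ (by positivity)]
      have e1 : (1 + (1 - (r : ℝ)) / (m : ℝ)) ^ n * (m : ℝ) ^ n = ((m - r + 1 : ℕ) : ℝ) ^ n := by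
        rw [← mul_pow]
        congr 1
        push_cast [Nat.cast_sub (show r ≤ m by omega)]
        field_simp
        ring
      rw [mul_assoc, e1]
      have e2 : A * (m - r + 1) ^ n ≤ n.factorial * f m := by
        calc A * (m - r + 1) ^ n ≤ A * (n.factorial * Nat.choose (m - r + n) n) :=
              Nat.mul_le_mul_left _ (GroAux.low (m - r) n)
          _ = n.factorial * (A * Nat.choose (m - r + n) n) := by ring
          _ ≤ n.factorial * f m := Nat.mul_le_mul_left _ (h m (by omega))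
      exact_mod_cast e2
    exact_mod_cast le_of_tendsto_of_tendsto t1 hD key
  · -- second part
    have low : ∀ m : ℕ, ((m : ℝ) + 1) ^ (t + 1) * ρ ≤
        (t + 1).factorial * ((∑ k ∈ Finset.range (m + w + 1), f k : ℕ) : ℝ) := by
      intro m
      have e2 : (m + 1) ^ (t + 1) * ρ ≤
          (t + 1).factorial * ∑ k ∈ Finset.range (m + w + 1), f k := by
        calc (m + 1) ^ (t + 1) * ρ ≤ ((t + 1).factorial * Nat.choose (m + (t + 1)) (t + 1)) * ρ :=
              Nat.mul_le_mul_right _ (GroAux.low m (t + 1))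
          _ = (t + 1).factorial * (ρ * Nat.choose (m + t + 1) (t + 1)) := by
              rw [← add_assoc]
              ring
          _ ≤ _ := Nat.mul_le_mul_left _ (h m)
      exact_mod_cast e2
    have main : ∀ ε : ℝ, 0 < ε → ∃ R : ℕ → ℝ, Filter.Tendsto R Filter.atTop (nhds ((D : ℝ) + ε)) ∧
        ∀ᶠ m : ℕ in Filter.atTop, ((n + 1).factorial : ℝ) * (((m : ℝ) + 1) ^ (t - n) * ρ) ≤
          (t + 1).factorial * R m := by
      intro ε hε
      obtain ⟨R, hR1, hR2⟩ := GroAux.upper f n D w hD ε hε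
      refine ⟨R, hR1, ?_⟩
      filter_upwards [hR2] with m hm
      have hm1 : (0 : ℝ) < ((m : ℝ) + 1) ^ (n + 1) := by positivity
      refine le_of_mul_le_mul_right ?_ hm1
      have e1 : ((m : ℝ) + 1) ^ (t + 1) = ((m : ℝ) + 1) ^ (t - n) * ((m : ℝ) + 1) ^ (n + 1) := by
        rw [← pow_add]
        congr 1
        omega
      calc ((n + 1).factorial : ℝ) * (((m : ℝ) + 1) ^ (t - n) * ρ) * ((m : ℝ) + 1) ^ (n + 1)
          = ((n + 1).factorial : ℝ) * (((m : ℝ) + 1) ^ (t + 1) * ρ) := by rw [e1]; ring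
        _ ≤ ((n + 1).factorial : ℝ) *
            ((t + 1).factorial * ((∑ k ∈ Finset.range (m + w + 1), f k : ℕ) : ℝ)) :=
            mul_le_mul_of_nonneg_left (low m) (by positivity)
        _ = (t + 1).factorial *
            (((n + 1).factorial : ℝ) * ((∑ k ∈ Finset.range (m + w + 1), f k : ℕ) : ℝ)) := by ring
        _ ≤ (t + 1).factorial * (R m * ((m : ℝ) + 1) ^ (n + 1)) :=
            mul_le_mul_of_nonneg_left hm (by positivity)
        _ = (t + 1).factorial * R m * ((m : ℝ) + 1) ^ (n + 1) := by ring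
    have hcase : 1 ≤ ρ → t = n := by
      intro hρ
      by_contra hne
      have hlt : n < t := lt_of_le_of_ne hnt (Ne.symm hne)
      obtain ⟨R, hR1, hR2⟩ := main 1 one_pos
      have t1 := hR1.const_mul ((t + 1).factorial : ℝ)
      refine not_tendsto_nhds_of_tendsto_atTop ?_ _ t1
      refine Filter.tendsto_atTop_mono' _ (f₁ := fun m : ℕ => (m : ℝ) + 1) ?_
        (Filter.tendsto_atTop_add_const_right _ _ tendsto_natCast_atTop_atTop)
      filter_upwards [hR2] with m hm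
      refine le_trans ?_ hm
      have a1 : (1 : ℝ) ≤ ((n + 1).factorial : ℝ) := by exact_mod_cast Nat.factorial_pos _
      have a2 : (1 : ℝ) ≤ ρ := by exact_mod_cast hρ
      have a3 : (m : ℝ) + 1 ≤ ((m : ℝ) + 1) ^ (t - n) := by
        refine le_self_pow₀ ?_ (by omega)
        have : (0 : ℝ) ≤ m := Nat.cast_nonneg m
        linarith
      have a4 : (0 : ℝ) ≤ ((m : ℝ) + 1) ^ (t - n) := by positivity
      calc (m : ℝ) + 1 ≤ ((m : ℝ) + 1) ^ (t - n) := a3
        _ ≤ ((m : ℝ) + 1) ^ (t - n) * ρ := le_mul_of_one_le_right a4 a2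
        _ ≤ ((n + 1).factorial : ℝ) * (((m : ℝ) + 1) ^ (t - n) * ρ) :=
            le_mul_of_one_le_left (mul_nonneg a4 (by linarith)) a1
    refine ⟨?_, hcase⟩
    rcases Nat.eq_zero_or_pos ρ with h0 | h0
    · rw [h0]
      exact Nat.zero_le _
    · have htn := hcase h0
      have : (ρ : ℝ) ≤ D := by
        refine le_of_forall_pos_le_add fun ε hε => ?_
        obtain ⟨R, hR1, hR2⟩ := main ε hε
        refine ge_of_tendsto hR1 ?_
        filter_upwards [hR2] with m hm
        rw [htn, Nat.sub_self, pow_zero, one_mul] at hm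
        exact le_of_mul_le_mul_left hm (by positivity)
      exact_mod_cast this

end Pool.Agent.Lib.MP_776403_ag.SD.U
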