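import Pool.Agent.Lib.MP_776403_ag.SD.U.SpecC
import Pool.Agent.Lib.MP_776403_ag.SD.Z.MainW

/-!
# THEOREM U: lifts are regular sections (`S_Lf`)
-/

set_option autoImplicit false

open MvPolynomial

noncomputable section

namespace Pool.Agent.Lib.MP_776403_ag.SD.U

namespace LfAux

/-- A frame of a subspace is completed by generators. -/
theorem frame {V κ ι : Type} [AddCommGroup V] [Module ℂ V] [FiniteDimensional ℂ V]
    (f : κ → V) (g : ι → V) (r : ℕ) (hf : LinearIndependent ℂ f)
    (hm : ∀ p, f p ∈ Submodule.span ℂ (Set.range g))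
    (hr : Module.finrank ℂ (Submodule.span ℂ (Set.range g)) = r) :
    ∃ (u : Fin r → κ ⊕ ι) (m : κ → Fin r),
      LinearIndependent ℂ (fun l => Sum.elim f g (u l)) ∧ ∀ p, u (m p) = Sum.inl p := by
  classical
  have h0 : LinearIndepOn ℂ (Sum.elim f g) (Set.range (Sum.inl : κ → κ ⊕ ι)) := by
    rw [linearIndepOn_range_iff Sum.inl_injective]
    exact hf
  obtain ⟨b, -, hb1, hb2, hb3⟩ := exists_linearIndepOn_extension h0 (Set.subset_univ _)
  have hli : LinearIndependent ℂ (fun i : b => Sum.elim f g i) := hb3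
  have hfin : Finite b := hli.finite
  have : Fintype b := Fintype.ofFinite b
  have hsp : Submodule.span ℂ (Set.range fun i : b => Sum.elim f g i) =
      Submodule.span ℂ (Set.range g) := by
    apply le_antisymm
    · rw [Submodule.span_le]
      rintro _ ⟨⟨i, hi⟩, rfl⟩
      rcases i with p | q
      · exact hm p
      · exact Submodule.subset_span ⟨q, rfl⟩
    · rw [Submodule.span_le]
      rintro _ ⟨q, rfl⟩
      have := hb2 ⟨Sum.inr q, Set.mem_univ _, rfl⟩
      rw [Set.image_eq_range] at this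
      exact this
  have hcard : Fintype.card b = r := by
    rw [← finrank_span_eq_card hli, hsp, hr]
  let E : b ≃ Fin r := Fintype.equivFinOfCardEq hcard
  refine ⟨fun l => (E.symm l : κ ⊕ ι), fun p => E ⟨Sum.inl p, hb1 ⟨p, rfl⟩⟩, ?_, ?_⟩
  · exact hli.comp E.symm E.symm.injective
  · intro p
    simp

variable {N : ℕ} {I : Ideal (Sx N)} {x : Vx N} {c : ℕ} (L : Loc I x c)

theorem qs_hom (ξ : Fin c → ℂ) (k : ℕ) (y : L.Ix) :
    (qs L ξ k y).IsHomogeneous (k + 1 + (L.dg - 1 - (y.1 : ℕ))) := by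
  unfold qs
  refine IsHomogeneous.sum _ _ _ fun i _ => ?_
  have h := (zGQk N c I x L i k).2.1 y
  have h2 := (isHomogeneous_C (Fin (N + 1)) (ξ i)).mul h
  rwa [zero_add] at h2

theorem qv_apply (ξ : Fin c → ℂ) (k : ℕ) (z : Vx N) (y : L.Ix) :
    qv L ξ k z y = ∑ i, ξ i * eval z (L.qk i k y) := by
  simp [qv, qs]

theorem shift (ξ : Fin c → ℂ) (k : ℕ) (z : Vx N) (y : L.Ix) :
    ∑ y', eval z (L.mm y (Sum.inr y')) * qv L ξ k z y' = qv L ξ (k + 1) z y := by
  simp only [qv_apply, Finset.mul_sum]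
  rw [Finset.sum_comm]
  refine Finset.sum_congr rfl fun i _ => ?_
  have h := congrArg (eval z) ((zGQk N c I x L i k).2.2.2 y)
  rw [map_sum] at h
  simp only [map_mul] at h
  rw [← h, Finset.mul_sum]
  exact Finset.sum_congr rfl fun y' _ => by ring

/-- `q_f^0` for a combination `f`. -/
theorem qv_comb {κ : Type} [Fintype κ] (B : κ → Fin c → ℂ) (a : κ → ℂ) (k : ℕ) (z : Vx N)
    (y : L.Ix) :
    qv L (fun b => ∑ p, a p * B p b) k z y = ∑ p, a p * qv L (B p) k z y := by
  simp only [qv_apply, Finset.sum_mul, Finset.mul_sum]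
  rw [Finset.sum_comm]
  exact Finset.sum_congr rfl fun p _ => Finset.sum_congr rfl fun i _ => by ring

theorem qv_neg (ξ : Fin c → ℂ) (k : ℕ) (z : Vx N) (y : L.Ix) :
    qv L (fun b => - ξ b) k z y = - qv L ξ k z y := by
  simp only [qv_apply, neg_mul, Finset.sum_neg_distrib]

theorem fib_eq (z : Vx N) : fib (QG L.qk) z =
    Submodule.span ℂ (Set.range fun (q : Fin c × ℕ) (y : L.Ix) => eval z (L.qk q.1 q.2 y)) := by
  unfold fib QG
  congr 1
  ext w
  constructor
  · rintro ⟨g, ⟨i, k, rfl⟩, rfl⟩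
    exact ⟨(i, k), rfl⟩
  · rintro ⟨⟨i, k⟩, rfl⟩
    exact ⟨(L.qk i k, k + 1), ⟨i, k, rfl⟩, rfl⟩

theorem qv_mem (ξ : Fin c → ℂ) (k : ℕ) (z : Vx N) : qv L ξ k z ∈ fib (QG L.qk) z := by
  have h : qv L ξ k z = ∑ i, ξ i • (fun y => eval z (L.qk i k y)) := by
    funext y
    rw [qv_apply, Finset.sum_apply]
    rfl
  rw [h]
  exact Submodule.sum_mem _ fun i _ => Submodule.smul_mem _ _
    (Submodule.subset_span ⟨(L.qk i k, k + 1), ⟨i, k, rfl⟩, rfl⟩)

/-- The equation of the pair. -/
theorem pair_eq {κ : Type} [Fintype κ] (B : κ → Fin c → ℂ) (k : κ → ℕ) (cf : κ → ℂ) (K : ℕ)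
    (hK : 1 ≤ K) (η : Fin c → ℂ) (z : Vx N)
    (h : qv L η K z = ∑ p, cf p • qv L (B p) (k p) z) (y : L.Ix) :
    qv L (fun b => - ∑ p, if k p = 0 then cf p * B p b else 0) 0 z y +
      ∑ y', eval z (L.mm y (Sum.inr y')) * (qv L η (K - 1) z y' -
        ∑ p, if 1 ≤ k p then cf p * qv L (B p) (k p - 1) z y' else 0) = 0 := by
  classical
  have e1 : qv L (fun b => - ∑ p, if k p = 0 then cf p * B p b else 0) 0 z y =
      - ∑ p, if k p = 0 then cf p * qv L (B p) (k p) z y else 0 := by
    rw [qv_neg]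
    congr 1
    have : (fun b => ∑ p, if k p = 0 then cf p * B p b else 0) =
        fun b => ∑ p, (if k p = 0 then cf p else 0) * B p b := by
      funext b
      exact Finset.sum_congr rfl fun p _ => by split_ifs <;> simp
    rw [this, qv_comb]
    refine Finset.sum_congr rfl fun p _ => ?_
    split_ifs with hp
    · rw [hp]
    · simp
  have e2 : ∑ y', eval z (L.mm y (Sum.inr y')) * (qv L η (K - 1) z y' -
        ∑ p, if 1 ≤ k p then cf p * qv L (B p) (k p - 1) z y' else 0) =
      qv L η K z y - ∑ p, if 1 ≤ k p then cf p * qv L (B p) (k p) z y else 0 := by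
    simp only [mul_sub, Finset.sum_sub_distrib]
    rw [shift, Nat.sub_add_cancel hK]
    congr 1
    simp only [Finset.mul_sum]
    rw [Finset.sum_comm]
    refine Finset.sum_congr rfl fun p _ => ?_
    split_ifs with hp
    · have := shift L (B p) (k p - 1) z y
      rw [Nat.sub_add_cancel hp] at this
      rw [← this, Finset.mul_sum]
      exact Finset.sum_congr rfl fun y' _ => by ring
    · simp
  rw [e1, e2, h, Finset.sum_apply]
  simp only [Pi.smul_apply, smul_eq_mul]
  have e3 : ∑ p, cf p * qv L (B p) (k p) z y =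
      (∑ p, if k p = 0 then cf p * qv L (B p) (k p) z y else 0) +
      ∑ p, if 1 ≤ k p then cf p * qv L (B p) (k p) z y else 0 := by
    rw [← Finset.sum_add_distrib]
    refine Finset.sum_congr rfl fun p _ => ?_
    rcases Nat.eq_zero_or_pos (k p) with hp | hp
    · simp [hp]
    · rw [if_neg (by omega), if_pos (show 1 ≤ k p from hp), zero_add]
  rw [e3]
  ring

theorem isHom_neg {m : ℕ} {F : Sx N} (h : F.IsHomogeneous m) : (-F).IsHomogeneous m := by
  have := (isHomogeneous_C (Fin (N + 1)) (-1 : ℂ)).mul h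
  rw [zero_add] at this
  simpa using this

end LfAux

open LfAux

/-- (Lf) Lifts are sections. -/
theorem tLf (h1 : S_WGC) (h2 : S_FB) (h3 : S_Psi) : S_Lf := by
  classical
  intro N c a I J x hc hI hIh hS hF L d K B hd hK hFl η hη
  have hsp : ∀ z ∈ zer J, z ≠ 0 →
      Fj L K z = Submodule.span ℂ (Set.range fun p : FI d K => qv L (B p.1.1) p.1.2 z) :=
    fun z hz hz0 => ((h2 N c a I J x hc hI hIh hS hF L z hz hz0).2.2.2 d K B hd hFl).1 K le_rfl
  have hex : ∀ z : Vx N, ∃ cf : FI d K → ℂ, z ∈ zer J → z ≠ 0 →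
      qv L η K z = ∑ p, cf p • qv L (B p.1.1) p.1.2 z := by
    intro z
    by_cases hz : z ∈ zer J ∧ z ≠ 0
    · have := hη z hz.1 hz.2
      rw [hsp z hz.1 hz.2, Submodule.mem_span_range_iff_exists_fun] at this
      obtain ⟨cf, hcf⟩ := this
      exact ⟨cf, fun _ _ => hcf.symm⟩
    · exact ⟨0, fun a b => absurd ⟨a, b⟩ hz⟩
  choose cf hcf using hex
  have hkK : ∀ p : FI d K, p.1.2 < K := by
    intro p
    have := (Finset.mem_filter.1 p.2).1
    exact Finset.mem_range.1 (Finset.mem_product.1 this).2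
  let f : Vx N → Fin c → ℂ := fun z b =>
    - ∑ p : FI d K, if p.1.2 = 0 then cf z p * B p.1.1 b else 0
  let w : Vx N → L.Ix → ℂ := fun z y => qv L η (K - 1) z y -
    ∑ p : FI d K, if 1 ≤ p.1.2 then cf z p * qv L (B p.1.1) (p.1.2 - 1) z y else 0
  let sig : Vx N → Vx N := fun z l =>
    ∑ b, L.psi l (Sum.inl b) * f z b + ∑ y, L.psi l (Sum.inr y) * w z y
  have hw : ∀ z, w z ∈ Fj L K z := by
    intro z
    have : w z = qv L η (K - 1) z -
        ∑ p : FI d K, if 1 ≤ p.1.2 then cf z p • qv L (B p.1.1) (p.1.2 - 1) z else 0 := by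
      funext y
      simp only [w, Pi.sub_apply, Finset.sum_apply]
      congr 1
      refine Finset.sum_congr rfl fun p _ => ?_
      split_ifs <;> simp
    rw [this]
    refine Submodule.sub_mem _ (Submodule.subset_span ⟨η, K - 1, by omega, rfl⟩) ?_
    refine Submodule.sum_mem _ fun p _ => ?_
    split_ifs
    · exact Submodule.smul_mem _ _ (Submodule.subset_span
        ⟨B p.1.1, p.1.2 - 1, by have := hkK p; omega, rfl⟩)
    · exact Submodule.zero_mem _
  refine ⟨sig, ?_, fun z hz hz0 => ⟨cf z, hcf z hz hz0, fun l => rfl⟩⟩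
  intro z₁ hz₁ hz₁0
  refine ⟨?_, ?_⟩
  · exact (h3 N c a I J x hc hI hIh hS hF L z₁ hz₁ hz₁0 (f z₁) (w z₁) K (hw z₁)
      (fun y => pair_eq L (fun p : FI d K => B p.1.1) (fun p => p.1.2) (cf z₁) K hK η z₁
        (hcf z₁ hz₁ hz₁0) y)).1
  -- regularity
  have hWG := h1 N c a I J x hc hI hIh hS hF L
  let ω : L.Ix → ℕ := fun y => L.dg - 1 - (y.1 : ℕ)
  let g : Fin c × ℕ → L.Ix → ℂ := fun q y => eval z₁ (L.qk q.1 q.2 y)
  have hG : HG ω (QG L.qk) := by
    rintro _ ⟨i, k, rfl⟩ y
    exact hWG.hom i k y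
  have hrk : ∀ p ∈ zer J, p ≠ 0 → Module.finrank ℂ (fib (QG L.qk) p) = a - c := by
    intro p hp hp0
    have := hWG.rk p hp hp0
    omega
  obtain ⟨u, m, hu, hm⟩ := frame (fun p : FI d K => qv L (B p.1.1) p.1.2 z₁) g (a - c)
    (hFl.ind z₁ hz₁ hz₁0)
    (fun p => by
      have := qv_mem L (B p.1.1) p.1.2 z₁
      rw [fib_eq] at this
      exact this)
    (by
      have := hrk z₁ hz₁ hz₁0
      rw [fib_eq] at this
      exact this)
  let E : FI d K ⊕ (Fin c × ℕ) → (L.Ix → Sx N) × ℕ :=
    Sum.elim (fun p => (qs L (B p.1.1) p.1.2, p.1.2 + 1)) (fun q => (L.qk q.1 q.2, q.2 + 1))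
  obtain ⟨ρ, D, δ, hD, hD1, -, hρ, hρe, -⟩ := zWCr N L.Ix ω J hF.prime hF.hom (QG L.qk) (a - c)
    hG hrk z₁ hz₁ hz₁0 (fun l => E (u l))
    (by
      intro l y
      rcases u l with p | q
      · exact qs_hom L (B p.1.1) p.1.2 y
      · exact hWG.hom q.1 q.2 y)
    (by
      intro l p' hp' hp'0
      rcases u l with p | q
      · exact qv_mem L (B p.1.1) p.1.2 p'
      · exact Submodule.subset_span ⟨(L.qk q.1 q.2, q.2 + 1), ⟨q.1, q.2, rfl⟩, rfl⟩)
    (by
      have : (fun l => fun y => eval z₁ ((E (u l)).1 y)) =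
          fun l => Sum.elim (fun p : FI d K => qv L (B p.1.1) p.1.2 z₁) g (u l) := by
        funext l
        rcases u l with p | q
        · rfl
        · rfl
      rw [this]
      exact hu)
  -- the numerators of the coefficients
  let R : FI d K → Sx N := fun p => ∑ y, ρ (m p) y * qs L η K y
  have hRhom : ∀ p, (R p).IsHomogeneous (δ + K - p.1.2) := by
    intro p
    refine IsHomogeneous.sum _ _ _ fun y _ => ?_
    by_cases h0 : ρ (m p) y = 0
    · rw [h0, zero_mul]
      exact isHomogeneous_zero _ _ _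
    · have h4 := (hρ (m p) y).1
      have h5 := (hρ (m p) y).2 h0
      rw [hm p] at h4 h5
      have h6 := h4.mul (qs_hom L η K y)
      have h7 : δ - (E (Sum.inl p)).2 - ω y + (K + 1 + (L.dg - 1 - (y.1 : ℕ))) =
          δ + K - p.1.2 := by
        have h8 : (E (Sum.inl p)).2 = p.1.2 + 1 := rfl
        have h9 : ω y = L.dg - 1 - (y.1 : ℕ) := rfl
        rw [h8, h9] at h5
        rw [h8, h9]
        have := hkK p
        omega
      rw [h7] at h6
      exact h6
  have hmi : ∀ p q, (m p = m q ↔ p = q) := by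
    intro p q
    constructor
    · intro h
      have h4 := hm p
      rw [h, hm q] at h4
      exact (Sum.inl_injective h4).symm
    · rintro rfl
      rfl
  have hRev : ∀ z ∈ zer J, z ≠ 0 → ∀ p, eval z (R p) = cf z p * eval z D := by
    intro z hz hz0 p
    have e1 : eval z (R p) = ∑ y, eval z (ρ (m p) y) * qv L η K z y := by
      simp only [R, map_sum, map_mul]
      rfl
    rw [e1, hcf z hz hz0]
    simp only [Finset.sum_apply, Pi.smul_apply, smul_eq_mul, Finset.mul_sum]
    rw [Finset.sum_comm]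
    have e2 : ∀ q : FI d K, ∑ y, eval z (ρ (m p) y) * (cf z q * qv L (B q.1.1) q.1.2 z y) =
        if p = q then cf z p * eval z D else 0 := by
      intro q
      have h4 := congrArg (eval z) (hρe (m p) (m q))
      rw [hm q, map_sum] at h4
      simp only [map_mul] at h4
      have h5 : ∑ y, eval z (ρ (m p) y) * (cf z q * qv L (B q.1.1) q.1.2 z y) =
          cf z q * ∑ y, eval z (ρ (m p) y) * eval z ((E (Sum.inl q)).1 y) := by
        rw [Finset.mul_sum]
        refine Finset.sum_congr rfl fun y _ => ?_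
        have : eval z ((E (Sum.inl q)).1 y) = qv L (B q.1.1) q.1.2 z y := rfl
        rw [this]
        ring
      rw [h5, h4]
      by_cases hpq : p = q
      · rw [if_pos hpq, if_pos ((hmi p q).2 hpq), hpq]
      · rw [if_neg hpq, if_neg fun h => hpq ((hmi p q).1 h), map_zero, mul_zero]
    rw [Finset.sum_congr rfl fun q _ => e2 q]
    simp
  refine ⟨fun l => (∑ b, C (L.psi l (Sum.inl b)) *
      (- ∑ p : FI d K, if p.1.2 = 0 then R p * C (B p.1.1 b) else 0)) +
    ∑ y, C (L.psi l (Sum.inr y)) * (D * qs L η (K - 1) y -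
      ∑ p : FI d K, if 1 ≤ p.1.2 then R p * qs L (B p.1.1) (p.1.2 - 1) y else 0),
    D, δ, ?_, hD, hD1, ?_⟩
  · intro l
    have hdeg : δ + (K + 1) - 1 = δ + K := by omega
    rw [hdeg]
    refine IsHomogeneous.add ?_ ?_
    · refine IsHomogeneous.sum _ _ _ fun b _ => ?_
      have h4 : (- ∑ p : FI d K, if p.1.2 = 0 then R p * C (B p.1.1 b) else 0 :
          Sx N).IsHomogeneous (δ + K) := by
        refine isHom_neg (IsHomogeneous.sum _ _ _ fun p _ => ?_)
        split_ifs with hp
        · have h5 := (hRhom p).mul (isHomogeneous_C (Fin (N + 1)) (B p.1.1 b))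
          rw [hp, Nat.sub_zero, add_zero] at h5
          exact h5
        · exact isHomogeneous_zero _ _ _
      have h5 := (isHomogeneous_C (Fin (N + 1)) (L.psi l (Sum.inl b))).mul h4
      rw [zero_add] at h5
      exact h5
    · refine IsHomogeneous.sum _ _ _ fun y _ => ?_
      by_cases hy : L.psi l (Sum.inr y) = 0
      · rw [hy, C_0, zero_mul]
        exact isHomogeneous_zero _ _ _
      · have hy1 : (y.1 : ℕ) + 1 = L.dg := by
          by_contra hcon
          apply hy
          simp only [Loc.psi, Sum.elim_inr]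
          rw [if_neg]
          exact fun h => hcon h.1
        have h4 : (D * qs L η (K - 1) y -
            ∑ p : FI d K, if 1 ≤ p.1.2 then R p * qs L (B p.1.1) (p.1.2 - 1) y else 0 :
            Sx N).IsHomogeneous (δ + K) := by
          rw [sub_eq_add_neg]
          refine IsHomogeneous.add ?_ (isHom_neg (IsHomogeneous.sum _ _ _ fun p _ => ?_))
          · have h5 := hD.mul (qs_hom L η (K - 1) y)
            have h6 : δ + (K - 1 + 1 + (L.dg - 1 - (y.1 : ℕ))) = δ + K := by omega
            rw [h6] at h5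
            exact h5
          · split_ifs with hp
            · have h5 := (hRhom p).mul (qs_hom L (B p.1.1) (p.1.2 - 1) y)
              have h6 : δ + K - p.1.2 + (p.1.2 - 1 + 1 + (L.dg - 1 - (y.1 : ℕ))) = δ + K := by
                have := hkK p
                omega
              rw [h6] at h5
              exact h5
            · exact isHomogeneous_zero _ _ _
        have h5 := (isHomogeneous_C (Fin (N + 1)) (L.psi l (Sum.inr y))).mul h4
        rw [zero_add] at h5
        exact h5
  · intro z hz hz0 l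
    have hR := hRev z hz hz0
    simp only [sig, map_add, map_sum, map_mul, map_sub, map_neg, eval_C, add_mul,
      Finset.sum_mul]
    congr 1
    · refine Finset.sum_congr rfl fun b _ => ?_
      rw [mul_assoc]
      congr 1
      simp only [f, neg_mul, Finset.sum_mul]
      congr 1
      refine Finset.sum_congr rfl fun p _ => ?_
      split_ifs
      · rw [map_mul, hR p, eval_C]
        ring
      · simp
    · refine Finset.sum_congr rfl fun y _ => ?_
      rw [mul_assoc]
      congr 1
      simp only [w, sub_mul, Finset.sum_mul]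
      congr 1
      · have : eval z (qs L η (K - 1) y) = qv L η (K - 1) z y := rfl
        rw [this]
        ring
      · refine Finset.sum_congr rfl fun p _ => ?_
        split_ifs
        · rw [map_mul, hR p]
          have : eval z (qs L (B p.1.1) (p.1.2 - 1) y) = qv L (B p.1.1) (p.1.2 - 1) z y := rfl
          rw [this]
          ring
        · simp

end Pool.Agent.Lib.MP_776403_ag.SD.U
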