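import Pool.Agent.Lib.MP_776403_ag.SD.U.Defs

/-!
# THEOREM U, part A: degree, lines, THEOREM W

Statements with complete proofs in the docstrings; `S_Xyz` is proved in `SD/U/Xyz.lean` (theorem
`SD.U.tXyz`, other statements of this file as hypotheses).  Closed forms of old statements may be used:
`tNull`, `mKrull`, `mPerp`, `tTB`, `tD1`, `nBin`, `tMono`, `mLoc`, `eCN` (`SD/Main.lean`), `wOutfin : S_WOut`
(`Z/Fin.lean`), `zSDatfin : S_SDat`, `zNumB : S_NumB`, `zNumErr : S_NumErr`, `zJLBfin : S_JLB` (`Z/Main…`),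
`H.mLineE`, `cCon`.
-/

set_option autoImplicit false

open MvPolynomial

noncomputable section

namespace Pool.Agent.Lib.MP_776403_ag.SD.U

variable {N : ℕ}

/-! ## Growth -/

/-- (Gro) PROOF.  `(M + 1)^n ≤ n! binom (M + n) n` (`LI.GroAux.key`), `M = m - r`; so
`A ((m - r + 1) / m)^n ≤ n! HF(m) / m^n` for `m ≥ r`, `m ≥ 1`; the limits: `A ≤ D`.  Second part: for `B < A`:
the sum of `HF(k)`, `k ≤ m`: if `n! HF(k) / k^n → D` then `(n+1)! ∑_(k ≤ m) HF(k) / m^(n+1) → D`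
(Stolz-Cesaro; or: for `ε > 0` `n! HF(k) ≤ (D + ε) k^n + C_ε` for all `k`, and
`∑_(k ≤ m) k^n ≤ (m + 1)^(n+1) / (n + 1)`), and `(M + 1)^(t+1) ≤ (t+1)! binom (M + t + 1) (t + 1)`: so
`ρ (m + 1)^(t+1) / (t+1)! ≤ (D + ε) (m + w + 1)^(n+1) / (n+1)! + C (m + w + 1)` for all `m`: `t = n` gives
`ρ ≤ D + ε` (if `n = 0` the term `C (m + w + 1)` is not negligible: but then use `n! HF(k) ≤ D + ε` for large
`k`, with an additive constant only), `t ≥ n + 1` and `ρ ≥ 1` is impossible. -/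
def S_Gro : Prop :=
  ∀ (N n D : ℕ) (I : Ideal (Sx N)), HasDeg I n D →
    (∀ A r : ℕ, (∀ m : ℕ, r ≤ m → A * Nat.choose (m - r + n) n ≤ Module.finrank ℂ (gr I m)) →
      A ≤ D) ∧
    ∀ ρ w t : ℕ, n ≤ t → (∀ m : ℕ, ρ * Nat.choose (m + t + 1) (t + 1) ≤
      ∑ k ∈ Finset.range (m + w + 1), Module.finrank ℂ (gr I k)) → ρ ≤ D ∧ (1 ≤ ρ → t = n)

/-- (Rank) Version of `S_Rank` (`SpecL.lean`).

PROOF.  As `L/Rank.lean`: `r = t + 1`, `t ≥ e`; with `w = ∑ deg g_i` the elements `∑ aeval y (b_i) g_i`, `b_i` of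
degree `≤ m`, give `ρ binom (m + t + 1) (t + 1) ≤ finrank (V I (m + w)) ≤ ∑_(k ≤ m + w) finrank (gr I k)`
(`V_succ_le`, `V_zero_le`); `S_Gro`. -/
def S_Rank : Prop :=
  ∀ (N : ℕ) (I : Ideal (Sx N)) (D e : ℕ), HasDeg I e D →
    ∀ (r : ℕ) (y : Fin r → Sx N), (∀ i, (y i).IsHomogeneous 1) → e + 1 ≤ r →
    ∀ (ρ : ℕ) (g : Fin ρ → Sx N),
    (∀ b : Fin ρ → MvPolynomial (Fin r) ℂ, ∑ i, aeval y (b i) * g i ∈ I → b = 0) →
    ρ ≤ D ∧ (1 ≤ ρ → r = e + 1)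

/-- (Cov) Lines through all points.  PROOF.  `zCovH` (`Z/CovH.lean`) with `S_Rank` of this file instead of
`SD.S_Rank` (`lNoe`, `mDimS`, `lModel lPrim`, `mLift`, `mClose` are closed). -/
def S_Cov : Prop :=
  ∀ (N c D : ℕ) (I : Ideal (Sx N)), D + c ≤ N → I.IsPrime → IsHom I →
    (∀ F ∈ I, F.IsHomogeneous 1 → F = 0) → Smooth I c → HasDeg I (N - c) D → Covered I

/-- (Pa) Lines of small degree.  PROOF.  `LI.tPa…` (`LI/Pa.lean`) with the last step from `LI.S_Cnt`: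
`(k + 1 + δ) binom (m - (δ+1) + (n'+1)) (n'+1) ≤ finrank (gr I m)` for `m ≥ δ + 1`, and `S_Gro`. -/
def S_Pa : Prop :=
  ∀ (N k n' D : ℕ) (I : Ideal (Sx N)), N = n' + k + 2 → 1 ≤ k → I.IsPrime → IsHom I →
    (∀ F ∈ I, F.IsHomogeneous 1 → F = 0) → Smooth I (k + 1) → HasDeg I (n' + 1) D →
    ∀ x v : Vx N, IsLine I x v → (∃ z₀ ∈ zer I, z₀ ≠ 0 ∧ LI.Trv I ![x, v] z₀) →
    ∃ b ≤ D, DegEq I (k + 1) b x v

/-- (Gp) Growth of a Hilbert series.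

PROOF.  `(1 - X)^(N + 1 - c') ps f = h` (cancel `(1 - X)^c'` in `QP`).  (1) `g = N + 1 - c' ≥ 1`:
`f(m) = ∑_j h_j binom (m - j + g - 1) (g - 1)` for `m ≥ deg h` (`PowerSeries.mk_add_choose_mul_one_sub_pow_eq_one`;
`ps_hsum` in `Z/RH.lean`), so `(g-1)! f(m) / m^(g-1) → h(1)`: every summand divided by `m^(g-1)` has the limit
`h_j / (g-1)!`.  (2) follows. -/
def S_Gp : Prop :=
  ∀ (N c' : ℕ) (f : ℕ → ℕ) (h : Polynomial ℤ), c' ≤ N → QP N c' f h →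
    Filter.Tendsto (fun m : ℕ => ((N - c').factorial : ℝ) * (f m : ℝ) / (m : ℝ) ^ (N - c'))
      Filter.atTop (nhds ((h.eval 1 : ℤ) : ℝ)) ∧
    (0 < h.eval 1 → ∀ (C : ℤ) (r : ℕ), r < N - c' →
      ¬ ∀ᶠ m : ℕ in Filter.atTop, (f m : ℤ) ≤ C * ((m : ℤ) + 1) ^ r)

/-- (QD) The Hilbert series of `X`.

PROOF.  `DimGe I (N + 1 - c)` (as in the proof of `Q1.S_D12`: `S_Krull` for `J = I` at a point of `X`, `g = c`,
then `S_TB`, independence modulo `P ≥ I`).  `S_WQP` (`W/Spec.lean`, closed form `zWQP` or similar) with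
`D + 1 = N + 1 - c`: `c'`, `h`, `c' ≤ c`, `QP N c' … h`, `0 < h(1)`.  `S_Gp`: `(N-c')! HF / m^(N-c') → h(1) > 0`, and
`(N-c)! HF / m^(N-c) → D`: if `c' < c` then the second quotient is the first one times a constant times `m^(c-c')`
and tends to infinity; so `c' = c` and `h(1) = D` (uniqueness of limits). -/
def S_QD : Prop :=
  ∀ (N c D : ℕ) (I : Ideal (Sx N)), c ≤ N → I.IsPrime → IsHom I → Smooth I c →
    (∃ y ∈ zer I, y ≠ 0) → HasDeg I (N - c) D →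
    ∃ q0 : Polynomial ℤ, QP N c (fun k => Module.finrank ℂ (gr I k)) q0 ∧ q0.eval 1 = D ∧
      0 < q0.eval 1

/-- (A) OUTPUT OF PART A.

PROOF.  As `zRL`, `zRG` (`Z/RL.lean`, `Z/RG.lean`) and `LI.tQS` (`LI/QS.lean`).  `X` is not empty (`hnd`).
(1) `S_Cov`: `Covered I`; `S_QD`: `q0`; `zSDatfin`: `q` with `q 0 = q0`; `SDV.pBr`: `y : Fin c → ℂ`.
(2) `LI.S_Pb` (closed form in `P2/Main.lean`: `p2`/`tPb`) for every `g ∉ I` and `S_Pa` (`c = k + 1`, `n' = N - c - 1`):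
a line `(x, v)`, `g(x) ≠ 0`, of degree `b ≤ D`; `H.mLineE`: a cone `P` of lines through `x`, `DimGe P (N + 1 - b)`,
`N + 1 - b ≥ b + c + 2`.  Fix one such line (`g = 1`), `a := b`; `cCon`: all lines of `P` have degree `a`;
`wOutfin` (`S_WOut`, `DimGe P (a + c + 2)`): `d`, `y i = d i`, `1 ≤ d i`, `∑ d i = a`.  `dvd`: `ZAux.dvd_of_int`.
`numW`: `zNumErr`.  `2 a + c + 1 ≤ 2 D + c + 1 ≤ N`.
(3) `hnum` (`zNumB`, `dvd_det`) and `zJLBfin` as in `zRL`: all lines of a cone of lines of dimension `≥ c + 2` have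
degree `a`; so every line has degree `≥ a` (as in `zRL`, `exists_deg`, `H.mLineE`): `deg_ge`.
(4) `cone`: by (2) and `LI.S_ClG` (`D := c`) there is for every `y` a cone of dimension `≥ c + 2`, so a line of
degree `a` through `y` (`GAcmAux.exists_indep`); `H.mLineE` (with `DimGe P (N + 1 - a)`) and `cCon`.
(5) PRODUCT: `SDV.pP1`, `tau_prod`, `SDV.pT1` as in `zRG` give `(1 - X)^(N+1-2c) ∣ (1 - X)^c q0 - ∏ (1 - X^(d i))`, and
`1 - X^(d i) = (1 - X) (1 + … + X^(d i - 1))`; `N + 1 - 2 c ≥ c + 1` (`N ≥ 2 a + c + 1`, `a ≥ c`): cancel `(1 - X)^c` and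
evaluate at `1`: `D = q0(1) = ∏ d i`. -/
def S_A : Prop :=
  ∀ (N c D : ℕ) (I : Ideal (Sx N)), 2 ≤ c → 2 * D + c + 1 ≤ N → I.IsPrime → IsHom I →
    (∀ F ∈ I, F.IsHomogeneous 1 → F = 0) → Smooth I c → HasDeg I (N - c) D →
    ∃ (a : ℕ) (d : Fin c → ℕ) (q : ℕ → Polynomial ℤ), UDat c a I d q ∧ ∏ i, d i = D

/-- (Z) FINAL ASSEMBLY.

PROOF.  As the end of `zRG`: `H.mSDH N c d I` with `pos`, `two_le`, `large : 2 ∑ d + c ≤ N`, `prime`, `hom`, `nd`, `smooth`,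
`numW`, `reg` given; `H.GLine I x v ↔ IsLine I x v ∧ DegEq I c a x v` (`deg_ge`; a line of degree `a` through `x` from
`cone`), `numL`, `clos` (`jJn`, `cCon`), `cov` (`cone`, `GAcmAux.exists_indep`; `N + 1 - a ≥ 2`). -/
def S_Z : Prop :=
  ∀ (N c a : ℕ) (I : Ideal (Sx N)) (d : Fin c → ℕ) (q : ℕ → Polynomial ℤ), UDat c a I d q →
    (∀ i, 2 ≤ d i) → RegBound I d →
    ∃ G : Fin c → Sx N, (∀ i, (G i).IsHomogeneous (d i)) ∧ I = Ideal.span (Set.range G)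

/-- (Ari) The inequality for the range.

PROOF.  Induction on `c ≥ 2` (`Fin.sum_univ_succ`, or over finite multisets).  `c = 2`: `u = d 0`, `v = d 1`,
`2 u + 2 v + |u - v| ≤ 2 u v` for `u, v ≥ 2` (`u ≤ v`: `u + 3 v ≤ 2 u v`).  Step: a new element `e ≥ 2`, `s = ∑ d`,
`p = ∏ d`: the left side grows by `2 e + ∑ |d j - e| ≤ 2 e + (s - 2 c) + c (e - 2)`, the right side by `2 (e - 1) p`,
`2 p ≥ s + 2 c` (`p ≥ s` and `p ≥ 2^c ≥ 2 c`, for `c ≥ 2`), and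
`(e - 1) (s + 2 c) - (2 e + s + c e - 4 c) = (e - 2) s + c e + 2 c - 2 e ≥ 0` as `c ≥ 2`.  (`∑_i ∑_j (d j - d i)` with
truncated subtraction is `∑_(i < j) |d i - d j|`.) -/
def S_Ari : Prop :=
  ∀ (c : ℕ) (d : Fin c → ℕ), 2 ≤ c → (∀ i, 2 ≤ d i) →
    2 * ∑ i, d i + ∑ i, ∑ j, (d j - d i) ≤ 2 * ∏ i, d i

end Pool.Agent.Lib.MP_776403_ag.SD.U
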