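import Pool.Agent.Lib.MP_776403_ag.SD.U.SpecC
import Pool.Agent.Lib.MP_776403_ag.SD.U.SpecA
import Pool.Agent.Lib.MP_776403_ag.SD.W.Out

/-!
# THEOREM U: Lemma NW

`tNW (h1 : S_QN) (h2 : S_NWg) (h3 : S_Gp) (h4 : S_WGC) : S_NW`.
-/

set_option autoImplicit false

open MvPolynomial

noncomputable section

namespace Pool.Agent.Lib.MP_776403_ag.SD.U

namespace NWAux

/-- The sections `q_ξ^k` have degree `k + 1`. -/
theorem qs_mem {N : ℕ} {I : Ideal (Sx N)} {x : Vx N} {c : ℕ} (L : Loc I x c) (ξ : Fin c → ℂ)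
    (k : ℕ) : qs L ξ k ∈ Fam (QG L.qk) (k + 1) := by
  have h : qs L ξ k = ∑ i, fun y => C (ξ i) * L.qk i k y := by
    funext y
    rw [Finset.sum_apply]
    rfl
  rw [h]
  refine Submodule.sum_mem _ fun i _ => Submodule.subset_span ?_
  exact ⟨C (ξ i), 0, (L.qk i k, k + 1), ⟨i, k, rfl⟩, isHomogeneous_C _ _, Nat.zero_add _, rfl⟩

/-- The pairs `(i, k)`, `k + 1 < d i`, and the indices of `γ` correspond to each other. -/
theorem exists_equiv {c k : ℕ} (d : Fin c → ℕ) (γ : Fin k → ℕ) (h : GamOK d γ) :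
    ∃ φ : {p : Fin c × ℕ // p.2 + 1 < d p.1} ≃ Fin k, ∀ p, γ (φ p) = p.1.2 + 1 := by
  obtain ⟨h1, h2⟩ := h
  let g : {p : Fin c × ℕ // p.2 + 1 < d p.1} → ℕ := fun p => p.1.2 + 1
  have e : ∀ t : ℕ, Nonempty ({p // g p = t} ≃ {j // γ j = t}) := by
    intro t
    rcases Nat.eq_zero_or_pos t with ht | ht
    · subst ht
      have : IsEmpty {p // g p = 0} := ⟨fun p => Nat.succ_ne_zero _ p.2⟩
      have : IsEmpty {j // γ j = 0} := ⟨fun j => by
        have h3 := h1 j.1
        have h4 := j.2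
        omega⟩
      exact ⟨Equiv.equivOfIsEmpty _ _⟩
    · have e1 : {p // g p = t} ≃ {i // t < d i} :=
        { toFun := fun p => ⟨p.1.1.1, by
            have h3 : p.1.1.2 + 1 = t := p.2
            have h4 : p.1.1.2 + 1 < d p.1.1.1 := p.1.2
            omega⟩
          invFun := fun i => ⟨⟨(i.1, t - 1), by
            have h3 := i.2
            change t - 1 + 1 < d i.1
            omega⟩, by
            change t - 1 + 1 = t
            omega⟩
          left_inv := fun p => by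
            have h3 : p.1.1.2 + 1 = t := p.2
            apply Subtype.ext
            apply Subtype.ext
            apply Prod.ext
            · rfl
            · change t - 1 = p.1.1.2
              omega
          right_inv := fun i => rfl }
      exact ⟨e1.trans (Finite.card_eq.1 (h2 t ht).symm).some⟩
  let e' := fun t => Classical.choice (e t)
  refine ⟨(Equiv.sigmaFiberEquiv g).symm.trans
    ((Equiv.sigmaCongrRight e').trans (Equiv.sigmaFiberEquiv γ)), fun p => ?_⟩
  exact (e' (g p) ⟨p, rfl⟩).2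

end NWAux

/-- (NW) LEMMA NW. -/
theorem tNW (h1 : S_QN) (h2 : S_NWg) (h3 : S_Gp) (h4 : S_WGC) : S_NW := by
  intro N c a I J d q x hU hF hd L r ξ k hind f hf hk hlast
  obtain ⟨γ, e, c', h, hγ, he, hce, hQ, hpos, hG⟩ := h1 N c a I J d q x hU hF hd L
  have hca : c ≤ a := by
    rw [← hU.sum]
    calc c = ∑ _i : Fin c, 1 := by simp
      _ ≤ ∑ i, d i := Finset.sum_le_sum fun i _ => hU.one_le i
  have hc1 := hU.pos
  obtain ⟨p0, hp0, hp0'⟩ := WOutAux.exists_zer hF.prime hF.hom (D := a + c) hd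
  have hWG := h4 N c a I J x hU.pos hU.prime hU.hom hU.smooth hF L
  have hHG : HG (fun y : L.Ix => L.dg - 1 - (y.1 : ℕ)) (QG L.qk) := by
    rintro g ⟨i, k', rfl⟩ y
    exact hWG.hom i k' y
  have hrk : ∀ p ∈ zer J, p ≠ 0 → Module.finrank ℂ (fib (QG L.qk) p) = a - c := by
    intro p hp hp'
    have h5 := hWG.rk p hp hp'
    omega
  obtain ⟨φ, hφ⟩ := NWAux.exists_equiv d γ hγ
  obtain ⟨K, hK⟩ := h2 N L.Ix (fun y : L.Ix => L.dg - 1 - (y.1 : ℕ)) J hF.prime hF.hom
    ⟨p0, hp0, hp0'⟩ (QG L.qk) (a - c) hHG hrk (e - 1) γ hG r (fun l => qs L (ξ l) (k l))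
    (fun l => k l + 1) (fun l => NWAux.qs_mem L _ _) (fun p hp hp' => hind p hp hp')
    (fun l => φ (f l)) (φ.injective.comp hf)
    (fun l => by rw [hφ, hk])
    (fun j hj => by
      have h5 : φ.symm j ∉ Set.range f := by
        rintro ⟨l, hl⟩
        exact hj ⟨l, by
          change φ (f l) = j
          rw [hl, Equiv.apply_symm_apply]⟩
      have h6 := hφ (φ.symm j)
      rw [Equiv.apply_symm_apply] at h6
      have h7 := hlast _ h5
      change γ j ≠ k (Fin.last r) + 1
      omega)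
  exact (h3 N c' _ h (by omega) hQ).2 hpos K (e - 1 + (a - c - r)) (by omega) hK

end Pool.Agent.Lib.MP_776403_ag.SD.U
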