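import Pool.Agent.Lib.MP_776403_ag.SD.U.SpecC
import Pool.Agent.Lib.MP_776403_ag.SD.M.Pow
import Pool.Agent.Lib.MP_776403_ag.SD.M.Gro

/-!
# THEOREM U: Lemma N for modules, from the case of one section
-/

set_option autoImplicit false

open MvPolynomial

noncomputable section

namespace Pool.Agent.Lib.MP_776403_ag.SD.U

namespace NWgAux

variable {N : ℕ} {α : Type} [Fintype α] [DecidableEq α]

theorem wm_mulVec (σ v : α → Sx N) (y : α × α) :
    (wm σ).mulVec v y = σ y.1 * v y.2 - σ y.2 * v y.1 := by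
  have h1 : (wm σ).mulVec v y =
      ∑ b, ((if b = y.2 then σ y.1 else 0) - (if b = y.1 then σ y.2 else 0)) * v b := rfl
  rw [h1]
  simp only [sub_mul, Finset.sum_sub_distrib, ite_mul, zero_mul, Finset.sum_ite_eq',
    Finset.mem_univ, if_true]

omit [DecidableEq α] in
/-- The matrix `M` of degree `s` maps the module of `G` into the module of `MG M s G`. -/
theorem mulVec_mem {β : Type} (M : Matrix β α (Sx N)) (s : ℕ) (G : Gn N α) (k : ℕ)
    (v : α → Sx N) (hv : v ∈ Fam G k) : M.mulVec v ∈ Fam (MG M s G) (k + s) := by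
  unfold Fam at hv
  induction hv using Submodule.span_induction with
  | mem x hx =>
    obtain ⟨a, e, g, hg, ha, he, rfl⟩ := hx
    refine Submodule.subset_span ⟨a, e, (M.mulVec g.1, g.2 + s), ⟨g, hg, rfl⟩, ha, ?_, ?_⟩
    · show e + (g.2 + s) = k + s
      omega
    · have : (fun i => a * g.1 i) = a • g.1 := rfl
      rw [this, Matrix.mulVec_smul]
      rfl
  | zero =>
    rw [Matrix.mulVec_zero]
    exact Submodule.zero_mem _
  | add x y _ _ hx hy =>
    rw [Matrix.mulVec_add]
    exact Submodule.add_mem _ hx hy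
  | smul c x _ hx =>
    rw [Matrix.mulVec_smul]
    exact Submodule.smul_mem _ c hx

/-- Independence passes to the images under `v ↦ σ ∧ v`. -/
theorem indep_step {n : ℕ} (σ : Fin (n + 1) → (α → Sx N)) (p : Vx N)
    (h : LinearIndependent ℂ fun l => fun y => eval p (σ l y)) :
    LinearIndependent ℂ fun l : Fin n => fun y : α × α =>
      eval p ((wm (σ 0)).mulVec (σ l.succ) y) := by
  have h0 : (fun y => eval p (σ 0 y)) ≠ 0 := h.ne_zero 0
  obtain ⟨y0, hy0⟩ := Function.ne_iff.1 h0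
  have hy0' : eval p (σ 0 y0) ≠ 0 := hy0
  rw [Fintype.linearIndependent_iff] at h ⊢
  intro g hg
  set t : ℂ := (∑ l, g l * eval p (σ (Fin.succ l) y0)) / eval p (σ 0 y0) with ht
  have h1 : ∀ y, ∑ l, g l * eval p (σ (Fin.succ l) y) = t * eval p (σ 0 y) := by
    intro y
    have h2 := congrFun hg (y0, y)
    simp only [Finset.sum_apply, Pi.smul_apply, smul_eq_mul, wm_mulVec, map_sub, map_mul,
      Pi.zero_apply] at h2
    have h3 : eval p (σ 0 y0) * ∑ l, g l * eval p (σ (Fin.succ l) y) =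
        eval p (σ 0 y) * ∑ l, g l * eval p (σ (Fin.succ l) y0) := by
      rw [← sub_eq_zero, Finset.mul_sum, Finset.mul_sum, ← Finset.sum_sub_distrib, ← h2]
      exact Finset.sum_congr rfl fun l _ => by ring
    rw [ht, div_mul_eq_mul_div, eq_div_iff hy0']
    linear_combination h3
  have h4 := h (Fin.cons (-t) g) (by
    funext y
    simp only [Fin.sum_univ_succ, Fin.cons_zero, Fin.cons_succ, Finset.sum_apply,
      Pi.smul_apply, smul_eq_mul, Pi.zero_apply]
    rw [h1 y]
    ring)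
  intro i
  have h5 := h4 i.succ
  rwa [Fin.cons_succ] at h5

end NWgAux

open NWgAux

/-- The sequence of the modules, as numbers. -/
private theorem core (h1 : S_NW1) (N : ℕ) (J : Ideal (Sx N)) (hJp : J.IsPrime) (hJh : IsHom J)
    (hJz : ∃ p ∈ zer J, p ≠ 0) (n : ℕ) :
    ∀ (α : Type) [Fintype α] [DecidableEq α] (ω : α → ℕ) (G : Gn N α) (k : ℕ), HG ω G →
    (∀ p ∈ zer J, p ≠ 0 → Module.finrank ℂ (fib G p) = k) →
    ∀ (σ : Fin n → (α → Sx N)) (δ : ℕ → ℕ) (s : ℕ), (∀ l : Fin n, σ l ∈ Fam G (δ l + s)) →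
    (∀ p ∈ zer J, p ≠ 0 → LinearIndependent ℂ fun l => fun y => eval p (σ l y)) →
    ∃ h : ℕ → ℕ → ℕ → ℤ, (∀ j m, h 0 j m = (hV J (LW G j) (m + s * j) : ℤ)) ∧
      (∀ i < n, ∀ j, ∀ᶠ m : ℕ in Filter.atTop,
        h i (j + 1) (m + δ i) = h (i + 1) (j + 1) (m + δ i) + h (i + 1) j m) ∧
      (∀ i ≤ n, ∀ m, h i 0 m = (Module.finrank ℂ (gr J m) : ℤ)) ∧
      (∀ i ≤ n, ∀ j, k < i + j → ∀ m, h i j m = 0) := by
  induction n with
  | zero =>
    intro α _ _ ω G k hG hk σ δ s hσ hind
    obtain ⟨e0, ev, -⟩ := h1 N α ω J hJp hJh hJz G k hG hk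
    refine ⟨fun _ j m => (hV J (LW G j) (m + s * j) : ℤ), fun _ _ => rfl, fun i hi => ?_,
      fun i hi m => ?_, fun i hi j hj m => ?_⟩
    · exact absurd hi (Nat.not_lt_zero i)
    · show (hV J (LW G 0) (m + s * 0) : ℤ) = _
      rw [e0, Nat.mul_zero]
      rfl
    · show (hV J (LW G j) (m + s * j) : ℤ) = 0
      rw [ev j _ (by omega)]
      rfl
  | succ n ih =>
    intro α _ _ ω G k hG hk σ δ s hσ hind
    obtain ⟨e0, ev, hs⟩ := h1 N α ω J hJp hJh hJz G k hG hk
    obtain ⟨hG', hk', hrec⟩ := hs (σ 0) (δ 0 + s) (hσ 0) (fun p hp hp0 => (hind p hp hp0).ne_zero 0)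
    obtain ⟨k', rfl⟩ : ∃ k', k = k' + 1 := by
      obtain ⟨p, hp, hp0⟩ := hJz
      exact ⟨_, (hk' p hp hp0).symm⟩
    obtain ⟨h', h0', hr', hz', hv'⟩ := ih (α × α) (fun p : α × α => ω p.1 + ω p.2)
      (MG (wm (σ 0)) (δ 0 + s) G) k' hG'
      (fun p hp hp0 => Nat.add_right_cancel (hk' p hp hp0))
      (fun l => (wm (σ 0)).mulVec (σ l.succ)) (fun i => δ (i + 1)) (2 * s + δ 0)
      (fun l => by
        have h2 := mulVec_mem (wm (σ 0)) (δ 0 + s) G _ _ (hσ l.succ)
        have h3 : δ ((l.succ : Fin (n + 1)) : ℕ) + s + (δ 0 + s) = δ ((l : ℕ) + 1) + (2 * s + δ 0) := by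
          rw [Fin.val_succ]
          omega
        rwa [h3] at h2)
      (fun p hp hp0 => indep_step σ p (hind p hp hp0))
    refine ⟨fun i => Nat.casesOn i (fun j m => (hV J (LW G j) (m + s * j) : ℤ)) h',
      fun _ _ => rfl, fun i hi j => ?_, fun i hi m => ?_, fun i hi j hj m => ?_⟩
    · cases i with
      | zero =>
        filter_upwards [(Filter.tendsto_add_atTop_nat (s * j)).eventually (hrec j)] with m hm
        show (hV J (LW G (j + 1)) (m + δ 0 + s * (j + 1)) : ℤ) = h' 0 (j + 1) (m + δ 0) + h' 0 j m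
        rw [h0', h0']
        have a1 : m + δ 0 + s * (j + 1) = m + s * j + (δ 0 + s) := by ring
        have a2 : m + δ 0 + (2 * s + δ 0) * (j + 1) =
            m + s * j + (δ 0 + s) + (δ 0 + s) * (j + 1) := by ring
        have a3 : m + (2 * s + δ 0) * j = m + s * j + (δ 0 + s) * j := by ring
        rw [a1, a2, a3, hm]
        push_cast
        rfl
      | succ i => exact hr' i (by omega) j
    · cases i with
      | zero =>
        show (hV J (LW G 0) (m + s * 0) : ℤ) = _
        rw [e0, Nat.mul_zero]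
        rfl
      | succ i => exact hz' i (by omega) m
    · cases i with
      | zero =>
        show (hV J (LW G j) (m + s * j) : ℤ) = 0
        rw [ev j _ (by omega)]
        rfl
      | succ i => exact hv' i (by omega) j (by omega) m

/-- Lemma N for modules, from the case of one section. -/
theorem tNWg (h : S_NW1) : S_NWg := by
  intro N α _ _ ω J hJp hJh hJz G k hG hk r γ hnum q σ δ hσ hind f hf hδf hlast
  set δ' : ℕ → ℕ := fun i => if hi : i < q + 1 then δ ⟨i, hi⟩ else 0 with hδ'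
  have hd : ∀ l : Fin (q + 1), δ' l = δ l := by
    intro l
    rw [hδ']
    simp only [l.isLt, dif_pos, Fin.eta]
  obtain ⟨H, h0, hr, hz, hv⟩ := core h N J hJp hJh hJz (q + 1) α ω G k hG hk σ δ' 0
    (fun l => by rw [hd]; exact hσ l) hind
  have hδ0 : ∀ i : Fin q, δ' i = γ (f i) := by
    intro i
    have := hd (Fin.castSucc i)
    rw [Fin.val_castSucc] at this
    rw [this, hδf]
  have hδq : δ' q = δ (Fin.last q) := by
    have := hd (Fin.last q)
    rwa [Fin.val_last] at this
  have key := mPow r k q γ f δ' (fun m => (Module.finrank ℂ (gr J m) : ℤ)) H hf hδ0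
    (by
      intro j hj
      refine (hnum j hj).of_eventually_eq (Filter.Eventually.of_forall fun m => ?_)
      have h2 := h0 j m
      rw [Nat.zero_mul] at h2
      rw [h2]
      rfl)
    (fun i hi j => hr i (Nat.lt_succ_of_le hi) j)
    (fun i hi => Filter.Eventually.of_forall fun m => by
      rw [hz i (by omega) m, hz (i + 1) (by omega) m])
    (fun j hj => Filter.Eventually.of_forall fun m => hv (q + 1) le_rfl j hj m)
  have hs : ((Finset.univ : Finset (Fin k)) \ Finset.univ.image f).card = k - q := by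
    rw [Finset.card_sdiff_of_subset (Finset.subset_univ _),
      Finset.card_image_of_injective _ hf, Finset.card_univ, Finset.card_univ, Fintype.card_fin,
      Fintype.card_fin]
  have hne : ∀ i ∈ (Finset.univ : Finset (Fin k)) \ Finset.univ.image f, γ i ≠ δ' q := by
    intro i hi
    rw [hδq]
    refine hlast i fun hr => ?_
    obtain ⟨l, hl⟩ := hr
    exact (Finset.mem_sdiff.1 hi).2 (Finset.mem_image.2 ⟨l, Finset.mem_univ _, hl⟩)
  obtain ⟨C, hC⟩ := mGro r (Fin k) γ (δ' q) _ hne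
    (fun m => (Module.finrank ℂ (gr J m) : ℤ)) key
  rw [hs] at hC
  exact ⟨C, hC.mono fun m hm => (le_abs_self _).trans hm⟩

end Pool.Agent.Lib.MP_776403_ag.SD.U
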