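import Pool.Agent.Lib.MP_776403_ag.SD.U.SpecC
import Pool.Agent.Lib.MP_776403_ag.SD.U.NWg
import Pool.Agent.Lib.MP_776403_ag.SD.Z.MainW

/-!
# THEOREM U: exterior powers and one section
-/

set_option autoImplicit false

open MvPolynomial

noncomputable section

namespace Pool.Agent.Lib.MP_776403_ag.SD.U

namespace NW1Aux

variable {N : ℕ}

/-- Images of a space under two maps with the same kernel. -/
theorem fr_eq {E F F' : Type} [AddCommGroup E] [Module ℂ E] [AddCommGroup F] [Module ℂ F]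
    [AddCommGroup F'] [Module ℂ F'] (f : E →ₗ[ℂ] F) (g : E →ₗ[ℂ] F') (V : Submodule ℂ E)
    (h : ∀ v ∈ V, f v = 0 ↔ g v = 0) :
    Module.finrank ℂ (V.map f) = Module.finrank ℂ (V.map g) := by
  have hk : LinearMap.ker (f.domRestrict V) = LinearMap.ker (g.domRestrict V) := by
    ext x
    rw [LinearMap.mem_ker, LinearMap.mem_ker, LinearMap.domRestrict_apply,
      LinearMap.domRestrict_apply]
    exact h x.1 x.2
  rw [← LinearMap.range_domRestrict, ← LinearMap.range_domRestrict]
  exact LinearEquiv.finrank_eq ((f.domRestrict V).quotKerEquivRange.symm.trans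
    ((Submodule.quotEquivOfEq _ _ hk).trans (g.domRestrict V).quotKerEquivRange))

theorem red_zero {γ : Type} (J : Ideal (Sx N)) (v : γ → Sx N) :
    redL γ J v = 0 ↔ ∀ a, v a ∈ J := by
  constructor
  · intro h a
    exact Ideal.Quotient.eq_zero_iff_mem.1 (congrFun h a)
  · intro h
    funext a
    exact Ideal.Quotient.eq_zero_iff_mem.2 (h a)

section

variable {α β : Type}

/-- Elements of the zeroth exterior power. -/
theorem mem_LW0 (P : Gn N α) (k : ℕ) (v : (Fin 0 → α) → Sx N) (hv : v ∈ LW P 0 k) :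
    ∃ a : Sx N, a.IsHomogeneous k ∧ v = fun _ => a := by
  unfold LW at hv
  induction hv using Submodule.span_induction with
  | mem x hx =>
    obtain ⟨a, e, g, ha, _, he, rfl⟩ := hx
    refine ⟨a, ?_, ?_⟩
    · have h1 : e = k := by simpa using he
      rw [← h1]
      exact ha
    · funext A
      simp
  | zero => exact ⟨0, isHomogeneous_zero _ _ _, rfl⟩
  | add x y _ _ hx hy =>
    obtain ⟨a, ha, rfl⟩ := hx
    obtain ⟨b, hb, rfl⟩ := hy
    exact ⟨a + b, ha.add hb, rfl⟩
  | smul r x _ hx =>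
    obtain ⟨a, ha, rfl⟩ := hx
    refine ⟨r • a, ?_, rfl⟩
    exact (homogeneousSubmodule (Fin (N + 1)) ℂ k).smul_mem r ha

/-- The zeroth exterior power as a factor. -/
theorem pv0 (P : Gn N α) (ω' : β → ℕ) (W : ℕ → Submodule ℂ (β → Sx N)) (hW : GW ω' W)
    (J : Ideal (Sx N)) (m : ℕ) : hV J (PV (LW P 0) W) m = hV J W m := by
  let f : (β → Sx N) →ₗ[ℂ] ((Fin 0 → α) × β → Sx N) := LinearMap.funLeft ℂ (Sx N) Prod.snd
  have h1 : PV (LW P 0) W m = (W m).map f := by
    apply le_antisymm
    · unfold PV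
      rw [Submodule.span_le]
      rintro z ⟨k1, k2, v, w, hk, hv, hw, rfl⟩
      obtain ⟨a, ha, rfl⟩ := mem_LW0 P k1 v hv
      have h2 := WBAux.form_mem ω' W hW k2 k1 a w ha hw
      rw [add_comm k2 k1, hk] at h2
      exact ⟨_, h2, rfl⟩
    · rintro _ ⟨w, hw, rfl⟩
      refine Submodule.subset_span ⟨0, m, fun _ => 1, w, zero_add m, ?_, hw, ?_⟩
      · refine Submodule.subset_span ⟨1, 0, Fin.elim0, isHomogeneous_one _ _, fun l => l.elim0,
          by simp, ?_⟩
        funext A
        simp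
      · funext p
        rw [one_mul]
        rfl
  unfold hV
  rw [h1, ← Submodule.map_comp]
  refine fr_eq _ _ _ fun v _ => ?_
  rw [LinearMap.comp_apply, red_zero, red_zero]
  exact ⟨fun h b => h (Fin.elim0, b), fun h p => h p.2⟩

/-- The tensor product with `σ`. -/
def tn (σ : α → Sx N) : (β → Sx N) →ₗ[ℂ] ((Fin 1 → α) × β → Sx N) where
  toFun w := fun p => σ (p.1 0) * w p.2
  map_add' u v := by
    funext p
    simp only [Pi.add_apply, mul_add]
  map_smul' r u := by
    funext p
    simp only [Pi.smul_apply, RingHom.id_apply, mul_smul_comm]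

/-- Elements of the first exterior power of the module generated by `σ`. -/
theorem mem_LW1 (σ : α → Sx N) (δ k : ℕ) (v : (Fin 1 → α) → Sx N)
    (hv : v ∈ LW ({(σ, δ)} : Gn N α) 1 k) :
    ∃ a : Sx N, a.IsHomogeneous (k - δ) ∧ (k < δ → a = 0) ∧ v = fun A => a * σ (A 0) := by
  unfold LW at hv
  induction hv using Submodule.span_induction with
  | mem x hx =>
    obtain ⟨a, e, g, ha, hg, he, rfl⟩ := hx
    have hg0 : g 0 = (σ, δ) := hg 0
    have he' : e + δ = k := by
      have h1 : ∑ l, (g l).2 = δ := by simp [hg0]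
      rw [h1] at he
      exact he
    refine ⟨a, ?_, fun h => by omega, ?_⟩
    · have h2 : k - δ = e := by omega
      rw [h2]
      exact ha
    · funext A
      simp [hg0]
  | zero =>
    refine ⟨0, isHomogeneous_zero _ _ _, fun _ => rfl, ?_⟩
    funext A
    exact (zero_mul _).symm
  | add x y _ _ hx hy =>
    obtain ⟨a, ha, ha', rfl⟩ := hx
    obtain ⟨b, hb, hb', rfl⟩ := hy
    refine ⟨a + b, ha.add hb, fun h => by rw [ha' h, hb' h, add_zero], ?_⟩
    funext A
    exact (add_mul _ _ _).symm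
  | smul r x _ hx =>
    obtain ⟨a, ha, ha', rfl⟩ := hx
    refine ⟨r • a, (homogeneousSubmodule (Fin (N + 1)) ℂ _).smul_mem r ha,
      fun h => by rw [ha' h, smul_zero], ?_⟩
    funext A
    exact (smul_mul_assoc r a (σ (A 0))).symm

/-- The first exterior power of the module generated by `σ` as a factor. -/
theorem pv1 (σ : α → Sx N) (δ : ℕ) (ω' : β → ℕ) (W : ℕ → Submodule ℂ (β → Sx N))
    (hW : GW ω' W) (J : Ideal (Sx N)) (hJ : J.IsPrime) (y0 : α) (hy0 : σ y0 ∉ J) (m : ℕ) :
    hV J (PV (LW ({(σ, δ)} : Gn N α) 1) W) (m + δ) = hV J W m := by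
  have h1 : PV (LW ({(σ, δ)} : Gn N α) 1) W (m + δ) = (W m).map (tn σ) := by
    apply le_antisymm
    · unfold PV
      rw [Submodule.span_le]
      rintro z ⟨k1, k2, v, w, hk, hv, hw, rfl⟩
      obtain ⟨a, ha, ha', rfl⟩ := mem_LW1 σ δ k1 v hv
      by_cases hlt : k1 < δ
      · have h0 := ha' hlt
        refine ⟨0, zero_mem _, ?_⟩
        rw [map_zero]
        funext p
        rw [h0]
        simp
      · have h2 := WBAux.form_mem ω' W hW k2 (k1 - δ) a w ha hw
        have h3 : k2 + (k1 - δ) = m := by omega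
        rw [h3] at h2
        refine ⟨_, h2, ?_⟩
        funext p
        show σ (p.1 0) * (a * w p.2) = a * σ (p.1 0) * w p.2
        ring
    · rintro _ ⟨w, hw, rfl⟩
      refine Submodule.subset_span ⟨δ, m, fun A => σ (A 0), w, add_comm δ m, ?_, hw, rfl⟩
      refine Submodule.subset_span ⟨1, 0, fun _ => (σ, δ), isHomogeneous_one _ _, fun l => rfl,
        by simp, ?_⟩
      funext A
      simp
  unfold hV
  rw [h1, ← Submodule.map_comp]
  refine fr_eq _ _ _ fun v _ => ?_
  rw [LinearMap.comp_apply, red_zero, red_zero]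
  constructor
  · intro h b
    exact (hJ.mem_or_mem (h (fun _ => y0, b))).resolve_left hy0
  · intro h p
    exact J.mul_mem_left _ (h p.2)

/-- Higher exterior powers of the module generated by `σ`. -/
theorem pv2 (σ : α → Sx N) (δ : ℕ) (W : ℕ → Submodule ℂ (β → Sx N)) (J : Ideal (Sx N))
    (i : ℕ) (hi : 2 ≤ i) (m : ℕ) : hV J (PV (LW ({(σ, δ)} : Gn N α) i) W) m = 0 := by
  have h1 : ∀ k, LW ({(σ, δ)} : Gn N α) i k = ⊥ := by
    intro k
    rw [eq_bot_iff]
    unfold LW
    rw [Submodule.span_le]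
    rintro z ⟨a, e, g, ha, hg, he, rfl⟩
    show _ = 0
    funext A
    have h2 : Matrix.det (Matrix.of fun l m => (g l).1 (A m)) = 0 := by
      have h01 : (⟨0, by omega⟩ : Fin i) ≠ ⟨1, by omega⟩ := by
        intro h
        have := congrArg Fin.val h
        simp at this
      refine Matrix.det_zero_of_row_eq h01 ?_
      funext m
      have e1 : g ⟨0, by omega⟩ = (σ, δ) := hg _
      have e2 : g ⟨1, by omega⟩ = (σ, δ) := hg _
      show (g ⟨0, by omega⟩).1 (A m) = (g ⟨1, by omega⟩).1 (A m)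
      rw [e1, e2]
    show a * _ = 0
    rw [h2, mul_zero]
  refine WVanAux.hV0 fun z hz => ?_
  have h3 : PV (LW ({(σ, δ)} : Gn N α) i) W m = ⊥ := by
    rw [eq_bot_iff]
    unfold PV
    rw [Submodule.span_le]
    rintro z ⟨k1, k2, v, w, hk, hv, hw, rfl⟩
    rw [h1 k1] at hv
    have hv0 : v = 0 := hv
    rw [hv0]
    show _ = 0
    funext p
    show (0 : Sx N) * _ = 0
    rw [zero_mul]
  rw [h3] at hz
  have hz0 : z = 0 := hz
  intro a
  rw [hz0]
  exact zero_mem _

variable [Fintype α] [DecidableEq α]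

/-- The rank of the image. -/
theorem rkM (G : Gn N α) (σ : α → Sx N) (δ : ℕ) (p : Vx N) (hs : (fun y => eval p (σ y)) ∈ fib G p)
    (h0 : (fun y => eval p (σ y)) ≠ 0) :
    Module.finrank ℂ (fib G p) = Module.finrank ℂ (fib (MG (wm σ) δ G) p) + 1 := by
  rw [← WXDAux.fib_MG]
  have hval : ∀ v : α → ℂ, ∀ y : α × α, ((wm σ).map (eval p)).mulVecLin v y =
      eval p (σ y.1) * v y.2 - eval p (σ y.2) * v y.1 := by
    intro v y
    rw [Matrix.mulVecLin_apply]
    have h1 : (((wm σ).map (eval p)).mulVec v) y = ∑ b, eval p ((if b = y.2 then σ y.1 else 0) -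
        (if b = y.1 then σ y.2 else 0)) * v b := rfl
    rw [h1]
    simp only [map_sub, apply_ite (eval p), map_zero, sub_mul, Finset.sum_sub_distrib, ite_mul,
      zero_mul, Finset.sum_ite_eq', Finset.mem_univ, if_true]
  obtain ⟨y0, hy0⟩ := Function.ne_iff.1 h0
  have hy0' : eval p (σ y0) ≠ 0 := hy0
  have hone : Module.finrank ℂ (Submodule.span ℂ {fun y => eval p (σ y)}) = 1 :=
    finrank_span_singleton h0
  have key : Module.finrank ℂ (fib G p) =
      Module.finrank ℂ ((fib G p).map ((wm σ).map (eval p)).mulVecLin) +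
      Module.finrank ℂ (Submodule.span ℂ {fun y => eval p (σ y)}) := by
    refine WXDAux.rank_null _ (fib G p) (Submodule.span ℂ {fun y => eval p (σ y)}) ?_ ?_ ?_
    · rw [Submodule.span_le]
      rintro _ rfl
      exact hs
    · intro v _ hv
      rw [Submodule.mem_span_singleton]
      refine ⟨v y0 / eval p (σ y0), ?_⟩
      funext y
      have h2 := congrFun hv (y0, y)
      rw [hval] at h2
      have h3 : eval p (σ y0) * v y - eval p (σ y) * v y0 = 0 := h2
      rw [Pi.smul_apply, smul_eq_mul, div_mul_eq_mul_div, div_eq_iff hy0']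
      linear_combination -h3
    · intro v hv
      rw [Submodule.mem_span_singleton] at hv
      obtain ⟨r, rfl⟩ := hv
      funext y
      rw [hval]
      simp only [Pi.smul_apply, smul_eq_mul, Pi.zero_apply]
      ring
  rw [hone] at key
  exact key

end

end NW1Aux

open NW1Aux in
theorem tNW1 : S_NW1 := by
  intro N α _ _ ω J hJ hJh hex G k hG hk
  refine ⟨fun m => WFEAux.hV0 α J G m, ?_, ?_⟩
  · intro j m hj
    refine WVanAux.hV0 fun z hz A => ?_
    have hGW := (wB.2.1 N α ω G G j hG).1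
    refine WVanAux.span_mem (J := J) ?_ hz A
    intro z' hz' A'
    have hhom := hGW.hom m z' (Submodule.subset_span hz') A'
    refine (tNull N J hJ hJh).2 hex (z' A') _ hhom ?_
    intro p hp hp0
    obtain ⟨b, e, g, hb, hg, hke, rfl⟩ := hz'
    have h1 : Module.finrank ℂ (fib G p) < j := by
      rw [hk p hp hp0]
      exact hj
    have h3 := WVanAux.det0 (fib G p) h1 (fun l => fun y => eval p ((g l).1 y))
      (fun l => Submodule.subset_span ⟨g l, hg l, rfl⟩) A'
    change eval p (b * Matrix.det (Matrix.of fun l m => (g l).1 (A' m))) = 0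
    rw [map_mul, WVanAux.eval_det, h3, mul_zero]
  · intro σ δ hσ hσ0
    have hFam : GW ω (Fam G) := wB.1 N α ω G hG
    have hσh : ∀ y, (σ y).IsHomogeneous (δ + ω y) := fun y => hFam.hom δ σ hσ y
    have hM : HG (fun p : α × α => ω p.1 + ω p.2) (MG (wm σ) δ G) := by
      rintro g ⟨w, hw, rfl⟩ y
      show ((wm σ).mulVec w.1 y).IsHomogeneous (w.2 + δ + (ω y.1 + ω y.2))
      rw [NWgAux.wm_mulVec]
      have h1 := (hσh y.1).mul (hG w hw y.2)
      have h2 := (hσh y.2).mul (hG w hw y.1)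
      have e1 : δ + ω y.1 + (w.2 + ω y.2) = w.2 + δ + (ω y.1 + ω y.2) := by omega
      have e2 : δ + ω y.2 + (w.2 + ω y.1) = w.2 + δ + (ω y.1 + ω y.2) := by omega
      rw [e1] at h1
      rw [e2] at h2
      exact h1.sub h2
    have hr : ∀ p ∈ zer J, p ≠ 0 → Module.finrank ℂ (fib (MG (wm σ) δ G) p) + 1 = k := by
      intro p hp hp0
      rw [← rkM G σ δ p (WXDAux.fam_fib G p δ σ hσ) (hσ0 p hp hp0)]
      exact hk p hp hp0
    refine ⟨hM, hr, ?_⟩
    intro j
    obtain ⟨p0, hp0, hp00⟩ := hex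
    have hk1 := hr p0 hp0 hp00
    have hX : XD J ω (fun p : α × α => ω p.1 + ω p.2) ({(σ, δ)} : Gn N α) G (wm σ) δ 1 (k - 1) := by
      refine ⟨hJ, hJh, ⟨p0, hp0, hp00⟩, ?_, hG, hM, ?_, ?_, ?_, ?_, ?_⟩
      · rintro g rfl a
        exact hσh a
      · rintro g rfl
        exact hσ
      · rintro g rfl y
        rw [NWgAux.wm_mulVec]
        have : σ y.1 * σ y.2 - σ y.2 * σ y.1 = 0 := by ring
        rw [this]
        exact zero_mem _
      · intro p hp hpn
        have h1 : fib ({(σ, δ)} : Gn N α) p = Submodule.span ℂ {fun y => eval p (σ y)} := by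
          unfold fib
          congr 1
          ext y
          constructor
          · rintro ⟨g, rfl, rfl⟩
            rfl
          · rintro rfl
            exact ⟨(σ, δ), rfl, rfl⟩
        rw [h1]
        exact finrank_span_singleton (hσ0 p hp hpn)
      · intro p hp hpn
        have := hr p hp hpn
        omega
      · intro p hp hpn
        have := hk p hp hpn
        omega
    have hy : ∃ y0, σ y0 ∉ J := by
      obtain ⟨y0, hy0⟩ := Function.ne_iff.1 (hσ0 p0 hp0 hp00)
      exact ⟨y0, fun h => hy0 (hp0 _ h)⟩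
    obtain ⟨y0, hy0⟩ := hy
    obtain ⟨m0, hm0⟩ := zWSum N α (α × α) J ω _ _ G (wm σ) δ 1 (k - 1) hX (j + 1)
    refine Filter.eventually_atTop.2 ⟨m0, fun m hm => ?_⟩
    rw [hm0 (m + δ) (by omega)]
    have hGW : ∀ l, GW (fun A : Fin l → α × α => ∑ m, (ω (A m).1 + ω (A m).2))
        (LW (MG (wm σ) δ G) l) := fun l =>
      (wB.2.1 N (α × α) _ (MG (wm σ) δ G) (MG (wm σ) δ G) l hM).1
    rw [Finset.sum_range_succ', Finset.sum_range_succ']
    have hz : ∑ i ∈ Finset.range j, hV J (PV (LW ({(σ, δ)} : Gn N α) (i + 1 + 1))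
        (LW (MG (wm σ) δ G) (j + 1 - (i + 1 + 1)))) (m + δ + δ * (j + 1 - (i + 1 + 1))) = 0 :=
      Finset.sum_eq_zero fun i _ => pv2 σ δ _ J (i + 1 + 1) (by omega) _
    rw [hz, zero_add, pv0 _ _ _ (hGW _) J]
    have h1 : m + δ + δ * (j + 1 - (0 + 1)) = (m + δ * j) + δ := by
      have : j + 1 - (0 + 1) = j := by omega
      rw [this]
      ring
    rw [h1, zero_add, pv1 σ δ _ _ (hGW _) J hJ y0 hy0, Nat.sub_zero, add_comm]
    rfl

end Pool.Agent.Lib.MP_776403_ag.SD.U
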