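import Pool.Agent.Lib.MP_776403_ag.SD.U.SpecA
import Pool.Agent.Lib.MP_776403_ag.SD.P2.TS
import Pool.Agent.Lib.MP_776403_ag.SD.P2.Div
import Pool.Agent.Lib.MP_776403_ag.SD.LI.Cnt
import Pool.Agent.Lib.MP_776403_ag.SD.LI.Ext
import Pool.Agent.Lib.MP_776403_ag.SD.LI.Fa
import Pool.Agent.Lib.MP_776403_ag.SD.LI.Fb
import Pool.Agent.Lib.MP_776403_ag.SD.LI.Hy
import Pool.Agent.Lib.MP_776403_ag.SD.LI.Hz
import Pool.Agent.Lib.MP_776403_ag.SD.LI.Ini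
import Pool.Agent.Lib.MP_776403_ag.SD.LI.Opn
import Pool.Agent.Lib.MP_776403_ag.SD.LI.Qa
import Pool.Agent.Lib.MP_776403_ag.SD.LI.Qb
import Pool.Agent.Lib.MP_776403_ag.SD.LI.Us
import Pool.Agent.Lib.MP_776403_ag.SD.LI.Zs
import Pool.Agent.Lib.MP_776403_ag.SD.LI.Pa
import Pool.Agent.Lib.MP_776403_ag.SD.J.Fit
import Pool.Agent.Lib.MP_776403_ag.SD.J.Pid

/-!
# THEOREM U, part A: lines of degree at most the degree of `X` (helper28, after LI/Pa.lean)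
-/

set_option autoImplicit false

open MvPolynomial

noncomputable section

namespace Pool.Agent.Lib.MP_776403_ag.SD.U

namespace PaAux

open LI in
theorem pa (hGood : S_Good) (hLoc : S_Loc) (hZs : S_Zs) (hUs : S_Us) (hQa : S_Qa) (hQb : S_Qb)
    (hHy : S_Hy) (hHz : S_Hz) (hCnt : S_Cnt) (hGro : U.S_Gro) : U.S_Pa := by
  intro N k n' D I hN hk hI hIh hnd hS hH x v hl hz
  have hx0 : x ≠ 0 := hl.1.ne_zero 0
  have hxI : x ∈ zer I := by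
    have := hl.2 1 0
    rwa [one_smul, zero_smul, add_zero] at this
  obtain ⟨L⟩ := hLoc N (k + 1) I hS x hxI hx0
  obtain ⟨μ, hμ⟩ := hGood N (k + 1) I x v L
  have hl' : IsLine I x (v + μ • x) := LI.PaAux.isLine_add hl μ
  obtain ⟨z₀, hz₀I, hz₀0, hT⟩ := hz
  obtain ⟨z, hz, hzT⟩ := hZs N k I hI hIh hS hnd hk x (v + μ • x) hl'
    ⟨z₀, hz₀I, hz₀0, LI.PaAux.trv_add hT μ⟩
  obtain ⟨u, hu⟩ := hUs N k I hI hIh hS x (v + μ • x) hl'
  obtain ⟨δ, p, q, hp, hpd, hpq, hRL⟩ := hQa N k I hI hIh hS x (v + μ • x) hl' L hμ u hu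
  have hb := hQb N k I hI hIh hS x (v + μ • x) hl' L hμ u hu δ p q hp hpd hpq hRL
  obtain ⟨a, q₁, ρ, ρ₀, hLD⟩ := hHy N k n' I hN hI hIh hS x (v + μ • x) hl' u hu δ q hRL
  obtain ⟨b, w, hZD⟩ := hHz N k n' I hN hI hIh hS x (v + μ • x) hl' z hz hzT
  have hcnt := hCnt N k n' (k + 1) I hI hIh hS x (v + μ • x) hl' δ a q₁ ρ ρ₀ hLD z b w hZD
  have hg : k + 1 + δ ≤ D := (hGro N (n' + 1) D I hH).1 (k + 1 + δ) (δ + 1) hcnt
  have hsur := (jSur (eHom eLinB) (eCrL eLinB) (eLineI eLinB)) N (k + 1) I hI hIh hS x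
    (v + μ • x) hl' L hμ
  refine ⟨k + 1 + Module.finrank ℂ ((Fin (k + 1) → Polynomial ℂ) ⧸ L.E (v + μ • x)), by omega, ?_⟩
  unfold DegEq
  rw [← JAsmAux.lineI_add x v μ]
  filter_upwards [hsur] with m hm
  have e6 : (k + 1) * (m + 1) = (k + 1) * m + (k + 1) := by ring
  omega

end PaAux

open LI in
/-- Lines of degree at most `D`. -/
theorem tPa (h : U.S_Gro) : U.S_Pa :=
  have hTS : S_TS := P2.tTS
  PaAux.pa mGood mLoc (tZs hTS (tOpn eCN) (tExt hTS) tNull) (tUs hTS mLoc mCr tTB)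
    (tQa eCN mPerp tDetHom eLinB) (tQb eCN mPerp mCr mCrL mHom (jFit jPid) jPid)
    (tHy hTS eLinB) (tHz hTS) (tCnt (tFa (tIni hTS) P2.tDiv) (tFb (tIni hTS))) h

end Pool.Agent.Lib.MP_776403_ag.SD.U
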