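import Pool.Agent.Lib.MP_776403_ag.SD.U.SpecC
import Pool.Agent.Lib.MP_776403_ag.SD.W.XD
import Pool.Agent.Lib.MP_776403_ag.SD.E.CN

/-!
# THEOREM U, part C: conormal vectors from pairs
-/

set_option autoImplicit false

open MvPolynomial

noncomputable section

namespace Pool.Agent.Lib.MP_776403_ag.SD.U

namespace PsiAux

open WXDAux

variable {N : ℕ}

/-- The fibre of the kernel is the kernel on the fibre. -/
theorem fibK {c : ℕ} {β : Type} [Fintype β] {I J : Ideal (Sx N)} {a : ℕ} {ω : β → ℕ}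
    {q : Fin c → ℕ → (β → Sx N)} {M : Matrix β (Fin c ⊕ β) (Sx N)}
    {Ψ : Matrix (Fin (N + 1)) (Fin c ⊕ β) ℂ} (hI : IsHom I) (hS : Smooth I c) (hIJ : I ≤ J)
    (W : WG I J a β ω q M Ψ) (p : Vx N) (hp : p ∈ zer J) (hp0 : p ≠ 0) :
    fib (KG I J q M Ψ) p = fib (BG q) p ⊓ LinearMap.ker (M.map (eval p)).mulVecLin := by
  have hr := (ranks eCN hI hS hIJ W p hp hp0).1
  have hK0 : Module.finrank ℂ
      (fib (BG q) p ⊓ LinearMap.ker (M.map (eval p)).mulVecLin : Submodule ℂ (Fin c ⊕ β → ℂ)) = c := by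
    have h := rank_null (M.map (eval p)).mulVecLin (fib (BG q) p)
      (fib (BG q) p ⊓ LinearMap.ker (M.map (eval p)).mulVecLin) inf_le_left
      (fun w hw h0 => ⟨hw, h0⟩) (fun w hw => hw.2)
    rw [fib_MG M 1 (BG q) p, MG_eq W, rank_B] at h
    omega
  refine Submodule.eq_of_le_of_finrank_eq (Submodule.span_le.2 ?_) (hr.trans hK0.symm)
  rintro _ ⟨g, ⟨hg, hM, -⟩, rfl⟩
  refine ⟨fam_fib _ p _ _ hg, ?_⟩
  rw [SetLike.mem_coe, LinearMap.mem_ker, ← val_M]
  funext y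
  exact hp _ (hM y)

variable {I : Ideal (Sx N)} {x : Vx N} {c : ℕ} (L : Loc I x c)

theorem qv_eq (ξ : Fin c → ℂ) (k : ℕ) (z : Vx N) :
    qv L ξ k z = ∑ i, ξ i • fun y => eval z (L.qk i k y) := by
  funext y
  rw [Finset.sum_apply]
  show eval z (∑ i, C (ξ i) * L.qk i k y) = _
  rw [map_sum]
  refine Finset.sum_congr rfl fun i _ => ?_
  rw [map_mul, eval_C]
  rfl

theorem Fj_le (j : ℕ) (z : Vx N) : Fj L j z ≤ (fib (BG L.qk) z).comap (inB c L.Ix) := by
  refine Submodule.span_le.2 ?_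
  rintro _ ⟨ξ, k, -, rfl⟩
  rw [SetLike.mem_coe, Submodule.mem_comap, qv_eq, map_sum]
  refine Submodule.sum_mem _ fun i _ => ?_
  rw [map_smul, ← val_iQ]
  exact Submodule.smul_mem _ _ (mem_fib z (g := (iQ c (L.qk i k), k + 1)) (Or.inr ⟨i, k, rfl⟩))

theorem elim_eq (f : Fin c → ℂ) (w : L.Ix → ℂ) :
    (Sum.elim f w : Fin c ⊕ L.Ix → ℂ) = inA c L.Ix f + inB c L.Ix w := by
  funext u
  rcases u with u | u
  · exact (add_zero _).symm
  · exact (zero_add _).symm

end PsiAux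

open PsiAux WXDAux in
theorem tPsi (h : S_WGC) : S_Psi := by
  intro N c a I J x hc hIp hI hS hF L z hz hz0 f w j hw heq
  have W := h N c a I J x hc hIp hI hS hF L
  have hinj := (ranks eCN hI hS hF.le W z hz hz0).2
  have hmem : (Sum.elim f w : Fin c ⊕ L.Ix → ℂ) ∈
      fib (KG I J L.qk (Matrix.of L.mm) (Matrix.of L.psi)) z := by
    rw [fibK hI hS hF.le W z hz hz0]
    refine ⟨?_, ?_⟩
    · rw [elim_eq]
      exact add_mem (inA_mem L.qk z f) (Fj_le L j z hw)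
    · rw [SetLike.mem_coe, LinearMap.mem_ker, Matrix.mulVecLin_apply]
      funext y
      rw [Matrix.mulVec, dotProduct, Fintype.sum_sum_type, Pi.zero_apply, ← heq y, qv_eq, Finset.sum_apply]
      refine congrArg₂ (· + ·) (Finset.sum_congr rfl fun b _ => ?_) rfl
      show eval z (L.qk b 0 y) * f b = f b * eval z (L.qk b 0 y)
      exact mul_comm _ _
  have hpsi : (fun l => ∑ b, L.psi l (Sum.inl b) * f b + ∑ y, L.psi l (Sum.inr y) * w y) =
      (Matrix.of L.psi).mulVec (Sum.elim f w) := by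
    funext l
    rw [Matrix.mulVec, dotProduct, Fintype.sum_sum_type]
    rfl
  refine ⟨?_, fun h0 => ?_⟩
  · rw [hpsi]
    exact le_CN z hz ⟨_, hmem, rfl⟩
  · have h1 := hinj _ hmem (by rw [← hpsi]; funext l; exact h0 l)
    exact ⟨funext fun b => congrFun h1 (Sum.inl b), funext fun y => congrFun h1 (Sum.inr y)⟩

end Pool.Agent.Lib.MP_776403_ag.SD.U
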