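import Pool.Agent.Lib.MP_776403_ag.SD.U.SpecA
import Pool.Agent.Lib.MP_776403_ag.SD.L.Rank

/-!
# THEOREM U, part A, module Rank: the rank over a Noether normalization is at most the degree (helper50)
-/

set_option autoImplicit false

open MvPolynomial

noncomputable section

namespace Pool.Agent.Lib.MP_776403_ag.SD.U

variable {N : ℕ}

open SD.RankAux in
private theorem rank_finrank_V (I : Ideal (Sx N)) (n : ℕ) :
    Module.finrank ℂ (V I n) ≤ ∑ k ∈ Finset.range (n + 1), Module.finrank ℂ (gr I k) := by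
  induction n with
  | zero =>
    rw [zero_add, Finset.sum_range_one]
    exact Submodule.finrank_mono (V_zero_le I)
  | succ n ih =>
    rw [Finset.sum_range_succ]
    exact ((Submodule.finrank_mono (V_succ_le I n)).trans
      (Submodule.finrank_add_le_finrank_add_finrank _ _)).trans (add_le_add ih le_rfl)

open SD.RankAux in
private theorem rank_main_ineq (I : Ideal (Sx N)) (t : ℕ)
    (y : Fin (t + 1) → Sx N) (hy : ∀ i, (y i).IsHomogeneous 1) (ρ : ℕ) (g : Fin ρ → Sx N)
    (hb : ∀ b : Fin ρ → MvPolynomial (Fin (t + 1)) ℂ, ∑ i, aeval y (b i) * g i ∈ I → b = 0) (m : ℕ) :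
    ρ * Nat.choose (m + t + 1) (t + 1) ≤
      ∑ k ∈ Finset.range (m + (∑ i, (g i).totalDegree) + 1), Module.finrank ℂ (gr I k) := by
  set w := ∑ i, (g i).totalDegree with hw
  let L0 : (Fin ρ → restrictTotalDegree (Fin (t + 1)) ℂ m) →ₗ[ℂ] Sx N :=
    ∑ i, (LinearMap.mulRight ℂ (g i)) ∘ₗ (aeval y : MvPolynomial (Fin (t + 1)) ℂ →ₐ[ℂ] Sx N).toLinearMap ∘ₗ
      (Submodule.subtype _) ∘ₗ (LinearMap.proj i)
  have hL0 : ∀ b, L0 b = ∑ i, aeval y (b i).1 * g i := by
    intro b
    simp only [L0, LinearMap.sum_apply]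
    rfl
  let L : (Fin ρ → restrictTotalDegree (Fin (t + 1)) ℂ m) →ₗ[ℂ] V I (m + w) :=
    LinearMap.codRestrict _ ((Ideal.Quotient.mkₐ ℂ I).toLinearMap ∘ₗ L0) (by
      intro b
      refine ⟨L0 b, ?_, rfl⟩
      rw [hL0]
      refine Submodule.sum_mem _ fun i _ => ?_
      rw [mem_restrictTotalDegree]
      refine (totalDegree_mul _ _).trans (add_le_add ?_ ?_)
      · exact (totalDegree_aeval hy _).trans ((mem_restrictTotalDegree _ _ _).1 (b i).2)
      · exact Finset.single_le_sum (f := fun i => (g i).totalDegree) (fun _ _ => Nat.zero_le _)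
          (Finset.mem_univ i))
  have hLi : Function.Injective L := by
    rw [← LinearMap.ker_eq_bot, LinearMap.ker_eq_bot']
    intro b hb0
    have h1 : Ideal.Quotient.mk I (L0 b) = 0 := congrArg Subtype.val hb0
    rw [Ideal.Quotient.eq_zero_iff_mem, hL0] at h1
    have h2 := hb _ h1
    funext i
    exact Subtype.ext (congrFun h2 i)
  have h3 := LinearMap.finrank_le_finrank_of_injective hLi
  rw [Module.finrank_pi_fintype, Finset.sum_const, Finset.card_univ, Fintype.card_fin, smul_eq_mul,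
    finrank_rd] at h3
  exact h3.trans (rank_finrank_V I _)

theorem tRank (h : S_Gro) : S_Rank := by
  intro N I D e hD r y hy her ρ g hb
  obtain ⟨t, rfl⟩ : ∃ t, r = t + 1 := ⟨r - 1, by omega⟩
  obtain ⟨h1, h2⟩ := (h N e D I hD).2 ρ (∑ i, (g i).totalDegree) t (by omega)
    (rank_main_ineq I t y hy ρ g hb)
  exact ⟨h1, fun h3 => by rw [h2 h3]⟩

end Pool.Agent.Lib.MP_776403_ag.SD.U
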