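import Pool.Agent.Lib.MP_776403_ag.SD.U.SpecC

/-!
# THEOREM U, (TL): all degrees are at least two
-/

set_option autoImplicit false

open MvPolynomial

noncomputable section

namespace Pool.Agent.Lib.MP_776403_ag.SD.U

variable {N : ℕ}

namespace TLAux

section

variable {I : Ideal (Sx N)} {x : Vx N} {c : ℕ} (L : Loc I x c)

/-- `qv` is linear in `ξ`. -/
lemma qv_sum {ι : Type} (s : Finset ι) (b : ι → ℂ) (ξ : ι → Fin c → ℂ) (k : ℕ) (z : Vx N) :
    qv L (∑ l ∈ s, b l • ξ l) k z = ∑ l ∈ s, b l • qv L (ξ l) k z := by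
  funext y
  simp only [qv, qs, map_sum, map_mul, eval_C, Finset.sum_apply, Pi.smul_apply, smul_eq_mul]
  simp only [Finset.sum_mul, Finset.mul_sum]
  rw [Finset.sum_comm]
  refine Finset.sum_congr rfl fun l _ => Finset.sum_congr rfl fun i _ => by ring

lemma indep {r : ℕ} (z : Vx N) (hz : ∀ ξ : Fin c → ℂ, ξ ≠ 0 → qv L ξ 0 z ≠ 0)
    (ξ : Fin r → Fin c → ℂ) (hξ : LinearIndependent ℂ ξ) :
    LinearIndependent ℂ fun l => qv L (ξ l) 0 z := by
  rw [Fintype.linearIndependent_iff] at hξ ⊢
  intro b hb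
  apply hξ b
  by_contra hne
  apply hz _ hne
  rw [qv_sum]
  exact hb

end

end TLAux

open TLAux in
theorem tTL (h1 : S_Base) (h2 : S_NW) : S_TL := by
  intro N c a I J d q x hU hF hD hL i₀
  obtain ⟨L⟩ := hL
  by_contra hlt
  have hi₀ : d i₀ = 1 := by
    have := hU.one_le i₀
    omega
  have hca : c ≤ a := by
    rw [← hU.sum]
    calc c = ∑ _i : Fin c, 1 := by simp
      _ ≤ ∑ i, d i := Finset.sum_le_sum fun i _ => hU.one_le i
  have hB := h1 N c a (a + c + 1) I J x hU.pos hca hU.prime hU.hom hU.nd hU.smooth hF hD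
    (by omega) L
  set T : Finset (Fin c) := Finset.univ.filter fun i => 1 < d i with hT
  have hTc : T.card + 1 ≤ c := by
    have h3 : T ⊆ Finset.univ.erase i₀ := by
      intro i hi
      rw [hT, Finset.mem_filter] at hi
      refine Finset.mem_erase.2 ⟨?_, Finset.mem_univ _⟩
      rintro rfl
      omega
    have h4 := Finset.card_le_card h3
    rw [Finset.card_erase_of_mem (Finset.mem_univ _), Finset.card_univ, Fintype.card_fin] at h4
    have := hU.pos
    omega
  have hg : Function.Injective (Fin.castLE hTc) := Fin.castLE_injective hTc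
  have hTm : ∀ i : Fin c, i ∈ T ↔ 1 < d i := fun i => by
    rw [hT, Finset.mem_filter]
    exact ⟨fun h => h.2, fun h => ⟨Finset.mem_univ _, h⟩⟩
  clear_value T
  let e : T ≃ Fin T.card := T.equivFin
  have hef : ∀ l : Fin T.card, 0 + 1 < d ((e.symm l : T) : Fin c) := fun l => by
    rw [zero_add]
    exact (hTm _).1 (e.symm l).2
  refine h2 N c a I J d q x hU hF hD L T.card
    (fun l => Pi.single (Fin.castLE hTc l) 1) (fun _ => 0) ?_
    (fun l => ⟨(((e.symm l : T) : Fin c), 0), hef l⟩) ?_ ?_ ?_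
  · intro z hz hz0
    apply indep L z (fun ξ hξ => hB z hz hz0 ξ hξ)
    exact (Pi.linearIndependent_single_one (Fin c) ℂ).comp _ hg
  · intro l l' h
    have h5 : (((e.symm l : T) : Fin c), 0) = (((e.symm l' : T) : Fin c), 0) :=
      congrArg Subtype.val h
    have h6 : ((e.symm l : T) : Fin c) = ((e.symm l' : T) : Fin c) := congrArg Prod.fst h5
    exact e.symm.injective (Subtype.ext h6)
  · intro l
    rfl
  · rintro ⟨⟨i, k⟩, hp⟩ hr hk
    apply hr
    simp only at hk hp
    subst hk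
    have hiT : i ∈ T := (hTm i).2 (by simpa using hp)
    refine ⟨e ⟨i, hiT⟩, ?_⟩
    apply Subtype.ext
    simp only [Equiv.symm_apply_apply]

end Pool.Agent.Lib.MP_776403_ag.SD.U
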