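import Pool.Agent.Lib.MP_776403_ag.SD.U.SpecV
import Pool.Agent.Lib.MP_776403_ag.SD.Z.MainW
import Pool.Agent.Lib.MP_776403_ag.SD.J.Rev

/-!
# THEOREM U: (VL) lifts on one line are polynomial sections
-/

set_option autoImplicit false

open MvPolynomial

noncomputable section

namespace Pool.Agent.Lib.MP_776403_ag.SD.U

namespace VLAux

variable {N c : ℕ} {I : Ideal (Sx N)} {x : Vx N}

/-- `qv` is linear in `ξ`. -/
theorem qv_lin (L : Loc I x c) (k : ℕ) (z : Vx N) :
    (∀ ξ ξ' : Fin c → ℂ, qv L (ξ + ξ') k z = qv L ξ k z + qv L ξ' k z) ∧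
    ∀ (r : ℂ) (ξ : Fin c → ℂ), qv L (r • ξ) k z = r • qv L ξ k z := by
  constructor
  · intro ξ ξ'
    funext y
    simp only [qv, qs, map_sum, map_mul, eval_C, Pi.add_apply]
    rw [← Finset.sum_add_distrib]
    exact Finset.sum_congr rfl fun i _ => by ring
  · intro r ξ
    funext y
    simp only [qv, qs, map_sum, map_mul, eval_C, Pi.smul_apply, smul_eq_mul]
    rw [Finset.mul_sum]
    exact Finset.sum_congr rfl fun i _ => by ring

theorem qv_zero (L : Loc I x c) (k : ℕ) (z : Vx N) : qv L 0 k z = 0 := by
  funext y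
  simp [qv, qs]

/-- Elements of `F_j(z)`. -/
theorem mem_Fj (L : Loc I x c) (j : ℕ) (z : Vx N) (w : L.Ix → ℂ) (hw : w ∈ Fj L j z) :
    ∃ η : ℕ → Fin c → ℂ, w = ∑ k ∈ Finset.range j, qv L (η k) k z := by
  unfold Fj at hw
  induction hw using Submodule.span_induction with
  | mem w h =>
    obtain ⟨ξ, k, hk, rfl⟩ := h
    refine ⟨fun k' => if k' = k then ξ else 0, ?_⟩
    rw [Finset.sum_eq_single k]
    · beta_reduce
      rw [if_pos rfl]
    · intro b _ hb
      beta_reduce
      rw [if_neg hb, qv_zero]
    · intro h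
      exact absurd (Finset.mem_range.2 hk) h
  | zero => exact ⟨fun _ => 0, by simp [qv_zero]⟩
  | add u v _ _ hu hv =>
    obtain ⟨η, rfl⟩ := hu
    obtain ⟨η', rfl⟩ := hv
    refine ⟨fun k => η k + η' k, ?_⟩
    rw [← Finset.sum_add_distrib]
    exact Finset.sum_congr rfl fun k _ => ((qv_lin L k z).1 _ _).symm
  | smul r u _ hu =>
    obtain ⟨η, rfl⟩ := hu
    refine ⟨fun k => r • η k, ?_⟩
    rw [Finset.smul_sum]
    exact Finset.sum_congr rfl fun k _ => ((qv_lin L k z).2 _ _).symm

/-- `κ_z` of a monomial vector. -/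
theorem kap_mono (L : Loc I x c) (z : Vx N) (ξ : Fin c → ℂ) (k : ℕ) :
    L.kap z (fun b => Polynomial.C (ξ b) * Polynomial.X ^ k) = qv L ξ k z := by
  have h1 : (fun b => Polynomial.C (ξ b) * Polynomial.X ^ k : Fin c → Polynomial ℂ) =
      ∑ b, ξ b • (Pi.single b (Polynomial.X ^ k : Polynomial ℂ) : Fin c → Polynomial ℂ) := by
    funext b'
    rw [Finset.sum_apply, Finset.sum_eq_single b']
    · rw [Pi.smul_apply, Pi.single_eq_same, Polynomial.smul_eq_C_mul]
    · intro b _ hb
      rw [Pi.smul_apply, Pi.single_eq_of_ne (Ne.symm hb), smul_zero]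
    · intro h
      exact absurd (Finset.mem_univ _) h
  rw [h1, map_sum]
  funext y
  simp only [map_smul, Finset.sum_apply, Pi.smul_apply, smul_eq_mul, qv, qs, map_sum, map_mul,
    eval_C]
  exact Finset.sum_congr rfl fun b _ => by rw [(zGQk N c I x L b k).1 z]

/-- `xv` in the polynomial `∑_b coef_b g_b`. -/
theorem sum_coef (L : Loc I x c) (z : Vx N) (K : ℕ) (ξ : Fin c → ℂ) (g : Fin c → Polynomial ℂ)
    (hg : ∀ b, g b - Polynomial.C (ξ b) * Polynomial.X ^ K ∈ Polynomial.degreeLT ℂ K)
    (j : Fin (N + 1)) :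
    (∑ b, lin z x (L.coef b j) * g b).natDegree ≤ L.dg + K ∧
    (∑ b, lin z x (L.coef b j) * g b).coeff (L.dg + K) = ∑ b, eval x (L.coef b j) * ξ b := by
  have hgd : ∀ b, (g b).natDegree ≤ K := by
    intro b
    have h1 := Polynomial.mem_degreeLT.1 (hg b)
    have h2 : g b = (g b - Polynomial.C (ξ b) * Polynomial.X ^ K) +
        Polynomial.C (ξ b) * Polynomial.X ^ K := by ring
    rw [h2]
    refine le_trans (Polynomial.natDegree_add_le _ _) (max_le ?_ (Polynomial.natDegree_C_mul_X_pow_le _ _))
    exact Polynomial.natDegree_le_of_degree_le h1.le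
  have hgc : ∀ b, (g b).coeff K = ξ b := by
    intro b
    have h1 := Polynomial.mem_degreeLT.1 (hg b)
    have h2 := Polynomial.coeff_eq_zero_of_degree_lt h1
    rw [Polynomial.coeff_sub, Polynomial.coeff_C_mul_X_pow, if_pos rfl, sub_eq_zero] at h2
    exact h2
  have hcd : ∀ b, (lin z x (L.coef b j)).natDegree ≤ L.dg ∧
      (lin z x (L.coef b j)).coeff L.dg = eval x (L.coef b j) := by
    intro b
    have h := (eLinB N z x (L.coef b j)).2.1 L.dg ((mHom N c I x z L).2.1 b j)
    exact ⟨h.1, h.2.1⟩
  constructor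
  · refine Polynomial.natDegree_sum_le_of_forall_le _ _ fun b _ => ?_
    exact le_trans Polynomial.natDegree_mul_le (Nat.add_le_add (hcd b).1 (hgd b))
  · rw [Polynomial.finsetSum_coeff]
    refine Finset.sum_congr rfl fun b _ => ?_
    rw [Polynomial.coeff_mul_add_eq_of_natDegree_le (hcd b).1 (hgd b), (hcd b).2, hgc b]

end VLAux

open VLAux

theorem tVL : S_VL := by
  intro N c I hI hIh hS x z hline L K ξ hξ
  have hl : ∀ s t : ℂ, s • z + t • x ∈ zer I := fun s t => by
    rw [add_comm]; exact hline.2 t s
  -- the lift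
  obtain ⟨η, hη⟩ := mem_Fj L K z _ hξ
  set g : Fin c → Polynomial ℂ := fun b => Polynomial.C (ξ b) * Polynomial.X ^ K -
    ∑ k ∈ Finset.range K, Polynomial.C (η k b) * Polynomial.X ^ k with hg
  have hgm : ∀ b, g b - Polynomial.C (ξ b) * Polynomial.X ^ K ∈ Polynomial.degreeLT ℂ K := by
    intro b
    have h1 : g b - Polynomial.C (ξ b) * Polynomial.X ^ K =
        - ∑ k ∈ Finset.range K, Polynomial.C (η k b) * Polynomial.X ^ k := by
      rw [hg]
      simp only
      ring
    rw [h1]
    refine Submodule.neg_mem _ (Submodule.sum_mem _ fun k hk => ?_)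
    rw [Polynomial.mem_degreeLT]
    exact lt_of_le_of_lt (Polynomial.degree_C_mul_X_pow_le _ _)
      (by exact_mod_cast Finset.mem_range.1 hk)
  have hkap : L.kap z g = 0 := by
    have h1 : g = (fun b => Polynomial.C (ξ b) * Polynomial.X ^ K) -
        ∑ k ∈ Finset.range K, (fun b => Polynomial.C (η k b) * Polynomial.X ^ k) := by
      funext b
      rw [Pi.sub_apply, Finset.sum_apply]
    rw [h1, map_sub, map_sum, kap_mono, hη, sub_eq_zero]
    exact Finset.sum_congr rfl fun k _ => (kap_mono L z (η k) k).symm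
  have hdvd := (GSatAux.kap_iff zGDb L z g).1 hkap
  choose p hp using hdvd
  have hp' : ∀ j, lin z x L.dt * p j = ∑ b, lin z x (L.coef b j) * g b := fun j => (hp j).symm
  -- the degrees
  have hH := mHom N c I x z L
  have hDt := (eLinB N z x L.dt).2.1 L.dg hH.1
  have hD0 : lin z x L.dt ≠ 0 := by
    intro h
    have h1 := hDt.2.1
    rw [h, Polynomial.coeff_zero] at h1
    exact L.detx h1.symm
  have hDn : (lin z x L.dt).natDegree = L.dg := by
    refine le_antisymm hDt.1 (Polynomial.le_natDegree_of_ne_zero ?_)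
    rw [hDt.2.1]
    exact L.detx
  have hpd : ∀ j, (p j).natDegree ≤ K := by
    intro j
    by_cases h0 : p j = 0
    · rw [h0, Polynomial.natDegree_zero]; exact Nat.zero_le _
    · have h1 := (sum_coef L z K ξ g hgm j).1
      rw [← hp' j, Polynomial.natDegree_mul hD0 h0, hDn] at h1
      omega
  have hpc : ∀ j, (p j).coeff K = xv L ξ j := by
    intro j
    have h1 := (sum_coef L z K ξ g hgm j).2
    rw [← hp' j, Polynomial.coeff_mul_add_eq_of_natDegree_le hDt.1 (hpd j), hDt.2.1] at h1
    unfold xv
    rw [← h1, ← mul_assoc, inv_mul_cancel₀ (show eval x L.dt ≠ 0 from L.detx), one_mul]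
  refine ⟨g, p, hgm, hp', fun j => ?_, hpc, ?_⟩
  · rw [Polynomial.mem_degreeLT]
    exact lt_of_le_of_lt (Polynomial.degree_le_of_natDegree_le (hpd j))
      (by exact_mod_cast Nat.lt_succ_self K)
  · -- the section
    refine ⟨fun j => ?_, fun w hw m hm => ?_⟩
    · rw [Polynomial.mem_degreeLT]
      refine lt_of_le_of_lt (Polynomial.degree_le_of_natDegree_le (n := K) ?_)
        (by exact_mod_cast Nat.lt_succ_self K)
      exact le_trans (Polynomial.natDegree_reflect_le) (by simp [hpd j])
    · have hwL : ∀ j, lin x z (w j) = Polynomial.reflect m (lin z x (w j)) := fun j =>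
        JRevAux.lin_swap (hm j) z x
      have hwd : ∀ j, (lin z x (w j)).natDegree ≤ m := fun j =>
        Nat.lt_succ_iff.1 (JRevAux.natDegree_lin_le (hm j) z x)
      have hzero : ∑ j, p j * lin z x (w j) = 0 := by
        have h1 : lin z x L.dt * ∑ j, p j * lin z x (w j) = 0 := by
          have h2 : lin z x L.dt * ∑ j, p j * lin z x (w j) =
              ∑ b, g b * lin z x (∑ j, L.coef b j * w j) := by
            rw [Finset.mul_sum]
            have h3 : ∀ j, lin z x L.dt * (p j * lin z x (w j)) =
                ∑ b, g b * (lin z x (L.coef b j) * lin z x (w j)) := by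
              intro j
              rw [← mul_assoc, hp' j, Finset.sum_mul]
              exact Finset.sum_congr rfl fun b _ => by ring
            rw [Finset.sum_congr rfl fun j _ => h3 j, Finset.sum_comm]
            refine Finset.sum_congr rfl fun b _ => ?_
            rw [map_sum, Finset.mul_sum]
            exact Finset.sum_congr rfl fun j _ => by rw [map_mul]
          rw [h2]
          refine Finset.sum_eq_zero fun b _ => ?_
          have h4 : ∑ j, L.coef b j * w j ∈ I := by
            have h5 : ∑ j, L.coef b j * w j =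
                ∑ i, L.M.adjugate b i * ∑ j, pderiv j (L.F i) * w j := by
              have h6 : ∀ j, L.coef b j * w j =
                  ∑ i, L.M.adjugate b i * (pderiv j (L.F i) * w j) := by
                intro j
                unfold Loc.coef
                rw [Finset.sum_mul]
                exact Finset.sum_congr rfl fun i _ => by ring
              rw [Finset.sum_congr rfl fun j _ => h6 j, Finset.sum_comm]
              exact Finset.sum_congr rfl fun i _ => by rw [Finset.mul_sum]
            rw [h5]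
            exact Submodule.sum_mem _ fun i _ => I.mul_mem_left _ (hw _ (L.memF i))
          rw [(eLinB N z x _).2.2 I hl h4, mul_zero]
        exact (mul_eq_zero.1 h1).resolve_left hD0
      have h7 : ∑ j, (p j).reflect K * lin x z (w j) =
          Polynomial.reflect (K + m) (∑ j, p j * lin z x (w j)) := by
        have h8 : ∀ s : Finset (Fin (N + 1)), ∑ j ∈ s, (p j).reflect K * lin x z (w j) =
            Polynomial.reflect (K + m) (∑ j ∈ s, p j * lin z x (w j)) := by
          intro s
          induction s using Finset.induction_on with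
          | empty => simp
          | insert a s ha ih =>
            rw [Finset.sum_insert ha, Finset.sum_insert ha, ih, Polynomial.reflect_add, hwL a,
              Polynomial.reflect_mul _ _ (hpd a) (hwd a)]
        exact h8 _
      rw [h7, hzero, Polynomial.reflect_zero]

end Pool.Agent.Lib.MP_776403_ag.SD.U
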