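import Pool.Agent.Lib.MP_776403_ag.SD.U.SpecC
import Pool.Agent.Lib.MP_776403_ag.SD.Z.MainG

/-!
# THEOREM U: (WGC) the data of `S_WGeo`, concretely
-/

set_option autoImplicit false

open MvPolynomial

noncomputable section

namespace Pool.Agent.Lib.MP_776403_ag.SD.U

theorem tWGC : S_WGC := by
  intro N c a I J x hc hI hIh hS hF L
  have hJ : J.IsPrime := hF.prime
  have hJh : IsHom J := hF.hom
  have hl := hF.line
  obtain ⟨lam, hlam, hlx, hlJ⟩ := hF.lam
  refine ⟨fun i k y => (zGQk N c I x L i k).2.1 y, fun i => ?_, fun i k => ?_, fun p hp hp0 => ?_,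
    fun F hF f hf => ?_⟩
  · funext y
    change ∑ u, L.mm y u * eB L.Ix i u = _
    rw [Fintype.sum_sum_type]
    change ∑ b, L.mm y (Sum.inl b) * (if b = i then (1 : Sx N) else 0) +
      ∑ y', L.mm y (Sum.inr y') * (0 : Sx N) = _
    rw [Finset.sum_eq_single i]
    · rw [if_pos rfl, mul_one, Finset.sum_eq_zero fun y' _ => mul_zero _, add_zero]
      exact (zGQk N c I x L i 0).2.2.1 y
    · intro b _ hb
      rw [if_neg hb, mul_zero]
    · intro h
      exact absurd (Finset.mem_univ _) h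
  · funext y
    change ∑ u, L.mm y u * iQ c (L.qk i k) u = _
    rw [Fintype.sum_sum_type]
    change ∑ b, L.mm y (Sum.inl b) * (0 : Sx N) + ∑ y', L.mm y (Sum.inr y') * L.qk i k y' = _
    rw [Finset.sum_eq_zero fun b _ => mul_zero _, zero_add]
    exact (zGQk N c I x L i k).2.2.2 y
  · have hlp : eval p lam = 0 := hp lam hlJ
    have hlin : ∀ s t : ℂ, eval (s • x + t • p) lam = s := by
      intro s t
      have h := ((eLinB N x p lam).2.1 1 hlam).2.2 s t
      have h0 := ((eLinB N x p lam).2.1 1 hlam).2.2 1 0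
      have h1 := ((eLinB N x p lam).2.1 1 hlam).2.1
      rw [one_smul, zero_smul, add_zero, hlx] at h0
      simp only [Finset.sum_range_succ, Finset.sum_range_zero, one_pow, pow_zero, pow_one, mul_one,
        zero_add, mul_zero, add_zero, Nat.sub_zero, Nat.sub_self] at h0 h
      rw [h, h1, hlp, zero_mul, add_zero, ← h0, one_mul]
    have hind : LinearIndependent ℂ ![x, p] := by
      rw [LinearIndependent.pair_iff]
      intro s t hst
      have h1 := hlin s t
      rw [hst] at h1
      have h2 := hlin 0 0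
      rw [zero_smul, zero_smul, add_zero] at h2
      rw [h2] at h1
      refine ⟨h1.symm, ?_⟩
      rw [← h1, zero_smul, zero_add] at hst
      exact (smul_eq_zero.mp hst).resolve_right hp0
    have h3 := zGRk N c a I hI hIh hS x p ⟨hind, hl p hp⟩ (hF.deg p hp hp0) L
    have h4 : fib (QG L.qk) p = Submodule.span ℂ (Set.range fun ik : Fin c × ℕ =>
        fun y : L.Ix => eval p (L.qk ik.1 ik.2 y)) := by
      refine congrArg _ (Set.ext fun z => ⟨?_, ?_⟩)
      · rintro ⟨g, ⟨i, k, rfl⟩, rfl⟩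
        exact ⟨(i, k), rfl⟩
      · rintro ⟨⟨i, k⟩, rfl⟩
        exact ⟨(L.qk i k, k + 1), ⟨i, k, rfl⟩, rfl⟩
    rw [h4]
    exact h3
  · exact ⟨L.nF F, GeoAux.nF_mem L tGTx F f hf,
      fun y => zGNa N c I hI hIh hS x L J hJ hJh hl F hF y,
      fun j => zGNb N c I hI hIh hS x L J hJ hJh hl F hF j⟩

end Pool.Agent.Lib.MP_776403_ag.SD.U
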