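import Pool.Agent.Lib.MP_776403_ag.SD.U.SpecA
import Pool.Agent.Lib.MP_776403_ag.SD.Z.RG
import Pool.Agent.Lib.MP_776403_ag.SD.G.GAcm

/-!
# THEOREM U, part A: the final assembly (`S_Z`)

As the end of `zRG` (`Z/RG.lean`).
-/

set_option autoImplicit false

open MvPolynomial

noncomputable section

namespace Pool.Agent.Lib.MP_776403_ag.SD.U

/-- (Z) The final assembly. -/
theorem tZ : S_Z := by
  intro N c a I d q hU hd2 hreg
  have hlarge := hU.large
  -- a line of degree `a` through every point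
  have hcov : ∀ y ∈ zer I, y ≠ 0 → ∃ v : Vx N, IsLine I y v ∧ DegEq I c a y v := by
    intro y hy hy0
    obtain ⟨P, hPp, hPh, -, hPD, -, hpl, hdeg⟩ := hU.cone y hy hy0
    obtain ⟨v, hv, hli⟩ := GAcmAux.exists_indep tNull P hPp hPh
      (tMono _ P _ _ (by omega) hPD) y hy0
    exact ⟨v, ⟨hli, hpl v hv⟩, hdeg v hv hli⟩
  have hl : ∀ x v : Vx N, H.GLine I x v ↔ IsLine I x v ∧ DegEq I c a x v := by
    intro x v
    constructor
    · intro hG
      refine ⟨hG.1, ?_⟩
      obtain ⟨w, hw1, hw2⟩ := hcov x (by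
        have := hG.1.2 1 0
        rwa [one_smul, zero_smul, add_zero] at this) (hG.1.1.ne_zero 0)
      unfold DegEq at hw2 ⊢
      filter_upwards [hG.2 x w hw1, hw2, hU.deg_ge x v hG.1] with m h1 h2 h3
      omega
    · rintro ⟨hxv, hxa⟩
      refine ⟨hxv, fun x' v' hl' => ?_⟩
      filter_upwards [hxa, hU.deg_ge x' v' hl'] with m h1 h2
      omega
  exact H.mSDH N c d I
    { pos := hU.pos
      two_le := hd2
      large := by rw [hU.sum]; omega
      prime := hU.prime
      hom := hU.hom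
      nd := hU.nd
      smooth := hU.smooth
      numW := hU.numW
      numL := fun x v hxv => by
        filter_upwards [((hl x v).1 hxv).2] with m h1
        rw [hU.sum]
        omega
      clos := fun x v0 P' hv0 hP' hPh' _ hv0P hpl' z hz hli => by
        obtain ⟨J, hJ, hJh, hIJ, hJP, hJv, -⟩ := jJn tNull N I P' x hP' hPh' hpl'
        have hsub : ∀ w ∈ zer P', w ∈ zer J := fun w hw F hF => hw F (hJP hF)
        have hJl : ∀ w ∈ zer J, ∀ s t : ℂ, s • x + t • w ∈ zer I := by
          intro w hw s t F hF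
          have h1 := hJv _ (JInjAux.zer_smul hJh hw t) s
          rw [add_comm] at h1
          exact h1 F (hIJ hF)
        exact (hl x z).2 ⟨⟨hli, fun s t => hpl' z hz s t⟩,
          cCon N c a I J x hU.prime hU.hom hU.smooth hJ hJh hIJ hJv hJl v0 (hsub v0 hv0P) hv0.1.1 z
            (hsub z hz) hli ((hl x v0).1 hv0).2⟩
      reg := hreg
      cov := fun z hz hz0 => by
        obtain ⟨w, hw1, hw2⟩ := hcov z hz hz0
        exact ⟨w, (hl z w).2 ⟨hw1, hw2⟩⟩ }

end Pool.Agent.Lib.MP_776403_ag.SD.U
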