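import Pool.Agent.Lib.MP_776403_ag.SD.Z.RSpec
import Pool.Agent.Lib.MP_776403_ag.SD.W.Spec
import Pool.Agent.Lib.MP_776403_ag.SD.WG.Defs
import Pool.Agent.Lib.MP_776403_ag.SD.LI.Spec
import Pool.Agent.Lib.MP_776403_ag.SD.L.SpecC

/-!
# THEOREM U (unconditional): definitions

`X = V(I) ⊆ ℙ^N` smooth, nondegenerate, of codimension `c`, of dimension `n = N - c` and degree `D`.  THEOREM U: if
`n ≥ 2 D + 1` then `X` is a complete intersection.

`x` is a point of `X`; `J` a family of lines through `x` (a homogeneous prime ideal, `zer J` is a cone in a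
hyperplane `λ = 0`, `λ(x) = 1`; the lines are `span (x, z)`, `z ∈ zer J`), all of the degree `a`.
`L : Loc I x c` local equations at `x`; `L.qk i k` (`WG/Defs.lean`) generate the module `Q` of rank `a - c` on `zer J`
(on the line `l = span (x, z)`: `Q(z) = H^1(l, N_X^*)`, `q i k` = the class of the principal part
`e_i t^(-k-1)` at `x`).
-/

set_option autoImplicit false

open MvPolynomial

noncomputable section

namespace Pool.Agent.Lib.MP_776403_ag.SD.U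

variable {N : ℕ}

/-- `X` has degree `D` (`n = dim X`): `n! dim (S / I)_m / m^n` tends to `D`. -/
def HasDeg (I : Ideal (Sx N)) (n D : ℕ) : Prop :=
  Filter.Tendsto (fun m : ℕ => (n.factorial : ℝ) * (Module.finrank ℂ (gr I m) : ℝ) / (m : ℝ) ^ n)
    Filter.atTop (nhds (D : ℝ))

/-- The output of part A (THEOREM W and the lines): all but `d i ≥ 2` and `RegBound`. -/
structure UDat (c a : ℕ) (I : Ideal (Sx N)) (d : Fin c → ℕ) (q : ℕ → Polynomial ℤ) : Prop where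
  pos : 1 ≤ c
  prime : I.IsPrime
  hom : IsHom I
  nd : ∀ F ∈ I, F.IsHomogeneous 1 → F = 0
  smooth : Smooth I c
  one_le : ∀ i, 1 ≤ d i
  sum : ∑ i, d i = a
  large : 2 * a + c + 1 ≤ N
  qp : QP N c (fun k => Module.finrank ℂ (gr I k)) (q 0)
  q1 : 0 < (q 0).eval 1
  qj : ∀ j, j ≤ c → ∃ p, QP N c (hV I (VL I j)) p ∧ q j = Polynomial.X ^ j * p
  dvd : ∀ j, (1 - Polynomial.X : Polynomial ℤ) ^ (N + 1 - 2 * c) ∣ q j - SDV.esd d j * q 0
  numW : ∀ J : Ideal (Sx N), J.IsPrime → IsHom J → I ≤ J → NumErr I J d c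
  deg_ge : ∀ x v : Vx N, IsLine I x v → ∀ᶠ m : ℕ in Filter.atTop,
    Module.finrank ℂ (Lam I (lineI x v) 1 m) + a ≤ c * (m + 1)
  cone : ∀ y ∈ zer I, y ≠ 0 → ∃ P : Ideal (Sx N), P.IsPrime ∧ IsHom P ∧ I ≤ P ∧
    DimGe P (N + 1 - a) ∧ (∀ z ∈ zer P, ∀ s : ℂ, z + s • y ∈ zer P) ∧
    (∀ z ∈ zer P, ∀ s t : ℂ, s • y + t • z ∈ zer I) ∧
    ∀ z ∈ zer P, LinearIndependent ℂ ![y, z] → DegEq I c a y z

/-- `J` is a family of lines of degree `a` through the point `x` of `X`, cut by a hyperplane. -/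
structure Fml (I J : Ideal (Sx N)) (c a : ℕ) (x : Vx N) : Prop where
  prime : J.IsPrime
  hom : IsHom J
  le : I ≤ J
  xz : x ∈ zer I
  x0 : x ≠ 0
  lam : ∃ lam : Sx N, lam.IsHomogeneous 1 ∧ eval x lam = 1 ∧ lam ∈ J
  line : ∀ z ∈ zer J, ∀ s t : ℂ, s • x + t • z ∈ zer I
  deg : ∀ z ∈ zer J, z ≠ 0 → DegEq I c a x z

section

variable {I : Ideal (Sx N)} {x : Vx N} {c : ℕ} (L : Loc I x c)

/-- `q_ξ^k = ∑ ξ_i q_i^k`. -/
def qs (ξ : Fin c → ℂ) (k : ℕ) : L.Ix → Sx N := fun y => ∑ i, C (ξ i) * L.qk i k y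

/-- The value of `q_ξ^k` at `z`. -/
def qv (ξ : Fin c → ℂ) (k : ℕ) (z : Vx N) : L.Ix → ℂ := fun y => eval z (qs L ξ k y)

/-- `F_j(z)`: the span of the `q_i^k(z)`, `k < j`. -/
def Fj (j : ℕ) (z : Vx N) : Submodule ℂ (L.Ix → ℂ) :=
  Submodule.span ℂ {w | ∃ (ξ : Fin c → ℂ) (k : ℕ), k < j ∧ w = qv L ξ k z}

/-- The index set of the frame of `F_K`: the pairs `(i, k)`, `k < K`, `k + 1 < d i`. -/
def FI {c : ℕ} (d : Fin c → ℕ) (K : ℕ) : Finset (Fin c × ℕ) :=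
  (Finset.univ ×ˢ Finset.range K).filter fun p => p.2 + 1 < d p.1

/-- The family `J` has constant flag up to level `K`: `B i = ξ_i` is a basis of `ℂ^c` (the conormal space of
`X` at `x`, in the coordinates `L.B`); the `q_(ξ_i)^k`, `k < K`, `k + 1 < d i` are independent at every point;
`ξ_i` with `d i ≤ K` lifts to `N_X^*(d i)` on all lines of `J`. -/
structure Flag (d : Fin c → ℕ) (J : Ideal (Sx N)) (K : ℕ) (B : Fin c → Fin c → ℂ) : Prop where
  bas : LinearIndependent ℂ B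
  ind : ∀ z ∈ zer J, z ≠ 0 → LinearIndependent ℂ fun p : FI d K => qv L (B p.1.1) p.1.2 z
  mem : ∀ z ∈ zer J, z ≠ 0 → ∀ i, d i ≤ K → qv L (B i) (d i - 1) z ∈ Fj L (d i - 1) z

end

end Pool.Agent.Lib.MP_776403_ag.SD.U
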