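import Pool.Agent.Lib.MP_776403_ag.SD.U.SpecC
import Pool.Agent.Lib.MP_776403_ag.SD.M.PC

/-!
# THEOREM U: solution of the functional equation
-/

set_option autoImplicit false

namespace Pool.Agent.Lib.MP_776403_ag.SD.U

namespace FunAux

open Polynomial Finset

/-- the generating series of the elementary symmetric functions -/
noncomputable def ES {k : ℕ} (γ : Fin k → ℕ) : PowerSeries ℤ[X] := PowerSeries.mk (SDV.esd γ)

/-- the factor `1 + X^g t` -/
noncomputable def F1 (g : ℕ) : PowerSeries ℤ[X] := 1 + PowerSeries.C ((X : ℤ[X]) ^ g) * PowerSeries.X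

theorem ES_eq {k : ℕ} (γ : Fin k → ℕ) : ES γ = ∏ i, F1 (γ i) := by
  have h : (∏ i, F1 (γ i)) = ∑ s ∈ (Finset.univ : Finset (Fin k)).powerset,
      PowerSeries.C ((X : ℤ[X]) ^ (∑ i ∈ s, γ i)) * PowerSeries.X ^ s.card := by
    unfold F1
    rw [Finset.prod_one_add]
    refine Finset.sum_congr rfl fun s _ => ?_
    rw [Finset.prod_mul_distrib, Finset.prod_const, ← map_prod, Finset.prod_pow_eq_pow_sum]
  rw [h]
  ext1 j
  rw [ES, PowerSeries.coeff_mk, map_sum]
  simp only [PowerSeries.coeff_C_mul_X_pow]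
  rw [← Finset.sum_filter, SDV.esd]
  refine Finset.sum_congr ?_ fun _ _ => rfl
  ext s
  simp only [Finset.mem_powersetCard, Finset.mem_filter, Finset.mem_powerset]
  constructor
  · rintro ⟨h1, h2⟩
    exact ⟨h1, h2.symm⟩
  · rintro ⟨h1, h2⟩
    exact ⟨h1, h2.symm⟩

theorem re_F1 (g : ℕ) : PowerSeries.rescale (X : ℤ[X]) (F1 g) = F1 (g + 1) := by
  unfold F1
  rw [map_add, map_one, map_mul, PowerSeries.rescale_X]
  have h : PowerSeries.rescale (X : ℤ[X]) (PowerSeries.C ((X : ℤ[X]) ^ g)) = PowerSeries.C ((X : ℤ[X]) ^ g) := by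
    ext1 n
    rw [PowerSeries.coeff_rescale, PowerSeries.coeff_C]
    split_ifs with hn
    · rw [hn, pow_zero, one_mul]
    · rw [mul_zero]
  rw [h, ← mul_assoc, ← map_mul, pow_succ]

theorem tel (d : ℕ) (hd : 1 ≤ d) :
    F1 1 * ∏ g ∈ Finset.Ico 1 d, F1 (g + 1) = F1 d * ∏ g ∈ Finset.Ico 1 d, F1 g := by
  induction d, hd using Nat.le_induction with
  | base => simp
  | succ d hd ih =>
    rw [Finset.prod_Ico_succ_top hd, Finset.prod_Ico_succ_top hd, ← mul_assoc, ih]
    ring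

theorem card_eq {α : Type} [Fintype α] (p : α → Prop) [DecidablePred p] :
    Nat.card {a // p a} = (Finset.univ.filter p).card := by
  rw [Nat.card_eq_fintype_card, Fintype.card_subtype]

theorem regroup {R : Type} [CommMonoid R] {c k : ℕ} (d : Fin c → ℕ) (γ : Fin k → ℕ) (h : GamOK d γ) (f : ℕ → R) :
    ∏ j, f (γ j) = ∏ i, ∏ g ∈ Finset.Ico 1 (d i), f g := by
  obtain ⟨h1, h2⟩ := h
  set B := ∑ j, γ j + ∑ i, d i with hB
  have hγ : ∀ j, γ j ≤ B := fun j => by
    have := Finset.single_le_sum (f := γ) (fun i _ => Nat.zero_le _) (Finset.mem_univ j)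
    omega
  have hd : ∀ i, d i ≤ B := fun i => by
    have := Finset.single_le_sum (f := d) (fun i _ => Nat.zero_le _) (Finset.mem_univ i)
    omega
  have e1 : ∏ j, f (γ j) = ∏ t ∈ Finset.Icc 1 B, f t ^ (Finset.univ.filter fun j => γ j = t).card := by
    rw [← Finset.prod_fiberwise_of_maps_to (s := Finset.univ) (t := Finset.Icc 1 B) (g := γ)
      (fun j _ => Finset.mem_Icc.2 ⟨h1 j, hγ j⟩)]
    refine Finset.prod_congr rfl fun t _ => ?_
    rw [Finset.prod_congr rfl (g := fun _ => f t) (fun j hj => by rw [(Finset.mem_filter.1 hj).2]), Finset.prod_const]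
  have e2 : ∏ i, ∏ g ∈ Finset.Ico 1 (d i), f g =
      ∏ t ∈ Finset.Icc 1 B, f t ^ (Finset.univ.filter fun i => t < d i).card := by
    have : ∀ i, ∏ g ∈ Finset.Ico 1 (d i), f g = ∏ t ∈ Finset.Icc 1 B, if t < d i then f t else 1 := by
      intro i
      rw [← Finset.prod_filter]
      refine Finset.prod_congr ?_ fun _ _ => rfl
      ext t
      simp only [Finset.mem_Ico, Finset.mem_filter, Finset.mem_Icc]
      have := hd i
      omega
    rw [Finset.prod_congr rfl fun i _ => this i, Finset.prod_comm]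
    refine Finset.prod_congr rfl fun t _ => ?_
    rw [← Finset.prod_filter, Finset.prod_const]
  rw [e1, e2]
  refine Finset.prod_congr rfl fun t ht => ?_
  have := h2 t (Finset.mem_Icc.1 ht).1
  rw [card_eq, card_eq] at this
  rw [this]

theorem H0_eq {c k : ℕ} (d : Fin c → ℕ) (γ : Fin k → ℕ) (hd : ∀ i, 1 ≤ d i) (h : GamOK d γ) :
    F1 1 ^ c * PowerSeries.rescale (X : ℤ[X]) (ES γ) = ES d * ES γ := by
  have e1 : PowerSeries.rescale (X : ℤ[X]) (ES γ) = ∏ i, ∏ g ∈ Finset.Ico 1 (d i), F1 (g + 1) := by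
    rw [ES_eq, map_prod, ← regroup d γ h (fun g => F1 (g + 1))]
    exact Finset.prod_congr rfl fun i _ => re_F1 _
  have e2 : ES γ = ∏ i, ∏ g ∈ Finset.Ico 1 (d i), F1 g := by
    rw [ES_eq, ← regroup d γ h F1]
  rw [e1, e2, ES_eq d]
  have h1 : F1 1 ^ c = ∏ _i : Fin c, F1 1 := by rw [Finset.prod_const, Finset.card_univ, Fintype.card_fin]
  rw [h1, ← Finset.prod_mul_distrib, ← Finset.prod_mul_distrib]
  exact Finset.prod_congr rfl fun i _ => tel (d i) (hd i)

theorem cc_F1 (g : ℕ) : PowerSeries.constantCoeff (F1 g) = 1 := by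
  unfold F1
  simp

theorem unit_F1 (g : ℕ) : IsUnit (F1 g) := by
  rw [PowerSeries.isUnit_iff_constantCoeff, cc_F1]
  exact isUnit_one

theorem unit_ES {k : ℕ} (γ : Fin k → ℕ) : IsUnit (ES γ) := by
  rw [ES_eq]
  exact IsUnit.prod_univ_iff.2 fun i => unit_F1 _

/-- all coefficients divisible by `M` -/
def Dv (M : ℤ[X]) (G : PowerSeries ℤ[X]) : Prop := ∀ n, M ∣ PowerSeries.coeff n G

theorem Dv.mul {M : ℤ[X]} {G : PowerSeries ℤ[X]} (h : Dv M G) (K : PowerSeries ℤ[X]) : Dv M (K * G) := by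
  intro n
  rw [PowerSeries.coeff_mul]
  exact Finset.dvd_sum fun p _ => Dvd.dvd.mul_left (h _) _

theorem coeff_pow (c n : ℕ) : PowerSeries.coeff n ((1 + PowerSeries.X : PowerSeries ℤ[X]) ^ c) = (Nat.choose c n : ℤ[X]) := by
  have h : (1 + PowerSeries.X : PowerSeries ℤ[X]) ^ c = (((1 + X : ℤ[X][X]) ^ c : ℤ[X][X]) : PowerSeries ℤ[X]) := by
    simp
  rw [h, Polynomial.coeff_coe, Polynomial.coeff_one_add_X_pow]

theorem re_pow (c : ℕ) : PowerSeries.rescale (X : ℤ[X]) ((1 + PowerSeries.X : PowerSeries ℤ[X]) ^ c) = F1 1 ^ c := by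
  rw [map_pow, map_add, map_one, PowerSeries.rescale_X, F1, pow_one]

theorem dvd_geom (a m : ℕ) (hm : 1 ≤ m) (p : ℤ[X]) (h : (1 - X : ℤ[X]) ^ (a + 1) ∣ X ^ m * p - p) :
    (1 - X : ℤ[X]) ^ a ∣ p := by
  have h1 : (X : ℤ[X]) ^ m * p - p = (1 - X) * (-((∑ i ∈ Finset.range m, X ^ i) * p)) := by
    have := geom_sum_mul (X : ℤ[X]) m
    linear_combination -(p * this)
  rw [h1, pow_succ'] at h
  have h2 : (1 - X : ℤ[X]) ≠ 0 := by
    intro h0
    have := congrArg (fun q : ℤ[X] => q.eval 0) h0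
    simp at this
  have h3 := (mul_dvd_mul_iff_left h2).1 h
  rw [dvd_neg] at h3
  refine dvd_of_unit a _ p ?_ h3
  rw [Polynomial.eval_finsetSum]
  simp
  omega

end FunAux

open FunAux in
theorem tFun : S_Fun := by
  intro c a m₀ k d γ Q α hm hd hγ hQ hQd hα j
  -- step 1: cancel `Q 0`
  have h1 : ∀ m : ℕ, (1 - Polynomial.X : Polynomial ℤ) ^ (a + 1) ∣
      Polynomial.X ^ m * ∑ i ∈ Finset.range (m + 1), (Nat.choose c i : Polynomial ℤ) * α (m - i) -
      ∑ i ∈ Finset.range (m + 1), SDV.esd d i * α (m - i) := by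
    intro m
    refine dvd_of_unit (a + 1) (Q 0) _ hQ ?_
    have h2 := hα m
    have h3 : (1 - Polynomial.X : Polynomial ℤ) ^ (a + 1) ∣
        ∑ i ∈ Finset.range (m + 1), (Q i - SDV.esd d i * Q 0) * α (m - i) :=
      Finset.dvd_sum fun i _ => Dvd.dvd.mul_right ((pow_dvd_pow _ hm).trans (hQd i)) _
    have h4 := dvd_add h2 h3
    refine h4.trans (dvd_of_eq ?_)
    rw [mul_sub, Finset.mul_sum (s := Finset.range (m + 1)) (f := fun i => SDV.esd d i * α (m - i))]
    have h5 : ∑ i ∈ Finset.range (m + 1), (Q i - SDV.esd d i * Q 0) * α (m - i) =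
        ∑ i ∈ Finset.range (m + 1), Q i * α (m - i) -
          ∑ i ∈ Finset.range (m + 1), Q 0 * (SDV.esd d i * α (m - i)) := by
      rw [← Finset.sum_sub_distrib]
      exact Finset.sum_congr rfl fun i _ => by ring
    rw [h5]
    ring
  -- step 2: power series
  set H : PowerSeries (Polynomial ℤ) := PowerSeries.mk α with hH
  have h2 : Dv ((1 - Polynomial.X : Polynomial ℤ) ^ (a + 1))
      (F1 1 ^ c * PowerSeries.rescale (Polynomial.X : Polynomial ℤ) H - ES d * H) := by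
    intro m
    rw [← re_pow, ← map_mul, map_sub, PowerSeries.coeff_rescale, PowerSeries.coeff_mul, PowerSeries.coeff_mul,
      Finset.Nat.sum_antidiagonal_eq_sum_range_succ
        (fun i l => PowerSeries.coeff i ((1 + PowerSeries.X : PowerSeries (Polynomial ℤ)) ^ c) * PowerSeries.coeff l H),
      Finset.Nat.sum_antidiagonal_eq_sum_range_succ (fun i l => PowerSeries.coeff i (ES d) * PowerSeries.coeff l H)]
    simp only [coeff_pow, hH, ES, PowerSeries.coeff_mk]
    exact h1 m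
  obtain ⟨u, hu⟩ := unit_ES γ
  set G : PowerSeries (Polynomial ℤ) := ((u⁻¹ : (PowerSeries (Polynomial ℤ))ˣ) : PowerSeries (Polynomial ℤ)) * H with hG
  have hGH : ES γ * G = H := by
    rw [hG, ← hu, ← mul_assoc, Units.mul_inv, one_mul]
  have h3 : F1 1 ^ c * PowerSeries.rescale (Polynomial.X : Polynomial ℤ) H - ES d * H =
      (F1 1 ^ c * PowerSeries.rescale (Polynomial.X : Polynomial ℤ) (ES γ)) *
        (PowerSeries.rescale (Polynomial.X : Polynomial ℤ) G - G) := by
    rw [← hGH, map_mul, mul_sub, H0_eq d γ hd hγ]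
    have := H0_eq d γ hd hγ
    linear_combination (PowerSeries.rescale (Polynomial.X : Polynomial ℤ) G) * this
  have h4 : IsUnit (F1 1 ^ c * PowerSeries.rescale (Polynomial.X : Polynomial ℤ) (ES γ)) :=
    ((unit_F1 1).pow c).mul ((unit_ES γ).map _)
  obtain ⟨w, hw⟩ := h4
  have h5 : Dv ((1 - Polynomial.X : Polynomial ℤ) ^ (a + 1)) (PowerSeries.rescale (Polynomial.X : Polynomial ℤ) G - G) := by
    have h6 := h2.mul ((w⁻¹ : (PowerSeries (Polynomial ℤ))ˣ) : PowerSeries (Polynomial ℤ))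
    rw [h3, ← hw, ← mul_assoc, Units.inv_mul, one_mul] at h6
    exact h6
  have h6 : ∀ m, 1 ≤ m → (1 - Polynomial.X : Polynomial ℤ) ^ a ∣ PowerSeries.coeff m G := by
    intro m hm
    refine dvd_geom a m hm _ ?_
    have := h5 m
    rw [map_sub, PowerSeries.coeff_rescale] at this
    exact this
  have h7 : ∀ j, α j = ∑ p ∈ Finset.HasAntidiagonal.antidiagonal j, SDV.esd γ p.1 * PowerSeries.coeff p.2 G := by
    intro j
    have : PowerSeries.coeff j H = α j := by rw [hH, PowerSeries.coeff_mk]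
    rw [← this, ← hGH, PowerSeries.coeff_mul]
    exact Finset.sum_congr rfl fun p _ => by rw [ES, PowerSeries.coeff_mk]
  have h8 : PowerSeries.coeff 0 G = α 0 := by
    have := h7 0
    rw [Finset.Nat.antidiagonal_zero, Finset.sum_singleton] at this
    rw [this]
    simp [SDV.esd]
  have hmem : ((j, 0) : ℕ × ℕ) ∈ Finset.HasAntidiagonal.antidiagonal j := by simp
  rw [h7 j, ← Finset.add_sum_erase _ _ hmem, ← h8, add_sub_cancel_left]
  refine Finset.dvd_sum fun p hp => Dvd.dvd.mul_left (h6 _ ?_) _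
  rw [Finset.mem_erase, Finset.HasAntidiagonal.mem_antidiagonal] at hp
  obtain ⟨p1, p2⟩ := p
  simp only [ne_eq, Prod.mk.injEq, not_and] at hp
  by_contra h0
  have h9 : p2 = 0 := by
    simp only at h0
    omega
  subst h9
  exact hp.1 (by omega) rfl

end Pool.Agent.Lib.MP_776403_ag.SD.U
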