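import Pool.Agent.Lib.MP_776403_ag.SD.U.SpecC
import Pool.Agent.Lib.MP_776403_ag.SD.M.Br

/-!
# THEOREM U, part C: (QN) the numerical class of `Q`
-/

set_option autoImplicit false


open MvPolynomial

noncomputable section

namespace Pool.Agent.Lib.MP_776403_ag.SD.U

namespace QNAux

/-- The `a - c` numbers `γ`. -/
theorem exists_gam {c : ℕ} (d : Fin c → ℕ) (k : ℕ) (h1 : ∀ i, 1 ≤ d i) (h : ∑ i, d i = c + k) :
    ∃ γ : Fin k → ℕ, GamOK d γ := by
  classical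
  have hcard : Fintype.card (Σ i : Fin c, Fin (d i - 1)) = k := by
    rw [Fintype.card_sigma]
    simp only [Fintype.card_fin]
    have h2 : ∑ i, (d i - 1) + ∑ _i : Fin c, 1 = ∑ i, d i := by
      rw [← Finset.sum_add_distrib]
      exact Finset.sum_congr rfl fun i _ => Nat.sub_add_cancel (h1 i)
    have h3 : ∑ _i : Fin c, 1 = c := by simp
    omega
  let e : Fin k ≃ (Σ i : Fin c, Fin (d i - 1)) := (Fintype.equivFinOfCardEq hcard).symm
  refine ⟨fun j => ((e j).2 : ℕ) + 1, fun j => Nat.succ_le_succ (Nat.zero_le _), fun t ht => ?_⟩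
  refine Nat.card_congr ⟨fun j => ⟨(e j.1).1, ?_⟩,
    fun i => ⟨e.symm ⟨i.1, ⟨t - 1, ?_⟩⟩, ?_⟩, ?_, ?_⟩
  · have h2 := (e j.1).2.2
    have h3 : ((e j.1).2 : ℕ) + 1 = t := j.2
    omega
  · have := i.2
    omega
  · have h3 := congrArg (fun p : (Σ i : Fin c, Fin (d i - 1)) => (p.2 : ℕ))
      (e.apply_symm_apply ⟨i.1, ⟨t - 1, by have := i.2; omega⟩⟩)
    change ((e (e.symm ⟨i.1, ⟨t - 1, _⟩⟩)).2 : ℕ) + 1 = t
    change ((e (e.symm ⟨i.1, ⟨t - 1, _⟩⟩)).2 : ℕ) = t - 1 at h3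
    rw [h3]
    omega
  · rintro ⟨j, hj⟩
    apply Subtype.ext
    change e.symm _ = j
    rw [Equiv.symm_apply_eq]
    have h3 : ((e j).2 : ℕ) + 1 = t := hj
    refine Sigma.ext rfl (heq_of_eq (Fin.ext ?_))
    change t - 1 = ((e j).2 : ℕ)
    omega
  · rintro ⟨i, hi⟩
    apply Subtype.ext
    change (e (e.symm ⟨i, ⟨t - 1, _⟩⟩)).1 = i
    rw [Equiv.apply_symm_apply]

theorem esd_zero {c : ℕ} (d : Fin c → ℕ) (j : ℕ) (h : c < j) : SDV.esd d j = 0 := by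
  unfold SDV.esd
  rw [Finset.powersetCard_eq_empty.2 (by simpa using h), Finset.sum_empty]

/-- From divisibility to growth. -/
theorem gw_of_dvd {N c' a e k : ℕ} (he : 1 ≤ e) (hN : c' + e + a = N + 1) (γ : Fin k → ℕ)
    (j : ℕ) (f g : ℕ → ℕ) (α h : Polynomial ℤ) (hf : QP N c' f α) (hg : QP N c' g h)
    (hd : (1 - Polynomial.X : Polynomial ℤ) ^ a ∣ α - SDV.esd γ j * h) :
    Gw (e - 1) fun m => (f m : ℤ) -
      ∑ A ∈ Finset.powersetCard j (Finset.univ : Finset (Fin k)), (g (m - ∑ i ∈ A, γ i) : ℤ) := by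
  obtain ⟨r, hr⟩ := hd
  have h4 : (1 - PowerSeries.X) ^ (e - 1 + 1) *
      (ps f - (SDV.esd γ j : PowerSeries ℤ) * ps g) = (r : PowerSeries ℤ) := by
    refine mul_left_cancel₀ (pow_ne_zero (c' + a) BrAux.ou_ne) ?_
    unfold QP at hf hg
    have e1 : (1 - PowerSeries.X) ^ (c' + a) * ((1 - PowerSeries.X) ^ (e - 1 + 1) *
        (ps f - (SDV.esd γ j : PowerSeries ℤ) * ps g)) =
        (1 - PowerSeries.X) ^ (N + 1) * ps f -
          (SDV.esd γ j : PowerSeries ℤ) * ((1 - PowerSeries.X) ^ (N + 1) * ps g) := by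
      rw [← mul_assoc, ← pow_add, show c' + a + (e - 1 + 1) = N + 1 by omega]
      ring
    rw [e1, hf, hg, ← Polynomial.coe_mul, ← Polynomial.coe_sub, ← BrAux.coe_ou,
      ← Polynomial.coe_mul]
    congr 1
    rw [pow_add, mul_assoc, ← hr]
    ring
  refine (pc1 (e - 1) _ r h4).of_eventually_eq ?_
  filter_upwards [BrAux.esd_coeff γ j g] with m hm
  rw [map_sub, hm]
  unfold ps
  rw [PowerSeries.coeff_mk]

end QNAux

open QNAux

/-- (QN) THE NUMERICAL CLASS OF `Q`. -/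
theorem tQN (h1 : S_WGC) (h2 : S_FE2) (h3 : S_Fun) : S_QN := by
  intro N c a I J d q x U F hD L
  have hca : c ≤ a := by
    have h := Finset.sum_le_sum fun i (_ : i ∈ (Finset.univ : Finset (Fin c))) => U.one_le i
    rw [U.sum] at h
    simpa using h
  have hlarge := U.large
  have hWG := h1 N c a I J x U.pos U.prime U.hom U.smooth F L
  obtain ⟨Q, hQ⟩ : ∃ Q : ℕ → Polynomial ℤ, ∀ j, (j ≤ c → Q j = q j) ∧ (c < j → Q j = 0) :=
    ⟨fun j => if j ≤ c then q j else 0, fun j =>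
      ⟨fun h => if_pos h, fun h => if_neg (not_le.2 h)⟩⟩
  have hQ0 : Q 0 = q 0 := (hQ 0).1 (Nat.zero_le c)
  have g1 : QP N c (fun k => Module.finrank ℂ (gr I k)) (Q 0) := by
    rw [hQ0]
    exact U.qp
  have g2 : ∀ j, j ≤ c → ∃ p, QP N c (hV I (VL I j)) p ∧ Q j = Polynomial.X ^ j * p := by
    intro j hj
    rw [(hQ j).1 hj]
    exact U.qj j hj
  have g3 : ∀ j, c < j → Q j = 0 := fun j hj => (hQ j).2 hj
  obtain ⟨c', α, hc', hα0, hαj, hpos, hfe⟩ := h2 N c a I J U.prime U.hom U.smooth F.prime F.hom F.le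
    hca hD L.Ix (fun y => L.dg - 1 - (y.1 : ℕ)) L.qk (Matrix.of L.mm) (Matrix.of L.psi) hWG
    Q g1 g2 g3
  obtain ⟨γ, hγ⟩ := exists_gam d (a - c) U.one_le (by rw [U.sum]; omega)
  have g4 : (Q 0).eval 1 ≠ 0 := by
    rw [hQ0]
    exact ne_of_gt U.q1
  have g5 : ∀ j, (1 - Polynomial.X : Polynomial ℤ) ^ (N + 1 - 2 * c) ∣
      Q j - SDV.esd d j * Q 0 := by
    intro j
    rcases le_or_gt j c with hj | hj
    · rw [(hQ j).1 hj, hQ0]
      exact U.dvd j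
    · rw [(hQ j).2 hj, esd_zero d j hj, zero_mul, sub_zero]
      exact dvd_zero _
  have hdvd := h3 c a (N + 1 - 2 * c) (a - c) d γ Q α (by omega) U.one_le hγ g4 g5 hfe
  refine ⟨γ, N + 1 - c' - a, c', α 0, hγ, by omega, by omega, hα0, hpos, fun j _ => ?_⟩
  have hr := gw_of_dvd (N := N) (c' := c') (a := a) (e := N + 1 - c' - a) (by omega) (by omega) γ j
    (hV J (LW (QG L.qk) j)) (fun k => Module.finrank ℂ (gr J k)) (α j) (α 0) (hαj j) hα0 (hdvd j)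
  exact hr

end Pool.Agent.Lib.MP_776403_ag.SD.U
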